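import Pool.Agent.H28.Z12.STreeDefs

/-!
Kernel evaluation of a cover of the values of further signs (MP_1e71f9_co).
-/

set_option autoImplicit false

namespace Pool.Agent.H28.Z12.Cov

/-- Variable `i` of the table `Z`, 12 bits each. -/
def zv (Z i : Nat) : Nat := Nat.land (Nat.shiftRight Z (Nat.mul (nat_lit 12) i)) (nat_lit 4095)

/-- The entries `b, .., b + n - 1` of the table `Q` are the entries `a, .., a + n - 1` of the
numeral `P` (80 bits each). -/
noncomputable def cpB (P a : Nat) (Q : Nat → Nat) (b : Nat) (n : Nat) : Bool :=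
  @Nat.rec (fun _ => Bool) true (fun e ih => band ih
    (band (Nat.beq (gM (Q (Nat.add b e))) (ngM P (Nat.add a e)))
      (Nat.beq (gV (Q (Nat.add b e))) (ngV P (Nat.add a e))))) n

end Pool.Agent.H28.Z12.Cov
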