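import Mathlib
import Pool.Agent.H77.Z12.Pair
import Pool.Agent.H28.Z12.Gen
import Pool.Agent.H13.Z12.Sound

/-!
All clause masks of `Gen` are true in every `Model` (MP_1e71f9_co).
-/

set_option autoImplicit false

namespace Pool.Agent.H28.Z12

open Pool.Agent.H77.Z12

/-- Value of a literal. -/
def lv (χ T : ℕ → Bool) (p : ℕ) : Bool :=
  if p < 4096 then χ p else if p < 8192 then !(χ (p - 4096)) else
    if p < 12288 then T (p - 8192) else if p < 16384 then !(T (p - 12288)) else false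

/-- The clause with literal set `c` is true. -/
def Sat (χ T : ℕ → Bool) (c : ℕ) : Prop := ∃ p, c.testBit p = true ∧ lv χ T p = true

section lits

variable {χ T : ℕ → Bool}

theorem lv_pos {m : ℕ} (h : m < 4096) : lv χ T m = χ m := by simp [lv, h]

theorem lv_neg {m : ℕ} (h : m < 4096) : lv χ T (4096 + m) = !(χ m) := by
  have h1 : ¬ (4096 + m < 4096) := by omega
  have h2 : 4096 + m < 8192 := by omega
  simp [lv, h2]

theorem lv_T {s : ℕ} (h : s < 4096) : lv χ T (8192 + s) = T s := by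
  have h1 : ¬ (8192 + s < 4096) := by omega
  have h2 : ¬ (8192 + s < 8192) := by omega
  have h3 : 8192 + s < 12288 := by omega
  simp [lv, h1, h3]

theorem lv_nT {s : ℕ} (h : s < 4096) : lv χ T (12288 + s) = !(T s) := by
  have h1 : ¬ (12288 + s < 4096) := by omega
  have h2 : ¬ (12288 + s < 8192) := by omega
  have h3 : 12288 + s < 16384 := by omega
  simp [lv, h1, h2, h3]

theorem Sat.left {c d : ℕ} (h : Sat χ T c) : Sat χ T (Nat.lor c d) := by
  obtain ⟨p, h1, h2⟩ := h
  refine ⟨p, ?_, h2⟩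
  change (c ||| d).testBit p = true
  rw [Nat.testBit_or, h1, Bool.true_or]

theorem Sat.right {c d : ℕ} (h : Sat χ T d) : Sat χ T (Nat.lor c d) := by
  obtain ⟨p, h1, h2⟩ := h
  refine ⟨p, ?_, h2⟩
  change (c ||| d).testBit p = true
  rw [Nat.testBit_or, h1, Bool.or_true]

theorem testBit_shl (c n m : ℕ) : (Nat.shiftLeft c n).testBit (n + m) = c.testBit m := by
  change (c <<< n).testBit (n + m) = c.testBit m
  rw [Nat.testBit_shiftLeft]
  simp

theorem sat_one {p : ℕ} (h : lv χ T p = true) : Sat χ T (Nat.shiftLeft 1 p) := by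
  refine ⟨p, ?_, h⟩
  have := testBit_shl 1 p 0
  rw [Nat.add_zero] at this
  rw [this]
  rfl

theorem sat_taut (c : ℕ) : Sat χ T (Nat.lor c (Nat.lor 1 (Nat.shiftLeft 1 4096))) := by
  rcases Bool.eq_false_or_eq_true (χ 0) with h | h
  · refine Sat.right (Sat.left ⟨0, rfl, ?_⟩)
    rw [lv_pos (by norm_num), h]
  · refine Sat.right (Sat.right (sat_one ?_))
    have := lv_neg (χ := χ) (T := T) (m := 0) (by norm_num)
    rw [Nat.add_zero] at this
    rw [this, h]
    rfl

theorem grd_sat {ok c : ℕ} (h : ok ≠ 0 → Sat χ T c) : Sat χ T (grd ok c) := by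
  rcases Nat.eq_zero_or_pos ok with h0 | h0
  · subst h0
    exact sat_taut c
  · exact Sat.left (h h0.ne')

end lits

section bits

theorem list_range_all {n : ℕ} {f : ℕ → Bool} (h : (List.range n).all f = true) :
    ∀ x < n, f x = true := fun x hx => List.all_eq_true.1 h x (List.mem_range.2 hx)

theorem spread_check : ((List.range 4096).all fun x => (List.range 12).all fun j =>
    (Nat.testBit (spread x) (2 ^ j)) == (Nat.testBit x j)) = true := by decide +kernel

theorem spread_bit {x j : ℕ} (hx : x < 4096) (hj : j < 12) :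
    (spread x).testBit (2 ^ j) = x.testBit j :=
  beq_iff_eq.1 (list_range_all (list_range_all spread_check x hx) j hj)

theorem rev_check : ((List.range 4096).all fun x => (List.range 12).all fun j =>
    (Nat.testBit (rev x) (2048 - 2 ^ j)) == (Nat.testBit x j)) = true := by decide +kernel

theorem rev_bit {x j : ℕ} (hx : x < 4096) (hj : j < 12) :
    (rev x).testBit (2048 - 2 ^ j) = x.testBit j :=
  beq_iff_eq.1 (list_range_all (list_range_all rev_check x hx) j hj)

theorem T4_check : ((List.range 4096).all fun A => !(Nat.beq (Nat.land (Nat.shiftRight T4 A) 1) 1) ||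
    Nat.beq (pc A) 4) = true := by decide +kernel

theorem T5_check : ((List.range 4096).all fun A => !(Nat.beq (Nat.land (Nat.shiftRight T5 A) 1) 1) ||
    Nat.beq (pc A) 5) = true := by decide +kernel

theorem T7_check : ((List.range 4096).all fun A => !(Nat.beq (Nat.land (Nat.shiftRight T7 A) 1) 1) ||
    Nat.beq (pc A) 7) = true := by decide +kernel

theorem lt_and_pc {M k : ℕ} (hM : M < 2 ^ 4096)
    (hc : ((List.range 4096).all fun A => !(Nat.beq (Nat.land (Nat.shiftRight M A) 1) 1) ||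
      Nat.beq (pc A) k) = true) {A : ℕ} (h : Nat.land (Nat.shiftRight M A) 1 ≠ 0) :
    A < 4096 ∧ pc A = k := by
  have h1 : Nat.land (Nat.shiftRight M A) 1 = 1 := by
    change (M >>> A) &&& 1 = 1
    change (M >>> A) &&& 1 ≠ 0 at h
    rw [Nat.and_one_is_mod] at h ⊢
    omega
  have hA : A < 4096 := by
    by_contra hcon
    apply h
    change (M >>> A) &&& 1 = 0
    have : M >>> A = 0 := by
      rw [Nat.shiftRight_eq_div_pow]
      exact Nat.div_eq_of_lt (lt_of_lt_of_le hM (Nat.pow_le_pow_right (by norm_num) (by omega)))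
    rw [this]
    rfl
  refine ⟨hA, ?_⟩
  have h2 := list_range_all hc A hA
  rw [h1] at h2
  exact Nat.eq_of_beq_eq_true (by simpa using h2)

theorem T4_lt : T4 < 2 ^ 4096 := by decide +kernel
theorem T5_lt : T5 < 2 ^ 4096 := by decide +kernel
theorem T7_lt : T7 < 2 ^ 4096 := by decide +kernel

theorem testBit_ge {A i : ℕ} (hA : A < 4096) (hi : 12 ≤ i) : A.testBit i = false :=
  Nat.testBit_lt_two_pow (lt_of_lt_of_le hA (by
    calc 4096 = 2 ^ 12 := by norm_num
      _ ≤ 2 ^ i := Nat.pow_le_pow_right (by norm_num) hi))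

theorem xs_bit (k y i : ℕ) : (xs k y).testBit i = xor (y.testBit i) (y.testBit (k + i)) := by
  change (y ^^^ (y >>> k)).testBit i = _
  rw [Nat.testBit_xor, Nat.testBit_shiftRight]

theorem ipM_bit {A j : ℕ} (hA : A < 4096) (hj : j < 12) : (ipM A).testBit j = ipm A j := by
  have h1 : ∀ i, (Nat.shiftRight A 1).testBit i = A.testBit (1 + i) := fun i => by
    change (A >>> 1).testBit i = _
    rw [Nat.testBit_shiftRight]
  have h : ∀ i, 12 ≤ i → A.testBit i = false := fun i hi => testBit_ge hA hi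
  rw [ipM]
  simp only [xs_bit, h1]
  interval_cases j <;>
  simp [ipm, xorr, h] <;>
  simp only [Bool.bne_eq_xor, Bool.xor_assoc, Bool.xor_comm, Bool.xor_left_comm]

theorem tpos_small : ((List.range 2048).all fun t => Nat.beq (tpos t) t) = true := by
  decide +kernel

theorem tpos_big : ((List.range 2048).all fun t => Nat.beq (tpos (Nat.add t 2048))
    (Nat.xor 4095 (Nat.add t 2048)) && Nat.blt (tpos (Nat.add t 2048)) 2048) = true := by
  decide +kernel

theorem tpos_spec {χ T : ℕ → Bool} (hM : Model χ T) {t : ℕ} (ht : t < 4096) :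
    tpos t < 2048 ∧ T (tpos t) = T t := by
  rcases lt_or_ge t 2048 with h | h
  · have := Nat.eq_of_beq_eq_true (list_range_all tpos_small t h)
    rw [this]
    exact ⟨h, rfl⟩
  · have h1 := list_range_all tpos_big (t - 2048) (by omega)
    rw [Bool.and_eq_true] at h1
    have e : Nat.add (t - 2048) 2048 = t := by change t - 2048 + 2048 = t; omega
    rw [e] at h1
    have h2 := Nat.eq_of_beq_eq_true h1.1
    have h3 : tpos t < 2048 := by simpa [Nat.blt_eq] using h1.2
    refine ⟨h3, ?_⟩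
    rw [h2]
    exact hM.anti t

theorem or_check : ((List.range 4096).all fun A => (List.range 12).all fun j =>
    Nat.testBit A j || Nat.beq (Nat.lor A (2 ^ j)) (Nat.add A (2 ^ j))) = true := by decide +kernel

theorem or_pow {A j : ℕ} (hA : A < 4096) (hj : j < 12) (h : A.testBit j = false) :
    A ||| 2 ^ j = A + 2 ^ j := by
  have := list_range_all (list_range_all or_check A hA) j hj
  rw [h, Bool.false_or] at this
  exact Nat.eq_of_beq_eq_true this

theorem compl_bit {A j : ℕ} (hj : j < 12) : (4095 ^^^ A).testBit j = !(A.testBit j) := by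
  rw [Nat.testBit_xor]
  have : (4095 : ℕ).testBit j = true := by interval_cases j <;> rfl
  rw [this, Bool.true_xor]

theorem xor_lt {a b : ℕ} (ha : a < 4096) (hb : b < 4096) : a ^^^ b < 4096 :=
  Nat.xor_lt_two_pow (n := 12) ha hb

theorem or_lt {a b : ℕ} (ha : a < 4096) (hb : b < 4096) : a ||| b < 4096 :=
  Nat.or_lt_two_pow (n := 12) ha hb

theorem pow_lt {j : ℕ} (hj : j < 12) : 2 ^ j < 4096 := by
  calc 2 ^ j < 2 ^ 12 := Nat.pow_lt_pow_right (by norm_num) hj
    _ = 4096 := by norm_num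

end bits

section fams

variable {χ T : ℕ → Bool}

/-- The two literals of `ccH`. -/
theorem ccH_lit {D J U j : ℕ} (hJ : J < 4096) (hU : U < 4096) (hj : j < 12)
    (hJj : J.testBit j = true)
    (hcon : ¬ Sat χ T (Nat.shiftLeft (ccH (spread J) (spread U)) D)) (hp : D + 2 ^ j < 4096) :
    χ (D + 2 ^ j) = U.testBit j := by
  have hSJ := spread_bit hJ hj
  have hSU := spread_bit hU hj
  rcases Bool.eq_false_or_eq_true (U.testBit j) with h | h
  · have hb : (Nat.shiftLeft (ccH (spread J) (spread U)) D).testBit (4096 + (D + 2 ^ j)) = true := by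
      have e : 4096 + (D + 2 ^ j) = D + (4096 + 2 ^ j) := by ring
      rw [e, testBit_shl, ccH]
      change Nat.testBit ((_ ^^^ _) ||| (Nat.shiftLeft _ 4096)) _ = true
      rw [Nat.testBit_or, testBit_shl, hSU, h, Bool.or_true]
    have hl : lv χ T (4096 + (D + 2 ^ j)) = false := by
      by_contra hl
      rw [Bool.not_eq_false] at hl
      exact hcon ⟨_, hb, hl⟩
    rw [lv_neg hp] at hl
    rw [h]
    simpa using hl
  · have hb : (Nat.shiftLeft (ccH (spread J) (spread U)) D).testBit (D + 2 ^ j) = true := by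
      rw [testBit_shl, ccH]
      change Nat.testBit ((_ ^^^ _) ||| _) _ = true
      rw [Nat.testBit_or, Nat.testBit_xor, hSJ, hSU, h, hJj]
      rfl
    have hl : lv χ T (D + 2 ^ j) = false := by
      by_contra hl
      rw [Bool.not_eq_false] at hl
      exact hcon ⟨_, hb, hl⟩
    rw [lv_pos hp] at hl
    rw [hl, h]

theorem genCC_sat (hM : Model χ T) {A t : ℕ} (ht : t < 4096) : Sat χ T (genCC A t) := by
  refine grd_sat fun hok => ?_
  obtain ⟨hA, hpc⟩ := lt_and_pc T5_lt T5_check hok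
  by_contra hcon
  have hJ : 4095 ^^^ A < 4096 := xor_lt (by norm_num) hA
  have hU : (t ^^^ ipM A) &&& (4095 ^^^ A) < 4096 := lt_of_le_of_lt Nat.and_le_right hJ
  have hcon' : ¬ Sat χ T (Nat.shiftLeft (ccH (spread (4095 ^^^ A))
      (spread ((t ^^^ ipM A) &&& (4095 ^^^ A)))) A) := fun h => hcon (Sat.left h)
  have key : ∀ j < 12, A.testBit j = false → t.testBit j = xor (csm χ A j) false := by
    intro j hj hAj
    have hp : A + 2 ^ j < 4096 := by
      rw [← or_pow hA hj hAj]; exact or_lt hA (pow_lt hj)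
    have h := ccH_lit hJ hU hj (by rw [compl_bit hj, hAj]; rfl) hcon' hp
    rw [csm, or_pow hA hj hAj, h, Nat.testBit_and, compl_bit hj, hAj, Nat.testBit_xor,
      ipM_bit hA hj]
    cases t.testBit j <;> cases ipm A j <;> simp
  have hT := hM.cc A hpc false t key
  obtain ⟨h1, h2⟩ := tpos_spec hM ht
  refine hcon (Sat.right (sat_one ?_))
  change lv χ T (8192 + tpos t) = true
  rw [lv_T (by omega), h2, hT]

theorem xor_pow {A j : ℕ} (hA : A < 4096) (hj : j < 12) (h : A.testBit j = true) :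
    A ^^^ 2 ^ j = A - 2 ^ j ∧ 2 ^ j ≤ A := by
  have h1 : (A ^^^ 2 ^ j).testBit j = false := by
    rw [Nat.testBit_xor, h, Nat.testBit_two_pow_self]; rfl
  have h2 : (A ^^^ 2 ^ j) ||| 2 ^ j = A := by
    apply Nat.eq_of_testBit_eq
    intro i
    rw [Nat.testBit_or, Nat.testBit_xor, Nat.testBit_two_pow]
    by_cases hi : j = i
    · subst hi; simp [h]
    · simp [hi]
  have h3 := or_pow (xor_lt hA (pow_lt hj)) hj h1
  omega

theorem testBit_shr (c n m : ℕ) : (Nat.shiftRight c n).testBit m = c.testBit (n + m) := by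
  change (c >>> n).testBit m = _
  rw [Nat.testBit_shiftRight]

theorem genKC_sat (hM : Model χ T) {A t : ℕ} (ht : t < 4096) : Sat χ T (genKC A t) := by
  refine grd_sat fun hok => ?_
  obtain ⟨hA, hpc⟩ := lt_and_pc T7_lt T7_check hok
  by_contra hcon
  have hU : (t ^^^ ipM A) &&& A < 4096 := lt_of_le_of_lt Nat.and_le_right hA
  have key : ∀ j < 12, A.testBit j = true → t.testBit j = xor (ksm χ A j) false := by
    intro j hj hAj
    obtain ⟨hx, hle⟩ := xor_pow hA hj hAj
    have hp : A - 2 ^ j < 4096 := lt_of_le_of_lt (Nat.sub_le _ _) hA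
    have h2048 : 2 ^ j ≤ 2048 := by
      calc 2 ^ j ≤ 2 ^ 11 := Nat.pow_le_pow_right (by norm_num) (by omega)
        _ = 2048 := by norm_num
    have hsub : 2 ^ j + (A - 2 ^ j) = A := by omega
    have hcs : ksm χ A j = xor (χ (A - 2 ^ j)) (ipm A j) := by rw [ksm, hx]
    have hSJ : (rev A).testBit (2048 - 2 ^ j) = true := by
      rw [rev_bit hA hj, hAj]
    have hSU : (rev (Nat.land (Nat.xor t (ipM A)) A)).testBit (2048 - 2 ^ j) =
        xor (t.testBit j) (ipm A j) := by
      change (rev ((t ^^^ ipM A) &&& A)).testBit (2048 - 2 ^ j) = _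
      rw [rev_bit hU hj, Nat.testBit_and, hAj, Nat.testBit_xor, ipM_bit hA hj]
      simp
    rw [hcs, Bool.xor_false]
    rcases Bool.eq_false_or_eq_true (xor (t.testBit j) (ipm A j)) with h | h
    · have hb : (Nat.shiftRight (Nat.shiftLeft (ccH (rev A)
          (rev (Nat.land (Nat.xor t (ipM A)) A))) A) 2048).testBit (4096 + (A - 2 ^ j)) = true := by
        have e : 2048 + (4096 + (A - 2 ^ j)) = A + (4096 + (2048 - 2 ^ j)) := by omega
        rw [testBit_shr, e, testBit_shl, ccH]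
        change Nat.testBit ((_ ^^^ _) ||| (Nat.shiftLeft _ 4096)) _ = true
        rw [Nat.testBit_or, testBit_shl, hSU, h, Bool.or_true]
      have hl : lv χ T (4096 + (A - 2 ^ j)) = false := by
        by_contra hl
        rw [Bool.not_eq_false] at hl
        exact hcon (Sat.left ⟨_, hb, hl⟩)
      rw [lv_neg hp] at hl
      have hl' : χ (A - 2 ^ j) = true := by simpa using hl
      rw [hl']
      revert h
      cases t.testBit j <;> cases ipm A j <;> simp
    · have hb : (Nat.shiftRight (Nat.shiftLeft (ccH (rev A)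
          (rev (Nat.land (Nat.xor t (ipM A)) A))) A) 2048).testBit (A - 2 ^ j) = true := by
        have e : 2048 + (A - 2 ^ j) = A + (2048 - 2 ^ j) := by omega
        rw [testBit_shr, e, testBit_shl, ccH]
        change Nat.testBit ((_ ^^^ _) ||| _) _ = true
        rw [Nat.testBit_or, Nat.testBit_xor, hSJ, hSU, h]
        rfl
      have hl : lv χ T (A - 2 ^ j) = false := by
        by_contra hl
        rw [Bool.not_eq_false] at hl
        exact hcon (Sat.left ⟨_, hb, hl⟩)
      rw [lv_pos hp] at hl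
      rw [hl]
      revert h
      cases t.testBit j <;> cases ipm A j <;> simp
  have hT := hM.kc A hpc false t key
  obtain ⟨h1, h2⟩ := tpos_spec hM ht
  refine hcon (Sat.right (sat_one ?_))
  change lv χ T (12288 + tpos t) = true
  rw [lv_nT (by omega), h2, hT]
  rfl

theorem ball_check : ((List.range 2048).all fun t => Nat.testBit (ball t) t &&
    (Nat.testBit (ball t) (Nat.xor t 2047) &&
    (List.range 11).all fun i => Nat.testBit (ball t) (Nat.xor t (2 ^ i)))) = true := by
  decide +kernel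

theorem genBad_sat (hM : Model χ T) {t : ℕ} (ht : t < 2048) : Sat χ T (genBad t) := by
  have hb : (Nat.testBit (ball t) t && (Nat.testBit (ball t) (Nat.xor t 2047) &&
      (List.range 11).all fun i => Nat.testBit (ball t) (Nat.xor t (2 ^ i)))) = true :=
    list_range_all ball_check t ht
  obtain ⟨hb0, hb'⟩ := Bool.and_eq_true_iff.1 hb
  obtain ⟨hb1, hb2⟩ := Bool.and_eq_true_iff.1 hb'
  by_contra hcon
  have key : ∀ s < 4096, (ball t).testBit s = true → T s = true := by
    intro s hs4 hs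
    by_contra h
    rw [Bool.not_eq_true] at h
    refine hcon ⟨12288 + s, ?_, ?_⟩
    · change (Nat.shiftLeft (ball t) 12288).testBit (12288 + s) = true
      rw [testBit_shl, hs]
    · rw [lv_nT hs4, h]; rfl
  obtain ⟨i, hi, hT⟩ := hM.bad t (key t (by omega) hb0)
  rcases Nat.lt_or_ge i 11 with h | h
  · have := key (t ^^^ 2 ^ i) (xor_lt (by omega) (pow_lt (by omega))) (list_range_all hb2 i h)
    rw [this] at hT
    exact absurd hT (by simp)
  · have hi' : i = 11 := by omega
    subst hi'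
    have := key (t ^^^ 2047) (xor_lt (by omega) (by norm_num)) hb1
    have e : t ^^^ 2 ^ 11 = 4095 ^^^ (t ^^^ 2047) := by
      have h1 : (2 : ℕ) ^ 11 = 4095 ^^^ 2047 := rfl
      rw [h1, ← Nat.xor_assoc, Nat.xor_comm t 4095, Nat.xor_assoc]
    rw [e, hM.anti, this] at hT
    exact absurd hT (by simp)

theorem off_check : ((List.range 64).all fun pat => (List.range 6).all fun i =>
    Nat.beq (Nat.land (Nat.shiftRight (Nat.shiftLeft pat 12) i) 4096)
      (Nat.mul 4096 (Nat.testBit pat i).toNat)) = true := by decide +kernel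

theorem gpT_check : ((List.range 64).all fun pat =>
    !(Nat.beq (Nat.land (Nat.shiftRight gpT pat) 1) 1) ||
    ((Nat.testBit pat 0 == Nat.testBit pat 1) == !(Nat.testBit pat 2 == Nat.testBit pat 3)) &&
    ((Nat.testBit pat 0 == Nat.testBit pat 1) == (Nat.testBit pat 4 == Nat.testBit pat 5))) =
      true := by decide +kernel

/-- Check of the decomposition of a 4-set. -/
def qchk (Q : ℕ) : Bool :=
  let xa := Nat.xor Q (rlb Q)
  let xb := Nat.xor (rlb Q) (rlb (rlb Q))
  let xc := Nat.xor (rlb (rlb Q)) (rlb (rlb (rlb Q)))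
  let xd := rlb (rlb (rlb Q))
  Nat.beq (2 ^ Nat.log2 xa) xa && Nat.beq (2 ^ Nat.log2 xb) xb && Nat.beq (2 ^ Nat.log2 xc) xc &&
  Nat.beq (2 ^ Nat.log2 xd) xd && Nat.blt (Nat.log2 xa) (Nat.log2 xb) &&
  Nat.blt (Nat.log2 xb) (Nat.log2 xc) && Nat.blt (Nat.log2 xc) (Nat.log2 xd) &&
  Nat.blt (Nat.log2 xd) 12 && Nat.testBit Q (Nat.log2 xa) && Nat.testBit Q (Nat.log2 xb) &&
  Nat.testBit Q (Nat.log2 xc) && Nat.testBit Q (Nat.log2 xd)

theorem q_check : ((List.range 4096).all fun Q =>
    !(Nat.beq (Nat.land (Nat.shiftRight T4 Q) 1) 1) || qchk Q) = true := by decide +kernel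

theorem q_spec {Q : ℕ} (hQ : Q < 4096) (h : Nat.land (Nat.shiftRight T4 Q) 1 ≠ 0) :
    ∃ a b c d, a < b ∧ b < c ∧ c < d ∧ d < 12 ∧ Nat.xor Q (rlb Q) = 2 ^ a ∧
      Nat.xor (rlb Q) (rlb (rlb Q)) = 2 ^ b ∧
      Nat.xor (rlb (rlb Q)) (rlb (rlb (rlb Q))) = 2 ^ c ∧ rlb (rlb (rlb Q)) = 2 ^ d ∧
      Q.testBit a = true ∧ Q.testBit b = true ∧ Q.testBit c = true ∧ Q.testBit d = true := by
  have h1 : Nat.land (Nat.shiftRight T4 Q) 1 = 1 := by
    change (T4 >>> Q) &&& 1 = 1
    change (T4 >>> Q) &&& 1 ≠ 0 at h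
    rw [Nat.and_one_is_mod] at h ⊢
    omega
  have h2 : (!(Nat.beq (Nat.land (Nat.shiftRight T4 Q) 1) 1) || qchk Q) = true :=
    list_range_all q_check Q hQ
  rw [h1] at h2
  have h3 : qchk Q = true := h2
  simp only [qchk, Bool.and_eq_true, Nat.blt_eq] at h3
  obtain ⟨⟨⟨⟨⟨⟨⟨⟨⟨⟨⟨e1, e2⟩, e3⟩, e4⟩, l1⟩, l2⟩, l3⟩, l4⟩, t1⟩, t2⟩, t3⟩, t4⟩ := h3
  exact ⟨_, _, _, _, l1, l2, l3, l4, (Nat.eq_of_beq_eq_true e1).symm,
    (Nat.eq_of_beq_eq_true e2).symm, (Nat.eq_of_beq_eq_true e3).symm,
    (Nat.eq_of_beq_eq_true e4).symm, t1, t2, t3, t4⟩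

/-- One literal of a three term clause. -/
theorem gl_lit {A x y pat i : ℕ} (hpat : pat < 64) (hi : i < 6) (hp : A + (x + y) < 4096)
    (hcon : ∀ p, (gl x y pat i).testBit p = true → lv χ T (A + p) = false) :
    χ (A + (x + y)) = pat.testBit i := by
  have ho : Nat.land (Nat.shiftRight (Nat.shiftLeft pat 12) i) 4096 =
      4096 * (Nat.testBit pat i).toNat :=
    Nat.eq_of_beq_eq_true (list_range_all (list_range_all off_check pat hpat) i hi)
  have h : (gl x y pat i).testBit (x + y + 4096 * (Nat.testBit pat i).toNat) = true := by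
    rw [← ho]
    change (Nat.shiftLeft 1 (x + y + Nat.land (Nat.shiftRight (Nat.shiftLeft pat 12) i) 4096)).testBit
      (x + y + Nat.land (Nat.shiftRight (Nat.shiftLeft pat 12) i) 4096) = true
    have := testBit_shl 1 (x + y + Nat.land (Nat.shiftRight (Nat.shiftLeft pat 12) i) 4096) 0
    rw [Nat.add_zero] at this
    rw [this]
    rfl
  have h2 := hcon _ h
  rcases Bool.eq_false_or_eq_true (pat.testBit i) with hw | hw
  · rw [hw] at h2 ⊢
    have e : A + (x + y + 4096 * (true).toNat) = 4096 + (A + (x + y)) := by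
      simp only [Bool.toNat_true]; omega
    rw [e, lv_neg hp] at h2
    simpa using h2
  · rw [hw] at h2 ⊢
    have e : A + (x + y + 4096 * (false).toNat) = A + (x + y) := by
      simp only [Bool.toNat_false]; omega
    rw [e, lv_pos hp] at h2
    exact h2

theorem testBit_lor (a b i : ℕ) : (Nat.lor a b).testBit i = (a.testBit i || b.testBit i) := by
  change (a ||| b).testBit i = _
  rw [Nat.testBit_or]

theorem land_ne {a b : ℕ} (h : Nat.land a b ≠ 0) : a ≠ 0 ∧ b ≠ 0 := by
  constructor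
  · rintro rfl
    exact h (Nat.zero_and b)
  · rintro rfl
    exact h (Nat.and_zero a)

theorem genGP_sat (hM : Model χ T) {A Q pat : ℕ} (hQ : Q < 4096) (hpat : pat < 64) :
    Sat χ T (genGP A Q pat) := by
  refine grd_sat fun hok => ?_
  -- the guards
  have g1 : Nat.land (Nat.shiftRight T4 A) 1 ≠ 0 ∧ Nat.land (Nat.shiftRight T4 Q) 1 ≠ 0 ∧
      Nat.land (Nat.shiftRight gpT pat) 1 ≠ 0 ∧ A &&& Q = 0 := by
    have h0 : (((T4 >>> A) &&& (T4 >>> Q)) &&& ((gpT >>> pat) &&& (1 - (A &&& Q)))) ≠ 0 := hok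
    rcases Nat.eq_zero_or_pos (A &&& Q) with hz | hz
    · rw [hz, Nat.sub_zero] at h0
      have hb : ∀ a b c : ℕ, (a &&& b) &&& (c &&& 1) ≠ 0 → a &&& 1 ≠ 0 ∧ b &&& 1 ≠ 0 ∧
          c &&& 1 ≠ 0 := by
        intro a b c h
        refine ⟨fun h' => h ?_, fun h' => h ?_, fun h' => h ?_⟩
        · have : a &&& b &&& (c &&& 1) = (a &&& 1) &&& (b &&& c) := by
            apply Nat.eq_of_testBit_eq
            intro i
            simp only [Nat.testBit_and]
            cases a.testBit i <;> cases b.testBit i <;> cases c.testBit i <;> simp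
          rw [this, h', Nat.zero_and]
        · have : a &&& b &&& (c &&& 1) = (b &&& 1) &&& (a &&& c) := by
            apply Nat.eq_of_testBit_eq
            intro i
            simp only [Nat.testBit_and]
            cases a.testBit i <;> cases b.testBit i <;> cases c.testBit i <;> simp
          rw [this, h', Nat.zero_and]
        · rw [h', Nat.and_zero]
      exact ⟨(hb _ _ _ h0).1, (hb _ _ _ h0).2.1, (hb _ _ _ h0).2.2, hz⟩
    · exfalso
      have e : 1 - (A &&& Q) = 0 := by omega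
      rw [e, Nat.and_zero, Nat.and_zero] at h0
      exact h0 rfl
  obtain ⟨gA, gQ, gP, hAQ⟩ := g1
  obtain ⟨hA, hpc⟩ := lt_and_pc T4_lt T4_check gA
  obtain ⟨a, b, c, d, hab, hbc, hcd, hd, ea, eb, ec, ed, ta, tb, tc, td⟩ := q_spec hQ gQ
  by_contra hcon
  have hdis : ∀ i, Q.testBit i = true → A.testBit i = false := by
    intro i hi
    have : (A &&& Q).testBit i = false := by rw [hAQ, Nat.zero_testBit]
    rw [Nat.testBit_and, hi, Bool.and_true] at this
    exact this
  have hlit : ∀ p, (gpQ Q pat).testBit p = true → lv χ T (A + p) = false := by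
    intro p hp
    by_contra h
    rw [Bool.not_eq_false] at h
    refine hcon ⟨A + p, ?_, h⟩
    change (Nat.shiftLeft (gpQ Q pat) A).testBit (A + p) = true
    rw [testBit_shl, hp]
  rw [gpQ, ea, eb, ec, ed] at hlit
  have pos : ∀ x y, x < 12 → y < 12 → x ≠ y → A.testBit x = false → A.testBit y = false →
      A ||| 2 ^ x ||| 2 ^ y = A + (2 ^ x + 2 ^ y) ∧ A + (2 ^ x + 2 ^ y) < 4096 := by
    intro x y hx hy hxy hAx hAy
    have h1 := or_pow hA hx hAx
    have h2 : (A ||| 2 ^ x).testBit y = false := by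
      rw [Nat.testBit_or, hAy, Nat.testBit_two_pow, Bool.false_or]
      exact decide_eq_false hxy
    have h3 := or_pow (or_lt hA (pow_lt hx)) hy h2
    have h4 := or_lt (or_lt hA (pow_lt hx)) (pow_lt hy)
    rw [h3] at h4
    rw [h3, h1]
    rw [h1] at h4
    constructor
    · ring
    · omega
  have fact : ∀ x y i, x < 12 → y < 12 → x ≠ y → A.testBit x = false → A.testBit y = false →
      i < 6 → (∀ p, (gl (2 ^ x) (2 ^ y) pat i).testBit p = true → lv χ T (A + p) = false) →
      fsm χ A x y = xor (pat.testBit i) (xor (ipm A x) (ipm A y)) := by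
    intro x y i hx hy hxy hAx hAy hi hc
    obtain ⟨h1, h2⟩ := pos x y hx hy hxy hAx hAy
    rw [fsm, h1, gl_lit hpat hi h2 hc]
  have part : ∀ p, ((gl (2 ^ a) (2 ^ b) pat 0).testBit p = true ∨
      (gl (2 ^ c) (2 ^ d) pat 1).testBit p = true ∨ (gl (2 ^ a) (2 ^ c) pat 2).testBit p = true ∨
      (gl (2 ^ b) (2 ^ d) pat 3).testBit p = true ∨ (gl (2 ^ a) (2 ^ d) pat 4).testBit p = true ∨
      (gl (2 ^ b) (2 ^ c) pat 5).testBit p = true) → lv χ T (A + p) = false := by
    intro p hp
    refine hlit p ?_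
    change Nat.testBit (Nat.lor (Nat.lor (Nat.lor (gl (2 ^ a) (2 ^ b) pat 0)
      (gl (2 ^ c) (2 ^ d) pat 1)) (Nat.lor (gl (2 ^ a) (2 ^ c) pat 2) (gl (2 ^ b) (2 ^ d) pat 3)))
      (Nat.lor (gl (2 ^ a) (2 ^ d) pat 4) (gl (2 ^ b) (2 ^ c) pat 5))) p = true
    simp only [testBit_lor, Bool.or_eq_true]
    tauto
  have f1 := fact a b 0 (by omega) (by omega) (by omega) (hdis _ ta) (hdis _ tb) (by norm_num)
    fun p hp => part p (Or.inl hp)
  have f2 := fact c d 1 (by omega) (by omega) (by omega) (hdis _ tc) (hdis _ td) (by norm_num)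
    fun p hp => part p (Or.inr (Or.inl hp))
  have f3 := fact a c 2 (by omega) (by omega) (by omega) (hdis _ ta) (hdis _ tc) (by norm_num)
    fun p hp => part p (Or.inr (Or.inr (Or.inl hp)))
  have f4 := fact b d 3 (by omega) (by omega) (by omega) (hdis _ tb) (hdis _ td) (by norm_num)
    fun p hp => part p (Or.inr (Or.inr (Or.inr (Or.inl hp))))
  have f5 := fact a d 4 (by omega) (by omega) (by omega) (hdis _ ta) (hdis _ td) (by norm_num)
    fun p hp => part p (Or.inr (Or.inr (Or.inr (Or.inr (Or.inl hp)))))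
  have f6 := fact b c 5 (by omega) (by omega) (by omega) (hdis _ tb) (hdis _ tc) (by norm_num)
    fun p hp => part p (Or.inr (Or.inr (Or.inr (Or.inr (Or.inr hp)))))
  have hgp := hM.gp A a b c d hpc hab hbc hcd hd (hdis _ ta) (hdis _ tb) (hdis _ tc) (hdis _ td)
  rw [f1, f2, f3, f4, f5, f6] at hgp
  have h1 : Nat.land (Nat.shiftRight gpT pat) 1 = 1 := by
    change (gpT >>> pat) &&& 1 = 1
    change (gpT >>> pat) &&& 1 ≠ 0 at gP
    rw [Nat.and_one_is_mod] at gP ⊢
    omega
  have h2 : (!(Nat.beq (Nat.land (Nat.shiftRight gpT pat) 1) 1) ||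
    ((Nat.testBit pat 0 == Nat.testBit pat 1) == !(Nat.testBit pat 2 == Nat.testBit pat 3)) &&
    ((Nat.testBit pat 0 == Nat.testBit pat 1) == (Nat.testBit pat 4 == Nat.testBit pat 5))) =
      true := list_range_all gpT_check pat hpat
  rw [h1] at h2
  have h3 : (((Nat.testBit pat 0 == Nat.testBit pat 1) ==
      !(Nat.testBit pat 2 == Nat.testBit pat 3)) &&
    ((Nat.testBit pat 0 == Nat.testBit pat 1) == (Nat.testBit pat 4 == Nat.testBit pat 5))) =
      true := h2
  revert hgp h3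
  generalize pat.testBit 0 = w0
  generalize pat.testBit 1 = w1
  generalize pat.testBit 2 = w2
  generalize pat.testBit 3 = w3
  generalize pat.testBit 4 = w4
  generalize pat.testBit 5 = w5
  generalize ipm A a = i0
  generalize ipm A b = i1
  generalize ipm A c = i2
  generalize ipm A d = i3
  revert w0 w1 w2 w3 w4 w5 i0 i1 i2 i3
  decide

theorem T6_lt : T6 < 2 ^ 4096 := by decide +kernel

theorem T6_check : ((List.range 4096).all fun A => !(Nat.beq (Nat.land (Nat.shiftRight T6 A) 1) 1) ||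
    Nat.beq (pc A) 6) = true := by decide +kernel

theorem bit_check : ((List.range 4096).all fun z => (List.range 12).all fun b =>
    Nat.beq (Nat.div (Nat.land z (2 ^ b)) (2 ^ b)) (Nat.testBit z b).toNat) = true := by
  decide +kernel

theorem bit_div {z b : ℕ} (hz : z < 4096) (hb : b < 12) :
    Nat.div (Nat.land z (2 ^ b)) (2 ^ b) = (z.testBit b).toNat :=
  Nat.eq_of_beq_eq_true (list_range_all (list_range_all bit_check z hz) b hb)

theorem one_shl (b : ℕ) : Nat.shiftLeft 1 b = 2 ^ b := by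
  change 1 <<< b = 2 ^ b
  rw [Nat.shiftLeft_eq, one_mul]

theorem and_one_cases (a : ℕ) : a &&& 1 = 0 ∨ a &&& 1 = 1 := by
  rw [Nat.and_one_is_mod]
  omega

theorem shr_and_one (a b : ℕ) : (a >>> b) &&& 1 = (a.testBit b).toNat := by
  rw [Nat.and_one_is_mod, Nat.toNat_testBit, Nat.shiftRight_eq_div_pow]

theorem xor_toNat (a b : Bool) : a.toNat ^^^ b.toNat = (xor a b).toNat := by
  cases a <;> cases b <;> rfl

theorem ipM_lt {A : ℕ} (hA : A < 4096) : ipM A < 4096 := by
  have hx : ∀ k y, y < 4096 → xs k y < 4096 := by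
    intro k y hy
    exact xor_lt hy (lt_of_le_of_lt (Nat.shiftRight_le y k) hy)
  exact hx _ _ (hx _ _ (hx _ _ (hx _ _ (lt_of_le_of_lt (Nat.shiftRight_le A 1) hA))))

theorem xorp_bit_self {B b : ℕ} (hB : B.testBit b = true) : (B ^^^ 2 ^ b).testBit b = false := by
  rw [Nat.testBit_xor, hB, Nat.testBit_two_pow_self]; rfl

theorem xorp_or {B b : ℕ} (hB : B.testBit b = true) : (B ^^^ 2 ^ b) ||| 2 ^ b = B := by
  apply Nat.eq_of_testBit_eq
  intro i
  rw [Nat.testBit_or, Nat.testBit_xor, Nat.testBit_two_pow]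
  by_cases hi : b = i
  · subst hi; simp [hB]
  · simp [hi]

theorem xorp_bit {B b k : ℕ} (hbk : b ≠ k) : (B ^^^ 2 ^ b).testBit k = B.testBit k := by
  rw [Nat.testBit_xor, Nat.testBit_two_pow]
  simp [hbk]

theorem genSimp_sat {B s b k : ℕ} (hs : s < 4096) (h : Simp χ B s) (e : Bool) :
    Sat χ T (genSimp B s b k e.toNat) := by
  refine grd_sat fun hok => ?_
  have h0 : ((T6 >>> B) &&& ((B >>> b) &&& 1)) &&& ((1 - ((B >>> k) &&& 1)) &&& (1 - k / 12)) ≠ 0 :=
    hok
  rw [shr_and_one, shr_and_one] at h0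
  have hbB : B.testBit b = true := by
    by_contra hc
    rw [Bool.not_eq_true] at hc
    rw [hc] at h0
    apply h0
    simp only [Bool.toNat_false, Nat.and_zero, Nat.zero_and]
  have hkB : B.testBit k = false := by
    by_contra hc
    rw [Bool.not_eq_false] at hc
    rw [hc] at h0
    apply h0
    simp only [Bool.toNat_true, Nat.sub_self, Nat.and_zero, Nat.zero_and]
  have hk : k < 12 := by
    by_contra hc
    have : 1 - k / 12 = 0 := by
      have : 1 ≤ k / 12 := by omega
      omega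
    rw [this] at h0
    apply h0
    simp only [Nat.and_zero]
  have hT6 : Nat.land (Nat.shiftRight T6 B) 1 ≠ 0 := by
    intro hc
    have hc' : (T6 >>> B) &&& 1 = 0 := hc
    rw [hbB] at h0
    apply h0
    simp only [Bool.toNat_true, hc', Nat.zero_and]
  obtain ⟨hB, hpc⟩ := lt_and_pc T6_lt T6_check hT6
  have hb : b < 12 := by
    by_contra hc
    rw [testBit_ge hB (by omega)] at hbB
    exact absurd hbB (by simp)
  have hbk : b ≠ k := by
    rintro rfl
    rw [hbB] at hkB
    exact absurd hkB (by simp)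
  set D := B ^^^ 2 ^ b with hD
  have hD4 : D < 4096 := xor_lt hB (pow_lt hb)
  have hDk : D.testBit k = false := by rw [hD, xorp_bit hbk, hkB]
  have hrel := h b hb hbB k hk hkB
  rw [← hD, csm, csm, hD, xorp_or hbB, ← hD, or_pow hD4 hk hDk] at hrel
  have hp : D + 2 ^ k < 4096 := by
    rw [← or_pow hD4 hk hDk]; exact or_lt hD4 (pow_lt hk)
  have hz : s ^^^ ipM D < 4096 := xor_lt hs (ipM_lt hD4)
  -- the mask
  have hex : exS (Nat.xor s (ipM (Nat.xor B (Nat.shiftLeft 1 b)))) (Nat.shiftLeft 1 b)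
      (Nat.shiftLeft 1 k) = (xor ((s ^^^ ipM D).testBit b) ((s ^^^ ipM D).testBit k)).toNat := by
    rw [one_shl, one_shl]
    change Nat.xor (Nat.div (Nat.land (s ^^^ ipM D) (2 ^ b)) (2 ^ b))
      (Nat.div (Nat.land (s ^^^ ipM D) (2 ^ k)) (2 ^ k)) = _
    rw [bit_div hz hb, bit_div hz hk]
    exact xor_toNat _ _
  have goal1 : Sat χ T (Nat.lor (Nat.shiftLeft 1 (B + 4096 * (1 - e.toNat)))
      (Nat.shiftLeft 1 (D + 2 ^ k + 4096 * (xor e (xor ((s ^^^ ipM D).testBit b)
        ((s ^^^ ipM D).testBit k))).toNat))) := by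
    rw [Nat.testBit_xor, Nat.testBit_xor, ipM_bit hD4 hb, ipM_bit hD4 hk]
    by_cases hc : χ B = e
    · refine Sat.left (sat_one ?_)
      cases e
      · simp only [Bool.toNat_false, Nat.sub_zero, Nat.mul_one]
        rw [Nat.add_comm, lv_neg hB, hc]; rfl
      · simp only [Bool.toNat_true, Nat.sub_self, Nat.mul_zero, Nat.add_zero]
        rw [lv_pos hB, hc]
    · refine Sat.right (sat_one ?_)
      have hc' : χ B = !e := by
        revert hc; cases χ B <;> cases e <;> simp
      rw [hc'] at hrel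
      have hval : χ (D + 2 ^ k) = !(xor e (xor (xor (s.testBit b) (ipm D b))
          (xor (s.testBit k) (ipm D k)))) := by
        revert hrel
        cases χ (D + 2 ^ k) <;> cases e <;> cases s.testBit b <;> cases s.testBit k <;>
          cases ipm D b <;> cases ipm D k <;> simp
      rcases Bool.eq_false_or_eq_true (xor e (xor (xor (s.testBit b) (ipm D b))
          (xor (s.testBit k) (ipm D k)))) with hn | hn
      · rw [hn] at hval ⊢
        simp only [Bool.toNat_true, Nat.mul_one]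
        rw [Nat.add_comm, lv_neg hp, hval]; rfl
      · rw [hn] at hval ⊢
        simp only [Bool.toNat_false, Nat.mul_zero, Nat.add_zero]
        rw [lv_pos hp, hval]; rfl
  have hm : Nat.lor (Nat.shiftLeft 1 (Nat.add B (Nat.mul 4096 (Nat.sub 1 e.toNat))))
      (Nat.shiftLeft 1 (Nat.add (Nat.add (Nat.xor B (Nat.shiftLeft 1 b)) (Nat.shiftLeft 1 k))
        (Nat.mul 4096 (Nat.xor e.toNat (exS (Nat.xor s (ipM (Nat.xor B (Nat.shiftLeft 1 b))))
          (Nat.shiftLeft 1 b) (Nat.shiftLeft 1 k)))))) =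
      Nat.lor (Nat.shiftLeft 1 (B + 4096 * (1 - e.toNat)))
      (Nat.shiftLeft 1 (D + 2 ^ k + 4096 * (xor e (xor ((s ^^^ ipM D).testBit b)
        ((s ^^^ ipM D).testBit k))).toNat)) := by
    rw [hex, one_shl b, one_shl k, ← xor_toNat e]
    rfl
  exact hm ▸ goal1

theorem six_check : ((List.range 4096).all fun B =>
    !(Nat.beq (Nat.land (Nat.shiftRight T6 B) 1) 1) || (List.range 12).all fun b =>
      !(Nat.testBit B b) || (Nat.beq (Nat.xor B (rlb B)) (2 ^ b) ||
      (Nat.beq (Nat.xor (rlb B) (rlb (rlb B))) (2 ^ b) ||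
      (Nat.beq (Nat.xor (rlb (rlb B)) (rlb (rlb (rlb B)))) (2 ^ b) ||
      (Nat.beq (Nat.xor (rlb (rlb (rlb B))) (rlb (rlb (rlb (rlb B))))) (2 ^ b) ||
      (Nat.beq (Nat.xor (rlb (rlb (rlb (rlb B)))) (rlb (rlb (rlb (rlb (rlb B)))))) (2 ^ b) ||
      (Nat.beq (rlb (rlb (rlb (rlb (rlb B))))) (2 ^ b)))))))) = true := by decide +kernel

theorem pow_bit {k : ℕ} (c : Bool) (hk : k < 12) : (4095 * c.toNat).testBit k = c := by
  cases c
  · simp
  · simp only [Bool.toNat_true, Nat.mul_one]
    interval_cases k <;> rfl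

theorem genNS_sat {B s : ℕ} (hs : s < 4096) (h : pc B = 6 → ¬ Simp χ B s) (e : Bool) :
    Sat χ T (genNS B s e.toNat) := by
  refine grd_sat fun hok => ?_
  obtain ⟨hB, hpc⟩ := lt_and_pc T6_lt T6_check hok
  by_contra hcon
  refine h hpc fun b hb hbB k hk hkB => ?_
  have hbk : b ≠ k := by
    rintro rfl
    rw [hbB] at hkB
    exact absurd hkB (by simp)
  obtain ⟨D, hD⟩ : ∃ D, D = B ^^^ 2 ^ b := ⟨_, rfl⟩
  have hD4 : D < 4096 := hD ▸ xor_lt hB (pow_lt hb)
  have hDk : D.testBit k = false := by rw [hD, xorp_bit hbk, hkB]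
  have hp : D + 2 ^ k < 4096 := by
    rw [← or_pow hD4 hk hDk]; exact or_lt hD4 (pow_lt hk)
  have hz : s ^^^ ipM D < 4096 := xor_lt hs (ipM_lt hD4)
  -- sign of the basis
  have hchi : χ B = e := by
    by_contra hc
    refine hcon (Sat.left (sat_one ?_))
    have hc' : χ B = !e := by
      revert hc; cases χ B <;> cases e <;> simp
    cases e
    · change lv χ T (B + 4096 * 0) = true
      rw [Nat.mul_zero, Nat.add_zero, lv_pos hB, hc']; rfl
    · change lv χ T (B + 4096 * 1) = true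
      rw [Nat.mul_one, Nat.add_comm, lv_neg hB, hc']; rfl
  -- the part of the facet
  have hpart : ¬ Sat χ T (nsH B s e.toNat (2 ^ b)) := by
    have h6 : (!(Nat.beq (Nat.land (Nat.shiftRight T6 B) 1) 1) || (List.range 12).all fun b =>
      !(Nat.testBit B b) || (Nat.beq (Nat.xor B (rlb B)) (2 ^ b) ||
      (Nat.beq (Nat.xor (rlb B) (rlb (rlb B))) (2 ^ b) ||
      (Nat.beq (Nat.xor (rlb (rlb B)) (rlb (rlb (rlb B)))) (2 ^ b) ||
      (Nat.beq (Nat.xor (rlb (rlb (rlb B))) (rlb (rlb (rlb (rlb B))))) (2 ^ b) ||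
      (Nat.beq (Nat.xor (rlb (rlb (rlb (rlb B)))) (rlb (rlb (rlb (rlb (rlb B)))))) (2 ^ b) ||
      (Nat.beq (rlb (rlb (rlb (rlb (rlb B))))) (2 ^ b)))))))) = true :=
      list_range_all six_check B hB
    have h1 : Nat.land (Nat.shiftRight T6 B) 1 = 1 := by
      have h2 : (T6 >>> B) &&& 1 ≠ 0 := hok
      rcases and_one_cases (T6 >>> B) with h3 | h3
      · exact absurd h3 h2
      · exact h3
    rw [h1] at h6
    have h7 : ((List.range 12).all fun b =>
      !(Nat.testBit B b) || (Nat.beq (Nat.xor B (rlb B)) (2 ^ b) ||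
      (Nat.beq (Nat.xor (rlb B) (rlb (rlb B))) (2 ^ b) ||
      (Nat.beq (Nat.xor (rlb (rlb B)) (rlb (rlb (rlb B)))) (2 ^ b) ||
      (Nat.beq (Nat.xor (rlb (rlb (rlb B))) (rlb (rlb (rlb (rlb B))))) (2 ^ b) ||
      (Nat.beq (Nat.xor (rlb (rlb (rlb (rlb B)))) (rlb (rlb (rlb (rlb (rlb B)))))) (2 ^ b) ||
      (Nat.beq (rlb (rlb (rlb (rlb (rlb B))))) (2 ^ b)))))))) = true := h6
    have h8 := list_range_all h7 b hb
    rw [hbB] at h8
    simp only [Bool.not_true, Bool.false_or, Bool.or_eq_true] at h8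
    rcases h8 with h8 | h8 | h8 | h8 | h8 | h8
    · rw [← Nat.eq_of_beq_eq_true h8]
      exact fun hc => hcon (Sat.right (Sat.left (Sat.left (Sat.left hc))))
    · rw [← Nat.eq_of_beq_eq_true h8]
      exact fun hc => hcon (Sat.right (Sat.left (Sat.left (Sat.right hc))))
    · rw [← Nat.eq_of_beq_eq_true h8]
      exact fun hc => hcon (Sat.right (Sat.left (Sat.right (Sat.left hc))))
    · rw [← Nat.eq_of_beq_eq_true h8]
      exact fun hc => hcon (Sat.right (Sat.left (Sat.right (Sat.right hc))))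
    · rw [← Nat.eq_of_beq_eq_true h8]
      exact fun hc => hcon (Sat.right (Sat.right (Sat.left hc)))
    · rw [← Nat.eq_of_beq_eq_true h8]
      exact fun hc => hcon (Sat.right (Sat.right (Sat.right hc)))
  have hJ : 4095 ^^^ B < 4096 := xor_lt (by norm_num) hB
  have hU : ((s ^^^ ipM D) ^^^ (4095 * (xor e ((s ^^^ ipM D).testBit b)).toNat)) &&&
      (4095 ^^^ B) < 4096 := lt_of_le_of_lt Nat.and_le_right hJ
  have hpart' : ¬ Sat χ T (Nat.shiftLeft (ccH (spread (4095 ^^^ B))
      (spread (((s ^^^ ipM D) ^^^ (4095 * (xor e ((s ^^^ ipM D).testBit b)).toNat)) &&&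
        (4095 ^^^ B)))) D) := by
    have hm : nsH B s e.toNat (2 ^ b) = Nat.shiftLeft (ccH (spread (4095 ^^^ B))
      (spread (((s ^^^ ipM D) ^^^ (4095 * (xor e ((s ^^^ ipM D).testBit b)).toNat)) &&&
        (4095 ^^^ B)))) D := by
      rw [← xor_toNat e, ← bit_div hz hb, hD]
      rfl
    rw [← hm]
    exact hpart
  have hval := ccH_lit hJ hU hk (by rw [compl_bit hk, hkB]; rfl) hpart' hp
  rw [Nat.testBit_and, compl_bit hk, hkB, Nat.testBit_xor, pow_bit _ hk, Nat.testBit_xor,
    Nat.testBit_xor, ipM_bit hD4 hk, ipM_bit hD4 hb] at hval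
  rw [← hD, csm, csm, hD, xorp_or hbB, ← hD, or_pow hD4 hk hDk, hval, hchi]
  cases e <;> cases s.testBit b <;> cases s.testBit k <;> cases ipm D b <;> cases ipm D k <;> rfl

theorem land_4095 (x : ℕ) : Nat.land x 4095 < 4096 :=
  lt_of_le_of_lt (Nat.and_le_right (n := x) (m := 4095)) (by norm_num)

theorem land_2047 (x : ℕ) : Nat.land x 2047 < 2048 :=
  lt_of_le_of_lt (Nat.and_le_right (n := x) (m := 2047)) (by norm_num)

theorem land_63 (x : ℕ) : Nat.land x 63 < 64 :=
  lt_of_le_of_lt (Nat.and_le_right (n := x) (m := 63)) (by norm_num)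

theorem fld_one (c k : ℕ) : fld c k 1 = (c.testBit k).toNat := shr_and_one c k

/-- **All base clauses are true**. -/
theorem gen_sat (hM : Model χ T) {P N : ℕ} (hP : ∀ j, Simp χ (entB P j) (entS P j))
    (hN : ∀ j, pc (entB N j) = 6 → ¬ Simp χ (entB N j) (entS N j)) (c : ℕ) :
    Sat χ T (gen P N c) := by
  have rec2 : ∀ (x y : ℕ) (b : Bool), Sat χ T x → Sat χ T y →
      Sat χ T (@Bool.rec (fun _ => Nat) x y b) := by
    intro x y b hx hy
    cases b
    · exact hx
    · exact hy
  refine rec2 _ _ _ (rec2 _ _ _ (rec2 _ _ _ (rec2 _ _ _ ?_ ?_) (rec2 _ _ _ ?_ ?_)) ?_) ?_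
  · rw [fld_one]
    exact genNS_sat (land_4095 _) (hN _) _
  · rw [fld_one]
    exact genSimp_sat (land_4095 _) (hP _) _
  · exact genKC_sat hM (land_4095 _)
  · exact genBad_sat hM (land_2047 _)
  · exact genCC_sat hM (land_4095 _)
  · exact genGP_sat hM (land_4095 _) (land_63 _)

theorem cl_of_sat {c : ℕ} (h : Sat χ T c) : Pool.Agent.H13.Z12.Cl χ T c := by
  obtain ⟨p, h1, h2⟩ := h
  refine ⟨p, h1, ?_⟩
  unfold lv at h2
  unfold Pool.Agent.H13.Z12.lit
  split_ifs at h2 with h3 h4 h5 h6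
  · exact Or.inl ⟨h3, h2⟩
  · exact Or.inr (Or.inl ⟨by omega, h4, by simpa using h2⟩)
  · exact Or.inr (Or.inr (Or.inl ⟨by omega, h5, h2⟩))
  · exact Or.inr (Or.inr (Or.inr ⟨by omega, h6, by simpa using h2⟩))

/-- **All base clauses are true**, for the checker. -/
theorem gen_cl (hM : Model χ T) {P N : ℕ} (hP : ∀ j, Simp χ (entB P j) (entS P j))
    (hN : ∀ j, pc (entB N j) = 6 → ¬ Simp χ (entB N j) (entS N j)) (c : ℕ) :
    Pool.Agent.H13.Z12.Cl χ T (gen P N c) := cl_of_sat (gen_sat hM hP hN c)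

end fams

end Pool.Agent.H28.Z12
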