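import Pool.Agent.H28.Z12.CoverDefs

/-!
Kernel evaluation: images of earlier excluded patterns (MP_1e71f9_co).
-/

set_option autoImplicit false

namespace Pool.Agent.H28.Z12.Cov

/-- Certificate entry `e`: `p`, `q` (10 bits each), index (20 bits). -/
def cE (C e : Nat) : Nat := Nat.land (Nat.shiftRight C (Nat.mul (nat_lit 40) e)) (nat_lit 1099511627775)

/-- The pattern `(m, w)` (with the sign of the determinant) is an image of the pattern `(a, b)`
under `p, q`. -/
noncomputable def imgE (a b p q m w : Nat) : Bool :=
  band (band (Nat.ble (Nat.succ p) (nat_lit 720)) (Nat.ble (Nat.succ q) (nat_lit 720)))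
    (band (band (Nat.beq (act p q (Nat.land m (nat_lit 68719476735))) (Nat.land a (nat_lit 68719476735)))
      (Nat.beq (act p q (Nat.land w (nat_lit 68719476735))) (Nat.land b (nat_lit 68719476735))))
      (Nat.beq (Nat.land (Nat.shiftRight a (nat_lit 36)) (Nat.xor (Nat.shiftRight w (nat_lit 36))
        (Nat.xor (Nat.shiftRight b (nat_lit 36)) (Nat.xor (pr p) (pr q))))) (nat_lit 0)))

/-- Entry `e` of the table `X` is an image of an entry of `G` with an index below `j`. -/
noncomputable def extE (G j X C e : Nat) : Bool :=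
  band (Nat.ble (Nat.succ (Nat.shiftRight (cE C e) (nat_lit 20))) j)
    (imgE (ngM G (Nat.shiftRight (cE C e) (nat_lit 20))) (ngV G (Nat.shiftRight (cE C e) (nat_lit 20)))
      (Nat.land (cE C e) (nat_lit 1023)) (Nat.land (Nat.shiftRight (cE C e) (nat_lit 10)) (nat_lit 1023))
      (ngM X e) (ngV X e))

/-- All entries of `X`. -/
noncomputable def extA (G j X C n : Nat) : Bool :=
  @Nat.rec (fun _ => Bool) true (fun e ih => band ih (extE G j X C e)) n

/-- Entry `e` of the table `X` is an image of an entry of `G` with an index below `j`, or of its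
complement; certificates: `p`, `q` (10 bits each), flag of the complement, index. -/
noncomputable def ext2E (G j X C e : Nat) : Bool :=
  band (Nat.ble (Nat.succ (Nat.shiftRight (cE C e) (nat_lit 21))) j)
    (imgE (ngM G (Nat.shiftRight (cE C e) (nat_lit 21)))
      (Nat.xor (ngV G (Nat.shiftRight (cE C e) (nat_lit 21)))
        (Nat.mul (Nat.land (Nat.shiftRight (cE C e) (nat_lit 20)) (nat_lit 1))
          (ngM G (Nat.shiftRight (cE C e) (nat_lit 21)))))
      (Nat.land (cE C e) (nat_lit 1023)) (Nat.land (Nat.shiftRight (cE C e) (nat_lit 10)) (nat_lit 1023))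
      (ngM X e) (ngV X e))

/-- All entries of `X`. -/
noncomputable def ext2A (G j X C n : Nat) : Bool :=
  @Nat.rec (fun _ => Bool) true (fun e ih => band ih (ext2E G j X C e)) n

end Pool.Agent.H28.Z12.Cov
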