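import Mathlib
import Pool.Agent.H28.Z12.CoverDefs
import Pool.Agent.H77.Z12.Sigma

/-!
Soundness of the kernel evaluation of a cover of the 6 x 6 sign matrices (MP_1e71f9_co).
-/

set_option autoImplicit false

namespace Pool.Agent.H28.Z12.Cov

open Pool.Agent.H77.Z12

/-- Digit `j` of permutation `p`. -/
def dgt (p j : ℕ) : ℕ := dj (dig p) (3 * j)

theorem dgt_lt : ∀ p < 720, ∀ j < 6, dgt p j < 6 := by decide +kernel
theorem dgt_surj : ∀ p < 720, ∀ i < 6, ∃ j < 6, dgt p j = i := by decide +kernel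
theorem dgt_fix : ∀ m < 7, ∀ q < Nat.factorial m, ∀ k < m, dgt q k < m := by decide +kernel

/-- The sixth permutation as a permutation. -/
noncomputable def permOf (p : ℕ) : Equiv.Perm (Fin 6) :=
  if h : p < 720 then Equiv.ofBijective (fun j : Fin 6 => (⟨dgt p j, dgt_lt p h j j.2⟩ : Fin 6)) (by
    rw [← Finite.surjective_iff_bijective]
    intro i
    obtain ⟨j, hj, e⟩ := dgt_surj p h i i.2
    exact ⟨⟨j, hj⟩, Fin.ext e⟩) else 1

theorem permOf_val {p : ℕ} (h : p < 720) (j : Fin 6) : ((permOf p j : Fin 6) : ℕ) = dgt p j := by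
  rw [permOf, dif_pos h]
  rfl

/-- Parity by inversions. -/
def inv6 (f : ℕ → ℕ) : Bool :=
  (xor (decide (f 1 < f 0)) (xor (decide (f 2 < f 0)) (xor (decide (f 3 < f 0)) (xor (decide (f 4 < f 0)) (xor (decide (f 5 < f 0)) (xor (decide (f 2 < f 1)) (xor (decide (f 3 < f 1)) (xor (decide (f 4 < f 1)) (xor (decide (f 5 < f 1)) (xor (decide (f 3 < f 2)) (xor (decide (f 4 < f 2)) (xor (decide (f 5 < f 2)) (xor (decide (f 4 < f 3)) (xor (decide (f 5 < f 3)) (decide (f 5 < f 4))))))))))))))))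

theorem pr_inv : ∀ p < 720, inv6 (dgt p) = decide (pr p = 1) := by decide +kernel
theorem pr_lt (p : ℕ) : pr p < 2 := by
  have : pr p = (Ptab >>> p) &&& 1 := rfl
  rw [this, Nat.and_one_is_mod]
  exact Nat.mod_lt _ (by norm_num)

/-- Units. -/
def U (b : Bool) : ℤˣ := cond b (-1) 1

theorem U_xor (a b : Bool) : U (xor a b) = U a * U b := by cases a <;> cases b <;> simp [U]

theorem U_decide (P : Prop) [Decidable P] : U (decide P) = if P then -1 else 1 := by
  by_cases h : P <;> simp [U, h]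

theorem U_iff (a : Bool) : decide (U a = -1) = a := by cases a <;> decide

theorem sign_eq (σ : Equiv.Perm (Fin 6)) :
    Equiv.Perm.sign σ = U (inv6 fun j => if h : j < 6 then (σ ⟨j, h⟩ : ℕ) else 0) := by
  have h0 : ∀ i j : Fin 6, i ≠ j → (if σ i < σ j then (1 : ℤˣ) else -1) =
      if (σ j : ℕ) < (σ i : ℕ) then -1 else 1 := by
    intro i j hij
    have hne : (σ i : ℕ) ≠ (σ j : ℕ) := fun h => hij (σ.injective (Fin.ext h))
    by_cases h : σ i < σ j
    · rw [if_pos h, if_neg]
      exact not_lt.2 (le_of_lt h)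
    · rw [if_neg h, if_pos]
      exact lt_of_le_of_ne (not_lt.1 h) (Ne.symm hne)
  have e0 : Finset.Ioi (0 : Fin 6) = {1, 2, 3, 4, 5} := by decide
  have e1 : Finset.Ioi (1 : Fin 6) = {2, 3, 4, 5} := by decide
  have e2 : Finset.Ioi (2 : Fin 6) = {3, 4, 5} := by decide
  have e3 : Finset.Ioi (3 : Fin 6) = {4, 5} := by decide
  have e4 : Finset.Ioi (4 : Fin 6) = {5} := by decide
  have e5 : Finset.Ioi (5 : Fin 6) = ∅ := by decide
  rw [Equiv.Perm.sign_eq_prod_prod_Ioi, Fin.prod_univ_six, e0, e1, e2, e3, e4, e5]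
  rw [Finset.prod_insert (by decide), Finset.prod_insert (by decide),
    Finset.prod_insert (by decide), Finset.prod_insert (by decide), Finset.prod_singleton,
    Finset.prod_insert (by decide), Finset.prod_insert (by decide),
    Finset.prod_insert (by decide), Finset.prod_singleton,
    Finset.prod_insert (by decide), Finset.prod_insert (by decide), Finset.prod_singleton,
    Finset.prod_insert (by decide), Finset.prod_singleton, Finset.prod_singleton,
    Finset.prod_empty, mul_one]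
  rw [h0 0 1 (by decide), h0 0 2 (by decide), h0 0 3 (by decide), h0 0 4 (by decide),
    h0 0 5 (by decide), h0 1 2 (by decide), h0 1 3 (by decide), h0 1 4 (by decide),
    h0 1 5 (by decide), h0 2 3 (by decide), h0 2 4 (by decide), h0 2 5 (by decide),
    h0 3 4 (by decide), h0 3 5 (by decide), h0 4 5 (by decide)]
  rw [inv6]
  simp only [U_xor, U_decide, mul_assoc]
  rfl

theorem par_permOf {p : ℕ} (h : p < 720) : par (permOf p) = decide (pr p = 1) := by
  rw [← pr_inv p h, par, sign_eq, U_iff]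
  have hf : ∀ j < 6, (if h : j < 6 then (permOf p ⟨j, h⟩ : ℕ) else 0) = dgt p j := by
    intro j hj
    rw [dif_pos hj, permOf_val h]
  rw [inv6, inv6, hf 0 (by norm_num), hf 1 (by norm_num), hf 2 (by norm_num), hf 3 (by norm_num),
    hf 4 (by norm_num), hf 5 (by norm_num)]

theorem par_mul (σ τ : Equiv.Perm (Fin 6)) : par (σ * τ) = xor (par σ) (par τ) := by
  rw [par, sign_eq σ |> fun _ => Equiv.Perm.sign_mul σ τ, par, par]
  rcases Int.units_eq_one_or (Equiv.Perm.sign σ) with h | h <;>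
    rcases Int.units_eq_one_or (Equiv.Perm.sign τ) with h' | h' <;> rw [h, h'] <;> decide

theorem act_act (ρ γ ρ' γ' : Equiv.Perm (Fin 6)) (s : St36) :
    actS ρ' γ' (actS ρ γ s) = actS (ρ * ρ') (γ * γ') s := by
  refine Prod.ext rfl ?_
  show xor (xor s.2 (xor (par ρ) (par γ))) (xor (par ρ') (par γ')) =
    xor s.2 (xor (par (ρ * ρ')) (par (γ * γ')))
  rw [par_mul, par_mul]
  cases s.2 <;> cases par ρ <;> cases par γ <;> cases par ρ' <;> cases par γ' <;> rfl


/-! ### Bits -/

theorem tb_const : ∀ n < 36, (1090785345 : ℕ).testBit n = decide (n % 6 = 0) := by decide +kernel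
theorem tb_const' (n : ℕ) (h : 36 ≤ n) : (1090785345 : ℕ).testBit n = false :=
  Nat.testBit_lt_two_pow (lt_of_lt_of_le (by norm_num : (1090785345 : ℕ) < 2 ^ 36)
    (Nat.pow_le_pow_right (by norm_num) h))

theorem cj_tb (D X a j k l : ℕ) (hj : j < 6) (hk : k < 6) (hl : l < 6) :
    (cj D X a j).testBit (6 * k + l) = (decide (l = j) && X.testBit (6 * k + dj D a)) := by
  have e : cj D X a j = ((X >>> dj D a) &&& 1090785345) <<< j := rfl
  rw [e, Nat.testBit_shiftLeft, Nat.testBit_and, Nat.testBit_shiftRight]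
  by_cases h : 6 * k + l ≥ j
  · rw [decide_eq_true h, Bool.true_and, tb_const _ (by omega)]
    by_cases hlj : l = j
    · subst hlj
      rw [decide_eq_true rfl, decide_eq_true (by omega : (6 * k + l - l) % 6 = 0),
        Bool.and_true, Bool.true_and]
      congr 1
      omega
    · rw [decide_eq_false hlj, decide_eq_false (by omega), Bool.and_false, Bool.false_and]
  · rw [decide_eq_false h, Bool.false_and, decide_eq_false (by omega), Bool.false_and]

theorem cj_tb' (D X a j n : ℕ) (hj : j < 6) (hn : 36 ≤ n) :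
    (cj D X a j).testBit n = false := by
  have e : cj D X a j = ((X >>> dj D a) &&& 1090785345) <<< j := rfl
  rw [e, Nat.testBit_shiftLeft, Nat.testBit_and]
  by_cases h36 : 36 ≤ n - j
  · rw [tb_const' _ h36, Bool.and_false, Bool.and_false]
  · rw [tb_const _ (by omega), decide_eq_false (by omega : ¬ (n - j) % 6 = 0), Bool.and_false, Bool.and_false]

theorem or6 (a0 a1 a2 a3 a4 a5 n : ℕ) :
    (Nat.lor (Nat.lor (Nat.lor a0 a1) (Nat.lor a2 a3)) (Nat.lor a4 a5)).testBit n =
      (a0.testBit n || a1.testBit n || a2.testBit n || a3.testBit n || a4.testBit n ||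
        a5.testBit n) := by
  have e : Nat.lor (Nat.lor (Nat.lor a0 a1) (Nat.lor a2 a3)) (Nat.lor a4 a5) =
    ((a0 ||| a1) ||| (a2 ||| a3)) ||| (a4 ||| a5) := rfl
  rw [e]
  simp only [Nat.testBit_or]
  cases a0.testBit n <;> cases a1.testBit n <;> cases a2.testBit n <;> cases a3.testBit n <;>
    cases a4.testBit n <;> rfl

theorem cperm_tb (D X k l : ℕ) (hk : k < 6) (hl : l < 6) :
    (cperm D X).testBit (6 * k + l) = X.testBit (6 * k + dj D (3 * l)) := by
  rw [cperm, or6]
  have h := fun a j (hj : j < 6) => cj_tb D X a j k l hj hk hl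
  rw [h 0 0 (by norm_num), h 3 1 (by norm_num), h 6 2 (by norm_num), h 9 3 (by norm_num),
    h 12 4 (by norm_num), h 15 5 (by norm_num)]
  interval_cases l <;> simp

theorem tb_63 (n : ℕ) : (63 : ℕ).testBit n = decide (n < 6) := by
  have : (63 : ℕ) = 2 ^ 6 - 1 := by norm_num
  rw [this, Nat.testBit_two_pow_sub_one]

theorem rk_tb (D X a k k' l : ℕ) (hl : l < 6) :
    (rk D X a (6 * k)).testBit (6 * k' + l) =
      (decide (k' = k) && X.testBit (6 * dj D a + l)) := by
  have e : rk D X a (6 * k) = ((X >>> (6 * dj D a)) &&& 63) <<< (6 * k) := rfl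
  rw [e, Nat.testBit_shiftLeft, Nat.testBit_and, Nat.testBit_shiftRight, tb_63]
  by_cases h : 6 * k' + l ≥ 6 * k
  · rw [decide_eq_true h, Bool.true_and]
    by_cases hkk : k' = k
    · subst hkk
      rw [decide_eq_true rfl, decide_eq_true (by omega), Bool.and_true, Bool.true_and]
      congr 1
      omega
    · rw [decide_eq_false hkk, decide_eq_false (by omega), Bool.and_false, Bool.false_and]
  · rw [decide_eq_false h, Bool.false_and, decide_eq_false (by omega), Bool.false_and]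

theorem rk_tb' (D X a k n : ℕ) (hk : k < 6) (hn : 36 ≤ n) :
    (rk D X a (6 * k)).testBit n = false := by
  have e : rk D X a (6 * k) = ((X >>> (6 * dj D a)) &&& 63) <<< (6 * k) := rfl
  rw [e, Nat.testBit_shiftLeft, Nat.testBit_and, tb_63,
    decide_eq_false (by omega : ¬ n - 6 * k < 6), Bool.and_false, Bool.and_false]

theorem rperm_tb (D X k l : ℕ) (hk : k < 6) (hl : l < 6) :
    (rperm D X).testBit (6 * k + l) = X.testBit (6 * dj D (3 * k) + l) := by
  rw [rperm, or6]
  have h := fun a b => rk_tb D X a b k l hl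
  rw [show rk D X (nat_lit 0) (nat_lit 0) = rk D X 0 (6 * 0) from rfl,
    show rk D X (nat_lit 3) (nat_lit 6) = rk D X 3 (6 * 1) from rfl,
    show rk D X (nat_lit 6) (nat_lit 12) = rk D X 6 (6 * 2) from rfl,
    show rk D X (nat_lit 9) (nat_lit 18) = rk D X 9 (6 * 3) from rfl,
    show rk D X (nat_lit 12) (nat_lit 24) = rk D X 12 (6 * 4) from rfl,
    show rk D X (nat_lit 15) (nat_lit 30) = rk D X 15 (6 * 5) from rfl]
  rw [h, h, h, h, h, h]
  interval_cases k <;> simp

theorem rperm_tb' (D X n : ℕ) (hn : 36 ≤ n) : (rperm D X).testBit n = false := by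
  rw [rperm, or6]
  have h := fun a b hb => rk_tb' D X a b n hb hn
  rw [show rk D X (nat_lit 0) (nat_lit 0) = rk D X 0 (6 * 0) from rfl,
    show rk D X (nat_lit 3) (nat_lit 6) = rk D X 3 (6 * 1) from rfl,
    show rk D X (nat_lit 6) (nat_lit 12) = rk D X 6 (6 * 2) from rfl,
    show rk D X (nat_lit 9) (nat_lit 18) = rk D X 9 (6 * 3) from rfl,
    show rk D X (nat_lit 12) (nat_lit 24) = rk D X 12 (6 * 4) from rfl,
    show rk D X (nat_lit 15) (nat_lit 30) = rk D X 15 (6 * 5) from rfl]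
  rw [h _ _ (by norm_num), h _ _ (by norm_num), h _ _ (by norm_num), h _ _ (by norm_num),
    h _ _ (by norm_num), h _ _ (by norm_num)]
  rfl

theorem act_tb {p q : ℕ} (X : ℕ) (hp : p < 720) (hq : q < 720) (k j : Fin 6) :
    (act p q X).testBit (6 * k + j) = X.testBit (6 * (permOf q k : ℕ) + (permOf p j : ℕ)) := by
  rw [act, rperm_tb _ _ _ _ k.2 j.2, permOf_val hq, permOf_val hp]
  have h1 : dj (dig q) (3 * (k : ℕ)) = dgt q k := rfl
  have h2 : dj (dig p) (3 * (j : ℕ)) = dgt p j := rfl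
  rw [h1, cperm_tb _ _ _ _ (dgt_lt q hq k k.2) j.2, h2]

theorem act_tb' (p q X n : ℕ) (hn : 36 ≤ n) : (act p q X).testBit n = false :=
  rperm_tb' _ _ _ hn

/-! ### Rows -/

/-- Bit `i` of a state. -/
def sb (s : St36) (i : ℕ) : Bool :=
  if h : i / 6 < 6 then s.1 ⟨i / 6, h⟩ ⟨i % 6, Nat.mod_lt _ (by norm_num)⟩ else false

/-- The first `t` rows of a state. -/
def pk (t : ℕ) (s : St36) : ℕ := Nat.ofBits (n := 6 * t) fun i => sb s i

theorem pk_tb (t : ℕ) (s : St36) (i : ℕ) : (pk t s).testBit i = (decide (i < 6 * t) && sb s i) := by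
  by_cases h : i < 6 * t
  · rw [pk, Nat.testBit_ofBits_lt _ _ h, decide_eq_true h, Bool.true_and]
  · rw [pk, Nat.testBit_ofBits_ge _ _ (not_lt.1 h), decide_eq_false h, Bool.false_and]

theorem sb_val (s : St36) (k j : Fin 6) : sb s (6 * k + j) = s.1 k j := by
  have h1 : (6 * (k : ℕ) + j) / 6 = k := by omega
  have h2 : (6 * (k : ℕ) + j) % 6 = j := by omega
  have h3 : (6 * (k : ℕ) + j) / 6 < 6 := by rw [h1]; exact k.2
  rw [sb, dif_pos h3]
  have h4 : ∀ a b : Fin 6, a = k → b = j → s.1 a b = s.1 k j := by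
    rintro a b rfl rfl
    rfl
  exact h4 _ _ (Fin.ext h1) (Fin.ext h2)

theorem pk_val (t : ℕ) (s : St36) (k j : Fin 6) (hk : (k : ℕ) < t) :
    (pk t s).testBit (6 * k + j) = s.1 k j := by
  rw [pk_tb, sb_val, decide_eq_true (by omega), Bool.true_and]

theorem pk_lt (t : ℕ) (s : St36) : pk t s < 2 ^ (6 * t) := Nat.ofBits_lt_two_pow _

/-! ### Reading the checks -/

theorem band_eq (a b : Bool) : band a b = (a && b) := by cases a <;> cases b <;> rfl

theorem band_iff (a b : Bool) : band a b = true ↔ a = true ∧ b = true := by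
  rw [band_eq, Bool.and_eq_true]

theorem sel_zero (a b : Bool) : sel 0 a b = a := rfl

theorem sel_ne {f : ℕ} (hf : f ≠ 0) (a b : Bool) : sel f a b = b := by
  have h : Nat.beq f 0 = false := by
    rw [← Bool.not_eq_true]
    intro h
    exact hf (Nat.eq_of_beq_eq_true h)
  show @Bool.rec (fun _ => Bool) b a (Nat.beq f 0) = b
  rw [h]

theorem beq_iff (a b : ℕ) : Nat.beq a b = true ↔ a = b :=
  ⟨Nat.eq_of_beq_eq_true, fun h => by rw [h]; exact Nat.beq_refl _⟩

theorem ble_iff (a b : ℕ) : Nat.ble a b = true ↔ a ≤ b :=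
  ⟨Nat.le_of_ble_eq_true, Nat.ble_eq_true_of_le⟩

/-- The nogood `i` is satisfied by `Y`. -/
def NgOK (G nG Y : ℕ) (i : ℕ) : Prop := i < nG ∧ Y &&& ngM G i = ngV G i

/-- A matrix with `t + 1` rows is equivalent to an entry of `L` or satisfies a nogood. -/
def StepOK (L nL G nG m F X : ℕ) : Prop :=
  ∃ p < 720, ∃ q < F, (∃ i < nL, act p q X &&& m = ent L i) ∨
    (∃ i, ngM G i &&& m = ngM G i ∧ NgOK G nG (act p q X) i)

/-- A full matrix with a sign satisfies a nogood. -/
def FinOK (G nG X d : ℕ) : Prop :=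
  ∃ p < 720, ∃ q < 720, ∃ i, NgOK G nG (act p q X ||| ((d ^^^ (pr p ^^^ pr q)) <<< 36)) i

theorem ngE_spec {G n Y i : ℕ} (h : ngE G n Y i = true) : NgOK G n Y i := by
  rw [ngE, band_iff, ble_iff, beq_iff] at h
  exact ⟨h.1, h.2⟩

theorem stepE_spec {L nL G nG m F X c : ℕ} (h : stepE L nL G nG m F X c = true) :
    StepOK L nL G nG m F X := by
  rw [stepE, band_iff, band_iff, ble_iff, ble_iff] at h
  obtain ⟨⟨h1, h2⟩, h3⟩ := h
  refine ⟨_, h1, _, h2, ?_⟩
  revert h3
  generalize act _ _ X = Y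
  generalize Nat.land (Nat.shiftRight c 20) 1 = f
  generalize Nat.shiftRight c 21 = i
  intro h3
  rw [stepT] at h3
  by_cases hf : f = 0
  · subst hf
    rw [sel_zero, band_iff, ble_iff, beq_iff] at h3
    exact Or.inl ⟨i, h3.1, h3.2⟩
  · rw [sel_ne hf, band_iff, beq_iff] at h3
    exact Or.inr ⟨i, h3.1, ngE_spec h3.2⟩

theorem stepA_spec {L nL G nG m F s A C : ℕ} : ∀ {n : ℕ}, stepA L nL G nG m F s A C n = true →
    ∀ r < n, StepOK L nL G nG m F (A ||| r <<< s)
  | 0, _, r, hr => absurd hr (Nat.not_lt_zero r)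
  | n + 1, h, r, hr => by
    have h' : band (stepA L nL G nG m F s A C n)
      (stepE L nL G nG m F (Nat.lor A (Nat.shiftLeft n s))
      (Nat.land (Nat.shiftRight C (Nat.mul 40 n)) 1099511627775)) = true := h
    rw [band_iff] at h'
    rcases Nat.lt_succ_iff_lt_or_eq.1 hr with hr | rfl
    · exact stepA_spec h'.1 r hr
    · exact stepE_spec h'.2

theorem step_spec {K L nL G nG m F s a C : ℕ} : ∀ {n : ℕ},
    step K L nL G nG m F s a C n = true →
    ∀ i < n, ∀ r < 64, StepOK L nL G nG m F (ent K (a + i) ||| r <<< s)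
  | 0, _, i, hi => absurd hi (Nat.not_lt_zero i)
  | n + 1, h, i, hi => by
    have h' : band (step K L nL G nG m F s a C n)
      (stepA L nL G nG m F s (ent K (Nat.add a n)) (Nat.land (Nat.shiftRight C (Nat.mul 2560 n)) m2560) 64) = true := h
    rw [band_iff] at h'
    rcases Nat.lt_succ_iff_lt_or_eq.1 hi with hi | rfl
    · exact step_spec h'.1 i hi
    · exact stepA_spec h'.2

theorem finE_spec {G nG X d c : ℕ} (h : finE G nG X d c = true) : FinOK G nG X d := by
  rw [finE, band_iff, band_iff, ble_iff, ble_iff] at h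
  obtain ⟨⟨h1, h2⟩, h3⟩ := h
  exact ⟨_, h1, _, h2, _, ngE_spec h3⟩

theorem finA_spec {G nG A C : ℕ} : ∀ {n : ℕ}, finA G nG A C n = true →
    ∀ r < n, FinOK G nG (A ||| r <<< 30) 0 ∧ FinOK G nG (A ||| r <<< 30) 1
  | 0, _, r, hr => absurd hr (Nat.not_lt_zero r)
  | n + 1, h, r, hr => by
    have h' : band (finA G nG A C n)
      (band (finE G nG (Nat.lor A (Nat.shiftLeft n 30)) 0
        (Nat.land (Nat.shiftRight C (Nat.mul 80 n)) 1099511627775))
      (finE G nG (Nat.lor A (Nat.shiftLeft n 30)) 1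
        (Nat.land (Nat.shiftRight C (Nat.add (Nat.mul 80 n) 40)) 1099511627775))) = true := h
    rw [band_iff, band_iff] at h'
    rcases Nat.lt_succ_iff_lt_or_eq.1 hr with hr | rfl
    · exact finA_spec h'.1 r hr
    · exact ⟨finE_spec h'.2.1, finE_spec h'.2.2⟩

theorem fin_spec {K G nG a C : ℕ} : ∀ {n : ℕ}, fin K G nG a C n = true →
    ∀ i < n, ∀ r < 64, FinOK G nG (ent K (a + i) ||| r <<< 30) 0 ∧
      FinOK G nG (ent K (a + i) ||| r <<< 30) 1
  | 0, _, i, hi => absurd hi (Nat.not_lt_zero i)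
  | n + 1, h, i, hi => by
    have h' : band (fin K G nG a C n)
      (finA G nG (ent K (Nat.add a n)) (Nat.land (Nat.shiftRight C (Nat.mul 5120 n)) m5120) 64) = true := h
    rw [band_iff] at h'
    rcases Nat.lt_succ_iff_lt_or_eq.1 hi with hi | rfl
    · exact fin_spec h'.1 i hi
    · exact finA_spec h'.2

/-! ### The induction -/

/-- Some permuted nogood is satisfied. -/
def Hit (G nG : ℕ) (s : St36) : Prop :=
  ∃ ρ γ : Equiv.Perm (Fin 6), ∃ i < nG, Sat (ngM G i) (ngV G i) (actS ρ γ s)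

/-- Up to permutations the first `t` rows are an entry of `K`. -/
def Lay (G nG t K n : ℕ) : Prop := ∀ s : St36, ¬ Hit G nG s →
  ∃ ρ γ : Equiv.Perm (Fin 6), ∃ i < n, pk t (actS ρ γ s) = ent K i

theorem hit_act {G nG : ℕ} {ρ γ : Equiv.Perm (Fin 6)} {s : St36}
    (h : Hit G nG (actS ρ γ s)) : Hit G nG s := by
  obtain ⟨ρ', γ', i, hi, h⟩ := h
  rw [act_act] at h
  exact ⟨_, _, i, hi, h⟩

theorem lay_zero (G nG : ℕ) : Lay G nG 0 0 1 := fun s _ =>
  ⟨1, 1, 0, one_pos, by
    have h := pk_lt 0 (actS 1 1 s)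
    have h2 : ent 0 0 = 0 := by decide
    rw [h2]
    omega⟩

/-- A set bit of a submask. -/
theorem tb_of_and {a m i : ℕ} (h : a &&& m = a) (hi : a.testBit i = true) :
    m.testBit i = true := by
  rw [← h, Nat.testBit_and, Bool.and_eq_true] at hi
  exact hi.2

theorem row_tb (A r s i : ℕ) (hA : A < 2 ^ s) :
    (A ||| r <<< s).testBit i = if i < s then A.testBit i else r.testBit (i - s) := by
  rw [Nat.testBit_or, Nat.testBit_shiftLeft]
  by_cases h : i < s
  · rw [if_pos h, decide_eq_false (by omega), Bool.false_and, Bool.or_false]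
  · rw [if_neg h, decide_eq_true (by omega), Bool.true_and,
      Nat.testBit_lt_two_pow (lt_of_lt_of_le hA (Nat.pow_le_pow_right (by norm_num)
        (not_lt.1 h))), Bool.false_or]

/-- The row `t` as a number. -/
def rowN (s : St36) (t : Fin 6) : ℕ := Nat.ofBits (n := 6) fun j => s.1 t j

theorem pk_succ (s : St36) (t : Fin 6) : pk ((t : ℕ) + 1) s = pk t s ||| rowN s t <<< (6 * (t : ℕ)) := by
  apply Nat.eq_of_testBit_eq
  intro i
  have h6 : rowN s t < 2 ^ 6 := Nat.ofBits_lt_two_pow _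
  rw [row_tb _ _ _ _ (pk_lt _ _), pk_tb, pk_tb]
  by_cases h : i < 6 * (t : ℕ)
  · rw [if_pos h, decide_eq_true h, decide_eq_true (by omega)]
  · rw [if_neg h]
    by_cases h2 : i < 6 * ((t : ℕ) + 1)
    · rw [decide_eq_true h2, Bool.true_and]
      have h3 : i - 6 * (t : ℕ) < 6 := by omega
      rw [rowN, Nat.testBit_ofBits_lt _ _ h3, ← sb_val s t ⟨i - 6 * (t : ℕ), h3⟩]
      congr 1
      show i = 6 * (t : ℕ) + (i - 6 * (t : ℕ))
      omega
    · rw [decide_eq_false h2, Bool.false_and]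
      symm
      apply Nat.testBit_lt_two_pow
      exact lt_of_lt_of_le h6 (Nat.pow_le_pow_right (by norm_num) (by omega))

/-- The permuted rows. -/
theorem act_pk {p q t : ℕ} (s : St36) (ht : t < 7) (hp : p < 720) (hq : q < Nat.factorial t)
    (k j : Fin 6) (hk : (k : ℕ) < t) :
    (act p q (pk t s)).testBit (6 * k + j) = (actS (permOf p) (permOf q) s).1 k j := by
  have hq' : q < 720 := lt_of_lt_of_le hq (Nat.factorial_le (by omega : t ≤ 6))
  have h1 : ((permOf q k : Fin 6) : ℕ) < t := by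
    rw [permOf_val hq']
    exact dgt_fix t ht q hq k hk
  rw [act_tb _ hp hq', pk_val _ _ _ _ h1]
  rfl

theorem act_pk_eq {p q t : ℕ} (s : St36) (ht : t < 7) (hp : p < 720) (hq : q < Nat.factorial t) :
    act p q (pk t s) &&& (2 ^ (6 * t) - 1) = pk t (actS (permOf p) (permOf q) s) := by
  apply Nat.eq_of_testBit_eq
  intro i
  rw [Nat.testBit_and, Nat.testBit_two_pow_sub_one, pk_tb]
  by_cases h : i < 6 * t
  · rw [decide_eq_true h, Bool.and_true, Bool.true_and]
    have hk : i / 6 < 6 := by omega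
    have hj : i % 6 < 6 := Nat.mod_lt _ (by norm_num)
    have h' := act_pk s ht hp hq ⟨i / 6, hk⟩ ⟨i % 6, hj⟩ (by show i / 6 < t; omega)
    rw [← sb_val] at h'
    have e : 6 * (((⟨i / 6, hk⟩ : Fin 6) : ℕ)) + (((⟨i % 6, hj⟩ : Fin 6) : ℕ)) = i := by
      show 6 * (i / 6) + i % 6 = i
      omega
    rw [e] at h'
    exact h'
  · rw [decide_eq_false h, Bool.and_false, Bool.false_and]

theorem lay_step {G nG K n L nL : ℕ} (t : Fin 6)
    (h : ∀ i < n, ∀ r < 64, StepOK L nL G nG (2 ^ (6 * ((t : ℕ) + 1)) - 1)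
      (Nat.factorial ((t : ℕ) + 1)) (ent K i ||| r <<< (6 * (t : ℕ))))
    (hK : Lay G nG t K n) : Lay G nG ((t : ℕ) + 1) L nL := by
  intro s hs
  obtain ⟨ρ, γ, i, hi, he⟩ := hK s hs
  set s' := actS ρ γ s with hs'
  have h6 : rowN s' t < 64 := by
    have : rowN s' t < 2 ^ 6 := Nat.ofBits_lt_two_pow _
    exact this
  obtain ⟨p, hp, q, hq, hh⟩ := h i hi (rowN s' t) h6
  rw [← he, ← pk_succ] at hh
  have ht : (t : ℕ) + 1 < 7 := by omega
  rcases hh with ⟨i', hi', he'⟩ | ⟨i', hm, hi', hv⟩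
  · rw [act_pk_eq s' ht hp hq] at he'
    refine ⟨ρ * permOf p, γ * permOf q, i', hi', ?_⟩
    rw [← act_act]
    exact he'
  · exfalso
    apply hs
    refine hit_act (ρ := ρ) (γ := γ) (hit_act (ρ := permOf p) (γ := permOf q) ?_)
    rw [← hs']
    refine ⟨1, 1, i', hi', ?_, ?_⟩
    · intro k j hkj
      have h1 := tb_of_and hm hkj
      rw [Nat.testBit_two_pow_sub_one, decide_eq_true_eq] at h1
      have h2 : (k : ℕ) < (t : ℕ) + 1 := by omega
      have h3 := act_pk s' ht hp hq k j h2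
      show (actS (permOf p) (permOf q) s').1 k j = _
      rw [← h3, ← hv, Nat.testBit_and, hkj, Bool.and_true]
    · intro h36
      have h1 := tb_of_and hm h36
      rw [Nat.testBit_two_pow_sub_one, decide_eq_true_eq] at h1
      omega

theorem pr_xor {p q : ℕ} (d : Bool) (hp : p < 720) (hq : q < 720) :
    (d.toNat ^^^ (pr p ^^^ pr q)).testBit 0 =
      xor d (xor (par (permOf p)) (par (permOf q))) := by
  rw [par_permOf hp, par_permOf hq]
  have h1 := pr_lt p
  have h2 := pr_lt q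
  interval_cases h3 : pr p <;> interval_cases h4 : pr q <;> cases d <;> decide

theorem hit_all {G nG K n : ℕ} (hK : Lay G nG 5 K n)
    (h : ∀ i < n, ∀ r < 64, FinOK G nG (ent K i ||| r <<< 30) 0 ∧
      FinOK G nG (ent K i ||| r <<< 30) 1) (s : St36) : Hit G nG s := by
  by_contra hs
  obtain ⟨ρ, γ, i, hi, he⟩ := hK s hs
  set s' := actS ρ γ s with hs'
  have h6 : rowN s' 5 < 64 := by
    have : rowN s' 5 < 2 ^ 6 := Nat.ofBits_lt_two_pow _
    exact this
  have hd : FinOK G nG (ent K i ||| rowN s' 5 <<< 30) s'.2.toNat := by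
    have := h i hi (rowN s' 5) h6
    cases s'.2
    · exact this.1
    · exact this.2
  have e5 : ent K i ||| rowN s' 5 <<< 30 = pk 6 s' := by
    rw [← he]
    exact (pk_succ s' 5).symm
  rw [e5] at hd
  obtain ⟨p, hp, q, hq, i', hi', hv⟩ := hd
  apply hs
  refine hit_act (ρ := ρ) (γ := γ) (hit_act (ρ := permOf p) (γ := permOf q) ?_)
  rw [← hs']
  refine ⟨1, 1, i', hi', ?_, ?_⟩
  · intro k j hkj
    have h3 := act_pk (t := 6) s' (by norm_num) hp hq k j k.2
    show (actS (permOf p) (permOf q) s').1 k j = _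
    rw [← h3, ← hv, Nat.testBit_and, hkj, Bool.and_true, Nat.testBit_or, Nat.testBit_shiftLeft,
      decide_eq_false (by omega), Bool.false_and, Bool.or_false]
  · intro h36
    have e0 : (actS 1 1 (actS (permOf p) (permOf q) s')).2 =
        xor s'.2 (xor (par (permOf p)) (par (permOf q))) := by
      have h1 : par 1 = false := by
        rw [par, map_one]
        decide
      show xor (xor s'.2 (xor (par (permOf p)) (par (permOf q)))) (xor (par 1) (par 1)) = _
      rw [h1, Bool.xor_false, Bool.xor_false]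
    rw [e0, ← pr_xor _ hp hq, ← hv, Nat.testBit_and, h36, Bool.and_true, Nat.testBit_or,
      act_tb' _ _ _ _ (le_refl _), Bool.false_or, Nat.testBit_shiftLeft, decide_eq_true (le_refl _),
      Bool.true_and, Nat.sub_self]

/-- **The covering hypothesis.** -/
theorem cover_of_hit {G nG : ℕ} (h : ∀ s, Hit G nG s) (s : St36) :
    ∃ ρ γ : Equiv.Perm (Fin 6), ∃ p ∈ (List.range nG).map fun i => (ngM G i, ngV G i),
      Sat p.1 p.2 (actS ρ γ s) := by
  obtain ⟨ρ, γ, i, hi, hs⟩ := h s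
  exact ⟨ρ, γ, (ngM G i, ngV G i), List.mem_map.2 ⟨i, List.mem_range.2 hi, rfl⟩, hs⟩

/-- A step with explicit numbers. -/
theorem lay_step' {G nG K n L nL t m F s : ℕ} (ht : t < 6) (hm : 2 ^ (6 * (t + 1)) - 1 = m)
    (hF : Nat.factorial (t + 1) = F) (hs : 6 * t = s)
    (h : ∀ i < n, ∀ r < 64, StepOK L nL G nG m F (ent K i ||| r <<< s))
    (hK : Lay G nG t K n) : Lay G nG (t + 1) L nL := by
  subst hm hF hs
  exact lay_step ⟨t, ht⟩ h hK

/-- A range of a step. -/
theorem step_use {K L nL G nG m F s a C n b : ℕ} (h : step K L nL G nG m F s a C n = true)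
    (hb : a + n = b) {i : ℕ} (ha : a ≤ i) (hi : i < b) (r : ℕ) (hr : r < 64) :
    StepOK L nL G nG m F (ent K i ||| r <<< s) := by
  have h2 := step_spec h (i - a) (by omega) r hr
  have e : a + (i - a) = i := by omega
  rw [e] at h2
  exact h2

/-- A range of the last step. -/
theorem fin_use {K G nG a C n b : ℕ} (h : fin K G nG a C n = true)
    (hb : a + n = b) {i : ℕ} (ha : a ≤ i) (hi : i < b) (r : ℕ) (hr : r < 64) :
    FinOK G nG (ent K i ||| r <<< 30) 0 ∧ FinOK G nG (ent K i ||| r <<< 30) 1 := by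
  have h2 := fin_spec h (i - a) (by omega) r hr
  have e : a + (i - a) = i := by omega
  rw [e] at h2
  exact h2

/-- **No bad configuration from a covering.** -/
theorem not_bad_of_hit {G nG : ℕ} (h : ∀ s, Hit G nG s)
    (href : ∀ i < nG, Ref36 (ngM G i) (ngV G i)) (v : Fin 12 → Fin 6 → ℝ) :
    ¬ Bad v := by
  refine not_bad_of_cover _ ?_ (cover_of_hit h) v
  intro p hp
  obtain ⟨i, hi, rfl⟩ := List.mem_map.1 hp
  exact href i (List.mem_range.1 hi)

end Pool.Agent.H28.Z12.Cov
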