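import Mathlib
import Pool.Agent.H28.Z12.Base
import Pool.Agent.H77.Z12.Types

/-!
From checked blocks to the exclusion of relative types (MP_1e71f9_co).
-/

set_option autoImplicit false

namespace Pool.Agent.H28.Z12

open Pool.Agent.H77.Z12 Pool.Agent.H13.Z12

variable {χ T : ℕ → Bool}

/-- State between two blocks: the literals of `U` are false, the clauses of a table are true. -/
def St (χ T : ℕ → Bool) (U off lits n : ℕ) : Prop :=
  Fa χ T U ∧ ∀ i < n, Cl χ T (lmask off lits i)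

theorem St.start {U off lits : ℕ} (h : Fa χ T U) : St χ T U off lits 0 :=
  ⟨h, fun i hi => absurd hi (Nat.not_lt_zero i)⟩

theorem St.step {G : ℕ → ℕ} (hG : ∀ c, Cl χ T (G c)) {ent : ℕ → ℕ}
    {bt nb poff plits np off lits n c hs U V coff clits nc ix : ℕ}
    (he : ent = ent3 G bt nb poff plits np off lits) (hc : c + 1 = nb + np)
    (h : blk ent n c hs U V coff clits nc ix = true) (s : St χ T U poff plits np) :
    St χ T V coff clits nc := by
  have hc' : c = nb + np - 1 := by omega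
  rw [he, hc'] at h
  have := block_sound hG (by omega) s.2 s.1 h
  exact ⟨this.2, this.1⟩

theorem St.last {V : ℕ} (s : St χ T V 0 0 1) : False := by
  have h := s.2 0 (by norm_num)
  have e : lmask 0 0 0 = 0 := by decide +kernel
  rw [e] at h
  exact Cl_zero h

theorem ent_zero {P m j : ℕ} (hP : P < 2 ^ (24 * m)) (hj : m ≤ j) :
    entB P j = 0 ∧ entS P j = 0 := by
  have h : ∀ k, 24 * m ≤ k → P >>> k = 0 := by
    intro k hk
    rw [Nat.shiftRight_eq_div_pow]
    exact Nat.div_eq_of_lt (lt_of_lt_of_le hP (Nat.pow_le_pow_right (by norm_num) hk))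
  constructor
  · change (P >>> (24 * j)) &&& 4095 = 0
    rw [h _ (by omega), Nat.zero_and]
  · change (P >>> (24 * j + 12)) &&& 4095 = 0
    rw [h _ (by omega), Nat.zero_and]

theorem hP_of {P m : ℕ} (hP : P < 2 ^ (24 * m)) (h : ∀ j < m, Simp χ (entB P j) (entS P j))
    (j : ℕ) : Simp χ (entB P j) (entS P j) := by
  rcases Nat.lt_or_ge j m with hj | hj
  · exact h j hj
  · obtain ⟨e1, e2⟩ := ent_zero hP hj
    rw [e1, e2]
    intro b _ hb
    simp at hb

theorem hN_of {N m : ℕ} (hN : N < 2 ^ (24 * m))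
    (h : ∀ j < m, pc (entB N j) = 6 → ¬ Simp χ (entB N j) (entS N j)) (j : ℕ) :
    pc (entB N j) = 6 → ¬ Simp χ (entB N j) (entS N j) := by
  rcases Nat.lt_or_ge j m with hj | hj
  · exact h j hj
  · obtain ⟨e1, -⟩ := ent_zero hN hj
    rw [e1]
    intro h0
    exact absurd h0 (by decide)

theorem hP_two {P : ℕ} {C t : ℕ} (hP : P < 2 ^ 48) (e0 : entB P 0 = 63) (f0 : entS P 0 = 4095)
    (e1 : entB P 1 = C) (f1 : entS P 1 = t) (h0 : Simp χ 63 4095) (h1 : Simp χ C t) (j : ℕ) :
    Simp χ (entB P j) (entS P j) := by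
  refine hP_of (m := 2) (by simpa using hP) (fun j hj => ?_) j
  interval_cases j
  · rw [e0, f0]; exact h0
  · rw [e1, f1]; exact h1

theorem hN_zero (j : ℕ) : pc (entB 0 j) = 6 → ¬ Simp χ (entB 0 j) (entS 0 j) :=
  hN_of (m := 0) (by norm_num) (fun j hj => absurd hj (Nat.not_lt_zero j)) j

/-- The unit fact `chi 63`. -/
theorem fa_63 (h : χ 63 = true) : Fa χ T (2 ^ (4096 + 63)) := by
  intro i hi hl
  rw [Nat.testBit_two_pow, decide_eq_true_iff] at hi
  subst hi
  rcases hl with ⟨a, b⟩ | ⟨a, b, c⟩ | ⟨a, b, c⟩ | ⟨a, b, c⟩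
  · omega
  · have e : 4096 + 63 - 4096 = 63 := by omega
    rw [e, h] at c
    exact Bool.noConfusion c
  · omega
  · omega

end Pool.Agent.H28.Z12
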