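import Mathlib
import Pool.Agent.H28.Z12.Asm
import Pool.Agent.H77.Z12.Sigma
import Pool.Agent.H28.Z12.CoverDefs

/-!
From checked blocks to refuted nogoods (MP_1e71f9_co).
-/

set_option autoImplicit false

namespace Pool.Agent.H28.Z12

open Pool.Agent.H77.Z12 Pool.Agent.H13.Z12

variable {χ T : ℕ → Bool}

/-- The value of the sign of the basis `(k, j)` given by a nogood. -/
def uv (w k j : ℕ) : Bool :=
  xor (xor (ipm (mS k) j) (ipm (mS k) (6 + k))) (xor (w.testBit 36) (!(w.testBit (6 * k + j))))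

/-- The false literal of the sign `i` with value `b`. -/
def fl (i : ℕ) (b : Bool) : ℕ := if b = true then 2 ^ (4096 + i) else 2 ^ i

/-- The false literal of `(k, j)`. -/
def uLit (m w k j : ℕ) : ℕ := if m.testBit (6 * k + j) = true then fl (mS k ||| 2 ^ j) (uv w k j) else 0

/-- The false literals of a nogood. -/
def mkU (m w : ℕ) : ℕ := (List.range 36).foldl (fun a i => a ||| uLit m w (i / 6) (i % 6))
  (2 ^ (4096 + 63) ||| fl 4032 (w.testBit 36))

theorem fa_fl {i : ℕ} {b : Bool} (hi : i < 4096) (h : χ i = b) : Fa χ T (fl i b) := by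
  intro k hk hl
  unfold fl at hk
  cases b
  · rw [if_neg (by decide), Nat.testBit_two_pow, decide_eq_true_iff] at hk
    subst hk
    rcases hl with ⟨a, b⟩ | ⟨a, b, c⟩ | ⟨a, b, c⟩ | ⟨a, b, c⟩
    · rw [h] at b; exact Bool.noConfusion b
    · omega
    · omega
    · omega
  · rw [if_pos rfl, Nat.testBit_two_pow, decide_eq_true_iff] at hk
    subst hk
    rcases hl with ⟨a, b⟩ | ⟨a, b, c⟩ | ⟨a, b, c⟩ | ⟨a, b, c⟩
    · omega
    · have e : 4096 + i - 4096 = i := by omega
      rw [e, h] at c; exact Bool.noConfusion c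
    · omega
    · omega

theorem mS_or : ∀ k : Fin 6, (mS k ||| 2 ^ (6 + (k : ℕ))) = 4032 ∧
    ∀ j : Fin 6, (mS k ||| 2 ^ (j : ℕ)) < 4096 := by decide +kernel

theorem fa_mkU {m w : ℕ} (h63 : χ 63 = true) (hd : χ 4032 = w.testBit 36)
    (hs : ∀ k j : Fin 6, m.testBit (6 * k + j) = true → sigma χ k j = w.testBit (6 * k + j)) :
    Fa χ T (mkU m w) := by
  have hu : ∀ k j : Fin 6, Fa χ T (uLit m w k j) := by
    intro k j
    unfold uLit
    by_cases h : m.testBit (6 * (k : ℕ) + j) = true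
    · rw [if_pos h]
      refine fa_fl ((mS_or k).2 j) ?_
      have h1 := hs k j h
      rw [sigma, csm, csm, (mS_or k).1, hd] at h1
      rw [uv, ← h1]
      cases χ (mS ↑k ||| 2 ^ (j : ℕ)) <;> cases ipm (mS ↑k) ↑j <;> cases w.testBit 36 <;>
        cases ipm (mS ↑k) (6 + ↑k) <;> rfl
    · rw [if_neg h]
      exact Fa_zero
  have hf : ∀ (l : List ℕ) (a : ℕ), Fa χ T a → (∀ i ∈ l, i < 36) →
      Fa χ T (l.foldl (fun a i => a ||| uLit m w (i / 6) (i % 6)) a) := by
    intro l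
    induction l with
    | nil => intro a ha _; exact ha
    | cons i l ih =>
      intro a ha hl
      rw [List.foldl_cons]
      refine ih _ (Fa_or ha ?_) fun i hi => hl i (List.mem_cons_of_mem _ hi)
      have hi := hl i List.mem_cons_self
      exact hu ⟨i / 6, by omega⟩ ⟨i % 6, Nat.mod_lt _ (by norm_num)⟩
  exact hf _ _ (Fa_or (fa_63 h63) (fa_fl (by norm_num) hd)) fun i hi => List.mem_range.1 hi

/-- **A nogood is refuted.** -/
theorem ref36_of {m w U : ℕ} (hm : m.testBit 36 = true) (hU : mkU m w = U)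
    (h : ∀ χ T : ℕ → Bool, Model χ T → Simp χ 63 4095 → Fa χ T U → False) : Ref36 m w := by
  intro χ T hM h63 hS hs hd
  exact h χ T hM hS (hU ▸ fa_mkU h63 (hd hm) hs)

/-- The hypotheses of the clause generator with the single simplex `63`. -/
theorem hP_one {P : ℕ} (hP : P < 2 ^ 24) (e0 : entB P 0 = 63) (f0 : entS P 0 = 4095)
    (h0 : Simp χ 63 4095) (j : ℕ) : Simp χ (entB P j) (entS P j) := by
  refine hP_of (m := 1) (by simpa using hP) (fun j hj => ?_) j
  interval_cases j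
  rw [e0, f0]
  exact h0

/-- The clauses of the chart. -/
theorem gen_one (hM : Model χ T) (h : Simp χ 63 4095) (c : ℕ) :
    Cl χ T (gen (nat_lit 16773183) (nat_lit 0) c) :=
  gen_cl hM (hP_one (by decide +kernel) (by decide +kernel) (by decide +kernel) h) hN_zero c

/-- The false literal of the sign of the basis with `b` replaced by `6 + k`. -/
def cLit (b k : ℕ) : ℕ :=
  fl ((63 ^^^ 2 ^ b) ||| 2 ^ (6 + k)) (xor (ipm (63 ^^^ 2 ^ b) (6 + k)) (!(ipm (63 ^^^ 2 ^ b) b)))

/-- The false literals of the chart. -/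
def chartU : ℕ := (List.range 36).foldl (fun a i => a ||| cLit (i / 6) (i % 6)) 0

theorem fa_chartU (h63 : χ 63 = true) (h : Simp χ 63 4095) : Fa χ T chartU := by
  have hfacts : ∀ b k : Fin 6, (63 : ℕ).testBit b = true ∧ (63 : ℕ).testBit (6 + (k : ℕ)) = false ∧
      ((63 : ℕ) ^^^ 2 ^ (b : ℕ)) ||| 2 ^ (b : ℕ) = 63 ∧ (4095 : ℕ).testBit b = true ∧
      (4095 : ℕ).testBit (6 + (k : ℕ)) = true ∧
      (((63 : ℕ) ^^^ 2 ^ (b : ℕ)) ||| 2 ^ (6 + (k : ℕ))) < 4096 := by decide +kernel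
  have hu : ∀ b k : Fin 6, Fa χ T (cLit b k) := by
    intro b k
    obtain ⟨h1, h2, h3, h4, h5, h6⟩ := hfacts b k
    refine fa_fl h6 ?_
    have h7 := h b (by omega) h1 (6 + k) (by omega) h2
    rw [csm, csm, h3, h63, h4, h5] at h7
    revert h7
    cases χ ((63 ^^^ 2 ^ (b : ℕ)) ||| 2 ^ (6 + (k : ℕ))) <;>
      cases ipm (63 ^^^ 2 ^ (b : ℕ)) (b : ℕ) <;>
      cases ipm (63 ^^^ 2 ^ (b : ℕ)) (6 + (k : ℕ)) <;> decide
  have hf : ∀ (l : List ℕ) (a : ℕ), Fa χ T a → (∀ i ∈ l, i < 36) →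
      Fa χ T (l.foldl (fun a i => a ||| cLit (i / 6) (i % 6)) a) := by
    intro l
    induction l with
    | nil => intro a ha _; exact ha
    | cons i l ih =>
      intro a ha hl
      rw [List.foldl_cons]
      refine ih _ (Fa_or ha ?_) fun i hi => hl i (List.mem_cons_of_mem _ hi)
      have hi := hl i List.mem_cons_self
      exact hu ⟨i / 6, by omega⟩ ⟨i % 6, Nat.mod_lt _ (by norm_num)⟩
  exact hf _ _ Fa_zero fun i hi => List.mem_range.1 hi

/-- **A nogood is refuted**, with the signs of the chart. -/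
theorem ref36_of' {m w U : ℕ} (hm : m.testBit 36 = true) (hU : mkU m w ||| chartU = U)
    (h : ∀ χ T : ℕ → Bool, Model χ T → Simp χ 63 4095 → Fa χ T U → False) : Ref36 m w := by
  intro χ T hM h63 hS hs hd
  exact h χ T hM hS (hU ▸ Fa_or (fa_mkU h63 (hd hm) hs) (fa_chartU h63 hS))

/-- Both signs of the determinant. -/
theorem ref36_both {m w : ℕ} (h1 : Ref36 (m ||| 2 ^ 36) (w ||| 2 ^ 36))
    (h2 : Ref36 (m ||| 2 ^ 36) w) (hw : w < 2 ^ 36) (hm : m < 2 ^ 36) : Ref36 m w := by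
  intro χ T hM h63 hS hs _
  have hb : ∀ (x : ℕ) (k j : Fin 6), (x ||| 2 ^ 36).testBit (6 * (k : ℕ) + j) =
      x.testBit (6 * (k : ℕ) + j) := by
    intro x k j
    rw [Nat.testBit_or, Nat.testBit_two_pow, decide_eq_false (by omega), Bool.or_false]
  have hx : ∀ x : ℕ, x < 2 ^ 36 → (x ||| 2 ^ 36).testBit 36 = true ∧ x.testBit 36 = false := by
    intro x hx
    exact ⟨by rw [Nat.testBit_or, Nat.testBit_two_pow]; simp, Nat.testBit_lt_two_pow hx⟩
  rcases hD : χ 4032 with _ | _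
  · refine h2 χ T hM h63 hS (fun k j h => hs k j (by rw [← hb m k j]; exact h)) fun _ => ?_
    rw [hD, (hx w hw).2]
  · refine h1 χ T hM h63 hS (fun k j h => ?_) fun _ => ?_
    · rw [hb w k j]
      exact hs k j (by rw [← hb m k j]; exact h)
    · rw [hD, (hx w hw).1]

/-- An entry of the table of nogoods. -/
theorem ref_entry {G i m w : ℕ} (hm : Cov.ngM G i = m) (hw : Cov.ngV G i = w) (h : Ref36 m w) :
    Ref36 (Cov.ngM G i) (Cov.ngV G i) := by
  rw [hm, hw]
  exact h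

end Pool.Agent.H28.Z12
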