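import Mathlib
import Pool.Agent.H28.Z12.Nogood
import Pool.Agent.H28.Z12.Cover

/-!
Excluded sign patterns of the inverse matrix, the common form of all refutations
(MP_1e71f9_co).
-/

set_option autoImplicit false

namespace Pool.Agent.H28.Z12

open Pool.Agent.H77.Z12 Pool.Agent.H13.Z12 Pool.Agent.H28.Z12.Cov

/-- No bad configuration in the chart has the signs of the pattern `(m, w)`. -/
def Good (m w : ℕ) : Prop := ∀ M : Fin 6 → Fin 6 → ℝ, Bad (cf M) → (∀ i c, 0 < M i c) →
  ¬ Pool.Agent.H77.Z12.Sat m w (stt M)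

/-- The images of an excluded pattern are excluded. -/
theorem Good.act {m w : ℕ} (h : Good m w) {M : Fin 6 → Fin 6 → ℝ} (hb : Bad (cf M))
    (hM : ∀ i c, 0 < M i c) (ρ γ : Equiv.Perm (Fin 6)) :
    ¬ Pool.Agent.H77.Z12.Sat m w (actS ρ γ (stt M)) := by
  rw [← stt_perm hb]
  exact h _ (bad_perm hb ρ γ) fun i c => hM _ _

attribute [local irreducible] chiN topN sigma

/-- The model of a bad configuration in the chart. -/
theorem chart_facts {M : Fin 6 → Fin 6 → ℝ} (hb : Bad (cf M)) (hM : ∀ i c, 0 < M i c) :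
    chiN (cf M) 63 = true ∧ Simp (chiN (cf M)) 63 4095 ∧
      Model (chiN (cf M)) (topN (cf M)) := by
  have h63 : pc 63 = 6 := by decide
  have hsim := simp_of_sim hb.1 h63 (sim_cf (M := fun a b => M a b) fun i c => hM _ _)
  exact ⟨chi_cf _, hsim, exists_model hb.1 hb.2⟩

theorem good_of_ref36 {m w : ℕ} (h : Ref36 m w) : Good m w := by
  intro M hb hM hs
  obtain ⟨h63, hS, hMod⟩ := chart_facts hb hM
  exact h _ _ hMod h63 hS hs.1 hs.2

/-- **No bad configuration from a covering by excluded patterns.** -/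
theorem not_bad_of_good {G nG : ℕ} (h : ∀ s, Hit G nG s)
    (hg : ∀ i < nG, Good (ngM G i) (ngV G i)) (v : Fin 12 → Fin 6 → ℝ) : ¬ Bad v := by
  intro hv
  obtain ⟨M, hM, hgen, hb⟩ := exists_chart (r := 6) (m := 6) v hv.1 (by norm_num) (by norm_num) hv.2
  obtain ⟨ρ, γ, i, hi, hs⟩ := h (stt M)
  exact (hg i hi).act ⟨hgen, hb⟩ hM ρ γ hs

end Pool.Agent.H28.Z12
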