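import Mathlib
import Pool.Agent.H28.Z12.Good
import Pool.Agent.H28.Z12.CondDefs

/-!
Excluded patterns from refutations with further signs and with images of earlier excluded
patterns (MP_1e71f9_co).
-/

set_option autoImplicit false

namespace Pool.Agent.H28.Z12

open Pool.Agent.H77.Z12 Pool.Agent.H13.Z12 Pool.Agent.H28.Z12.Cov

variable {χ T : ℕ → Bool}

/-- The signs of the pattern `(m, w)`. -/
def SatC (χ : ℕ → Bool) (m w : ℕ) : Prop :=
  (∀ k j : Fin 6, m.testBit (6 * k + j) = true → sigma χ k j = w.testBit (6 * k + j)) ∧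
    (m.testBit 36 = true → χ 4032 = w.testBit 36)

/-- The false literals of a pattern: `mkU` without the sign of the basis of the chart. -/
def negC (m w : ℕ) : ℕ := (List.range 36).foldl (fun a i => a ||| uLit m w (i / 6) (i % 6))
  (fl 4032 (w.testBit 36))

theorem cl_or {a b : ℕ} (h : Cl χ T a ∨ Cl χ T b) : Cl χ T (a ||| b) := by
  rcases h with ⟨i, h1, h2⟩ | ⟨i, h1, h2⟩
  · exact ⟨i, by rw [Nat.testBit_or, h1, Bool.true_or], h2⟩
  · exact ⟨i, by rw [Nat.testBit_or, h1, Bool.or_true], h2⟩

theorem cl_fl {i : ℕ} {b : Bool} (hi : i < 4096) (h : χ i = !b) : Cl χ T (fl i b) := by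
  unfold fl
  cases b
  · rw [if_neg (by decide)]
    exact ⟨i, by rw [Nat.testBit_two_pow, decide_eq_true rfl], Or.inl ⟨hi, h⟩⟩
  · rw [if_pos rfl]
    exact ⟨4096 + i, by rw [Nat.testBit_two_pow, decide_eq_true rfl],
      Or.inr (Or.inl ⟨by omega, by omega, by
        have e : 4096 + i - 4096 = i := by omega
        rw [e, h]; rfl⟩)⟩

/-- The clause of an excluded pattern with the sign of the determinant. -/
theorem cl_negC {m w : ℕ} (h : ¬ SatC χ m w) : Cl χ T (negC m w) := by
  have hf : ∀ (l : List ℕ) (a : ℕ), Cl χ T a →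
      Cl χ T (l.foldl (fun a i => a ||| uLit m w (i / 6) (i % 6)) a) := by
    intro l
    induction l with
    | nil => intro a ha; exact ha
    | cons i l ih =>
      intro a ha
      rw [List.foldl_cons]
      exact ih _ (cl_or (Or.inl ha))
  have hg : ∀ (l : List ℕ) (a : ℕ), (∃ i ∈ l, Cl χ T (uLit m w (i / 6) (i % 6))) →
      Cl χ T (l.foldl (fun a i => a ||| uLit m w (i / 6) (i % 6)) a) := by
    intro l
    induction l with
    | nil => rintro a ⟨i, hi, -⟩; exact absurd hi List.not_mem_nil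
    | cons i l ih =>
      rintro a ⟨i', hi', hc⟩
      rw [List.foldl_cons]
      rcases List.mem_cons.1 hi' with rfl | hi'
      · exact hf l _ (cl_or (Or.inr hc))
      · exact ih _ ⟨i', hi', hc⟩
  by_cases hd : χ 4032 = w.testBit 36
  · have h1 : ¬ ∀ k j : Fin 6, m.testBit (6 * k + j) = true →
        sigma χ k j = w.testBit (6 * k + j) := fun h0 => h ⟨h0, fun _ => hd⟩
    simp only [not_forall] at h1
    obtain ⟨k, j, hm, hne⟩ := h1
    refine hg _ _ ⟨6 * (k : ℕ) + j, List.mem_range.2 (by omega), ?_⟩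
    have e1 : (6 * (k : ℕ) + j) / 6 = k := by omega
    have e2 : (6 * (k : ℕ) + j) % 6 = j := by omega
    rw [e1, e2, uLit, if_pos hm]
    refine cl_fl ((mS_or k).2 j) ?_
    have h2 : sigma χ k j = !(w.testBit (6 * k + j)) := by
      revert hne
      cases sigma χ k j <;> cases w.testBit (6 * (k : ℕ) + j) <;> simp
    rw [sigma, csm, csm, (mS_or k).1, hd] at h2
    rw [uv]
    revert h2
    cases χ (mS ↑k ||| 2 ^ (j : ℕ)) <;> cases ipm (mS ↑k) ↑j <;> cases w.testBit 36 <;>
      cases ipm (mS ↑k) (6 + ↑k) <;> cases w.testBit (6 * (k : ℕ) + j) <;> decide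
  · refine hf _ _ (cl_fl (by norm_num) ?_)
    revert hd
    cases χ 4032 <;> cases w.testBit 36 <;> simp

/-- Refuted with the further signs `E` and the images `X` of excluded patterns. -/
def RefX (m w : ℕ) (E : List (ℕ × Bool)) (X nX : ℕ) : Prop :=
  ∀ χ T : ℕ → Bool, Model χ T → χ 63 = true → Simp χ 63 4095 → SatC χ m w →
    (∀ p ∈ E, χ p.1 = p.2) → (∀ e < nX, ¬ SatC χ (ngM X e) (ngV X e)) → False

/-- The false literals of the further signs. -/
def mkE (E : List (ℕ × Bool)) : ℕ := E.foldl (fun a p => a ||| fl p.1 p.2) 0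

theorem fa_mkE {E : List (ℕ × Bool)} (hE : ∀ p ∈ E, p.1 < 4096) (h : ∀ p ∈ E, χ p.1 = p.2) :
    Fa χ T (mkE E) := by
  have hf : ∀ (l : List (ℕ × Bool)) (a : ℕ), Fa χ T a → (∀ p ∈ l, p.1 < 4096 ∧ χ p.1 = p.2) →
      Fa χ T (l.foldl (fun a p => a ||| fl p.1 p.2) a) := by
    intro l
    induction l with
    | nil => intro a ha _; exact ha
    | cons p l ih =>
      intro a ha hl
      rw [List.foldl_cons]
      have hp := hl p List.mem_cons_self
      exact ih _ (Fa_or ha (fa_fl hp.1 hp.2)) fun p hp => hl p (List.mem_cons_of_mem _ hp)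
  exact hf _ _ Fa_zero fun p hp => ⟨hE p hp, h p hp⟩

/-- The clauses of the images are the clauses of the table `off, lits`. -/
def tabX (X off lits n : ℕ) : Bool := (List.range n).all fun e =>
  Nat.beq (lmask off lits e) (negC (ngM X e) (ngV X e))

/-- **A pattern is refuted**, from a chain of blocks. -/
theorem refX_of {m w U off lits : ℕ} {E : List (ℕ × Bool)} {X nX : ℕ}
    (hm : m.testBit 36 = true) (hE : (E.all fun p => decide (p.1 < 4096)) = true)
    (hU : mkU m w ||| chartU ||| mkE E = U) (hX : tabX X off lits nX = true)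
    (h : ∀ χ T : ℕ → Bool, Model χ T → Simp χ 63 4095 → St χ T U off lits nX → False) :
    RefX m w E X nX := by
  intro χ T hM h63 hS hs hE' hX'
  refine h χ T hM hS ⟨?_, ?_⟩
  · rw [← hU]
    refine Fa_or (Fa_or (fa_mkU h63 (hs.2 hm) hs.1) (fa_chartU h63 hS)) (fa_mkE ?_ hE')
    intro p hp
    exact of_decide_eq_true (List.all_eq_true.1 hE p hp)
  · intro i hi
    rw [Nat.eq_of_beq_eq_true (List.all_eq_true.1 hX i (List.mem_range.2 hi))]
    exact cl_negC (hX' i hi)

/-- The image of an excluded pattern is excluded. -/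
theorem img_spec {a b p q m w : ℕ} (h : imgE a b p q m w = true) (s : St36)
    (hm : m.testBit 36 = true) (hs : Pool.Agent.H77.Z12.Sat m w s) :
    Pool.Agent.H77.Z12.Sat a b (actS (permOf p) (permOf q) s) := by
  rw [imgE, band_iff, band_iff, band_iff, band_iff, ble_iff, ble_iff, beq_iff, beq_iff,
    beq_iff] at h
  obtain ⟨⟨hp, hq⟩, ⟨h1, h2⟩, h3⟩ := h
  have hlow : ∀ (x : ℕ) (k j : Fin 6), (Nat.land x 68719476735).testBit (6 * (k : ℕ) + j) =
      x.testBit (6 * (k : ℕ) + j) := by
    intro x k j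
    have e : (Nat.land x 68719476735) = x &&& (2 ^ 36 - 1) := rfl
    rw [e, Nat.testBit_and, Nat.testBit_two_pow_sub_one, decide_eq_true (by omega),
      Bool.and_true]
  have hact : ∀ (x : ℕ) (k j : Fin 6),
      (act p q (Nat.land x 68719476735)).testBit (6 * (k : ℕ) + j) =
        x.testBit (6 * (permOf q k : ℕ) + (permOf p j : ℕ)) := by
    intro x k j
    rw [act_tb _ hp hq, hlow]
  constructor
  · intro k j hkj
    have e1 : m.testBit (6 * (permOf q k : ℕ) + (permOf p j : ℕ)) = true := by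
      rw [← hact, h1, hlow, hkj]
    have e2 := hs.1 _ _ e1
    show s.1 (permOf q k) (permOf p j) = _
    rw [e2, ← hact, h2, hlow]
  · intro h36
    have e3 := hs.2 hm
    show xor s.2 (xor (par (permOf p)) (par (permOf q))) = _
    rw [e3, par_permOf hp, par_permOf hq]
    have e4 : ((a >>> 36) &&& ((w >>> 36) ^^^ ((b >>> 36) ^^^ (pr p ^^^ pr q)))).testBit 0 =
        false := by
      have e5 : (a >>> 36) &&& ((w >>> 36) ^^^ ((b >>> 36) ^^^ (pr p ^^^ pr q))) = 0 := h3
      rw [e5, Nat.zero_testBit]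
    rw [Nat.testBit_and, Nat.testBit_xor, Nat.testBit_xor, Nat.testBit_xor,
      Nat.testBit_shiftRight, Nat.testBit_shiftRight, Nat.testBit_shiftRight, Nat.add_zero,
      h36, Bool.true_and] at e4
    have e6 : ∀ x : ℕ, x < 2 → x.testBit 0 = decide (x = 1) := by
      intro x hx
      interval_cases x <;> decide
    rw [e6 _ (pr_lt p), e6 _ (pr_lt q)] at e4
    revert e4
    cases w.testBit 36 <;> cases b.testBit 36 <;> cases decide (pr p = 1) <;>
      cases decide (pr q = 1) <;> decide

theorem extA_spec {G j X C : ℕ} : ∀ {n : ℕ}, extA G j X C n = true →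
    ∀ e < n, ∃ i < j, ∃ p q : ℕ, imgE (ngM G i) (ngV G i) p q (ngM X e) (ngV X e) = true
  | 0, _, e, he => absurd he (Nat.not_lt_zero e)
  | n + 1, h, e, he => by
    have h' : band (extA G j X C n) (extE G j X C n) = true := h
    rw [band_iff] at h'
    rcases Nat.lt_succ_iff_lt_or_eq.1 he with he | rfl
    · exact extA_spec h'.1 e he
    · have h2 := h'.2
      rw [extE, band_iff, ble_iff] at h2
      exact ⟨_, h2.1, _, _, h2.2⟩

/-- All bits 36 of the table are set. -/
def detX (X n : ℕ) : Bool := (List.range n).all fun e => (ngM X e).testBit 36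

attribute [local irreducible] chiN topN sigma

theorem satC_iff {m w : ℕ} {M : Fin 6 → Fin 6 → ℝ} :
    SatC (chiN (cf M)) m w ↔ Pool.Agent.H77.Z12.Sat m w (stt M) := by
  unfold SatC Pool.Agent.H77.Z12.Sat stt
  exact Iff.rfl

/-- **A pattern is excluded** if it is refuted with images of earlier excluded patterns. -/
theorem good_of_refX {m w X nX G j C : ℕ} (h : RefX m w [] X nX)
    (hX : extA G j X C nX = true) (hd : detX X nX = true)
    (hG : ∀ i < j, Good (ngM G i) (ngV G i)) : Good m w := by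
  intro M hb hM hs
  obtain ⟨h63, hS, hMod⟩ := chart_facts hb hM
  refine h _ _ hMod h63 hS (satC_iff.2 hs) (fun p hp => absurd hp List.not_mem_nil)
    fun e he hsat => ?_
  obtain ⟨i, hi, p, q, himg⟩ := extA_spec hX e he
  exact (hG i hi).act hb hM _ _ (img_spec himg (stt M)
    (List.all_eq_true.1 hd e (List.mem_range.2 he)) (satC_iff.1 hsat))

theorem good_of_ref_nil {m w : ℕ} (h : RefX m w [] 0 0) : Good m w := by
  intro M hb hM hs
  obtain ⟨h63, hS, hMod⟩ := chart_facts hb hM
  exact h _ _ hMod h63 hS (satC_iff.2 hs) (fun p hp => absurd hp List.not_mem_nil)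
    fun e he => absurd he (Nat.not_lt_zero e)

/-- Both signs of the determinant. -/
theorem good_both {m w : ℕ} (h1 : Good (m ||| 2 ^ 36) (w ||| 2 ^ 36))
    (h2 : Good (m ||| 2 ^ 36) w) (hw : w < 2 ^ 36) : Good m w := by
  intro M hb hM hs
  have hbit : ∀ (x : ℕ) (k j : Fin 6), (x ||| 2 ^ 36).testBit (6 * (k : ℕ) + j) =
      x.testBit (6 * (k : ℕ) + j) := by
    intro x k j
    rw [Nat.testBit_or, Nat.testBit_two_pow, decide_eq_false (by omega), Bool.or_false]
  rcases hD : (stt M).2 with _ | _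
  · refine h2 M hb hM ⟨fun k j h => hs.1 k j (by rw [← hbit m k j]; exact h), fun _ => ?_⟩
    rw [hD, Nat.testBit_lt_two_pow hw]
  · refine h1 M hb hM ⟨fun k j h => ?_, fun _ => ?_⟩
    · rw [hbit w k j]
      exact hs.1 k j (by rw [← hbit m k j]; exact h)
    · rw [hD, Nat.testBit_or, Nat.testBit_two_pow]
      simp

/-- An entry of the table of patterns. -/
theorem good_entry {G i m w : ℕ} (hm : ngM G i = m) (hw : ngV G i = w) (h : Good m w) :
    Good (ngM G i) (ngV G i) := by
  rw [hm, hw]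
  exact h

/-- Induction over the table of patterns. -/
theorem good_all {G nG : ℕ} (h : ∀ j < nG, (∀ i < j, Good (ngM G i) (ngV G i)) →
    Good (ngM G j) (ngV G j)) : ∀ j < nG, Good (ngM G j) (ngV G j) := by
  intro j
  induction j using Nat.strong_induction_on with
  | _ j ih =>
    intro hj
    exact h j hj fun i hi => ih i hi (by omega)

end Pool.Agent.H28.Z12
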