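import Pool.Agent.H28.Z12.Gen

/-!
The clause generator without the six neighbours of the simplex (MP_1e71f9_co).
-/

set_option autoImplicit false

namespace Pool.Agent.H28.Z12

/-- Table of the six neighbours. -/
def sixT : Nat := nat_lit 4295033110

/-- The code belongs to one of the six neighbours. -/
noncomputable def bsix (c : Nat) : Bool :=
  @Bool.rec (fun _ => Bool) false
    (@Bool.rec (fun _ => Bool) false
      (Nat.beq (Nat.land (Nat.shiftRight sixT (fld c (nat_lit 14) (nat_lit 2047))) (nat_lit 1)) (nat_lit 1))
      (Nat.beq (fld c (nat_lit 26) (nat_lit 1)) (nat_lit 0)))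
    (Nat.beq (Nat.land c (nat_lit 3)) (nat_lit 2))

/-- The clauses by their codes, the clauses of the six neighbours made tautological. -/
noncomputable def genR (P N c : Nat) : Nat :=
  @Bool.rec (fun _ => Nat) (gen P N c) (Nat.lor (nat_lit 1) (Nat.shiftLeft (nat_lit 1) (nat_lit 4096))) (bsix c)

end Pool.Agent.H28.Z12
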