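import Mathlib
import Pool.Agent.H28.Z12.Cond
import Pool.Agent.H28.Z12.RBase

/-!
Refutations in the relaxed model (MP_1e71f9_co).
-/

set_option autoImplicit false

namespace Pool.Agent.H28.Z12

open Pool.Agent.H77.Z12 Pool.Agent.H13.Z12 Pool.Agent.H64.Z12 Pool.Agent.H28.Z12.Cov

variable {χ T : ℕ → Bool}

/-- Refuted in the relaxed model with the further signs `E` and the images `X` of excluded
patterns. -/
def RRefX (m w : ℕ) (E : List (ℕ × Bool)) (X nX : ℕ) : Prop :=
  ∀ χ T : ℕ → Bool, RModel χ T → χ 63 = true → Simp χ 63 4095 → SatC χ m w →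
    (∀ p ∈ E, χ p.1 = p.2) → (∀ e < nX, ¬ SatC χ (ngM X e) (ngV X e)) → False

theorem RRefX.refX {m w X nX : ℕ} {E : List (ℕ × Bool)} (h : RRefX m w E X nX) :
    RefX m w E X nX := fun χ T hM => h χ T (rmodel_of_model hM)

/-- The clauses of the chart. -/
theorem genR_one (hM : RModel χ T) (h : Simp χ 63 4095) (c : ℕ) :
    Cl χ T (genR (nat_lit 16773183) (nat_lit 0) c) :=
  R.genR_cl hM (hP_one (by decide +kernel) (by decide +kernel) (by decide +kernel) h) hN_zero c

/-- **A pattern is refuted**, from a chain of blocks. -/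
theorem rrefX_of {m w U off lits : ℕ} {E : List (ℕ × Bool)} {X nX : ℕ}
    (hm : m.testBit 36 = true) (hE : (E.all fun p => decide (p.1 < 4096)) = true)
    (hU : mkU m w ||| chartU ||| mkE E = U) (hX : tabX X off lits nX = true)
    (h : ∀ χ T : ℕ → Bool, RModel χ T → Simp χ 63 4095 → St χ T U off lits nX → False) :
    RRefX m w E X nX := by
  intro χ T hM h63 hS hs hE' hX'
  refine h χ T hM hS ⟨?_, ?_⟩
  · rw [← hU]
    refine Fa_or (Fa_or (fa_mkU h63 (hs.2 hm) hs.1) (fa_chartU h63 hS)) (fa_mkE ?_ hE')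
    intro p hp
    exact of_decide_eq_true (List.all_eq_true.1 hE p hp)
  · intro i hi
    rw [Nat.eq_of_beq_eq_true (List.all_eq_true.1 hX i (List.mem_range.2 hi))]
    exact cl_negC (hX' i hi)

end Pool.Agent.H28.Z12
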