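import Mathlib
import Pool.Agent.H28.Z12.Base
import Pool.Agent.H28.Z12.GenX
import Pool.Agent.H64.Z12.RModel

/-!
All clause masks of `genX` are true in every `XModel` (MP_1e71f9_co).
-/

set_option autoImplicit false

namespace Pool.Agent.H28.Z12.X

open Pool.Agent.H77.Z12 Pool.Agent.H64.Z12 Pool.Agent.H28.Z12

/-- All sign relations; the completeness clauses of the set `D` (a mask of 2048 bits) may fail. -/
structure XModel (D : ℕ) (χ T : ℕ → Bool) : Prop where
  gp : ∀ A a b c d : ℕ, pc A = 4 → a < b → b < c → c < d → d < 12 →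
    A.testBit a = false → A.testBit b = false → A.testBit c = false → A.testBit d = false →
    ¬ ((fsm χ A a b == fsm χ A c d) = !(fsm χ A a c == fsm χ A b d) ∧
      (fsm χ A a b == fsm χ A c d) = (fsm χ A a d == fsm χ A b c))
  cc : ∀ A, pc A = 5 → ∀ (ε : Bool) (s : ℕ),
    (∀ j < 12, A.testBit j = false → s.testBit j = xor (csm χ A j) ε) → T s = true
  kc : ∀ A, pc A = 7 → ∀ (ε : Bool) (s : ℕ),
    (∀ j < 12, A.testBit j = true → s.testBit j = xor (ksm χ A j) ε) → T s = false
  anti : ∀ s, T (4095 ^^^ s) = T s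
  bad : ∀ s < 2048, D.testBit s = false → T s = true → ∃ i < 12, T (s ^^^ 2 ^ i) = false

theorem xmodel_of_model {D : ℕ} {χ T : ℕ → Bool} (h : Model χ T) : XModel D χ T where
  gp := h.gp
  cc := h.cc
  kc := h.kc
  anti := h.anti
  bad s _ _ hs := h.bad s hs

theorem XModel.mono {D D' : ℕ} {χ T : ℕ → Bool} (h : XModel D χ T)
    (hD : ∀ s < 2048, D'.testBit s = false → D.testBit s = false) : XModel D' χ T where
  gp := h.gp
  cc := h.cc
  kc := h.kc
  anti := h.anti
  bad s hs h0 h1 := h.bad s hs (hD s hs h0) h1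

variable {D : ℕ} {χ T : ℕ → Bool}

theorem tpos_spec {χ T : ℕ → Bool} (hM : XModel D χ T) {t : ℕ} (ht : t < 4096) :
    tpos t < 2048 ∧ T (tpos t) = T t := by
  rcases lt_or_ge t 2048 with h | h
  · have := Nat.eq_of_beq_eq_true (list_range_all tpos_small t h)
    rw [this]
    exact ⟨h, rfl⟩
  · have h1 := list_range_all tpos_big (t - 2048) (by omega)
    rw [Bool.and_eq_true] at h1
    have e : Nat.add (t - 2048) 2048 = t := by change t - 2048 + 2048 = t; omega
    rw [e] at h1
    have h2 := Nat.eq_of_beq_eq_true h1.1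
    have h3 : tpos t < 2048 := by simpa [Nat.blt_eq] using h1.2
    refine ⟨h3, ?_⟩
    rw [h2]
    exact hM.anti t

theorem genCC_sat (hM : XModel D χ T) {A t : ℕ} (ht : t < 4096) : Sat χ T (genCC A t) := by
  refine grd_sat fun hok => ?_
  obtain ⟨hA, hpc⟩ := lt_and_pc T5_lt T5_check hok
  by_contra hcon
  have hJ : 4095 ^^^ A < 4096 := xor_lt (by norm_num) hA
  have hU : (t ^^^ ipM A) &&& (4095 ^^^ A) < 4096 := lt_of_le_of_lt Nat.and_le_right hJ
  have hcon' : ¬ Sat χ T (Nat.shiftLeft (ccH (spread (4095 ^^^ A))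
      (spread ((t ^^^ ipM A) &&& (4095 ^^^ A)))) A) := fun h => hcon (Sat.left h)
  have key : ∀ j < 12, A.testBit j = false → t.testBit j = xor (csm χ A j) false := by
    intro j hj hAj
    have hp : A + 2 ^ j < 4096 := by
      rw [← or_pow hA hj hAj]; exact or_lt hA (pow_lt hj)
    have h := ccH_lit hJ hU hj (by rw [compl_bit hj, hAj]; rfl) hcon' hp
    rw [csm, or_pow hA hj hAj, h, Nat.testBit_and, compl_bit hj, hAj, Nat.testBit_xor,
      ipM_bit hA hj]
    cases t.testBit j <;> cases ipm A j <;> simp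
  have hT := hM.cc A hpc false t key
  obtain ⟨h1, h2⟩ := tpos_spec hM ht
  refine hcon (Sat.right (sat_one ?_))
  change lv χ T (8192 + tpos t) = true
  rw [lv_T (by omega), h2, hT]

theorem genKC_sat (hM : XModel D χ T) {A t : ℕ} (ht : t < 4096) : Sat χ T (genKC A t) := by
  refine grd_sat fun hok => ?_
  obtain ⟨hA, hpc⟩ := lt_and_pc T7_lt T7_check hok
  by_contra hcon
  have hU : (t ^^^ ipM A) &&& A < 4096 := lt_of_le_of_lt Nat.and_le_right hA
  have key : ∀ j < 12, A.testBit j = true → t.testBit j = xor (ksm χ A j) false := by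
    intro j hj hAj
    obtain ⟨hx, hle⟩ := xor_pow hA hj hAj
    have hp : A - 2 ^ j < 4096 := lt_of_le_of_lt (Nat.sub_le _ _) hA
    have h2048 : 2 ^ j ≤ 2048 := by
      calc 2 ^ j ≤ 2 ^ 11 := Nat.pow_le_pow_right (by norm_num) (by omega)
        _ = 2048 := by norm_num
    have hsub : 2 ^ j + (A - 2 ^ j) = A := by omega
    have hcs : ksm χ A j = xor (χ (A - 2 ^ j)) (ipm A j) := by rw [ksm, hx]
    have hSJ : (rev A).testBit (2048 - 2 ^ j) = true := by
      rw [rev_bit hA hj, hAj]
    have hSU : (rev (Nat.land (Nat.xor t (ipM A)) A)).testBit (2048 - 2 ^ j) =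
        xor (t.testBit j) (ipm A j) := by
      change (rev ((t ^^^ ipM A) &&& A)).testBit (2048 - 2 ^ j) = _
      rw [rev_bit hU hj, Nat.testBit_and, hAj, Nat.testBit_xor, ipM_bit hA hj]
      simp
    rw [hcs, Bool.xor_false]
    rcases Bool.eq_false_or_eq_true (xor (t.testBit j) (ipm A j)) with h | h
    · have hb : (Nat.shiftRight (Nat.shiftLeft (ccH (rev A)
          (rev (Nat.land (Nat.xor t (ipM A)) A))) A) 2048).testBit (4096 + (A - 2 ^ j)) = true := by
        have e : 2048 + (4096 + (A - 2 ^ j)) = A + (4096 + (2048 - 2 ^ j)) := by omega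
        rw [testBit_shr, e, testBit_shl, ccH]
        change Nat.testBit ((_ ^^^ _) ||| (Nat.shiftLeft _ 4096)) _ = true
        rw [Nat.testBit_or, testBit_shl, hSU, h, Bool.or_true]
      have hl : lv χ T (4096 + (A - 2 ^ j)) = false := by
        by_contra hl
        rw [Bool.not_eq_false] at hl
        exact hcon (Sat.left ⟨_, hb, hl⟩)
      rw [lv_neg hp] at hl
      have hl' : χ (A - 2 ^ j) = true := by simpa using hl
      rw [hl']
      revert h
      cases t.testBit j <;> cases ipm A j <;> simp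
    · have hb : (Nat.shiftRight (Nat.shiftLeft (ccH (rev A)
          (rev (Nat.land (Nat.xor t (ipM A)) A))) A) 2048).testBit (A - 2 ^ j) = true := by
        have e : 2048 + (A - 2 ^ j) = A + (2048 - 2 ^ j) := by omega
        rw [testBit_shr, e, testBit_shl, ccH]
        change Nat.testBit ((_ ^^^ _) ||| _) _ = true
        rw [Nat.testBit_or, Nat.testBit_xor, hSJ, hSU, h]
        rfl
      have hl : lv χ T (A - 2 ^ j) = false := by
        by_contra hl
        rw [Bool.not_eq_false] at hl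
        exact hcon (Sat.left ⟨_, hb, hl⟩)
      rw [lv_pos hp] at hl
      rw [hl]
      revert h
      cases t.testBit j <;> cases ipm A j <;> simp
  have hT := hM.kc A hpc false t key
  obtain ⟨h1, h2⟩ := tpos_spec hM ht
  refine hcon (Sat.right (sat_one ?_))
  change lv χ T (12288 + tpos t) = true
  rw [lv_nT (by omega), h2, hT]
  rfl

theorem genBad_sat (hM : XModel D χ T) {t : ℕ} (ht : t < 2048) (h6 : D.testBit t = false) :
    Sat χ T (genBad t) := by
  have hb : (Nat.testBit (ball t) t && (Nat.testBit (ball t) (Nat.xor t 2047) &&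
      (List.range 11).all fun i => Nat.testBit (ball t) (Nat.xor t (2 ^ i)))) = true :=
    list_range_all ball_check t ht
  obtain ⟨hb0, hb'⟩ := Bool.and_eq_true_iff.1 hb
  obtain ⟨hb1, hb2⟩ := Bool.and_eq_true_iff.1 hb'
  by_contra hcon
  have key : ∀ s < 4096, (ball t).testBit s = true → T s = true := by
    intro s hs4 hs
    by_contra h
    rw [Bool.not_eq_true] at h
    refine hcon ⟨12288 + s, ?_, ?_⟩
    · change (Nat.shiftLeft (ball t) 12288).testBit (12288 + s) = true
      rw [testBit_shl, hs]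
    · rw [lv_nT hs4, h]; rfl
  obtain ⟨i, hi, hT⟩ := hM.bad t ht h6 (key t (by omega) hb0)
  rcases Nat.lt_or_ge i 11 with h | h
  · have := key (t ^^^ 2 ^ i) (xor_lt (by omega) (pow_lt (by omega))) (list_range_all hb2 i h)
    rw [this] at hT
    exact absurd hT (by simp)
  · have hi' : i = 11 := by omega
    subst hi'
    have := key (t ^^^ 2047) (xor_lt (by omega) (by norm_num)) hb1
    have e : t ^^^ 2 ^ 11 = 4095 ^^^ (t ^^^ 2047) := by
      have h1 : (2 : ℕ) ^ 11 = 4095 ^^^ 2047 := rfl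
      rw [h1, ← Nat.xor_assoc, Nat.xor_comm t 4095, Nat.xor_assoc]
    rw [e, hM.anti, this] at hT
    exact absurd hT (by simp)

theorem genGP_sat (hM : XModel D χ T) {A Q pat : ℕ} (hQ : Q < 4096) (hpat : pat < 64) :
    Sat χ T (genGP A Q pat) := by
  refine grd_sat fun hok => ?_
  -- the guards
  have g1 : Nat.land (Nat.shiftRight T4 A) 1 ≠ 0 ∧ Nat.land (Nat.shiftRight T4 Q) 1 ≠ 0 ∧
      Nat.land (Nat.shiftRight gpT pat) 1 ≠ 0 ∧ A &&& Q = 0 := by
    have h0 : (((T4 >>> A) &&& (T4 >>> Q)) &&& ((gpT >>> pat) &&& (1 - (A &&& Q)))) ≠ 0 := hok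
    rcases Nat.eq_zero_or_pos (A &&& Q) with hz | hz
    · rw [hz, Nat.sub_zero] at h0
      have hb : ∀ a b c : ℕ, (a &&& b) &&& (c &&& 1) ≠ 0 → a &&& 1 ≠ 0 ∧ b &&& 1 ≠ 0 ∧
          c &&& 1 ≠ 0 := by
        intro a b c h
        refine ⟨fun h' => h ?_, fun h' => h ?_, fun h' => h ?_⟩
        · have : a &&& b &&& (c &&& 1) = (a &&& 1) &&& (b &&& c) := by
            apply Nat.eq_of_testBit_eq
            intro i
            simp only [Nat.testBit_and]
            cases a.testBit i <;> cases b.testBit i <;> cases c.testBit i <;> simp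
          rw [this, h', Nat.zero_and]
        · have : a &&& b &&& (c &&& 1) = (b &&& 1) &&& (a &&& c) := by
            apply Nat.eq_of_testBit_eq
            intro i
            simp only [Nat.testBit_and]
            cases a.testBit i <;> cases b.testBit i <;> cases c.testBit i <;> simp
          rw [this, h', Nat.zero_and]
        · rw [h', Nat.and_zero]
      exact ⟨(hb _ _ _ h0).1, (hb _ _ _ h0).2.1, (hb _ _ _ h0).2.2, hz⟩
    · exfalso
      have e : 1 - (A &&& Q) = 0 := by omega
      rw [e, Nat.and_zero, Nat.and_zero] at h0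
      exact h0 rfl
  obtain ⟨gA, gQ, gP, hAQ⟩ := g1
  obtain ⟨hA, hpc⟩ := lt_and_pc T4_lt T4_check gA
  obtain ⟨a, b, c, d, hab, hbc, hcd, hd, ea, eb, ec, ed, ta, tb, tc, td⟩ := q_spec hQ gQ
  by_contra hcon
  have hdis : ∀ i, Q.testBit i = true → A.testBit i = false := by
    intro i hi
    have : (A &&& Q).testBit i = false := by rw [hAQ, Nat.zero_testBit]
    rw [Nat.testBit_and, hi, Bool.and_true] at this
    exact this
  have hlit : ∀ p, (gpQ Q pat).testBit p = true → lv χ T (A + p) = false := by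
    intro p hp
    by_contra h
    rw [Bool.not_eq_false] at h
    refine hcon ⟨A + p, ?_, h⟩
    change (Nat.shiftLeft (gpQ Q pat) A).testBit (A + p) = true
    rw [testBit_shl, hp]
  rw [gpQ, ea, eb, ec, ed] at hlit
  have pos : ∀ x y, x < 12 → y < 12 → x ≠ y → A.testBit x = false → A.testBit y = false →
      A ||| 2 ^ x ||| 2 ^ y = A + (2 ^ x + 2 ^ y) ∧ A + (2 ^ x + 2 ^ y) < 4096 := by
    intro x y hx hy hxy hAx hAy
    have h1 := or_pow hA hx hAx
    have h2 : (A ||| 2 ^ x).testBit y = false := by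
      rw [Nat.testBit_or, hAy, Nat.testBit_two_pow, Bool.false_or]
      exact decide_eq_false hxy
    have h3 := or_pow (or_lt hA (pow_lt hx)) hy h2
    have h4 := or_lt (or_lt hA (pow_lt hx)) (pow_lt hy)
    rw [h3] at h4
    rw [h3, h1]
    rw [h1] at h4
    constructor
    · ring
    · omega
  have fact : ∀ x y i, x < 12 → y < 12 → x ≠ y → A.testBit x = false → A.testBit y = false →
      i < 6 → (∀ p, (gl (2 ^ x) (2 ^ y) pat i).testBit p = true → lv χ T (A + p) = false) →
      fsm χ A x y = xor (pat.testBit i) (xor (ipm A x) (ipm A y)) := by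
    intro x y i hx hy hxy hAx hAy hi hc
    obtain ⟨h1, h2⟩ := pos x y hx hy hxy hAx hAy
    rw [fsm, h1, gl_lit hpat hi h2 hc]
  have part : ∀ p, ((gl (2 ^ a) (2 ^ b) pat 0).testBit p = true ∨
      (gl (2 ^ c) (2 ^ d) pat 1).testBit p = true ∨ (gl (2 ^ a) (2 ^ c) pat 2).testBit p = true ∨
      (gl (2 ^ b) (2 ^ d) pat 3).testBit p = true ∨ (gl (2 ^ a) (2 ^ d) pat 4).testBit p = true ∨
      (gl (2 ^ b) (2 ^ c) pat 5).testBit p = true) → lv χ T (A + p) = false := by
    intro p hp
    refine hlit p ?_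
    change Nat.testBit (Nat.lor (Nat.lor (Nat.lor (gl (2 ^ a) (2 ^ b) pat 0)
      (gl (2 ^ c) (2 ^ d) pat 1)) (Nat.lor (gl (2 ^ a) (2 ^ c) pat 2) (gl (2 ^ b) (2 ^ d) pat 3)))
      (Nat.lor (gl (2 ^ a) (2 ^ d) pat 4) (gl (2 ^ b) (2 ^ c) pat 5))) p = true
    simp only [testBit_lor, Bool.or_eq_true]
    tauto
  have f1 := fact a b 0 (by omega) (by omega) (by omega) (hdis _ ta) (hdis _ tb) (by norm_num)
    fun p hp => part p (Or.inl hp)
  have f2 := fact c d 1 (by omega) (by omega) (by omega) (hdis _ tc) (hdis _ td) (by norm_num)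
    fun p hp => part p (Or.inr (Or.inl hp))
  have f3 := fact a c 2 (by omega) (by omega) (by omega) (hdis _ ta) (hdis _ tc) (by norm_num)
    fun p hp => part p (Or.inr (Or.inr (Or.inl hp)))
  have f4 := fact b d 3 (by omega) (by omega) (by omega) (hdis _ tb) (hdis _ td) (by norm_num)
    fun p hp => part p (Or.inr (Or.inr (Or.inr (Or.inl hp))))
  have f5 := fact a d 4 (by omega) (by omega) (by omega) (hdis _ ta) (hdis _ td) (by norm_num)
    fun p hp => part p (Or.inr (Or.inr (Or.inr (Or.inr (Or.inl hp)))))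
  have f6 := fact b c 5 (by omega) (by omega) (by omega) (hdis _ tb) (hdis _ tc) (by norm_num)
    fun p hp => part p (Or.inr (Or.inr (Or.inr (Or.inr (Or.inr hp)))))
  have hgp := hM.gp A a b c d hpc hab hbc hcd hd (hdis _ ta) (hdis _ tb) (hdis _ tc) (hdis _ td)
  rw [f1, f2, f3, f4, f5, f6] at hgp
  have h1 : Nat.land (Nat.shiftRight gpT pat) 1 = 1 := by
    change (gpT >>> pat) &&& 1 = 1
    change (gpT >>> pat) &&& 1 ≠ 0 at gP
    rw [Nat.and_one_is_mod] at gP ⊢
    omega
  have h2 : (!(Nat.beq (Nat.land (Nat.shiftRight gpT pat) 1) 1) ||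
    ((Nat.testBit pat 0 == Nat.testBit pat 1) == !(Nat.testBit pat 2 == Nat.testBit pat 3)) &&
    ((Nat.testBit pat 0 == Nat.testBit pat 1) == (Nat.testBit pat 4 == Nat.testBit pat 5))) =
      true := list_range_all gpT_check pat hpat
  rw [h1] at h2
  have h3 : (((Nat.testBit pat 0 == Nat.testBit pat 1) ==
      !(Nat.testBit pat 2 == Nat.testBit pat 3)) &&
    ((Nat.testBit pat 0 == Nat.testBit pat 1) == (Nat.testBit pat 4 == Nat.testBit pat 5))) =
      true := h2
  revert hgp h3
  generalize pat.testBit 0 = w0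
  generalize pat.testBit 1 = w1
  generalize pat.testBit 2 = w2
  generalize pat.testBit 3 = w3
  generalize pat.testBit 4 = w4
  generalize pat.testBit 5 = w5
  generalize ipm A a = i0
  generalize ipm A b = i1
  generalize ipm A c = i2
  generalize ipm A d = i3
  revert w0 w1 w2 w3 w4 w5 i0 i1 i2 i3
  decide

theorem tb_beq (x s : ℕ) : Nat.beq (Nat.land (Nat.shiftRight x s) 1) 1 = x.testBit s := by
  have e : Nat.land (Nat.shiftRight x s) 1 = (x >>> s) &&& 1 := rfl
  have e2 : x.testBit s = (x >>> s).testBit 0 := by rw [Nat.testBit_shiftRight, Nat.add_zero]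
  rw [e, e2, Nat.and_one_is_mod, Nat.testBit_zero]
  rcases Nat.mod_two_eq_zero_or_one (x >>> s) with h | h <;> rw [h] <;> decide

/-- **All base clauses are true**. -/
theorem genX_sat (hM : XModel D χ T) {P N : ℕ} (hP : ∀ j, Simp χ (entB P j) (entS P j))
    (hN : ∀ j, pc (entB N j) = 6 → ¬ Simp χ (entB N j) (entS N j)) (c : ℕ) :
    Sat χ T (genX D P N c) := by
  have rec2 : ∀ (x y : ℕ) (b : Bool), (b = false → Sat χ T x) → (b = true → Sat χ T y) →
      Sat χ T (@Bool.rec (fun _ => Nat) x y b) := by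
    intro x y b hx hy
    cases b
    · exact hx rfl
    · exact hy rfl
  refine rec2 _ _ _ (fun h6 => ?_) fun _ => ?_
  · refine rec2 _ _ _ (fun _ => rec2 _ _ _ (fun _ => rec2 _ _ _ (fun _ => rec2 _ _ _
      (fun _ => ?_) fun _ => ?_) fun h2 => rec2 _ _ _ (fun _ => ?_) fun h26 => ?_) fun _ => ?_)
      fun _ => ?_
    · rw [fld_one]
      exact genNS_sat (land_4095 _) (hN _) _
    · rw [fld_one]
      exact genSimp_sat (land_4095 _) (hP _) _
    · exact genKC_sat hM (land_4095 _)
    · refine genBad_sat hM (land_2047 _) ?_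
      have h8 : bX D c = Nat.beq (Nat.land (Nat.shiftRight D (fld c 14 2047)) 1) 1 := by
        show @Bool.rec (fun _ => Bool) false (@Bool.rec (fun _ => Bool) false
          (Nat.beq (Nat.land (Nat.shiftRight D (fld c 14 2047)) 1) 1)
          (Nat.beq (fld c 26 1) 0)) (Nat.beq (Nat.land c 3) 2) = _
        rw [h2, h26]
      rw [← tb_beq, ← h8]
      exact h6
    · exact genCC_sat hM (land_4095 _)
    · exact genGP_sat hM (land_4095 _) (land_63 _)
  · rcases h : χ 0 with _ | _
    · exact Sat.right (sat_one (by rw [lv_neg (by norm_num : (0 : ℕ) < 4096), h]; rfl))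
    · exact Sat.left ⟨0, by decide, by rw [lv_pos (by norm_num : (0 : ℕ) < 4096), h]⟩

/-- **All base clauses are true**, for the checker. -/
theorem genX_cl (hM : XModel D χ T) {P N : ℕ} (hP : ∀ j, Simp χ (entB P j) (entS P j))
    (hN : ∀ j, pc (entB N j) = 6 → ¬ Simp χ (entB N j) (entS N j)) (c : ℕ) :
    Pool.Agent.H13.Z12.Cl χ T (genX D P N c) := cl_of_sat (genX_sat hM hP hN c)

end Pool.Agent.H28.Z12.X
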