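import Mathlib
import Pool.Agent.H28.Z12.CondR
import Pool.Agent.H28.Z12.XBase

/-!
Refutations without a set of completeness clauses (MP_1e71f9_co).
-/

set_option autoImplicit false

namespace Pool.Agent.H28.Z12

open Pool.Agent.H77.Z12 Pool.Agent.H13.Z12 Pool.Agent.H64.Z12 Pool.Agent.H28.Z12.Cov
open Pool.Agent.H28.Z12.X

variable {D : ℕ} {χ T : ℕ → Bool}

/-- Refuted without the completeness clauses of `D`, with the further signs `E` and the images
`X` of excluded patterns. -/
def XRefX (D m w : ℕ) (E : List (ℕ × Bool)) (X nX : ℕ) : Prop :=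
  ∀ χ T : ℕ → Bool, XModel D χ T → χ 63 = true → Simp χ 63 4095 → SatC χ m w →
    (∀ p ∈ E, χ p.1 = p.2) → (∀ e < nX, ¬ SatC χ (ngM X e) (ngV X e)) → False

theorem XRefX.refX {m w X nX : ℕ} {E : List (ℕ × Bool)} (h : XRefX D m w E X nX) :
    RefX m w E X nX := fun χ T hM => h χ T (xmodel_of_model hM)

theorem XRefX.mono {D D' m w X nX : ℕ} {E : List (ℕ × Bool)} (h : XRefX D' m w E X nX)
    (hD : ∀ s < 2048, D'.testBit s = false → D.testBit s = false) : XRefX D m w E X nX :=
  fun χ T hM => h χ T (hM.mono hD)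

/-- A relaxed model. -/
theorem xmodel_of_rmodel (hM : RModel χ T) : XModel sixT χ T where
  gp := hM.gp
  cc := hM.cc
  kc := hM.kc
  anti := hM.anti
  bad s hs h0 h1 := by
    refine hM.bad s (by omega) ?_ h1
    have h9 := list_range_all R.six_check' s hs
    have h8 : Nat.beq (Nat.land (Nat.shiftRight sixT s) 1) 1 = false := by rw [tb_beq, h0]
    rw [h8] at h9
    revert h9
    change ((false == six s) = true) → six s = false
    cases six s <;> simp

theorem XRefX.rrefX {m w X nX : ℕ} {E : List (ℕ × Bool)} (h : XRefX sixT m w E X nX) :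
    RRefX m w E X nX := fun χ T hM => h χ T (xmodel_of_rmodel hM)

/-- The clauses of the chart. -/
theorem genX_one (hM : XModel D χ T) (h : Simp χ 63 4095) (c : ℕ) :
    Cl χ T (genX D (nat_lit 16773183) (nat_lit 0) c) :=
  genX_cl hM (hP_one (by decide +kernel) (by decide +kernel) (by decide +kernel) h) hN_zero c

/-- **A pattern is refuted**, from a chain of blocks. -/
theorem xrefX_of {m w U off lits : ℕ} {E : List (ℕ × Bool)} {X nX : ℕ}
    (hm : m.testBit 36 = true) (hE : (E.all fun p => decide (p.1 < 4096)) = true)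
    (hU : mkU m w ||| chartU ||| mkE E = U) (hX : tabX X off lits nX = true)
    (h : ∀ χ T : ℕ → Bool, XModel D χ T → Simp χ 63 4095 → St χ T U off lits nX → False) :
    XRefX D m w E X nX := by
  intro χ T hM h63 hS hs hE' hX'
  refine h χ T hM hS ⟨?_, ?_⟩
  · rw [← hU]
    refine Fa_or (Fa_or (fa_mkU h63 (hs.2 hm) hs.1) (fa_chartU h63 hS)) (fa_mkE ?_ hE')
    intro p hp
    exact of_decide_eq_true (List.all_eq_true.1 hE p hp)
  · intro i hi
    rw [Nat.eq_of_beq_eq_true (List.all_eq_true.1 hX i (List.mem_range.2 hi))]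
    exact cl_negC (hX' i hi)

end Pool.Agent.H28.Z12
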