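import Pool.Agent.H28.Z12.PosDefs

/-!
Kernel evaluation of a cover of the sign patterns in the frame of the largest cross ratio
(MP_1e71f9_co).
-/

set_option autoImplicit false

namespace Pool.Agent.H28.Z12.Cov

/-- Sets of the numbers below 64 by three digits. -/
def TLo : Nat := nat_lit 0x808080808080808000000000000000000000000000000000000000000000000000000000000000000000000000000000000000000000000000000000000000004040404040404040c0c0c0c0c0c0c0c000000000000000000000000000000000000000000000000000000000000000000000000000000000000000000000000020202020202020200000000000000000a0a0a0a0a0a0a0a000000000000000000000000000000000000000000000000000000000000000000000000000000000101010101010101030303030303030305050505050505050f0f0f0f0f0f0f0f000000000000000000000000000000000000000000000000000000000000000000808080808080808000000000000000000000000000000000000000000000000888888888888888800000000000000000000000000000000000000000000000004040404040404040c0c0c0c0c0c0c0c000000000000000000000000000000004444444444444444cccccccccccccccc00000000000000000000000000000000020202020202020200000000000000000a0a0a0a0a0a0a0a000000000000000022222222222222220000000000000000aaaaaaaaaaaaaaaa00000000000000000101010101010101030303030303030305050505050505050f0f0f0f0f0f0f0f111111111111111133333333333333335555555555555555ffffffffffffffff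
def THi : Nat := nat_lit 0xff00000000000000000000000000000000000000000000000000000000000000000000000000000000000000000000000000000000000000000000000000000000ff000000000000ffff0000000000000000000000000000000000000000000000000000000000000000000000000000000000000000000000000000000000000000ff00000000000000000000000000ff00ff000000000000000000000000000000000000000000000000000000000000000000000000000000000000000000000000ff000000000000ffff0000000000ff00ff00000000ffffffff00000000000000000000000000000000000000000000000000000000000000000000000000000000ff000000000000000000000000000000000000000000000000000000ff000000ff0000000000000000000000000000000000000000000000000000000000000000ff000000000000ffff00000000000000000000000000000000000000ff000000ff0000ffff0000ffff000000000000000000000000000000000000000000000000ff00000000000000000000000000ff00ff0000000000000000000000ff000000ff000000000000000000ff00ff00ff00ff00000000000000000000000000000000ff000000000000ffff0000000000ff00ff00000000ffffffff000000ff000000ff0000ffff0000ffff00ff00ff00ff00ffffffffffffffffff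

/-- The numbers `r < 64` with `r &&& m = w`. -/
def cube (m w : Nat) : Nat :=
  Nat.land
    (Nat.shiftRight TLo (Nat.mul (nat_lit 64) (Nat.lor (Nat.land m (nat_lit 7)) (Nat.shiftLeft (Nat.land w (nat_lit 7)) (nat_lit 3)))))
    (Nat.land (nat_lit 18446744073709551615)
      (Nat.shiftRight THi (Nat.mul (nat_lit 64) (Nat.lor (Nat.shiftRight m (nat_lit 3)) (Nat.land w (nat_lit 56))))))

/-- Two matrices at once, at the bits 0 and 40. -/
def cj2 (D X a j : Nat) : Nat :=
  Nat.shiftLeft (Nat.land (Nat.shiftRight X (dj D a)) (nat_lit 1199331170236246528065)) j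

def cperm2 (D X : Nat) : Nat :=
  Nat.lor (Nat.lor (Nat.lor (cj2 D X (nat_lit 0) (nat_lit 0)) (cj2 D X (nat_lit 3) (nat_lit 1))) (Nat.lor (cj2 D X (nat_lit 6) (nat_lit 2)) (cj2 D X (nat_lit 9) (nat_lit 3))))
    (Nat.lor (cj2 D X (nat_lit 12) (nat_lit 4)) (cj2 D X (nat_lit 15) (nat_lit 5)))

def rk2 (D X a k : Nat) : Nat :=
  Nat.shiftLeft (Nat.land (Nat.shiftRight X (Nat.mul (nat_lit 6) (dj D a))) (nat_lit 69269232549951)) k

def rperm2 (D X : Nat) : Nat :=
  Nat.lor (Nat.lor (Nat.lor (rk2 D X (nat_lit 0) (nat_lit 0)) (rk2 D X (nat_lit 3) (nat_lit 6))) (Nat.lor (rk2 D X (nat_lit 6) (nat_lit 12)) (rk2 D X (nat_lit 9) (nat_lit 18))))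
    (Nat.lor (rk2 D X (nat_lit 12) (nat_lit 24)) (rk2 D X (nat_lit 15) (nat_lit 30)))

/-- Mask and value of an entry of a table of patterns. -/
def gM (g : Nat) : Nat := Nat.land g (nat_lit 137438953471)
def gV (g : Nat) : Nat := Nat.land (Nat.shiftRight g (nat_lit 37)) (nat_lit 137438953471)

/-- The pattern `g` is satisfied by `Y` known at the bits `Ym`. -/
noncomputable def hitG (g Ym Y : Nat) : Bool :=
  band (Nat.beq (Nat.land Ym (gM g)) (gM g)) (Nat.beq (Nat.land Y (gM g)) (gV g))

/-- The permutations with digits `Dp, Dq` keep the frame, with complement if `c = 1`. -/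
noncomputable def frE (Dp Dq c : Nat) : Bool :=
  band (band (Nat.beq (Nat.land (Nat.shiftRight (nat_lit 258) (d01 Dp)) (nat_lit 1)) (nat_lit 1))
      (Nat.beq (Nat.land (Nat.shiftRight (nat_lit 1099511627808) (d05 Dq)) (nat_lit 1)) (nat_lit 1)))
    (Nat.beq c (Nat.xor (Nat.land Dp (nat_lit 1)) (Nat.land Dq (nat_lit 1))))

/-- The test of a leaf: type 0 a node of the next layer, type 1 a pattern excluded in the frame,
type 2 an excluded pattern. -/
noncomputable def lfT (L : Nat → Nat) (nL : Nat) (P : Nat → Nat) (nP : Nat) (S : Nat → Nat) (nS : Nat)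
    (mk1 Dp Dq ty c i Ym Y : Nat) : Bool :=
  @Bool.rec (fun _ => Bool)
    (@Bool.rec (fun _ => Bool)
      (band (Nat.beq ty (nat_lit 2)) (band (Nat.ble (Nat.succ i) nS) (hitG (S i) Ym Y)))
      (band (frE Dp Dq c) (band (Nat.ble (Nat.succ i) nP) (hitG (P i) Ym Y)))
      (Nat.beq ty (nat_lit 1)))
    (band (frE Dp Dq c) (band (Nat.ble (Nat.succ i) nL) (band (Nat.beq Ym mk1) (Nat.beq Y (L i)))))
    (Nat.beq ty (nat_lit 0))

/-- The known bits of the permuted matrix. -/
def ymOf (Z : Nat) : Nat := Nat.lor (Nat.shiftRight Z (nat_lit 40)) (nat_lit 68719476736)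

/-- The bits of the permuted matrix; `A` the node. -/
def yOf (Z A p q : Nat) : Nat := Nat.lor (Nat.land Z (nat_lit 68719476735))
  (Nat.shiftLeft (Nat.xor (Nat.land (Nat.shiftRight A (nat_lit 36)) (nat_lit 1))
    (Nat.xor (pr p) (pr q))) (nat_lit 36))

/-- The test of a leaf with the permuted pair `Z`. -/
noncomputable def lfZ (L : Nat → Nat) (nL : Nat) (P : Nat → Nat) (nP : Nat) (S : Nat → Nat) (nS : Nat)
    (mk1 A p q Dp Dq ty c i Z : Nat) : Bool :=
  lfT L nL P nP S nS mk1 Dp Dq ty c i (ymOf Z)
    (Nat.xor (yOf Z A p q) (Nat.mul c (ymOf Z)))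

/-- The test of a leaf: column bits `mr, wr`, permutations `p, q`. -/
noncomputable def lfP (L : Nat → Nat) (nL : Nat) (P : Nat → Nat) (nP : Nat) (S : Nat → Nat) (nS : Nat)
    (mk mk1 s A mr wr p q ty c i : Nat) : Bool :=
  band (band (Nat.ble (Nat.succ p) (nat_lit 720)) (Nat.ble (Nat.succ q) (nat_lit 720)))
    (lfZ L nL P nP S nS mk1 A p q (dig p) (dig q) ty c i
      (rperm2 (dig q) (cperm2 (dig p) (Nat.lor (Nat.lor A (Nat.shiftLeft wr s))
        (Nat.shiftLeft (Nat.lor mk (Nat.shiftLeft mr s)) (nat_lit 40))))))

/-- The rows covered by the leaf `e` (56 bits): `mr, wr` (6 bits each), `p, q` (10 bits each), type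
(2 bits), complement, index (21 bits). -/
noncomputable def lfS (L : Nat → Nat) (nL : Nat) (P : Nat → Nat) (nP : Nat) (S : Nat → Nat) (nS : Nat)
    (mk mk1 s A e : Nat) : Nat :=
  @Bool.rec (fun _ => Nat) (nat_lit 0)
    (cube (Nat.land e (nat_lit 63)) (Nat.land (Nat.shiftRight e (nat_lit 6)) (nat_lit 63)))
    (lfP L nL P nP S nS mk mk1 s A (Nat.land e (nat_lit 63)) (Nat.land (Nat.shiftRight e (nat_lit 6)) (nat_lit 63))
      (Nat.land (Nat.shiftRight e (nat_lit 12)) (nat_lit 1023)) (Nat.land (Nat.shiftRight e (nat_lit 22)) (nat_lit 1023))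
      (Nat.land (Nat.shiftRight e (nat_lit 32)) (nat_lit 3)) (Nat.land (Nat.shiftRight e (nat_lit 34)) (nat_lit 1))
      (Nat.shiftRight e (nat_lit 35)))

/-- The rows covered by `n` leaves from the leaf `a` on. -/
noncomputable def lfU (L : Nat → Nat) (nL : Nat) (P : Nat → Nat) (nP : Nat) (S : Nat → Nat) (nS : Nat)
    (mk mk1 s A C a : Nat) (n : Nat) : Nat :=
  @Nat.rec (fun _ => Nat) (nat_lit 0) (fun e ih => Nat.lor ih (lfS L nL P nP S nS mk mk1 s A
    (Nat.land (Nat.shiftRight C (Nat.mul (nat_lit 56) (Nat.add a e))) (nat_lit 72057594037927935)))) n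

/-- Offset `i`, 20 bits. -/
def ofs (O i : Nat) : Nat := Nat.land (Nat.shiftRight O (Nat.mul (nat_lit 20) i)) (nat_lit 1048575)

/-- The nodes `a, .., a + n - 1` of `K`. -/
noncomputable def plN (L : Nat → Nat) (nL : Nat) (P : Nat → Nat) (nP : Nat) (S : Nat → Nat) (nS : Nat)
    (mk mk1 s : Nat) (K : Nat → Nat) (a O C : Nat) (n : Nat) : Bool :=
  @Nat.rec (fun _ => Bool) true (fun i ih => band ih
    (Nat.beq (lfU L nL P nP S nS mk mk1 s (K (Nat.add a i)) C (ofs O i)
      (Nat.sub (ofs O (Nat.succ i)) (ofs O i))) (nat_lit 18446744073709551615))) n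

end Pool.Agent.H28.Z12.Cov
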