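import Mathlib
import Pool.Agent.H28.Z12.CondR
import Pool.Agent.H64.Z12.Flip

/-!
Patterns excluded together with their complements (MP_1e71f9_co).
-/

set_option autoImplicit false

namespace Pool.Agent.H28.Z12

open Pool.Agent.H77.Z12 Pool.Agent.H13.Z12 Pool.Agent.H64.Z12 Pool.Agent.H28.Z12.Cov

variable {χ T : ℕ → Bool}

/-- The pattern and its complement are excluded. -/
def Good2 (m w : ℕ) : Prop := Good m w ∧ Good m (w ^^^ m)

/-- The signs of the mutated configuration. -/
theorem satC_flX {m w : ℕ} : SatC (flX χ) m w ↔ SatC χ m (w ^^^ m) := by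
  unfold SatC
  constructor
  · rintro ⟨h1, h2⟩
    constructor
    · intro k j hkj
      have := h1 k j hkj
      rw [sigma_flX] at this
      rw [Nat.testBit_xor, hkj, ← this]
      cases sigma χ k j <;> rfl
    · intro h36
      have := h2 h36
      rw [flX_4032] at this
      rw [Nat.testBit_xor, h36, ← this]
      cases χ 4032 <;> rfl
  · rintro ⟨h1, h2⟩
    constructor
    · intro k j hkj
      have := h1 k j hkj
      rw [Nat.testBit_xor, hkj] at this
      rw [sigma_flX, this]
      cases w.testBit (6 * (k : ℕ) + j) <;> rfl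
    · intro h36
      have := h2 h36
      rw [Nat.testBit_xor, h36] at this
      rw [flX_4032, this]
      cases w.testBit 36 <;> rfl

attribute [local irreducible] chiN topN sigma

theorem Good2.compl {m w : ℕ} (h : Good2 m w) : Good2 m (w ^^^ m) := by
  refine ⟨h.2, ?_⟩
  rw [Nat.xor_assoc, Nat.xor_self, Nat.xor_zero]
  exact h.1

/-- **A pattern and its complement are excluded** if the pattern is refuted in the relaxed model
with images of patterns excluded together with their complements. -/
theorem good2_of_rrefX_gen {m w X nX : ℕ} (h : RRefX m w [] X nX)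
    (hX : ∀ e < nX, ∃ a b p q : ℕ, Good2 a b ∧ imgE a b p q (ngM X e) (ngV X e) = true)
    (hd : detX X nX = true) : Good2 m w := by
  have hdet : ∀ e < nX, (ngM X e).testBit 36 = true := fun e he =>
    List.all_eq_true.1 hd e (List.mem_range.2 he)
  constructor
  · intro M hb hM hs
    obtain ⟨h63, hS, hMod⟩ := chart_facts hb hM
    refine h.refX _ _ hMod h63 hS (satC_iff.2 hs) (fun p hp => absurd hp List.not_mem_nil)
      fun e he hsat => ?_
    obtain ⟨a, b, p, q, hg, himg⟩ := hX e he
    exact hg.1.act hb hM _ _ (img_spec himg (stt M) (hdet e he) (satC_iff.1 hsat))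
  · intro M hb hM hs
    obtain ⟨h63, hS, hMod⟩ := chart_facts hb hM
    refine h _ _ (rmodel_flX hMod hS) (by rw [flX_63, h63]) (simp_flX hS)
      (satC_flX.2 (satC_iff.2 hs)) (fun p hp => absurd hp List.not_mem_nil) fun e he hsat => ?_
    obtain ⟨a, b, p, q, hg, himg⟩ := hX e he
    have hsat' := satC_iff.1 (satC_flX.1 hsat)
    -- the image with complemented values
    have key : Pool.Agent.H77.Z12.Sat a (b ^^^ a)
        (actS (permOf p) (permOf q) (stt M)) := by
      have h0 : Pool.Agent.H77.Z12.Sat (ngM X e) (ngV X e)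
          ((fun k j => !((stt M).1 k j)), !((stt M).2)) := by
        constructor
        · intro k j hkj
          have := hsat'.1 k j hkj
          rw [Nat.testBit_xor, hkj] at this
          show (!((stt M).1 k j)) = _
          rw [this]
          cases (ngV X e).testBit (6 * (k : ℕ) + j) <;> rfl
        · intro h36
          have := hsat'.2 h36
          rw [Nat.testBit_xor, h36] at this
          show (!((stt M).2)) = _
          rw [this]
          cases (ngV X e).testBit 36 <;> rfl
      have h1 := img_spec himg _ (hdet e he) h0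
      constructor
      · intro k j hkj
        have := h1.1 k j hkj
        rw [Nat.testBit_xor, hkj, ← this]
        show (stt M).1 (permOf q k) (permOf p j) = xor (!((stt M).1 (permOf q k) (permOf p j))) true
        cases (stt M).1 (permOf q k) (permOf p j) <;> rfl
      · intro h36
        have := h1.2 h36
        rw [Nat.testBit_xor, h36, ← this]
        show xor (stt M).2 (xor (par (permOf p)) (par (permOf q))) =
          xor (xor (!((stt M).2)) (xor (par (permOf p)) (par (permOf q)))) true
        cases (stt M).2 <;> cases par (permOf p) <;> cases par (permOf q) <;> rfl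
    exact hg.2.act hb hM _ _ key

/-- With a table of earlier patterns. -/
theorem good2_of_rrefX {m w X nX G j C : ℕ} (h : RRefX m w [] X nX)
    (hX : extA G j X C nX = true) (hd : detX X nX = true)
    (hG : ∀ i < j, Good2 (ngM G i) (ngV G i)) : Good2 m w :=
  good2_of_rrefX_gen h (fun e he => by
    obtain ⟨i, hi, p, q, himg⟩ := extA_spec hX e he
    exact ⟨_, _, p, q, hG i hi, himg⟩) hd

theorem ext2A_spec {G j X C : ℕ} : ∀ {n : ℕ}, ext2A G j X C n = true →
    ∀ e < n, ∃ i < j, ∃ t < 2, ∃ p q : ℕ,
      imgE (ngM G i) (ngV G i ^^^ (t * ngM G i)) p q (ngM X e) (ngV X e) = true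
  | 0, _, e, he => absurd he (Nat.not_lt_zero e)
  | n + 1, h, e, he => by
    have h' : band (ext2A G j X C n) (ext2E G j X C n) = true := h
    rw [band_iff] at h'
    rcases Nat.lt_succ_iff_lt_or_eq.1 he with he | rfl
    · exact ext2A_spec h'.1 e he
    · have h2 := h'.2
      rw [ext2E, band_iff, ble_iff] at h2
      have h3 : Nat.land (Nat.shiftRight (cE C e) 20) 1 < 2 := by
        have : Nat.land (Nat.shiftRight (cE C e) 20) 1 = (Nat.shiftRight (cE C e) 20) &&& 1 := rfl
        rw [this, Nat.and_one_is_mod]
        exact Nat.mod_lt _ (by norm_num)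
      exact ⟨_, h2.1, _, h3, _, _, h2.2⟩

/-- With a table of earlier patterns and complements. -/
theorem good2_of_rrefX2 {m w X nX G j C : ℕ} (h : RRefX m w [] X nX)
    (hX : ext2A G j X C nX = true) (hd : detX X nX = true)
    (hG : ∀ i < j, Good2 (ngM G i) (ngV G i)) : Good2 m w :=
  good2_of_rrefX_gen h (fun e he => by
    obtain ⟨i, hi, t, ht, p, q, himg⟩ := ext2A_spec hX e he
    refine ⟨_, _, p, q, ?_, himg⟩
    interval_cases t
    · rw [Nat.zero_mul, Nat.xor_zero]
      exact hG i hi
    · rw [Nat.one_mul]
      exact (hG i hi).compl) hd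

theorem good2_of_rref_nil {m w : ℕ} (h : RRefX m w [] 0 0) : Good2 m w :=
  good2_of_rrefX (G := 0) (j := 0) (C := 0) h rfl rfl fun i hi => absurd hi (Nat.not_lt_zero i)

/-- Both signs of the determinant. -/
theorem good2_both {m w : ℕ} (h1 : Good2 (m ||| 2 ^ 36) (w ||| 2 ^ 36))
    (h2 : Good2 (m ||| 2 ^ 36) w) (hw : w < 2 ^ 36) (hm : m < 2 ^ 36) : Good2 m w := by
  have hb : ∀ (x : ℕ), x < 2 ^ 36 → x.testBit 36 = false := fun x hx =>
    Nat.testBit_lt_two_pow hx
  have e1 : (w ||| 2 ^ 36) ^^^ (m ||| 2 ^ 36) = w ^^^ m := by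
    apply Nat.eq_of_testBit_eq
    intro i
    rw [Nat.testBit_xor, Nat.testBit_or, Nat.testBit_or, Nat.testBit_xor, Nat.testBit_two_pow]
    by_cases h : 36 = i
    · subst h
      rw [hb w hw, hb m hm]
      decide
    · rw [decide_eq_false h, Bool.or_false, Bool.or_false]
  have e2 : w ^^^ (m ||| 2 ^ 36) = (w ^^^ m) ||| 2 ^ 36 := by
    apply Nat.eq_of_testBit_eq
    intro i
    rw [Nat.testBit_xor, Nat.testBit_or, Nat.testBit_or, Nat.testBit_xor, Nat.testBit_two_pow]
    by_cases h : 36 = i
    · subst h
      rw [hb w hw, hb m hm]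
      decide
    · rw [decide_eq_false h, Bool.or_false, Bool.or_false]
  refine ⟨good_both h1.1 h2.1 hw, good_both (m := m) (w := w ^^^ m) ?_ ?_ (Nat.xor_lt_two_pow hw hm)⟩
  · rw [← e2]; exact h2.2
  · rw [← e1]; exact h1.2

/-- An entry of the table of patterns. -/
theorem good2_entry {G i m w : ℕ} (hm : ngM G i = m) (hw : ngV G i = w) (h : Good2 m w) :
    Good2 (ngM G i) (ngV G i) := by
  rw [hm, hw]
  exact h

/-- Two complementary patterns, both excluded. -/
theorem good2_of_pair {m w w' : ℕ} (h : Good m w) (h' : Good m w') (e : w ^^^ m = w') :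
    Good2 m w := ⟨h, by rw [e]; exact h'⟩

/-- Induction over the table of patterns. -/
theorem good2_all {G nG : ℕ} (h : ∀ j < nG, (∀ i < j, Good2 (ngM G i) (ngV G i)) →
    Good2 (ngM G j) (ngV G j)) : ∀ j < nG, Good2 (ngM G j) (ngV G j) := by
  intro j
  induction j using Nat.strong_induction_on with
  | _ j ih =>
    intro hj
    exact h j hj fun i hi => ih i hi (by omega)

end Pool.Agent.H28.Z12
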