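import Mathlib
import Pool.Agent.H26.Z12.SortedFlip
import Pool.Agent.H28.Z12.Good2

/-!
The frame of the largest cross ratio (MP_1e71f9_co).
-/

set_option autoImplicit false

namespace Pool.Agent.H28.Z12

open Pool.Agent.H77.Z12 Pool.Agent.H13.Z12 Pool.Agent.H64.Z12 Pool.Agent.H28.Z12.Cov
open Pool.Agent.H26.Z12

/-- The cross ratio of the rows `i, i'` and the columns `j, j'` is the largest one. -/
def MXat (M : Fin 6 → Fin 6 → ℝ) (i i' j j' : Fin 6) : Prop := ∀ a a' c c' : Fin 6,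
  M a c * M a' c' * (M i j' * M i' j) ≤ M i j * M i' j' * (M a c' * M a' c)

theorem mxat_comm {M : Fin 6 → Fin 6 → ℝ} {i i' j j' : Fin 6} (h : MXat M i i' j j') :
    MXat M i' i j' j := by
  intro a a' c c'
  have := h a a' c c'
  rw [mul_comm (M i' j) (M i j'), mul_comm (M i' j') (M i j)]
  exact this

theorem mxat_perm {M : Fin 6 → Fin 6 → ℝ} {i i' j j' : Fin 6} (ρ γ : Equiv.Perm (Fin 6))
    (h : MXat M (ρ i) (ρ i') (γ j) (γ j')) : MXat (fun a c => M (ρ a) (γ c)) i i' j j' :=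
  fun a a' c c' => h (ρ a) (ρ a') (γ c) (γ c')

/-- The largest cross ratio exists. -/
theorem exists_mxat {M : Fin 6 → Fin 6 → ℝ} (hM : ∀ i c, 0 < M i c) (hb : Bad (cf M)) :
    ∃ i i' j j' : Fin 6, i ≠ i' ∧ j ≠ j' ∧ MXat M i i' j j' := by
  classical
  let R : Fin 6 × Fin 6 × Fin 6 × Fin 6 → ℝ := fun x =>
    M x.1 x.2.2.1 * M x.2.1 x.2.2.2 / (M x.1 x.2.2.2 * M x.2.1 x.2.2.1)
  obtain ⟨⟨i, i', j, j'⟩, -, hmax⟩ := Finset.exists_max_image
    (Finset.univ : Finset (Fin 6 × Fin 6 × Fin 6 × Fin 6)) R Finset.univ_nonempty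
  have hR : MXat M i i' j j' := by
    intro a a' c c'
    have h := hmax (a, a', c, c') (Finset.mem_univ _)
    simp only [R] at h
    rw [div_le_div_iff₀ (mul_pos (hM _ _) (hM _ _)) (mul_pos (hM _ _) (hM _ _))] at h
    exact h
  have hgt : M i j' * M i' j < M i j * M i' j' := by
    have h1 := nd_of_bad hb (show (0 : Fin 6) ≠ 1 by decide) (show (0 : Fin 6) ≠ 1 by decide)
    have q1 := hM i j'; have q2 := hM i' j; have q3 := hM i j; have q4 := hM i' j'
    have p1 := hM 0 0; have p2 := hM 1 1; have p3 := hM 1 0; have p4 := hM 0 1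
    rcases lt_or_gt_of_ne h1 with h2 | h2
    · have h3 := hR 1 0 0 1
      have h4 : M 0 0 * M 1 1 < M 1 0 * M 0 1 := by linarith
      by_contra hcon
      have h5 := not_lt.1 hcon
      have h6 : M i j * M i' j' * (M 1 1 * M 0 0) ≤ M i j' * M i' j * (M 1 1 * M 0 0) :=
        mul_le_mul_of_nonneg_right h5 (mul_pos p2 p1).le
      have h7 : M i j' * M i' j * (M 1 1 * M 0 0) < M i j' * M i' j * (M 1 0 * M 0 1) :=
        mul_lt_mul_of_pos_left (by linarith) (mul_pos q1 q2)
      linarith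
    · have h3 := hR 0 1 0 1
      have h4 : M 1 0 * M 0 1 < M 0 0 * M 1 1 := by linarith
      by_contra hcon
      have h5 := not_lt.1 hcon
      have h6 : M i j * M i' j' * (M 0 1 * M 1 0) ≤ M i j' * M i' j * (M 0 1 * M 1 0) :=
        mul_le_mul_of_nonneg_right h5 (mul_pos p4 p3).le
      have h7 : M i j' * M i' j * (M 0 1 * M 1 0) < M i j' * M i' j * (M 0 0 * M 1 1) :=
        mul_lt_mul_of_pos_left (by linarith) (mul_pos q1 q2)
      linarith
  refine ⟨i, i', j, j', ?_, ?_, hR⟩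
  · rintro rfl
    rw [mul_comm] at hgt
    exact lt_irrefl _ hgt
  · rintro rfl
    exact lt_irrefl _ hgt

/-- The signs of minors at the largest cross ratio. -/
theorem mxat_signs {M : Fin 6 → Fin 6 → ℝ} (hM : ∀ i c, 0 < M i c) (hb : Bad (cf M))
    {i i' j j' : Fin 6} (hi : i ≠ i') (hj : j ≠ j') (h : MXat M i i' j j') :
    (∀ x, x ≠ j → M i x * M i' j < M i j * M i' x) ∧
    (∀ x, x ≠ j' → M i j' * M i' x < M i x * M i' j') ∧
    (∀ r, r ≠ i → M r j * M i j' < M i j * M r j') ∧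
    (∀ r, r ≠ i' → M i' j * M r j' < M r j * M i' j') := by
  refine ⟨fun x hx => ?_, fun x hx => ?_, fun r hr => ?_, fun r hr => ?_⟩
  · have h1 := h i i' x j'
    have h2 := nd_of_bad hb hi hx
    have q := mul_pos (hM i j') (hM i' j')
    have h3 : (M i x * M i' j) * (M i j' * M i' j') ≤ (M i j * M i' x) * (M i j' * M i' j') := by
      linarith
    refine lt_of_le_of_ne (le_of_mul_le_mul_right h3 q) fun h4 => h2 ?_
    linarith
  · have h1 := h i i' j x
    have h2 := nd_of_bad hb hi hx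
    have q := mul_pos (hM i j) (hM i' j)
    have h3 : (M i j' * M i' x) * (M i j * M i' j) ≤ (M i x * M i' j') * (M i j * M i' j) := by
      linarith
    refine lt_of_le_of_ne (le_of_mul_le_mul_right h3 q) fun h4 => h2 ?_
    linarith
  · have h1 := h r i' j j'
    have h2 := nd_of_bad hb hr hj
    have q := mul_pos (hM i' j) (hM i' j')
    have h3 : (M r j * M i j') * (M i' j * M i' j') ≤ (M i j * M r j') * (M i' j * M i' j') := by
      linarith
    refine lt_of_le_of_ne (le_of_mul_le_mul_right h3 q) fun h4 => h2 ?_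
    linarith
  · have h1 := h i r j j'
    have h2 := nd_of_bad hb hr hj
    have q := mul_pos (hM i j) (hM i j')
    have h3 : (M i' j * M r j') * (M i j * M i j') ≤ (M r j * M i' j') * (M i j * M i j') := by
      linarith
    refine lt_of_le_of_ne (le_of_mul_le_mul_right h3 q) fun h4 => h2 ?_
    linarith

/-- The largest cross ratio is that of the rows 0, 1 and the columns 0, 5. -/
def MX (M : Fin 6 → Fin 6 → ℝ) : Prop := MXat M 0 1 0 5

/-- The smallest cross ratio is that of the rows 0, 1 and the columns 0, 5. -/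
def MXN (M : Fin 6 → Fin 6 → ℝ) : Prop := MXat M 1 0 0 5

/-- Rows, columns and sign of a minor. -/
structure Mn where
  a : Fin 6
  b : Fin 6
  c : Fin 6
  d : Fin 6
  s : Bool
deriving DecidableEq

/-- The seventeen minors of the frame. -/
def L17 : List Mn :=
  [⟨0, 1, 0, 1, true⟩, ⟨0, 1, 0, 2, true⟩, ⟨0, 1, 0, 3, true⟩, ⟨0, 1, 0, 4, true⟩,
   ⟨0, 1, 0, 5, true⟩, ⟨0, 1, 1, 5, true⟩, ⟨0, 1, 2, 5, true⟩, ⟨0, 1, 3, 5, true⟩,
   ⟨0, 1, 4, 5, true⟩, ⟨0, 2, 0, 5, true⟩, ⟨0, 3, 0, 5, true⟩, ⟨0, 4, 0, 5, true⟩,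
   ⟨0, 5, 0, 5, true⟩, ⟨1, 2, 0, 5, false⟩, ⟨1, 3, 0, 5, false⟩, ⟨1, 4, 0, 5, false⟩,
   ⟨1, 5, 0, 5, false⟩]

/-- The sign of a minor of `M`; `f` for the opposite sign. -/
def SgnP (M : Fin 6 → Fin 6 → ℝ) (f : Bool) (e : Mn) : Prop :=
  if xor f e.s = true then 0 < M e.a e.c * M e.b e.d - M e.b e.c * M e.a e.d
  else M e.a e.c * M e.b e.d - M e.b e.c * M e.a e.d < 0

theorem mx_sgn {M : Fin 6 → Fin 6 → ℝ} (hM : ∀ i c, 0 < M i c) (hb : Bad (cf M)) (h : MX M) :
    ∀ e ∈ L17, SgnP M false e := by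
  obtain ⟨h1, h2, h3, h4⟩ := mxat_signs hM hb (show (0 : Fin 6) ≠ 1 by decide)
    (show (0 : Fin 6) ≠ 5 by decide) h
  intro e he
  simp only [L17, List.mem_cons, List.not_mem_nil, or_false] at he
  rcases he with rfl | rfl | rfl | rfl | rfl | rfl | rfl | rfl | rfl | rfl | rfl | rfl | rfl |
    rfl | rfl | rfl | rfl
  · have := h1 1 (by decide); simp only [SgnP]; norm_num; linarith
  · have := h1 2 (by decide); simp only [SgnP]; norm_num; linarith
  · have := h1 3 (by decide); simp only [SgnP]; norm_num; linarith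
  · have := h1 4 (by decide); simp only [SgnP]; norm_num; linarith
  · have := h1 5 (by decide); simp only [SgnP]; norm_num; linarith
  · have := h2 1 (by decide); simp only [SgnP]; norm_num; linarith
  · have := h2 2 (by decide); simp only [SgnP]; norm_num; linarith
  · have := h2 3 (by decide); simp only [SgnP]; norm_num; linarith
  · have := h2 4 (by decide); simp only [SgnP]; norm_num; linarith
  · have := h3 2 (by decide); simp only [SgnP]; norm_num; linarith
  · have := h3 3 (by decide); simp only [SgnP]; norm_num; linarith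
  · have := h3 4 (by decide); simp only [SgnP]; norm_num; linarith
  · have := h3 5 (by decide); simp only [SgnP]; norm_num; linarith
  · have := h4 2 (by decide); simp only [SgnP]; norm_num; linarith
  · have := h4 3 (by decide); simp only [SgnP]; norm_num; linarith
  · have := h4 4 (by decide); simp only [SgnP]; norm_num; linarith
  · have := h4 5 (by decide); simp only [SgnP]; norm_num; linarith

theorem mxn_sgn {M : Fin 6 → Fin 6 → ℝ} (hM : ∀ i c, 0 < M i c) (hb : Bad (cf M)) (h : MXN M) :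
    ∀ e ∈ L17, SgnP M true e := by
  obtain ⟨h1, h2, h3, h4⟩ := mxat_signs hM hb (show (1 : Fin 6) ≠ 0 by decide)
    (show (0 : Fin 6) ≠ 5 by decide) h
  intro e he
  simp only [L17, List.mem_cons, List.not_mem_nil, or_false] at he
  rcases he with rfl | rfl | rfl | rfl | rfl | rfl | rfl | rfl | rfl | rfl | rfl | rfl | rfl |
    rfl | rfl | rfl | rfl
  · have := h1 1 (by decide); simp only [SgnP]; norm_num; linarith
  · have := h1 2 (by decide); simp only [SgnP]; norm_num; linarith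
  · have := h1 3 (by decide); simp only [SgnP]; norm_num; linarith
  · have := h1 4 (by decide); simp only [SgnP]; norm_num; linarith
  · have := h1 5 (by decide); simp only [SgnP]; norm_num; linarith
  · have := h2 1 (by decide); simp only [SgnP]; norm_num; linarith
  · have := h2 2 (by decide); simp only [SgnP]; norm_num; linarith
  · have := h2 3 (by decide); simp only [SgnP]; norm_num; linarith
  · have := h2 4 (by decide); simp only [SgnP]; norm_num; linarith
  · have := h4 2 (by decide); simp only [SgnP]; norm_num; linarith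
  · have := h4 3 (by decide); simp only [SgnP]; norm_num; linarith
  · have := h4 4 (by decide); simp only [SgnP]; norm_num; linarith
  · have := h4 5 (by decide); simp only [SgnP]; norm_num; linarith
  · have := h3 2 (by decide); simp only [SgnP]; norm_num; linarith
  · have := h3 3 (by decide); simp only [SgnP]; norm_num; linarith
  · have := h3 4 (by decide); simp only [SgnP]; norm_num; linarith
  · have := h3 5 (by decide); simp only [SgnP]; norm_num; linarith

/-- The literal of a minor. -/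
def litM (e : Mn) : ℕ × Bool := (mm e.a e.b e.c e.d, xor (mb e.a e.b) (!e.s))

theorem l17_lt : ∀ e ∈ L17, e.a < e.b ∧ e.c < e.d := by decide

variable {χ T : ℕ → Bool}

theorem chi_mm' (h63 : χ 63 = true) {a a' c c' : Fin 6} (ha : a < a') (hc : c < c')
    (h : fsm χ (rm a a') (6 + c) (6 + c') = !(fsm χ (rm a a') a a')) :
    χ (mm a a' c c') = !(mb a a') := by
  obtain ⟨e0, e1⟩ := rm_facts2 a a' ha
  obtain ⟨e2, e3⟩ := e1 c c' hc
  rw [fsm, fsm, e0, h63, e2, e3] at h
  rw [mb, mm]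
  revert h
  cases χ (rm ↑a ↑a' ||| 2 ^ (6 + (c : ℕ)) ||| 2 ^ (6 + (c' : ℕ))) <;>
    cases ipm (rm ↑a ↑a') ↑a <;> cases ipm (rm ↑a ↑a') ↑a' <;> simp

theorem flX_mm' (h63 : χ 63 = true) {a a' c c' : Fin 6} (ha : a < a') (hc : c < c')
    (h : fsm χ (rm a a') (6 + c) (6 + c') = fsm χ (rm a a') a a') :
    flX χ (mm a a' c c') = !(mb a a') := by
  obtain ⟨e0, e1⟩ := rm_facts2 a a' ha
  obtain ⟨e2, e3⟩ := e1 c c' hc
  obtain ⟨e4, e5⟩ := pR_mm a a' ha c c' hc
  rw [flX, Nat.mod_eq_of_lt e5, flY, e4]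
  rw [fsm, fsm, e0, h63, e2, e3] at h
  rw [mb, mm]
  revert h
  cases χ (rm ↑a ↑a' ||| 2 ^ (6 + (c : ℕ)) ||| 2 ^ (6 + (c' : ℕ))) <;>
    cases ipm (rm ↑a ↑a') ↑a <;> cases ipm (rm ↑a ↑a') ↑a' <;> simp

attribute [local irreducible] chiN topN sigma

theorem lit_of_sgn {M : Fin 6 → Fin 6 → ℝ} (hb : Bad (cf M)) (h63 : chiN (cf M) 63 = true)
    {e : Mn} (he : e ∈ L17) (h : SgnP M false e) : chiN (cf M) (litM e).1 = (litM e).2 := by
  obtain ⟨ha, hc⟩ := l17_lt e he
  have hs := minor_sign hb.1 ha hc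
  rcases hes : e.s with _ | _
  · rw [SgnP, hes, if_neg (by decide)] at h
    show chiN (cf M) (mm e.a e.b e.c e.d) = xor (mb e.a e.b) (!e.s)
    rw [hes, Bool.not_false, Bool.xor_true]
    exact chi_mm' h63 ha hc (hs.2.2 h)
  · rw [SgnP, hes, if_pos (by decide)] at h
    show chiN (cf M) (mm e.a e.b e.c e.d) = xor (mb e.a e.b) (!e.s)
    rw [hes, Bool.not_true, Bool.xor_false]
    exact chi_mm h63 ha hc (hs.2.1 h)

theorem lit_of_sgn_flX {M : Fin 6 → Fin 6 → ℝ} (hb : Bad (cf M)) (h63 : chiN (cf M) 63 = true)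
    {e : Mn} (he : e ∈ L17) (h : SgnP M true e) :
    flX (chiN (cf M)) (litM e).1 = (litM e).2 := by
  obtain ⟨ha, hc⟩ := l17_lt e he
  have hs := minor_sign hb.1 ha hc
  rcases hes : e.s with _ | _
  · rw [SgnP, hes, if_pos (by decide)] at h
    show flX (chiN (cf M)) (mm e.a e.b e.c e.d) = xor (mb e.a e.b) (!e.s)
    rw [hes, Bool.not_false, Bool.xor_true]
    exact flX_mm' h63 ha hc (hs.2.1 h)
  · rw [SgnP, hes, if_neg (by decide)] at h
    show flX (chiN (cf M)) (mm e.a e.b e.c e.d) = xor (mb e.a e.b) (!e.s)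
    rw [hes, Bool.not_true, Bool.xor_false]
    exact flX_mm h63 ha hc (hs.2.2 h)

/-- No bad configuration in the chart with the largest cross ratio at rows 0, 1 and columns
0, 5 has the signs of the pattern. -/
def PosGood (m w : ℕ) : Prop := ∀ M : Fin 6 → Fin 6 → ℝ, Bad (cf M) → (∀ i c, 0 < M i c) →
  MX M → ¬ Pool.Agent.H77.Z12.Sat m w (stt M)

/-- The same with the smallest cross ratio. -/
def PosGoodN (m w : ℕ) : Prop := ∀ M : Fin 6 → Fin 6 → ℝ, Bad (cf M) → (∀ i c, 0 < M i c) →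
  MXN M → ¬ Pool.Agent.H77.Z12.Sat m w (stt M)

/-- Both, the second one for the complementary pattern. -/
def Pos2 (m w : ℕ) : Prop := PosGood m w ∧ PosGoodN m (w ^^^ m)

theorem Good2.pos2 {m w : ℕ} (h : Good2 m w) : Pos2 m w :=
  ⟨fun M hb hM _ => h.1 M hb hM, fun M hb hM _ => h.2 M hb hM⟩

/-- The images used by a conditional refutation are excluded in the frame. -/
def ExtP (X nX : ℕ) : Prop :=
  (∀ M : Fin 6 → Fin 6 → ℝ, Bad (cf M) → (∀ i c, 0 < M i c) → MX M →
    ∀ e < nX, ¬ SatC (chiN (cf M)) (ngM X e) (ngV X e)) ∧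
  (∀ M : Fin 6 → Fin 6 → ℝ, Bad (cf M) → (∀ i c, 0 < M i c) → MXN M →
    ∀ e < nX, ¬ SatC (flX (chiN (cf M))) (ngM X e) (ngV X e))

theorem extP_zero (X : ℕ) : ExtP X 0 :=
  ⟨fun _ _ _ _ e he => absurd he (Nat.not_lt_zero e),
    fun _ _ _ _ e he => absurd he (Nat.not_lt_zero e)⟩

/-- All signs of `E` are signs of the frame. -/
def sub17 (E : List (ℕ × Bool)) : Bool := E.all fun e => (L17.map litM).contains e

theorem pos2_of_rrefX_ext {m w X nX : ℕ} {E : List (ℕ × Bool)} (h : RRefX m w E X nX)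
    (hE : sub17 E = true) (hx : ExtP X nX) : Pos2 m w := by
  have hmem : ∀ p ∈ E, ∃ e ∈ L17, litM e = p := fun p hp =>
    List.mem_map.1 (List.contains_iff_mem.1 (List.all_eq_true.1 hE p hp))
  constructor
  · intro M hb hM hx0 hs
    obtain ⟨h63, hS, hMod⟩ := chart_facts hb hM
    refine h _ _ (rmodel_of_model hMod) h63 hS (satC_iff.2 hs) (fun p hp => ?_)
      (hx.1 M hb hM hx0)
    obtain ⟨e, he, rfl⟩ := hmem p hp
    exact lit_of_sgn hb h63 he (mx_sgn hM hb hx0 e he)
  · intro M hb hM hx0 hs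
    obtain ⟨h63, hS, hMod⟩ := chart_facts hb hM
    refine h _ _ (rmodel_flX hMod hS) (by rw [flX_63, h63]) (simp_flX hS)
      (satC_flX.2 (satC_iff.2 hs)) (fun p hp => ?_) (hx.2 M hb hM hx0)
    obtain ⟨e, he, rfl⟩ := hmem p hp
    exact lit_of_sgn_flX hb h63 he (mxn_sgn hM hb hx0 e he)

/-- **A pattern refuted in the frame of the largest cross ratio.** -/
theorem pos2_of_rrefX {m w : ℕ} {E : List (ℕ × Bool)} (h : RRefX m w E 0 0)
    (hE : sub17 E = true) : Pos2 m w := pos2_of_rrefX_ext h hE (extP_zero 0)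

/-- Both signs of the determinant. -/
theorem pos2_both {m w : ℕ} (h1 : Pos2 (m ||| 2 ^ 36) (w ||| 2 ^ 36))
    (h2 : Pos2 (m ||| 2 ^ 36) w) (hw : w < 2 ^ 36) (hm : m < 2 ^ 36) : Pos2 m w := by
  have hbit : ∀ (x : ℕ) (k j : Fin 6), (x ||| 2 ^ 36).testBit (6 * (k : ℕ) + j) =
      x.testBit (6 * (k : ℕ) + j) := by
    intro x k j
    rw [Nat.testBit_or, Nat.testBit_two_pow, decide_eq_false (by omega), Bool.or_false]
  have hb : ∀ (x : ℕ), (x ||| 2 ^ 36).testBit 36 = true := by
    intro x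
    rw [Nat.testBit_or, Nat.testBit_two_pow, decide_eq_true rfl, Bool.or_true]
  have hm36 : m.testBit 36 = false := Nat.testBit_lt_two_pow hm
  have hw36 : w.testBit 36 = false := Nat.testBit_lt_two_pow hw
  constructor
  · intro M hb' hM hx hs
    rcases hD : (stt M).2 with _ | _
    · refine h2.1 M hb' hM hx ⟨fun k j h => hs.1 k j (by rw [← hbit m k j]; exact h), fun _ => ?_⟩
      rw [hD, hw36]
    · refine h1.1 M hb' hM hx ⟨fun k j h => ?_, fun _ => ?_⟩
      · rw [hbit w k j]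
        exact hs.1 k j (by rw [← hbit m k j]; exact h)
      · rw [hD, hb]
  · intro M hb' hM hx hs
    have key : ∀ k j : Fin 6, m.testBit (6 * k + j) = true → (stt M).1 k j =
        xor (w.testBit (6 * k + j)) true := by
      intro k j h
      rw [hs.1 k j h, Nat.testBit_xor, h]
    rcases hD : (stt M).2 with _ | _
    · refine h1.2 M hb' hM hx ⟨fun k j h => ?_, fun _ => ?_⟩
      · rw [hbit] at h
        rw [Nat.testBit_xor, hbit, hbit, h]
        exact key k j h
      · rw [hD, Nat.testBit_xor, hb, hb]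
        rfl
    · refine h2.2 M hb' hM hx ⟨fun k j h => ?_, fun _ => ?_⟩
      · rw [hbit] at h
        rw [Nat.testBit_xor, hbit, h]
        exact key k j h
      · rw [hD, Nat.testBit_xor, hb, hw36]
        rfl

end Pool.Agent.H28.Z12
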