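import Mathlib
import Pool.Agent.H28.Z12.Pos
import Pool.Agent.H28.Z12.PosDefs

/-!
Full sign patterns excluded at all positions of the largest cross ratio (MP_1e71f9_co).
-/

set_option autoImplicit false

namespace Pool.Agent.H28.Z12

open Pool.Agent.H77.Z12 Pool.Agent.H13.Z12 Pool.Agent.H64.Z12 Pool.Agent.H28.Z12.Cov

/-- The complementary signs. -/
def cpl (s : St36) : St36 := (fun k j => !(s.1 k j), !s.2)

theorem act_cpl (ρ γ : Equiv.Perm (Fin 6)) (s : St36) :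
    actS ρ γ (cpl s) = cpl (actS ρ γ s) := by
  refine Prod.ext rfl ?_
  show xor (!s.2) (xor (par ρ) (par γ)) = !(xor s.2 (xor (par ρ) (par γ)))
  cases s.2 <;> cases par ρ <;> cases par γ <;> rfl

theorem cpl_cpl (s : St36) : cpl (cpl s) = s := by
  refine Prod.ext ?_ ?_
  · funext k j
    exact Bool.not_not _
  · exact Bool.not_not _

theorem sat_cpl {m w : ℕ} {s : St36} (h : Pool.Agent.H77.Z12.Sat m w s) :
    Pool.Agent.H77.Z12.Sat m (w ^^^ m) (cpl s) := by
  constructor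
  · intro k j hkj
    show (!(s.1 k j)) = _
    rw [Nat.testBit_xor, hkj, h.1 k j hkj, Bool.xor_true]
  · intro h36
    show (!s.2) = _
    rw [Nat.testBit_xor, h36, h.2 h36, Bool.xor_true]

theorem sat_cpl' {m w : ℕ} {s : St36} (h : Pool.Agent.H77.Z12.Sat m (w ^^^ m) (cpl s)) :
    Pool.Agent.H77.Z12.Sat m w s := by
  have := sat_cpl h
  rwa [cpl_cpl, Nat.xor_assoc, Nat.xor_self, Nat.xor_zero] at this

/-- The position `i, i'; j, j'` of the state `s` is excluded. -/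
def PosHit (s : St36) (i i' j j' : Fin 6) : Prop := ∃ ρ γ : Equiv.Perm (Fin 6), ∃ a b : ℕ,
  Pos2 a b ∧ ((ρ 0 = i ∧ ρ 1 = i' ∧ γ 0 = j ∧ γ 5 = j' ∧
      Pool.Agent.H77.Z12.Sat a b (actS ρ γ s)) ∨
    (ρ 1 = i ∧ ρ 0 = i' ∧ γ 0 = j ∧ γ 5 = j' ∧
      Pool.Agent.H77.Z12.Sat a (b ^^^ a) (actS ρ γ s)))

/-- The position of the largest cross ratio of a bad configuration is not excluded. -/
theorem not_posHit {M : Fin 6 → Fin 6 → ℝ} (hb : Bad (cf M)) (hM : ∀ i c, 0 < M i c)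
    {i i' j j' : Fin 6} (h : MXat M i i' j j') : ¬ PosHit (stt M) i i' j j' := by
  rintro ⟨ρ, γ, a, b, hp, ⟨rfl, rfl, rfl, rfl, hs⟩ | ⟨rfl, rfl, rfl, rfl, hs⟩⟩
  · rw [← stt_perm hb] at hs
    exact hp.1 _ (bad_perm hb ρ γ) (fun i c => hM _ _) (mxat_perm ρ γ h) hs
  · rw [← stt_perm hb] at hs
    exact hp.2 _ (bad_perm hb ρ γ) (fun i c => hM _ _) (mxat_perm ρ γ h) hs

/-- The position with exchanged rows of the complementary state. -/
theorem posHit_cpl {s : St36} {i i' j j' : Fin 6} (h : PosHit s i i' j j') :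
    PosHit (cpl s) i' i j j' := by
  obtain ⟨ρ, γ, a, b, hp, ⟨h1, h2, h3, h4, hs⟩ | ⟨h1, h2, h3, h4, hs⟩⟩ := h
  · refine ⟨ρ, γ, a, b, hp, Or.inr ⟨h2, h1, h3, h4, ?_⟩⟩
    rw [act_cpl]
    exact sat_cpl hs
  · refine ⟨ρ, γ, a, b, hp, Or.inl ⟨h2, h1, h3, h4, ?_⟩⟩
    rw [act_cpl]
    have := sat_cpl hs
    rwa [Nat.xor_assoc, Nat.xor_self, Nat.xor_zero] at this

/-- **A pattern excluded at all positions is excluded with its complement.** -/
theorem good2_of_pos {m w : ℕ} (h : ∀ s : St36, Pool.Agent.H77.Z12.Sat m w s →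
    ∀ i i' j j' : Fin 6, i ≠ i' → j ≠ j' → PosHit s i i' j j' ∨ PosHit s i' i j' j) :
    Good2 m w := by
  constructor
  · intro M hb hM hs
    obtain ⟨i, i', j, j', hi, hj, hx⟩ := exists_mxat hM hb
    rcases h _ hs i i' j j' hi hj with h1 | h1
    · exact not_posHit hb hM hx h1
    · exact not_posHit hb hM (mxat_comm hx) h1
  · intro M hb hM hs
    obtain ⟨i, i', j, j', hi, hj, hx⟩ := exists_mxat hM hb
    have hs' : Pool.Agent.H77.Z12.Sat m w (cpl (stt M)) := by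
      apply sat_cpl'
      rw [cpl_cpl]
      exact hs
    rcases h _ hs' i' i j j' hi.symm hj with h1 | h1
    · have h2 := posHit_cpl h1
      rw [cpl_cpl] at h2
      exact not_posHit hb hM hx h2
    · have h2 := posHit_cpl h1
      rw [cpl_cpl] at h2
      exact not_posHit hb hM (mxat_comm hx) h2

/-! ### The table of positions -/

theorem pt_spec : ∀ i i' : Fin 6, i ≠ i' → ∃ u < 30, pt u = (i : ℕ) + 8 * (i' : ℕ) ∧
    pt (u ^^^ 1) = (i' : ℕ) + 8 * (i : ℕ) ∧ (u ^^^ 1) < 30 ∧ (u % 2 = 0 ∨ (u ^^^ 1) % 2 = 0) ∧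
    (u ^^^ 1) ^^^ 1 = u := by
  decide +kernel

theorem d01_spec : ∀ p < 720, d01 (dig p) = dgt p 0 + 8 * dgt p 1 := by decide +kernel
theorem d05_spec : ∀ p < 720, d05 (dig p) = dgt p 0 + 8 * dgt p 5 := by decide +kernel

theorem d01_perm {p : ℕ} (h : p < 720) {i i' : Fin 6} (e : d01 (dig p) = (i : ℕ) + 8 * (i' : ℕ)) :
    permOf p 0 = i ∧ permOf p 1 = i' := by
  rw [d01_spec p h] at e
  have h0 := permOf_val h 0
  have h1 := permOf_val h 1
  have e0 : ((0 : Fin 6) : ℕ) = 0 := rfl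
  have e1 : ((1 : Fin 6) : ℕ) = 1 := rfl
  rw [e0] at h0
  rw [e1] at h1
  have l0 := dgt_lt p h 0 (by norm_num)
  have l1 := dgt_lt p h 1 (by norm_num)
  have := i.2
  have := i'.2
  exact ⟨Fin.ext (by omega), Fin.ext (by omega)⟩

theorem d05_perm {p : ℕ} (h : p < 720) {i i' : Fin 6} (e : d05 (dig p) = (i : ℕ) + 8 * (i' : ℕ)) :
    permOf p 0 = i ∧ permOf p 5 = i' := by
  rw [d05_spec p h] at e
  have h0 := permOf_val h 0
  have h1 := permOf_val h 5
  have e0 : ((0 : Fin 6) : ℕ) = 0 := rfl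
  have e1 : ((5 : Fin 6) : ℕ) = 5 := rfl
  rw [e0] at h0
  rw [e1] at h1
  have l0 := dgt_lt p h 0 (by norm_num)
  have l1 := dgt_lt p h 5 (by norm_num)
  have := i.2
  have := i'.2
  exact ⟨Fin.ext (by omega), Fin.ext (by omega)⟩

/-- The full pattern of a state. -/
def Full (s : St36) (c : ℕ) : Prop :=
  (∀ k j : Fin 6, s.1 k j = c.testBit (6 * k + j)) ∧ s.2 = c.testBit 36

theorem full_of_sat {c : ℕ} {s : St36} (h : Pool.Agent.H77.Z12.Sat (2 ^ 37 - 1) c s) :
    Full s c := by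
  have hb : ∀ i < 37, (2 ^ 37 - 1).testBit i = true := by decide +kernel
  exact ⟨fun k j => h.1 k j (hb _ (by omega)), h.2 (hb _ (by norm_num))⟩

theorem low36 (x : ℕ) (k j : Fin 6) : (Nat.land x 68719476735).testBit (6 * (k : ℕ) + j) =
    x.testBit (6 * (k : ℕ) + j) := by
  have e : (Nat.land x 68719476735) = x &&& (2 ^ 36 - 1) := rfl
  rw [e, Nat.testBit_and, Nat.testBit_two_pow_sub_one, decide_eq_true (by omega),
    Bool.and_true]

theorem actD_tb {p q c : ℕ} (hp : p < 720) (hq : q < 720) (k j : Fin 6) :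
    (actD p q c).testBit (6 * k + j) = c.testBit (6 * (permOf q k : ℕ) + (permOf p j : ℕ)) := by
  have e : actD p q c = act p q (Nat.land c 68719476735) |||
    (Nat.xor (Nat.land (Nat.shiftRight c 36) 1) (Nat.xor (pr p) (pr q))) <<< 36 := rfl
  rw [e, Nat.testBit_or, Nat.testBit_shiftLeft, decide_eq_false (by omega), Bool.false_and,
    Bool.or_false, act_tb _ hp hq, low36]

theorem actD_tb36 {p q c : ℕ} (hp : p < 720) (hq : q < 720) :
    (actD p q c).testBit 36 =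
      xor (c.testBit 36) (xor (par (permOf p)) (par (permOf q))) := by
  have e : actD p q c = act p q (Nat.land c 68719476735) |||
    (((c >>> 36) &&& 1) ^^^ (pr p ^^^ pr q)) <<< 36 := rfl
  have e6 : ∀ x : ℕ, x < 2 → x.testBit 0 = decide (x = 1) := by
    intro x hx
    interval_cases x <;> decide
  rw [e, Nat.testBit_or, act_tb' _ _ _ _ (le_refl _), Bool.false_or, Nat.testBit_shiftLeft,
    decide_eq_true (le_refl _), Bool.true_and, Nat.sub_self, Nat.testBit_xor, Nat.testBit_xor,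
    Nat.testBit_and, Nat.testBit_shiftRight, e6 _ (pr_lt p), e6 _ (pr_lt q), par_permOf hp,
    par_permOf hq]
  simp

theorem full_act {s : St36} {c p q : ℕ} (h : Full s c) (hp : p < 720) (hq : q < 720) :
    Full (actS (permOf p) (permOf q) s) (actD p q c) := by
  constructor
  · intro k j
    rw [actD_tb hp hq]
    exact h.1 _ _
  · rw [actD_tb36 hp hq, ← h.2]
    rfl

theorem sat_of_full {s : St36} {c m w : ℕ} (h : Full s c) (hw : Nat.land c m = w) :
    Pool.Agent.H77.Z12.Sat m w s := by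
  have e : w = c &&& m := hw.symm
  constructor
  · intro k j hkj
    rw [h.1, e, Nat.testBit_and, hkj, Bool.and_true]
  · intro h36
    rw [h.2, e, Nat.testBit_and, h36, Bool.and_true]

theorem posE_spec {G nG c u v e : ℕ} (h : posE G nG c u v e = true)
    (hG : ∀ i < nG, Pos2 (ngM G i) (ngV G i)) {s : St36} (hs : Full s c) {i i' j j' : Fin 6}
    (hu : pt u = (i : ℕ) + 8 * (i' : ℕ)) (hu' : pt (u ^^^ 1) = (i' : ℕ) + 8 * (i : ℕ))
    (hv : pt v = (j : ℕ) + 8 * (j' : ℕ)) (hv' : pt (v ^^^ 1) = (j' : ℕ) + 8 * (j : ℕ)) :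
    PosHit s i i' j j' ∨ PosHit s i' i j' j := by
  have lt2 : ∀ x : ℕ, Nat.land x 1 < 2 := by
    intro x
    have : Nat.land x 1 = x &&& 1 := rfl
    rw [this, Nat.and_one_is_mod]
    exact Nat.mod_lt _ (by norm_num)
  have hz := lt2 (Nat.shiftRight e 20)
  have hf := lt2 (Nat.shiftRight e 21)
  unfold posE at h
  revert h hz hf
  generalize Nat.land e 1023 = p
  generalize Nat.land (Nat.shiftRight e 10) 1023 = q
  generalize Nat.land (Nat.shiftRight e 20) 1 = z
  generalize Nat.land (Nat.shiftRight e 21) 1 = f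
  generalize Nat.shiftRight e 22 = t
  intro h hz hf
  rw [posT, band_iff, band_iff, band_iff, ble_iff, ble_iff, poE, pgE, band_iff, band_iff,
    beq_iff, beq_iff, beq_iff, ble_iff] at h
  obtain ⟨⟨hp, hq⟩, ⟨h1, h2⟩, h3, h4⟩ := h
  have hp' : p < 720 := hp
  have hq' : q < 720 := hq
  have hsat := sat_of_full (full_act hs hp' hq') h4
  have x0 : ∀ x : ℕ, Nat.xor x 0 = x := fun x => Nat.xor_zero x
  have x1 : ∀ x : ℕ, Nat.xor x 1 = x ^^^ 1 := fun _ => rfl
  interval_cases z <;> interval_cases f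
  · rw [x0] at h1
    rw [x0, x0] at h2
    rw [hu] at h1
    rw [hv] at h2
    obtain ⟨r0, r1⟩ := d01_perm hp' h1
    obtain ⟨g0, g1⟩ := d05_perm hq' h2
    refine Or.inl ⟨_, _, _, _, hG t h3, Or.inl ⟨r0, r1, g0, g1, ?_⟩⟩
    have : Nat.xor (ngV G t) (Nat.mul 0 (ngM G t)) = ngV G t := by
      have : Nat.mul 0 (ngM G t) = 0 := Nat.zero_mul _
      rw [this]
      exact x0 _
    rwa [this] at hsat
  · rw [x0] at h1
    have e2 : Nat.xor v (Nat.xor 0 1) = v ^^^ 1 := rfl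
    rw [e2] at h2
    rw [hu] at h1
    rw [hv'] at h2
    obtain ⟨r0, r1⟩ := d01_perm hp' h1
    obtain ⟨g0, g1⟩ := d05_perm hq' h2
    refine Or.inr ⟨_, _, _, _, hG t h3, Or.inr ⟨r1, r0, g0, g1, ?_⟩⟩
    have : Nat.xor (ngV G t) (Nat.mul 1 (ngM G t)) = ngV G t ^^^ ngM G t := by
      have : Nat.mul 1 (ngM G t) = ngM G t := Nat.one_mul _
      rw [this]
      rfl
    rwa [this] at hsat
  · have e1 : Nat.xor u 1 = u ^^^ 1 := rfl
    have e2 : Nat.xor v (Nat.xor 1 0) = v ^^^ 1 := rfl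
    rw [e1] at h1
    rw [e2] at h2
    rw [hu'] at h1
    rw [hv'] at h2
    obtain ⟨r0, r1⟩ := d01_perm hp' h1
    obtain ⟨g0, g1⟩ := d05_perm hq' h2
    refine Or.inr ⟨_, _, _, _, hG t h3, Or.inl ⟨r0, r1, g0, g1, ?_⟩⟩
    have : Nat.xor (ngV G t) (Nat.mul 0 (ngM G t)) = ngV G t := by
      have : Nat.mul 0 (ngM G t) = 0 := Nat.zero_mul _
      rw [this]
      exact x0 _
    rwa [this] at hsat
  · have e1 : Nat.xor u 1 = u ^^^ 1 := rfl
    have e2 : Nat.xor v (Nat.xor 1 1) = v := Nat.xor_zero v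
    rw [e1] at h1
    rw [e2] at h2
    rw [hu'] at h1
    rw [hv] at h2
    obtain ⟨r0, r1⟩ := d01_perm hp' h1
    obtain ⟨g0, g1⟩ := d05_perm hq' h2
    refine Or.inl ⟨_, _, _, _, hG t h3, Or.inr ⟨r1, r0, g0, g1, ?_⟩⟩
    have : Nat.xor (ngV G t) (Nat.mul 1 (ngM G t)) = ngV G t ^^^ ngM G t := by
      have : Nat.mul 1 (ngM G t) = ngM G t := Nat.one_mul _
      rw [this]
      rfl
    rwa [this] at hsat

theorem posV_spec {G nG c u C : ℕ} : ∀ {n : ℕ}, posV G nG c u C n = true →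
    ∀ v < n, ∃ e, posE G nG c u v e = true
  | 0, _, v, hv => absurd hv (Nat.not_lt_zero v)
  | n + 1, h, v, hv => by
    have h' : band (posV G nG c u C n) (posE G nG c u n
      (Nat.land (Nat.shiftRight C (Nat.mul 40 n)) 1099511627775)) = true := h
    rw [band_iff] at h'
    rcases Nat.lt_succ_iff_lt_or_eq.1 hv with hv | rfl
    · exact posV_spec h'.1 v hv
    · exact ⟨_, h'.2⟩

theorem posU_spec {G nG c C : ℕ} : ∀ {n : ℕ}, posU G nG c C n = true →
    ∀ a < n, ∀ v < 30, ∃ e, posE G nG c (2 * a) v e = true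
  | 0, _, a, ha => absurd ha (Nat.not_lt_zero a)
  | n + 1, h, a, ha => by
    have h' : band (posU G nG c C n) (posV G nG c (Nat.mul 2 n)
      (Nat.land (Nat.shiftRight C (Nat.mul 1200 n)) m1200) 30) = true := h
    rw [band_iff] at h'
    rcases Nat.lt_succ_iff_lt_or_eq.1 ha with ha | rfl
    · exact posU_spec h'.1 a ha
    · exact posV_spec h'.2

/-- **A full pattern with certificates for all positions.** -/
theorem good2_of_posU {G nG c C : ℕ} (h : posU G nG c C 15 = true)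
    (hG : ∀ i < nG, Pos2 (ngM G i) (ngV G i)) : Good2 (2 ^ 37 - 1) c := by
  refine good2_of_pos fun s hs i i' j j' hi hj => ?_
  have hfull := full_of_sat hs
  obtain ⟨u, hu, u1, u2, u3, u4, u5⟩ := pt_spec i i' hi
  obtain ⟨v, hv, v1, v2, v3, v4, v5⟩ := pt_spec j j' hj
  rcases u4 with u4 | u4
  · obtain ⟨e, he⟩ := posU_spec h (u / 2) (by omega) v hv
    have : 2 * (u / 2) = u := by omega
    rw [this] at he
    exact posE_spec he hG hfull u1 u2 v1 v2
  · obtain ⟨e, he⟩ := posU_spec h ((u ^^^ 1) / 2) (by omega) (v ^^^ 1) v3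
    have : 2 * ((u ^^^ 1) / 2) = u ^^^ 1 := by omega
    rw [this] at he
    exact (posE_spec he hG hfull u2 (by rw [u5]; exact u1) v2 (by rw [v5]; exact v1)).symm

theorem posK_spec {G nG K a C : ℕ} (hG : ∀ i < nG, Pos2 (ngM G i) (ngV G i)) :
    ∀ {n : ℕ}, posK G nG K a C n = true → ∀ i < n, Good2 (2 ^ 37 - 1) (enP K (a + i))
  | 0, _, i, hi => absurd hi (Nat.not_lt_zero i)
  | n + 1, h, i, hi => by
    have h' : band (posK G nG K a C n) (posU G nG (enP K (Nat.add a n))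
      (Nat.land (Nat.shiftRight C (Nat.mul 18000 n)) m18000) 15) = true := h
    rw [band_iff] at h'
    rcases Nat.lt_succ_iff_lt_or_eq.1 hi with hi | rfl
    · exact posK_spec hG h'.1 i hi
    · exact good2_of_posU h'.2 hG

end Pool.Agent.H28.Z12
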