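import Mathlib
import Pool.Agent.H28.Z12.PosTab
import Pool.Agent.H28.Z12.PCovDefs

/-!
Soundness of the kernel evaluation of a cover in the frame of the largest cross ratio
(MP_1e71f9_co).
-/

set_option autoImplicit false

namespace Pool.Agent.H28.Z12

open Pool.Agent.H77.Z12 Pool.Agent.H13.Z12 Pool.Agent.H64.Z12 Pool.Agent.H28.Z12.Cov

/-! ### Excluded states -/

/-- What is known about patterns: `P2` in the frame, `G2` everywhere (both with the complementary
pattern). -/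
structure Tb where
  P2 : ℕ → ℕ → Prop
  G2 : ℕ → ℕ → Prop

variable {E : Tb}

/-- The position `i, i'; j, j'` of the state `s` is excluded. -/
def PHit (E : Tb) (s : St36) (i i' j j' : Fin 6) : Prop := ∃ ρ γ : Equiv.Perm (Fin 6), ∃ a b : ℕ,
  E.P2 a b ∧ ((ρ 0 = i ∧ ρ 1 = i' ∧ γ 0 = j ∧ γ 5 = j' ∧
      Pool.Agent.H77.Z12.Sat a b (actS ρ γ s)) ∨
    (ρ 1 = i ∧ ρ 0 = i' ∧ γ 0 = j ∧ γ 5 = j' ∧
      Pool.Agent.H77.Z12.Sat a (b ^^^ a) (actS ρ γ s)))

/-- Some permuted state or its complement satisfies an excluded pattern. -/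
def GHit (E : Tb) (s : St36) : Prop := ∃ ρ γ : Equiv.Perm (Fin 6), ∃ a b : ℕ,
  E.G2 a b ∧ (Pool.Agent.H77.Z12.Sat a b (actS ρ γ s) ∨
    Pool.Agent.H77.Z12.Sat a (b ^^^ a) (actS ρ γ s))

/-- The state is excluded in the frame. -/
def PH (E : Tb) (s : St36) : Prop := PHit E s 0 1 0 5 ∨ PHit E s 1 0 5 0 ∨ GHit E s

theorem posHit_act {s : St36} {ρ γ : Equiv.Perm (Fin 6)} {i i' j j' : Fin 6}
    (h : PHit E (actS ρ γ s) i i' j j') : PHit E s (ρ i) (ρ i') (γ j) (γ j') := by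
  obtain ⟨ρ', γ', a, b, hp, ⟨h1, h2, h3, h4, hs⟩ | ⟨h1, h2, h3, h4, hs⟩⟩ := h
  · rw [act_act] at hs
    subst h1 h2 h3 h4
    exact ⟨_, _, a, b, hp, Or.inl ⟨rfl, rfl, rfl, rfl, hs⟩⟩
  · rw [act_act] at hs
    subst h1 h2 h3 h4
    exact ⟨_, _, a, b, hp, Or.inr ⟨rfl, rfl, rfl, rfl, hs⟩⟩

theorem gHit_act {s : St36} {ρ γ : Equiv.Perm (Fin 6)} (h : GHit E (actS ρ γ s)) :
    GHit E s := by
  obtain ⟨ρ', γ', a, b, hg, hs⟩ := h
  rw [act_act] at hs
  exact ⟨_, _, a, b, hg, hs⟩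

theorem gHit_cpl {s : St36} (h : GHit E (cpl s)) : GHit E s := by
  obtain ⟨ρ, γ, a, b, hg, hs | hs⟩ := h
  · rw [act_cpl] at hs
    have h2 := sat_cpl hs
    rw [cpl_cpl] at h2
    exact ⟨ρ, γ, a, b, hg, Or.inr h2⟩
  · rw [act_cpl] at hs
    have h2 := sat_cpl hs
    rw [cpl_cpl, Nat.xor_assoc, Nat.xor_self, Nat.xor_zero] at h2
    exact ⟨ρ, γ, a, b, hg, Or.inl h2⟩

theorem posHit_cpl' {s : St36} {i i' j j' : Fin 6} (h : PHit E (cpl s) i i' j j') :
    PHit E s i' i j j' := by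
  obtain ⟨ρ, γ, a, b, hp, ⟨h1, h2, h3, h4, hs⟩ | ⟨h1, h2, h3, h4, hs⟩⟩ := h
  · rw [act_cpl] at hs
    have h5 := sat_cpl hs
    rw [cpl_cpl] at h5
    exact ⟨ρ, γ, a, b, hp, Or.inr ⟨h2, h1, h3, h4, h5⟩⟩
  · rw [act_cpl] at hs
    have h5 := sat_cpl hs
    rw [cpl_cpl, Nat.xor_assoc, Nat.xor_self, Nat.xor_zero] at h5
    exact ⟨ρ, γ, a, b, hp, Or.inl ⟨h2, h1, h3, h4, h5⟩⟩

/-- The frame is kept without complement. -/
theorem PH_act {s : St36} {ρ γ : Equiv.Perm (Fin 6)}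
    (hf : (ρ 0 = 0 ∧ ρ 1 = 1 ∧ γ 0 = 0 ∧ γ 5 = 5) ∨ (ρ 0 = 1 ∧ ρ 1 = 0 ∧ γ 0 = 5 ∧ γ 5 = 0))
    (h : PH E (actS ρ γ s)) : PH E s := by
  rcases h with h | h | h
  · have := posHit_act h
    rcases hf with ⟨a1, a2, a3, a4⟩ | ⟨a1, a2, a3, a4⟩
    · rw [a1, a2, a3, a4] at this; exact Or.inl this
    · rw [a1, a2, a3, a4] at this; exact Or.inr (Or.inl this)
  · have := posHit_act h
    rcases hf with ⟨a1, a2, a3, a4⟩ | ⟨a1, a2, a3, a4⟩
    · rw [a1, a2, a3, a4] at this; exact Or.inr (Or.inl this)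
    · rw [a1, a2, a3, a4] at this; exact Or.inl this
  · exact Or.inr (Or.inr (gHit_act h))

/-- The frame is kept with complement. -/
theorem PH_actN {s : St36} {ρ γ : Equiv.Perm (Fin 6)}
    (hf : (ρ 0 = 1 ∧ ρ 1 = 0 ∧ γ 0 = 0 ∧ γ 5 = 5) ∨ (ρ 0 = 0 ∧ ρ 1 = 1 ∧ γ 0 = 5 ∧ γ 5 = 0))
    (h : PH E (cpl (actS ρ γ s))) : PH E s := by
  rcases h with h | h | h
  · have := posHit_act (posHit_cpl' h)
    rcases hf with ⟨a1, a2, a3, a4⟩ | ⟨a1, a2, a3, a4⟩
    · rw [a1, a2, a3, a4] at this; exact Or.inl this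
    · rw [a1, a2, a3, a4] at this; exact Or.inr (Or.inl this)
  · have := posHit_act (posHit_cpl' h)
    rcases hf with ⟨a1, a2, a3, a4⟩ | ⟨a1, a2, a3, a4⟩
    · rw [a1, a2, a3, a4] at this; exact Or.inr (Or.inl this)
    · rw [a1, a2, a3, a4] at this; exact Or.inl this
  · exact Or.inr (Or.inr (gHit_act (gHit_cpl h)))

/-- Two different points can be moved anywhere. -/
theorem exists_perm01 {i i' : Fin 6} (h : i ≠ i') : ∃ ρ : Equiv.Perm (Fin 6), ρ 0 = i ∧ ρ 1 = i' := by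
  obtain ⟨p, hp, e⟩ := (by decide +kernel : ∀ a b : Fin 6, a ≠ b → ∃ p < 720,
    dgt p 0 = a ∧ dgt p 1 = b) i i' h
  refine ⟨permOf p, Fin.ext ?_, Fin.ext ?_⟩
  · rw [permOf_val hp]; exact e.1
  · rw [permOf_val hp]; exact e.2

theorem exists_perm05 {i i' : Fin 6} (h : i ≠ i') : ∃ ρ : Equiv.Perm (Fin 6), ρ 0 = i ∧ ρ 5 = i' := by
  obtain ⟨p, hp, e⟩ := (by decide +kernel : ∀ a b : Fin 6, a ≠ b → ∃ p < 720,
    dgt p 0 = a ∧ dgt p 5 = b) i i' h
  refine ⟨permOf p, Fin.ext ?_, Fin.ext ?_⟩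
  · rw [permOf_val hp]; exact e.1
  · rw [permOf_val hp]; exact e.2

/-! ### States as numbers -/

/-- The state as a number. -/
def enc (s : St36) : ℕ := Nat.ofBits (n := 37) fun i => if (i : ℕ) = 36 then s.2 else sb s i

theorem enc_tb (s : St36) (k j : Fin 6) : (enc s).testBit (6 * k + j) = s.1 k j := by
  rw [enc, Nat.testBit_ofBits_lt _ _ (by omega)]
  show (if (6 * (k : ℕ) + j) = 36 then s.2 else sb s (6 * k + j)) = _
  rw [if_neg (by omega), sb_val]

theorem enc_tb36 (s : St36) : (enc s).testBit 36 = s.2 := by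
  rw [enc, Nat.testBit_ofBits_lt _ _ (by norm_num)]
  rfl

theorem enc_lt (s : St36) : enc s < 2 ^ 37 := Nat.ofBits_lt_two_pow _

theorem bits37 {x y : ℕ} (hx : x < 2 ^ 37) (hy : y < 2 ^ 37)
    (h : ∀ k j : Fin 6, x.testBit (6 * k + j) = y.testBit (6 * k + j))
    (h36 : x.testBit 36 = y.testBit 36) : x = y := by
  apply Nat.eq_of_testBit_eq
  intro i
  rcases lt_trichotomy i 36 with hi | hi | hi
  · have hk : i / 6 < 6 := by omega
    have hj : i % 6 < 6 := Nat.mod_lt _ (by norm_num)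
    have := h ⟨i / 6, hk⟩ ⟨i % 6, hj⟩
    have e : 6 * (((⟨i / 6, hk⟩ : Fin 6) : ℕ)) + (((⟨i % 6, hj⟩ : Fin 6) : ℕ)) = i := by
      show 6 * (i / 6) + i % 6 = i
      omega
    rwa [e] at this
  · rw [hi, h36]
  · rw [Nat.testBit_lt_two_pow (lt_of_lt_of_le hx (Nat.pow_le_pow_right (by norm_num) hi)),
      Nat.testBit_lt_two_pow (lt_of_lt_of_le hy (Nat.pow_le_pow_right (by norm_num) hi))]

/-- `s` agrees with `Y` on the bits `Ym`. -/
def Agr (s : St36) (Ym Y : ℕ) : Prop := enc s &&& Ym = Y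

theorem agr_tb {s : St36} {Ym Y : ℕ} (h : Agr s Ym Y) (i : ℕ) :
    Y.testBit i = ((enc s).testBit i && Ym.testBit i) := by
  rw [← h, Nat.testBit_and]

theorem agr_cpl {s : St36} {Ym Y : ℕ} (hm : Ym < 2 ^ 37) (h : Agr s Ym Y) :
    Agr (cpl s) Ym (Y ^^^ Ym) := by
  have hY : Y < 2 ^ 37 := lt_of_le_of_lt (by rw [← h]; exact Nat.and_le_right) hm
  refine bits37 (lt_of_le_of_lt Nat.and_le_right hm) (Nat.xor_lt_two_pow hY hm)
    (fun k j => ?_) ?_
  · rw [Nat.testBit_and, Nat.testBit_xor, agr_tb h, enc_tb, enc_tb]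
    show ((!(s.1 k j)) && _) = _
    cases s.1 k j <;> cases Ym.testBit (6 * (k : ℕ) + j) <;> rfl
  · rw [Nat.testBit_and, Nat.testBit_xor, agr_tb h, enc_tb36, enc_tb36]
    show ((!(s.2)) && _) = _
    cases s.2 <;> cases Ym.testBit 36 <;> rfl

/-- The permuted state agrees with the permuted numbers. -/
theorem agr_act {s : St36} {X Xm p q : ℕ} (hp : p < 720) (hq : q < 720)
    (h : Agr s Xm X) (h36 : Xm.testBit 36 = true) :
    Agr (actS (permOf p) (permOf q) s) (act p q Xm ||| 2 ^ 36)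
      (act p q X ||| ((X.testBit 36).toNat ^^^ (pr p ^^^ pr q)) <<< 36) := by
  have hact : ∀ x, act p q x < 2 ^ 36 := fun x => Nat.lt_pow_two_of_testBit _ fun i hi =>
    act_tb' p q x i hi
  have l1 : act p q Xm ||| 2 ^ 36 < 2 ^ 37 :=
    Nat.or_lt_two_pow (lt_trans (hact _) (by norm_num)) (by norm_num)
  have b1 : ((X.testBit 36).toNat ^^^ (pr p ^^^ pr q)) < 2 := by
    have h1 : (X.testBit 36).toNat < 2 ^ 1 := by
      cases X.testBit 36 <;> decide
    have h2 := Nat.xor_lt_two_pow (n := 1) (pr_lt p) (pr_lt q)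
    exact Nat.xor_lt_two_pow h1 h2
  have l2 : act p q X ||| ((X.testBit 36).toNat ^^^ (pr p ^^^ pr q)) <<< 36 < 2 ^ 37 := by
    refine Nat.or_lt_two_pow (lt_trans (hact _) (by norm_num)) ?_
    rw [Nat.shiftLeft_eq]
    calc _ < 2 * 2 ^ 36 := (Nat.mul_lt_mul_right (by norm_num)).2 b1
      _ = 2 ^ 37 := by norm_num
  refine bits37 (lt_of_le_of_lt Nat.and_le_right l1) l2 (fun k j => ?_) ?_
  · have t36 : (2 ^ 36 : ℕ).testBit (6 * (k : ℕ) + j) = false := by
      rw [Nat.testBit_two_pow, decide_eq_false (by omega)]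
    rw [Nat.testBit_and, enc_tb, Nat.testBit_or, act_tb _ hp hq, t36, Bool.or_false,
      Nat.testBit_or, act_tb _ hp hq, Nat.testBit_shiftLeft, decide_eq_false (by omega),
      Bool.false_and, Bool.or_false, agr_tb h, enc_tb]
    rfl
  · have t36 : (2 ^ 36 : ℕ).testBit 36 = true := by
      rw [Nat.testBit_two_pow, decide_eq_true rfl]
    rw [Nat.testBit_and, enc_tb36, Nat.testBit_or, act_tb' _ _ _ _ (le_refl _), t36,
      Bool.false_or, Bool.and_true, Nat.testBit_or, act_tb' _ _ _ _ (le_refl _),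
      Nat.testBit_shiftLeft, decide_eq_true (le_refl _), Bool.true_and, Nat.sub_self,
      Bool.false_or, pr_xor _ hp hq, agr_tb h, enc_tb36, h36, Bool.and_true]
    rfl

/-- The number satisfies the pattern `g` where it is known. -/
theorem sat_of_agr {s : St36} {Ym Y g : ℕ} (h : Agr s Ym Y) (hg : hitG g Ym Y = true) :
    Pool.Agent.H77.Z12.Sat (gM g) (gV g) s := by
  rw [hitG, band_iff, beq_iff, beq_iff] at hg
  obtain ⟨h1, h2⟩ := hg
  have h1' : Ym &&& gM g = gM g := h1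
  have h2' : Y &&& gM g = gV g := h2
  constructor
  · intro k j hkj
    have hm := tb_of_and (a := gM g) (m := Ym) (by rw [Nat.and_comm]; exact h1') hkj
    rw [← h2', Nat.testBit_and, hkj, Bool.and_true, agr_tb h, enc_tb, hm, Bool.and_true]
  · intro h36
    have hm := tb_of_and (a := gM g) (m := Ym) (by rw [Nat.and_comm]; exact h1') h36
    rw [← h2', Nat.testBit_and, h36, Bool.and_true, agr_tb h, enc_tb36, hm, Bool.and_true]

/-! ### Two matrices at once -/

theorem pack_tb {X Y : ℕ} (hX : X < 2 ^ 40) (n : ℕ) : (X ||| Y <<< 40).testBit n =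
    if n < 40 then X.testBit n else Y.testBit (n - 40) := by
  rw [Nat.testBit_or, Nat.testBit_shiftLeft]
  by_cases h : n < 40
  · rw [if_pos h, decide_eq_false (by omega), Bool.false_and, Bool.or_false]
  · rw [if_neg h, decide_eq_true (by omega), Bool.true_and,
      Nat.testBit_lt_two_pow (lt_of_lt_of_le hX (Nat.pow_le_pow_right (by norm_num)
        (not_lt.1 h))), Bool.false_or]

theorem dj_lt (D a : ℕ) : dj D a < 8 := by
  have : dj D a = (D >>> a) &&& 7 := rfl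
  rw [this]
  exact lt_of_le_of_lt Nat.and_le_right (by norm_num)

theorem cj_lt (D X a j : ℕ) (hj : j < 6) : cj D X a j < 2 ^ 36 :=
  Nat.lt_pow_two_of_testBit _ fun i hi => cj_tb' D X a j i hj hi

theorem shl_and_pack {C X Y d : ℕ} (hC : C < 2 ^ 32) (hX : X < 2 ^ 40) (hd : d < 8) :
    ((X ||| Y <<< 40) >>> d) &&& (C ||| C <<< 40) =
      ((X >>> d) &&& C) ||| ((Y >>> d) &&& C) <<< 40 := by
  have h1 : ((X >>> d) &&& C) < 2 ^ 40 :=
    lt_of_le_of_lt Nat.and_le_right (lt_trans hC (by norm_num))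
  apply Nat.eq_of_testBit_eq
  intro n
  rw [Nat.testBit_and, Nat.testBit_shiftRight, pack_tb hX,
    pack_tb (lt_trans hC (by norm_num)), pack_tb h1]
  by_cases h : n < 40
  · rw [if_pos h, if_pos h, Nat.testBit_and, Nat.testBit_shiftRight]
    by_cases h2 : n < 32
    · rw [if_pos (by omega : d + n < 40)]
    · rw [Nat.testBit_lt_two_pow (lt_of_lt_of_le hC (Nat.pow_le_pow_right (by norm_num)
        (not_lt.1 h2))), Bool.and_false, Bool.and_false]
  · rw [if_neg h, if_neg h, if_neg (by omega : ¬ d + n < 40), Nat.testBit_and,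
      Nat.testBit_shiftRight]
    congr 2
    omega

theorem cj2_eq {D X Y a j : ℕ} (hX : X < 2 ^ 40) (hj : j < 6) :
    cj2 D (X ||| Y <<< 40) a j = cj D X a j ||| cj D Y a j <<< 40 := by
  have e : cj2 D (X ||| Y <<< 40) a j =
    (((X ||| Y <<< 40) >>> dj D a) &&& (1090785345 ||| 1090785345 <<< 40)) <<< j := by
    have : (1090785345 ||| 1090785345 <<< 40 : ℕ) = 1199331170236246528065 := by decide +kernel
    rw [this]
    rfl
  have e1 : ∀ Z, cj D Z a j = ((Z >>> dj D a) &&& 1090785345) <<< j := fun _ => rfl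
  rw [e, e1, e1, shl_and_pack (by norm_num) hX (dj_lt _ _), Nat.shiftLeft_or_distrib,
    ← Nat.shiftLeft_add, ← Nat.shiftLeft_add, Nat.add_comm 40 j]

theorem rk2_eq {D X Y a k : ℕ} (hX : X < 2 ^ 40) (ha : dj D a < 6) :
    rk2 D (X ||| Y <<< 40) a k = rk D X a k ||| rk D Y a k <<< 40 := by
  have e : rk2 D (X ||| Y <<< 40) a k =
    (((X ||| Y <<< 40) >>> (6 * dj D a)) &&& (63 ||| 63 <<< 40)) <<< k := by
    have : (63 ||| 63 <<< 40 : ℕ) = 69269232549951 := by decide +kernel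
    rw [this]
    rfl
  have e1 : ∀ Z, rk D Z a k = ((Z >>> (6 * dj D a)) &&& 63) <<< k := fun _ => rfl
  have key : ((X ||| Y <<< 40) >>> (6 * dj D a)) &&& (63 ||| 63 <<< 40) =
      ((X >>> (6 * dj D a)) &&& 63) ||| ((Y >>> (6 * dj D a)) &&& 63) <<< 40 := by
    have h1 : ((X >>> (6 * dj D a)) &&& 63) < 2 ^ 40 :=
      lt_of_le_of_lt Nat.and_le_right (by norm_num)
    apply Nat.eq_of_testBit_eq
    intro n
    rw [Nat.testBit_and, Nat.testBit_shiftRight, pack_tb hX, pack_tb (by norm_num), pack_tb h1]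
    by_cases h : n < 40
    · rw [if_pos h, if_pos h, Nat.testBit_and, Nat.testBit_shiftRight]
      by_cases h2 : n < 6
      · rw [if_pos (by omega : 6 * dj D a + n < 40)]
      · rw [Cov.tb_63, decide_eq_false h2, Bool.and_false, Bool.and_false]
    · rw [if_neg h, if_neg h, if_neg (by omega : ¬ 6 * dj D a + n < 40), Nat.testBit_and,
        Nat.testBit_shiftRight]
      congr 2
      omega
  rw [e, e1, e1, key, Nat.shiftLeft_or_distrib, ← Nat.shiftLeft_add, ← Nat.shiftLeft_add,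
    Nat.add_comm 40 k]

theorem or6_pack (a0 a1 a2 a3 a4 a5 b0 b1 b2 b3 b4 b5 : ℕ) :
    (Nat.lor (Nat.lor (Nat.lor (a0 ||| b0 <<< 40) (a1 ||| b1 <<< 40))
      (Nat.lor (a2 ||| b2 <<< 40) (a3 ||| b3 <<< 40)))
      (Nat.lor (a4 ||| b4 <<< 40) (a5 ||| b5 <<< 40))) =
    (Nat.lor (Nat.lor (Nat.lor a0 a1) (Nat.lor a2 a3)) (Nat.lor a4 a5)) |||
      (Nat.lor (Nat.lor (Nat.lor b0 b1) (Nat.lor b2 b3)) (Nat.lor b4 b5)) <<< 40 := by
  have e : ∀ x y : ℕ, Nat.lor x y = x ||| y := fun _ _ => rfl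
  simp only [e, Nat.shiftLeft_or_distrib]
  apply Nat.eq_of_testBit_eq
  intro n
  simp only [Nat.testBit_or]
  generalize a0.testBit n = x0
  generalize a1.testBit n = x1
  generalize a2.testBit n = x2
  generalize a3.testBit n = x3
  generalize a4.testBit n = x4
  generalize a5.testBit n = x5
  generalize (b0 <<< 40).testBit n = y0
  generalize (b1 <<< 40).testBit n = y1
  generalize (b2 <<< 40).testBit n = y2
  generalize (b3 <<< 40).testBit n = y3
  generalize (b4 <<< 40).testBit n = y4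
  generalize (b5 <<< 40).testBit n = y5
  cases x0 <;> cases x1 <;> cases x2 <;> cases x3 <;> cases x4 <;> cases x5 <;>
    cases y0 <;> cases y1 <;> cases y2 <;> cases y3 <;> cases y4 <;> cases y5 <;> rfl

theorem cperm2_eq {D X Y : ℕ} (hX : X < 2 ^ 40) :
    cperm2 D (X ||| Y <<< 40) = cperm D X ||| cperm D Y <<< 40 := by
  have h := fun a j (hj : j < 6) => cj2_eq (D := D) (X := X) (Y := Y) (a := a) (j := j) hX hj
  rw [cperm2, h _ _ (by norm_num), h _ _ (by norm_num), h _ _ (by norm_num),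
    h _ _ (by norm_num), h _ _ (by norm_num), h _ _ (by norm_num), or6_pack]
  rfl

theorem cperm_lt (D X : ℕ) : cperm D X < 2 ^ 36 := by
  have h := fun a j (hj : j < 6) => cj_lt D X a j hj
  have e : ∀ x y : ℕ, x < 2 ^ 36 → y < 2 ^ 36 → Nat.lor x y < 2 ^ 36 := fun x y hx hy =>
    Nat.or_lt_two_pow hx hy
  rw [cperm]
  exact e _ _ (e _ _ (e _ _ (h _ _ (by norm_num)) (h _ _ (by norm_num)))
    (e _ _ (h _ _ (by norm_num)) (h _ _ (by norm_num))))
    (e _ _ (h _ _ (by norm_num)) (h _ _ (by norm_num)))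

theorem rperm2_eq {q X Y : ℕ} (hq : q < 720) (hX : X < 2 ^ 40) :
    rperm2 (dig q) (X ||| Y <<< 40) = rperm (dig q) X ||| rperm (dig q) Y <<< 40 := by
  have hd : ∀ j < 6, dj (dig q) (3 * j) < 6 := fun j hj => dgt_lt q hq j hj
  rw [rperm2, rk2_eq (a := nat_lit 0) hX (hd 0 (by norm_num)),
    rk2_eq (a := nat_lit 3) hX (hd 1 (by norm_num)),
    rk2_eq (a := nat_lit 6) hX (hd 2 (by norm_num)),
    rk2_eq (a := nat_lit 9) hX (hd 3 (by norm_num)),
    rk2_eq (a := nat_lit 12) hX (hd 4 (by norm_num)),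
    rk2_eq (a := nat_lit 15) hX (hd 5 (by norm_num)), or6_pack]
  rfl

theorem act2_eq {p q X Y : ℕ} (hq : q < 720) (hX : X < 2 ^ 40) :
    rperm2 (dig q) (cperm2 (dig p) (Nat.lor X (Nat.shiftLeft Y 40))) =
      act p q X ||| act p q Y <<< 40 := by
  have e : Nat.lor X (Nat.shiftLeft Y 40) = X ||| Y <<< 40 := rfl
  rw [e, cperm2_eq hX, rperm2_eq hq (lt_trans (cperm_lt _ _) (by norm_num))]
  rfl

theorem act_lt (p q X : ℕ) : act p q X < 2 ^ 36 := Nat.lt_pow_two_of_testBit _ fun i hi =>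
  act_tb' p q X i hi

theorem ymOf_eq (p q X Y : ℕ) : ymOf (act p q X ||| act p q Y <<< 40) = act p q Y ||| 2 ^ 36 := by
  have e : ymOf (act p q X ||| act p q Y <<< 40) =
    ((act p q X ||| act p q Y <<< 40) >>> 40) ||| 2 ^ 36 := rfl
  rw [e]
  congr 1
  apply Nat.eq_of_testBit_eq
  intro n
  rw [Nat.testBit_shiftRight, pack_tb (lt_trans (act_lt p q X) (by norm_num)),
    if_neg (by omega)]
  congr 1
  omega

theorem yOf_eq (A p q X Y : ℕ) : yOf (act p q X ||| act p q Y <<< 40) A p q =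
    act p q X ||| ((A.testBit 36).toNat ^^^ (pr p ^^^ pr q)) <<< 36 := by
  have e : yOf (act p q X ||| act p q Y <<< 40) A p q =
    ((act p q X ||| act p q Y <<< 40) &&& (2 ^ 36 - 1)) |||
      (((A >>> 36) &&& 1) ^^^ (pr p ^^^ pr q)) <<< 36 := rfl
  have e1 : ((A >>> 36) &&& 1) = (A.testBit 36).toNat := by
    have : A.testBit 36 = (A >>> 36).testBit 0 := by rw [Nat.testBit_shiftRight, Nat.add_zero]
    rw [this, Nat.testBit_zero, Nat.and_one_is_mod]
    rcases Nat.mod_two_eq_zero_or_one (A >>> 36) with h | h <;> rw [h] <;> rfl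
  rw [e, e1]
  congr 1
  apply Nat.eq_of_testBit_eq
  intro n
  rw [Nat.testBit_and, Nat.testBit_two_pow_sub_one,
    pack_tb (lt_trans (act_lt p q X) (by norm_num))]
  by_cases h : n < 36
  · rw [if_pos (by omega), decide_eq_true h, Bool.and_true]
  · rw [decide_eq_false h, Bool.and_false]
    exact (act_tb' _ _ _ _ (not_lt.1 h)).symm

/-! ### Leaves -/

theorem frE_spec {p q c : ℕ} (hp : p < 720) (hq : q < 720) (hc : c < 2)
    (h : frE (dig p) (dig q) c = true) :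
    (c = 0 ∧ ((permOf p 0 = 0 ∧ permOf p 1 = 1 ∧ permOf q 0 = 0 ∧ permOf q 5 = 5) ∨
      (permOf p 0 = 1 ∧ permOf p 1 = 0 ∧ permOf q 0 = 5 ∧ permOf q 5 = 0))) ∨
    (c = 1 ∧ ((permOf p 0 = 1 ∧ permOf p 1 = 0 ∧ permOf q 0 = 0 ∧ permOf q 5 = 5) ∨
      (permOf p 0 = 0 ∧ permOf p 1 = 1 ∧ permOf q 0 = 5 ∧ permOf q 5 = 0))) := by
  have hP : ∀ p < 720, Nat.beq (Nat.land (Nat.shiftRight 258 (d01 (dig p))) 1) 1 = true →
      (Nat.land (dig p) 1 = 0 ∧ dgt p 0 = 0 ∧ dgt p 1 = 1) ∨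
      (Nat.land (dig p) 1 = 1 ∧ dgt p 0 = 1 ∧ dgt p 1 = 0) := by decide +kernel
  have hQ : ∀ q < 720, Nat.beq (Nat.land (Nat.shiftRight 1099511627808 (d05 (dig q))) 1) 1 = true →
      (Nat.land (dig q) 1 = 0 ∧ dgt q 0 = 0 ∧ dgt q 5 = 5) ∨
      (Nat.land (dig q) 1 = 1 ∧ dgt q 0 = 5 ∧ dgt q 5 = 0) := by decide +kernel
  rw [frE, band_iff, band_iff] at h
  obtain ⟨⟨h1, h2⟩, h3⟩ := h
  rw [beq_iff] at h3
  have v : ∀ {x : ℕ} (hx : x < 720) {i : Fin 6} {y : Fin 6}, dgt x i = (y : ℕ) →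
      permOf x i = y := fun hx i y e => Fin.ext (by rw [permOf_val hx]; exact e)
  have hP' := hP p hp h1
  have hQ' := hQ q hq h2
  rcases hP' with ⟨a0, a1, a2⟩ | ⟨a0, a1, a2⟩ <;> rcases hQ' with ⟨b0, b1, b2⟩ | ⟨b0, b1, b2⟩ <;>
    rw [a0, b0] at h3
  · exact Or.inl ⟨h3, Or.inl ⟨v hp (i := 0) (y := 0) a1, v hp (i := 1) (y := 1) a2,
      v hq (i := 0) (y := 0) b1, v hq (i := 5) (y := 5) b2⟩⟩
  · exact Or.inr ⟨h3, Or.inr ⟨v hp (i := 0) (y := 0) a1, v hp (i := 1) (y := 1) a2,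
      v hq (i := 0) (y := 5) b1, v hq (i := 5) (y := 0) b2⟩⟩
  · exact Or.inr ⟨h3, Or.inl ⟨v hp (i := 0) (y := 1) a1, v hp (i := 1) (y := 0) a2,
      v hq (i := 0) (y := 0) b1, v hq (i := 5) (y := 5) b2⟩⟩
  · exact Or.inl ⟨h3, Or.inr ⟨v hp (i := 0) (y := 1) a1, v hp (i := 1) (y := 0) a2,
      v hq (i := 0) (y := 5) b1, v hq (i := 5) (y := 0) b2⟩⟩

/-- The state after the permutations and the complement of the certificate. -/
noncomputable def nxt (s : St36) (p q c : ℕ) : St36 :=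
  if c = 0 then actS (permOf p) (permOf q) s else cpl (actS (permOf p) (permOf q) s)

theorem PH_nxt {s : St36} {p q c : ℕ} (hp : p < 720) (hq : q < 720) (hc : c < 2)
    (h : frE (dig p) (dig q) c = true) (hs : PH E (nxt s p q c)) : PH E s := by
  rcases frE_spec hp hq hc h with ⟨rfl, h1⟩ | ⟨rfl, h1⟩
  · rw [nxt, if_pos rfl] at hs
    exact PH_act h1 hs
  · rw [nxt, if_neg (by norm_num)] at hs
    exact PH_actN h1 hs

theorem gHit_nxt {s : St36} {p q c : ℕ} (hs : GHit E (nxt s p q c)) : GHit E s := by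
  unfold nxt at hs
  split_ifs at hs
  · exact gHit_act hs
  · exact gHit_act (gHit_cpl hs)

theorem act_one (s : St36) : actS 1 1 s = s := by
  have h1 : par 1 = false := by
    rw [par, map_one]
    decide
  refine Prod.ext rfl ?_
  show xor s.2 (xor (par 1) (par 1)) = s.2
  rw [h1, Bool.xor_false, Bool.xor_false]

/-- The entries of the tables are excluded. -/
structure Tabs (E : Tb) (P : ℕ → ℕ) (nP : ℕ) (S : ℕ → ℕ) (nS : ℕ) : Prop where
  pos : ∀ i < nP, E.P2 (gM (P i)) (gV (P i))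
  good : ∀ i < nS, E.G2 (gM (S i)) (gV (S i))

/-- What a leaf proves about a state. -/
theorem lfT_spec {L P S : ℕ → ℕ} {nL nP nS mk1 p q ty c i Ym Y : ℕ} (hT : Tabs E P nP S nS)
    (hp : p < 720) (hq : q < 720) (hc : c < 2) {s : St36}
    (h : lfT L nL P nP S nS mk1 (dig p) (dig q) ty c i Ym Y = true)
    (ha : Agr (nxt s p q c) Ym Y) (hs : ¬ PH E s) :
    ∃ s', ¬ PH E s' ∧ ∃ i < nL, enc s' &&& mk1 = L i := by
  have h' : (@Bool.rec (fun _ => Bool)
    (@Bool.rec (fun _ => Bool)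
      (band (Nat.beq ty 2) (band (Nat.ble (Nat.succ i) nS) (hitG (S i) Ym Y)))
      (band (frE (dig p) (dig q) c) (band (Nat.ble (Nat.succ i) nP) (hitG (P i) Ym Y)))
      (Nat.beq ty 1))
    (band (frE (dig p) (dig q) c) (band (Nat.ble (Nat.succ i) nL)
      (band (Nat.beq Ym mk1) (Nat.beq Y (L i))))) (Nat.beq ty 0)) = true := h
  rcases h0 : Nat.beq ty 0 with _ | _
  · rw [h0] at h'
    rcases h1 : Nat.beq ty 1 with _ | _
    · rw [h1] at h'
      change band (Nat.beq ty 2) (band (Nat.ble (Nat.succ i) nS) (hitG (S i) Ym Y)) = true at h'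
      rw [band_iff, band_iff, ble_iff] at h'
      exfalso
      apply hs
      refine Or.inr (Or.inr (gHit_nxt (p := p) (q := q) (c := c)
        ⟨1, 1, _, _, hT.good i h'.2.1, Or.inl ?_⟩))
      rw [act_one]
      exact sat_of_agr ha h'.2.2
    · rw [h1] at h'
      change band (frE (dig p) (dig q) c) (band (Nat.ble (Nat.succ i) nP)
        (hitG (P i) Ym Y)) = true at h'
      rw [band_iff, band_iff, ble_iff] at h'
      exfalso
      apply hs
      refine PH_nxt hp hq hc h'.1 (Or.inl ⟨1, 1, _, _, hT.pos i h'.2.1,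
        Or.inl ⟨rfl, rfl, rfl, rfl, ?_⟩⟩)
      rw [act_one]
      exact sat_of_agr ha h'.2.2
  · rw [h0] at h'
    change band (frE (dig p) (dig q) c) (band (Nat.ble (Nat.succ i) nL)
      (band (Nat.beq Ym mk1) (Nat.beq Y (L i)))) = true at h'
    rw [band_iff, band_iff, band_iff, ble_iff, beq_iff, beq_iff] at h'
    obtain ⟨h1, h2, h3, h4⟩ := h'
    refine ⟨nxt s p q c, fun hn => hs (PH_nxt hp hq hc h1 hn), i, h2, ?_⟩
    rw [← h3, ← h4]
    exact ha

theorem lt2 (x : ℕ) : Nat.land x 1 < 2 := by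
  have : Nat.land x 1 = x &&& 1 := rfl
  rw [this, Nat.and_one_is_mod]
  exact Nat.mod_lt _ (by norm_num)

theorem lfP_spec {L P S : ℕ → ℕ} {nL nP nS mk mk1 sh A mr wr p q ty c i : ℕ}
    (hT : Tabs E P nP S nS) (hc : c < 2) (hsh : sh ≤ 30) (hmk : mk < 2 ^ 37)
    (h36 : mk.testBit 36 = true) {s : St36}
    (h : lfP L nL P nP S nS mk mk1 sh A mr wr p q ty c i = true)
    (ha : Agr s mk A) (hmr : mr < 64)
    (hr : ((enc s) >>> sh) &&& mr = wr) (hs : ¬ PH E s) :
    ∃ s', ¬ PH E s' ∧ ∃ i < nL, enc s' &&& mk1 = L i := by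
  have hA : A < 2 ^ 37 := lt_of_le_of_lt (by rw [← ha]; exact Nat.and_le_right) hmk
  have hwr : wr < 64 := lt_of_le_of_lt (by rw [← hr]; exact Nat.and_le_right) hmr
  have h' : band (band (Nat.ble (Nat.succ p) 720) (Nat.ble (Nat.succ q) 720))
    (lfZ L nL P nP S nS mk1 A p q (dig p) (dig q) ty c i
      (rperm2 (dig q) (cperm2 (dig p) (Nat.lor (Nat.lor A (Nat.shiftLeft wr sh))
        (Nat.shiftLeft (Nat.lor mk (Nat.shiftLeft mr sh)) 40))))) = true := h
  rw [band_iff, band_iff, ble_iff, ble_iff] at h'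
  obtain ⟨⟨hp, hq⟩, h'⟩ := h'
  have hp' : p < 720 := hp
  have hq' : q < 720 := hq
  have hwl : wr <<< sh < 2 ^ 36 := by
    rw [Nat.shiftLeft_eq]
    calc wr * 2 ^ sh ≤ wr * 2 ^ 30 := Nat.mul_le_mul_left _ (Nat.pow_le_pow_right (by norm_num) hsh)
      _ < 64 * 2 ^ 30 := (Nat.mul_lt_mul_right (by norm_num)).2 hwr
      _ = 2 ^ 36 := by norm_num
  have hX : A ||| wr <<< sh < 2 ^ 40 := Nat.or_lt_two_pow (lt_trans hA (by norm_num))
    (lt_trans hwl (by norm_num))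
  have e0 : Nat.lor A (Nat.shiftLeft wr sh) = A ||| wr <<< sh := rfl
  have e1 : Nat.lor mk (Nat.shiftLeft mr sh) = mk ||| mr <<< sh := rfl
  rw [e0, e1, act2_eq hq' hX, lfZ, ymOf_eq, yOf_eq] at h'
  have hagr : Agr s (mk ||| mr <<< sh) (A ||| wr <<< sh) := by
    rw [Agr, Nat.and_or_distrib_left, ha]
    congr 1
    rw [← hr]
    apply Nat.eq_of_testBit_eq
    intro n
    rw [Nat.testBit_and, Nat.testBit_shiftLeft, Nat.testBit_shiftLeft, Nat.testBit_and,
      Nat.testBit_shiftRight]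
    by_cases hn : n ≥ sh
    · rw [decide_eq_true hn, Bool.true_and, Bool.true_and]
      have : sh + (n - sh) = n := by omega
      rw [this]
    · rw [decide_eq_false hn, Bool.false_and, Bool.false_and, Bool.and_false]
  have h36' : (mk ||| mr <<< sh).testBit 36 = true := by
    rw [Nat.testBit_or, h36, Bool.true_or]
  have hA36 : (A ||| wr <<< sh).testBit 36 = A.testBit 36 := by
    rw [Nat.testBit_or, Nat.testBit_lt_two_pow hwl, Bool.or_false]
  have hag := agr_act hp' hq' hagr h36'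
  rw [hA36] at hag
  have hlt : act p q (mk ||| mr <<< sh) ||| 2 ^ 36 < 2 ^ 37 :=
    Nat.or_lt_two_pow (lt_trans (act_lt _ _ _) (by norm_num)) (by norm_num)
  refine lfT_spec hT hp' hq' hc h' ?_ hs
  interval_cases c
  · rw [nxt, if_pos rfl]
    have : Nat.mul 0 (act p q (mk ||| mr <<< sh) ||| 2 ^ 36) = 0 := Nat.zero_mul _
    rw [this]
    have e2 : ∀ x : ℕ, Nat.xor x 0 = x := fun x => Nat.xor_zero x
    rw [e2]
    exact hag
  · rw [nxt, if_neg (by norm_num)]
    have : Nat.mul 1 (act p q (mk ||| mr <<< sh) ||| 2 ^ 36) = act p q (mk ||| mr <<< sh) ||| 2 ^ 36 :=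
      Nat.one_mul _
    rw [this]
    exact agr_cpl hlt hag

theorem cube_spec : ((List.range 64).all fun m => (List.range 64).all fun w =>
    (List.range 64).all fun r => !(Nat.testBit (cube m w) r) || Nat.beq (Nat.land r m) w) = true := by
  decide +kernel

theorem cube_spec' {m w r : ℕ} (hm : m < 64) (hw : w < 64) (hr : r < 64)
    (h : (cube m w).testBit r = true) : r &&& m = w := by
  have h1 := List.all_eq_true.1 cube_spec m (List.mem_range.2 hm)
  have h2 := List.all_eq_true.1 h1 w (List.mem_range.2 hw)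
  have h3 := List.all_eq_true.1 h2 r (List.mem_range.2 hr)
  rw [h, Bool.not_true, Bool.false_or] at h3
  exact Nat.eq_of_beq_eq_true h3

theorem land63_lt (x : ℕ) : Nat.land x 63 < 64 := by
  have : Nat.land x 63 = x &&& 63 := rfl
  rw [this]
  exact lt_of_le_of_lt Nat.and_le_right (by norm_num)

theorem lfS_spec {L P S : ℕ → ℕ} {nL nP nS mk mk1 sh A e r : ℕ}
    (hT : Tabs E P nP S nS) (hsh : sh ≤ 30) (hmk : mk < 2 ^ 37)
    (h36 : mk.testBit 36 = true) {s : St36}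
    (h : (lfS L nL P nP S nS mk mk1 sh A e).testBit r = true) (hr : r < 64)
    (ha : Agr s mk A) (hre : ((enc s) >>> sh) &&& 63 = r) (hs : ¬ PH E s) :
    ∃ s', ¬ PH E s' ∧ ∃ i < nL, enc s' &&& mk1 = L i := by
  unfold lfS at h
  rcases hb : lfP L nL P nP S nS mk mk1 sh A (Nat.land e (nat_lit 63))
      (Nat.land (Nat.shiftRight e (nat_lit 6)) (nat_lit 63))
      (Nat.land (Nat.shiftRight e (nat_lit 12)) (nat_lit 1023))
      (Nat.land (Nat.shiftRight e (nat_lit 22)) (nat_lit 1023))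
      (Nat.land (Nat.shiftRight e (nat_lit 32)) (nat_lit 3))
      (Nat.land (Nat.shiftRight e (nat_lit 34)) (nat_lit 1))
      (Nat.shiftRight e (nat_lit 35)) with _ | _
  · rw [hb] at h
    change Nat.testBit 0 r = true at h
    rw [Nat.zero_testBit] at h
    exact Bool.noConfusion h
  · rw [hb] at h
    change (cube (Nat.land e 63) (Nat.land (Nat.shiftRight e 6) 63)).testBit r = true at h
    have hm := land63_lt e
    have hw := land63_lt (Nat.shiftRight e 6)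
    have h1 := cube_spec' hm hw hr h
    refine lfP_spec hT (lt2 _) hsh hmk h36 hb ha hm ?_ hs
    rw [← h1, ← hre, Nat.and_assoc]
    congr 1
    have : ∀ m < 64, m = 63 &&& m := by decide
    exact this _ hm

theorem lfU_spec {L P S : ℕ → ℕ} {nL nP nS mk mk1 sh A C a r : ℕ} :
    ∀ {n : ℕ}, (lfU L nL P nP S nS mk mk1 sh A C a n).testBit r = true →
      ∃ e, (lfS L nL P nP S nS mk mk1 sh A e).testBit r = true
  | 0, h => by
    change Nat.testBit 0 r = true at h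
    rw [Nat.zero_testBit] at h
    exact Bool.noConfusion h
  | n + 1, h => by
    have h' : (lfU L nL P nP S nS mk mk1 sh A C a n ||| lfS L nL P nP S nS mk mk1 sh A
      (Nat.land (Nat.shiftRight C (Nat.mul 56 (Nat.add a n))) 72057594037927935)).testBit r =
        true := h
    rw [Nat.testBit_or, Bool.or_eq_true] at h'
    rcases h' with h' | h'
    · exact lfU_spec h'
    · exact ⟨_, h'⟩

/-- If not all states are excluded, some state that is not excluded has its known part in the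
table. -/
def PLay (E : Tb) (mk : ℕ) (K : ℕ → ℕ) (n : ℕ) : Prop :=
  (∃ s, ¬ PH E s) → ∃ s, ¬ PH E s ∧ ∃ i < n, enc s &&& mk = K i

/-- A node whose leaves cover all columns. -/
def NOK (E : Tb) (L : ℕ → ℕ) (nL mk1 mk : ℕ) (A : ℕ) : Prop := ∀ s, ¬ PH E s → enc s &&& mk = A →
  ∃ s', ¬ PH E s' ∧ ∃ i < nL, enc s' &&& mk1 = L i

theorem plN_spec {L P S K : ℕ → ℕ} {nL nP nS mk mk1 sh a O C : ℕ}
    (hT : Tabs E P nP S nS) (hsh : sh ≤ 30) (hmk : mk < 2 ^ 37) (h36 : mk.testBit 36 = true) :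
    ∀ {n : ℕ}, plN L nL P nP S nS mk mk1 sh K a O C n = true → ∀ i < n, NOK E L nL mk1 mk (K (a + i))
  | 0, _, i, hi => absurd hi (Nat.not_lt_zero i)
  | n + 1, h, i, hi => by
    have h' : band (plN L nL P nP S nS mk mk1 sh K a O C n)
      (Nat.beq (lfU L nL P nP S nS mk mk1 sh (K (Nat.add a n)) C (ofs O n)
        (Nat.sub (ofs O (Nat.succ n)) (ofs O n))) 18446744073709551615) = true := h
    rw [band_iff] at h'
    rcases Nat.lt_succ_iff_lt_or_eq.1 hi with hi | rfl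
    · exact plN_spec hT hsh hmk h36 h'.1 i hi
    · intro s hs he
      have h2 := Nat.eq_of_beq_eq_true h'.2
      have hr : ((enc s) >>> sh) &&& 63 < 64 := lt_of_le_of_lt Nat.and_le_right (by norm_num)
      have h3 : (lfU L nL P nP S nS mk mk1 sh (K (Nat.add a i)) C (ofs O i)
          (Nat.sub (ofs O (Nat.succ i)) (ofs O i))).testBit (((enc s) >>> sh) &&& 63) = true := by
        rw [h2]
        have : (18446744073709551615 : ℕ) = 2 ^ 64 - 1 := by norm_num
        rw [this, Nat.testBit_two_pow_sub_one, decide_eq_true hr]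
      obtain ⟨e, he'⟩ := lfU_spec h3
      exact lfS_spec hT hsh hmk h36 he' hr he rfl hs

/-- **One layer.** -/
theorem play_step {K L : ℕ → ℕ} {n nL mk mk1 : ℕ} (h : ∀ i < n, NOK E L nL mk1 mk (K i))
    (hK : PLay E mk K n) : PLay E mk1 L nL := by
  intro h0
  obtain ⟨s, hs, i, hi, he⟩ := hK h0
  exact h i hi s hs he

/-- The first layer: the sign of the determinant. -/
theorem play_zero : PLay E (2 ^ 36) (fun i => Nat.mul i (2 ^ 36)) 2 := by
  rintro ⟨s, hs⟩
  refine ⟨s, hs, s.2.toNat, by cases s.2 <;> decide, ?_⟩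
  show enc s &&& 2 ^ 36 = s.2.toNat * 2 ^ 36
  apply bits37 (lt_of_le_of_lt Nat.and_le_right (by norm_num)) (by cases s.2 <;> decide)
  · intro k j
    rw [Nat.testBit_and, Nat.testBit_two_pow, decide_eq_false (by omega), Bool.and_false]
    cases s.2
    · show false = Nat.testBit (0 * 2 ^ 36) _
      rw [Nat.zero_mul, Nat.zero_testBit]
    · show false = Nat.testBit (1 * 2 ^ 36) _
      rw [Nat.one_mul, Nat.testBit_two_pow, decide_eq_false (by omega)]
  · rw [Nat.testBit_and, enc_tb36, Nat.testBit_two_pow, decide_eq_true rfl, Bool.and_true]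
    cases s.2
    · show false = Nat.testBit (0 * 2 ^ 36) _
      rw [Nat.zero_mul, Nat.zero_testBit]
    · show true = Nat.testBit (1 * 2 ^ 36) _
      rw [Nat.one_mul, Nat.testBit_two_pow, decide_eq_true rfl]

/-- **The last layer is empty.** -/
theorem all_PH {mk : ℕ} {K : ℕ → ℕ} (h : PLay E mk K 0) : ∀ s, PH E s := by
  intro s
  by_contra hs
  obtain ⟨s', -, i, hi, -⟩ := h ⟨s, hs⟩
  exact absurd hi (Nat.not_lt_zero i)

end Pool.Agent.H28.Z12
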