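import Mathlib
import Pool.Agent.H28.Z12.PosTab
import Pool.Agent.H26.Z12.MaxChart

/-!
The frame of the largest cross ratio, from refutations of configurations (MP_1e71f9_co).
-/

set_option autoImplicit false

namespace Pool.Agent.H28.Z12

open Pool.Agent.H77.Z12 Pool.Agent.H13.Z12 Pool.Agent.H64.Z12 Pool.Agent.H28.Z12.Cov
open Pool.Agent.H26.Z12

attribute [local irreducible] chiN topN sigma

/-- **A pattern refuted in the frame**, one sided. -/
theorem posGood_of_sref {m w : ℕ} {E : List (ℕ × Bool)} (h : SRef m w E)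
    (hE : sub17 E = true) : PosGood m w := by
  intro M hb hM hx hs
  obtain ⟨h63, hS, hMod⟩ := chart_facts hb hM
  refine h M hb hM (satC_iff.2 hs) fun p hp => ?_
  obtain ⟨e, he, rfl⟩ := List.mem_map.1 (List.contains_iff_mem.1 (List.all_eq_true.1 hE p hp))
  exact lit_of_sgn hb h63 he (mx_sgn hM hb hx e he)

end Pool.Agent.H28.Z12
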