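import Mathlib
import Pool.Agent.H28.Z12.PCov
import Pool.Agent.H28.Z12.PosS
import Pool.Agent.H26.Z12.MaxRank

/-!
The direct cover in the frame of the largest cross ratio, with patterns excluded in the chart of
maximal rank (MP_1e71f9_co).
-/

set_option autoImplicit false

namespace Pool.Agent.H28.Z12

open Pool.Agent.H77.Z12 Pool.Agent.H13.Z12 Pool.Agent.H64.Z12 Pool.Agent.H28.Z12.Cov
open Pool.Agent.H26.Z12

/-- The rank `R` of a bad chart is at most `r`. -/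
def MaxOf (R : St36 → ℕ) (r : ℕ) : Prop := ∀ M : Fin 6 → Fin 6 → ℝ, Bad (cf M) →
  (∀ i c, 0 < M i c) → R (stt M) ≤ r

theorem MaxOf.mono {R : St36 → ℕ} {r r' : ℕ} (h : MaxOf R r) (hr : r ≤ r') : MaxOf R r' :=
  fun M hb hM => le_trans (h M hb hM) hr

variable {R : St36 → ℕ}

/-- Excluded if the chart has maximal rank. -/
def CG (R : St36 → ℕ) (m w : ℕ) : Prop := ∀ s : St36, Pool.Agent.H77.Z12.Sat m w s →
  MaxOf R (R s) → Good m w

/-- Excluded in the frame if the chart has maximal rank. -/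
def CP (R : St36 → ℕ) (m w : ℕ) : Prop := ∀ s : St36, Pool.Agent.H77.Z12.Sat m w s →
  MaxOf R (R s) → PosGood m w

def CPN (R : St36 → ℕ) (m w : ℕ) : Prop := ∀ s : St36, Pool.Agent.H77.Z12.Sat m w s →
  MaxOf R (R s) → PosGoodN m w

def CG2 (R : St36 → ℕ) (m w : ℕ) : Prop := CG R m w ∧ CG R m (w ^^^ m)

def CP2 (R : St36 → ℕ) (m w : ℕ) : Prop := CP R m w ∧ CPN R m (w ^^^ m)

theorem cg_of_good {m w : ℕ} (h : Good m w) : CG R m w := fun _ _ _ => h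

theorem cg2_of_good2 {m w : ℕ} (h : Good2 m w) : CG2 R m w :=
  ⟨cg_of_good h.1, cg_of_good h.2⟩

theorem CG2.compl {m w : ℕ} (h : CG2 R m w) : CG2 R m (w ^^^ m) := by
  refine ⟨h.2, ?_⟩
  rw [Nat.xor_assoc, Nat.xor_self, Nat.xor_zero]
  exact h.1

theorem cp2_of_pos2 {m w : ℕ} (h : Pos2 m w) : CP2 R m w :=
  ⟨fun _ _ _ => h.1, fun _ _ _ => h.2⟩

theorem cp2_of_cg2 {m w : ℕ} (h : CG2 R m w) : CP2 R m w :=
  ⟨fun s hs hr M hb hM _ => h.1 s hs hr M hb hM, fun s hs hr M hb hM _ => h.2 s hs hr M hb hM⟩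

/-- A pattern all of whose states have rank at most `r`. -/
theorem cg_of_rank {m w r : ℕ} (hc : ∀ s, Pool.Agent.H77.Z12.Sat m w s → R s ≤ r)
    (h : MaxOf R r → Good m w) : CG R m w := fun s hs hr => h (hr.mono (hc s hs))

theorem cp_of_rank {m w r : ℕ} (hc : ∀ s, Pool.Agent.H77.Z12.Sat m w s → R s ≤ r)
    (h : MaxOf R r → PosGood m w) : CP R m w := fun s hs hr => h (hr.mono (hc s hs))

/-- The rank by rows and columns. -/
def RR (F G : ℕ) : St36 → ℕ := fun s => RK F G s.1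

theorem cg_of_maxK {F G m w r : ℕ} (hF : monoT F = true) (hG : monoT G = true)
    (hr : Nat.ble (NR F G (hiN m w)) r = true) (h : MaxK F G r → Good m w) :
    CG (RR F G) m w :=
  cg_of_rank (r := r) (fun s hs => le_trans (rk_bounds hF hG hs).2 (Nat.le_of_ble_eq_true hr)) h

theorem cp_of_maxK {F G m w r : ℕ} (hF : monoT F = true) (hG : monoT G = true)
    (hr : Nat.ble (NR F G (hiN m w)) r = true) (h : MaxK F G r → PosGood m w) :
    CP (RR F G) m w :=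
  cp_of_rank (r := r) (fun s hs => le_trans (rk_bounds hF hG hs).2 (Nat.le_of_ble_eq_true hr)) h

theorem rr_act (F G : ℕ) (ρ γ : Equiv.Perm (Fin 6)) (s : St36) :
    RR F G (actS ρ γ s) = RR F G s := RK_act F G ρ γ s.1

theorem rr_lt (F G : ℕ) (s : St36) : RR F G s < 2 ^ 20 := RK_lt F G s.1

/-- The tables of a cover with ranks. -/
def TbR (R : St36 → ℕ) : Tb := ⟨CP2 R, CG2 R⟩

theorem not_PH_rank (hR : ∀ (ρ γ : Equiv.Perm (Fin 6)) (s : St36), R (actS ρ γ s) = R s)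
    {M : Fin 6 → Fin 6 → ℝ} (hb : Bad (cf M)) (hM : ∀ i c, 0 < M i c)
    (hx : MX M) (hr : MaxOf R (R (stt M))) : ¬ PH (TbR R) (stt M) := by
  have hr' : ∀ ρ γ : Equiv.Perm (Fin 6), MaxOf R (R (actS ρ γ (stt M))) := by
    intro ρ γ
    rw [hR]
    exact hr
  have key : ∀ i i' j j' : Fin 6, MXat M i i' j j' → ¬ PHit (TbR R) (stt M) i i' j j' := by
    intro i i' j j' hmx
    rintro ⟨ρ, γ, a, b, hp, ⟨rfl, rfl, rfl, rfl, hs⟩ | ⟨rfl, rfl, rfl, rfl, hs⟩⟩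
    · have h1 := hp.1 _ hs (hr' ρ γ)
      rw [← stt_perm hb] at hs
      exact h1 _ (bad_perm hb ρ γ) (fun i c => hM _ _) (mxat_perm ρ γ hmx) hs
    · have h1 := hp.2 _ hs (hr' ρ γ)
      rw [← stt_perm hb] at hs
      exact h1 _ (bad_perm hb ρ γ) (fun i c => hM _ _) (mxat_perm ρ γ hmx) hs
  rintro (h1 | h1 | ⟨ρ, γ, a, b, hg, hs | hs⟩)
  · exact key _ _ _ _ hx h1
  · exact key _ _ _ _ (mxat_comm hx) h1
  · exact (hg.1 _ hs (hr' ρ γ)).act hb hM ρ γ hs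
  · exact (hg.2 _ hs (hr' ρ γ)).act hb hM ρ γ hs

/-- The chart of maximal rank. -/
theorem exists_max_chart (hN : ∃ N, ∀ s, R s < N) {v : Fin 12 → Fin 6 → ℝ} (hv : Bad v) :
    ∃ M : Fin 6 → Fin 6 → ℝ, Bad (cf M) ∧ (∀ i c, 0 < M i c) ∧ MaxOf R (R (stt M)) := by
  obtain ⟨M0, hM0, hgen0, hb0⟩ :=
    exists_chart (r := 6) (m := 6) v hv.1 (by norm_num) (by norm_num) hv.2
  by_contra hcon
  push Not at hcon
  have key : ∀ n : ℕ, ∃ M : Fin 6 → Fin 6 → ℝ, Bad (cf M) ∧ (∀ i c, 0 < M i c) ∧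
      n ≤ R (stt M) := by
    intro n
    induction n with
    | zero => exact ⟨M0, ⟨hgen0, hb0⟩, hM0, Nat.zero_le _⟩
    | succ n ih =>
      obtain ⟨M, hb, hM, hn⟩ := ih
      have h1 := hcon M hb hM
      unfold MaxOf at h1
      push Not at h1
      obtain ⟨M', hb', hM', h2⟩ := h1
      exact ⟨M', hb', hM', by omega⟩
  obtain ⟨N, hN⟩ := hN
  obtain ⟨M, -, -, h1⟩ := key N
  exact absurd h1 (not_le.2 (hN _))

/-- **No bad configuration if all states are excluded in the frame.** -/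
theorem not_bad_of_PH (hR : ∀ (ρ γ : Equiv.Perm (Fin 6)) (s : St36), R (actS ρ γ s) = R s)
    (hN : ∃ N, ∀ s, R s < N) (h : ∀ s, PH (TbR R) s) (v : Fin 12 → Fin 6 → ℝ) : ¬ Bad v := by
  intro hv
  obtain ⟨M, hb, hM, hmax⟩ := exists_max_chart hN hv
  obtain ⟨i, i', j, j', hi, hj, hx⟩ := exists_mxat hM hb
  obtain ⟨ρ, hρ0, hρ1⟩ := exists_perm01 hi
  obtain ⟨γ, hγ0, hγ1⟩ := exists_perm05 hj
  have hx' : MX fun a c => M (ρ a) (γ c) := mxat_perm ρ γ (by rw [hρ0, hρ1, hγ0, hγ1]; exact hx)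
  refine not_PH_rank hR (bad_perm hb ρ γ) (fun i c => hM _ _) hx' ?_ (h _)
  rw [stt_perm hb, hR]
  exact hmax

/-- With the rank by rows and columns. -/
theorem not_bad_of_PH_rr {F G : ℕ} (h : ∀ s, PH (TbR (RR F G)) s) (v : Fin 12 → Fin 6 → ℝ) :
    ¬ Bad v := not_bad_of_PH (rr_act F G) ⟨_, rr_lt F G⟩ h v

end Pool.Agent.H28.Z12
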