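import Pool.Agent.H28.Z12.PCovDefs
import Pool.Agent.H28.Z12.CondDefs

/-!
Kernel evaluation of decision trees over the sign patterns (MP_1e71f9_co).
-/

set_option autoImplicit false

namespace Pool.Agent.H28.Z12.Cov

/-- Evaluate the argument first. -/
noncomputable def fc (x : Nat) (f : Nat → Nat) : Nat :=
  @Nat.rec (fun _ => Nat) (f (nat_lit 0)) (fun n _ => f (Nat.succ n)) x

/-- `s` if the test is passed. -/
noncomputable def ifT (b : Bool) (s : Nat) : Nat := @Bool.rec (fun _ => Nat) (nat_lit 0) s b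

/-- A leaf with an image of the entry `g` of the table of excluded patterns: the permuted pair is
`Z`. -/
noncomputable def lgZ (g X p q Z : Nat) : Bool := hitG g (ymOf Z) (yOf Z X p q)

noncomputable def lgP (G : Nat → Nat) (nG Xm X p q i : Nat) : Bool :=
  band (band (band (Nat.ble (Nat.succ p) (nat_lit 720)) (Nat.ble (Nat.succ q) (nat_lit 720)))
      (band (Nat.ble (Nat.succ i) nG) (Nat.beq (Nat.land (Nat.shiftRight Xm (nat_lit 36)) (nat_lit 1)) (nat_lit 1))))
    (lgZ (G i) X p q (rperm2 (dig q) (cperm2 (dig p) (Nat.lor X (Nat.shiftLeft Xm (nat_lit 40))))))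

/-- A leaf: code 63, index in `Q` (20 bits), or code 62, `p`, `q` (10 bits each), index in `G`
(16 bits). The rest of the stream. -/
noncomputable def leafT (Q : Nat → Nat) (nQ : Nat) (G : Nat → Nat) (nG s Xm X : Nat) : Nat :=
  @Bool.rec (fun _ => Nat)
    (ifT (band (Nat.beq (Nat.land s (nat_lit 63)) (nat_lit 62))
      (lgP G nG Xm X (Nat.land (Nat.shiftRight s (nat_lit 6)) (nat_lit 1023))
        (Nat.land (Nat.shiftRight s (nat_lit 16)) (nat_lit 1023))
        (Nat.land (Nat.shiftRight s (nat_lit 26)) (nat_lit 65535)))) (Nat.shiftRight s (nat_lit 42)))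
    (ifT (band (Nat.ble (Nat.succ (Nat.land (Nat.shiftRight s (nat_lit 6)) (nat_lit 1048575))) nQ)
      (hitG (Q (Nat.land (Nat.shiftRight s (nat_lit 6)) (nat_lit 1048575))) Xm X)) (Nat.shiftRight s (nat_lit 26)))
    (Nat.beq (Nat.land s (nat_lit 63)) (nat_lit 63))

/-- Both values of the sign `v`. -/
noncomputable def splT (ih : Nat → Nat → Nat → Nat) (v s Xm X : Nat) : Nat :=
  fc (Nat.lor Xm (Nat.shiftLeft (nat_lit 1) v)) fun Ym =>
    fc (ih s Ym X) fun s1 => @Bool.rec (fun _ => Nat)
      (fc (Nat.lor X (Nat.shiftLeft (nat_lit 1) v)) fun Y => ih s1 Ym Y) (nat_lit 0)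
      (Nat.beq s1 (nat_lit 0))

/-- A decision tree in the stream `s` at the node `Xm, X`: the rest of the stream, zero if the
check fails. -/
noncomputable def trT (Q : Nat → Nat) (nQ : Nat) (G : Nat → Nat) (nG : Nat) (n : Nat) :
    Nat → Nat → Nat → Nat :=
  @Nat.rec (fun _ => Nat → Nat → Nat → Nat) (fun _ _ _ => nat_lit 0) (fun _ ih s Xm X =>
    @Bool.rec (fun _ => Nat) (leafT Q nQ G nG s Xm X)
      (splT ih (Nat.land s (nat_lit 63)) (Nat.shiftRight s (nat_lit 6)) Xm X)
      (Nat.ble (Nat.land s (nat_lit 63)) (nat_lit 36))) n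

/-- The tree of the cube `T`. -/
noncomputable def trC (Q : Nat → Nat) (nQ : Nat) (G : Nat → Nat) (nG s g : Nat) : Nat :=
  fc (gM g) fun Xm => fc (gV g) fun X => trT Q nQ G nG (nat_lit 40) s Xm X

/-- The trees of the cubes `a, .., a + n - 1` of the table `T`; stream `S`, offsets `O`. -/
noncomputable def trM (Q : Nat → Nat) (nQ : Nat) (G : Nat → Nat) (nG : Nat) (T : Nat → Nat)
    (a O S : Nat) (n : Nat) : Bool :=
  @Nat.rec (fun _ => Bool) true (fun k ih => band ih (Nat.ble (nat_lit 1)
    (fc (Nat.land (Nat.shiftRight S (ofs O k))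
        (Nat.sub (Nat.shiftLeft (nat_lit 1) (Nat.sub (ofs O (Nat.succ k)) (ofs O k))) (nat_lit 1))) fun s =>
      fc (T (Nat.add a k)) fun g => trC Q nQ G nG s g))) n

/-- The entries `b, .., b + n - 1` of the table `Q` by trees whose leaves are earlier entries;
stream `S`, offsets `O`. -/
noncomputable def trR (Q : Nat → Nat) (G : Nat → Nat) (nG : Nat) (b O S : Nat) (n : Nat) : Bool :=
  @Nat.rec (fun _ => Bool) true (fun k ih => band ih (Nat.ble (nat_lit 1)
    (fc (Nat.land (Nat.shiftRight S (ofs O k))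
        (Nat.sub (Nat.shiftLeft (nat_lit 1) (Nat.sub (ofs O (Nat.succ k)) (ofs O k))) (nat_lit 1))) fun s =>
      fc (Q (Nat.add b k)) fun g => trC Q (Nat.add b k) G nG s g))) n

/-- The four symmetries of the sorted frame; certificate 40 bits: `p, q` (10 bits each),
complement, index. The code `z` of the symmetry is 0, 694657, 1048961 or 1742848. -/
noncomputable def grp4 (z : Nat) : Bool :=
  @Bool.rec (fun _ => Bool) (@Bool.rec (fun _ => Bool) (@Bool.rec (fun _ => Bool)
    (Nat.beq z (nat_lit 1742848)) true (Nat.beq z (nat_lit 1048961))) true (Nat.beq z (nat_lit 694657)))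
    true (Nat.beq z (nat_lit 0))

/-- The pattern `gm, gv` is the image of an entry of `P` by the certificate `c`. -/
noncomputable def imG (P nP c gm gv : Nat) : Bool :=
  band (band (Nat.ble (Nat.succ (Nat.shiftRight c (nat_lit 21))) nP)
      (band (grp4 (Nat.land c (nat_lit 2097151)))
        (Nat.beq (Nat.land (Nat.shiftRight gm (nat_lit 36)) (nat_lit 1)) (nat_lit 1))))
    (imgE (ngM P (Nat.shiftRight c (nat_lit 21)))
      (Nat.xor (ngV P (Nat.shiftRight c (nat_lit 21)))
        (Nat.mul (Nat.land (Nat.shiftRight c (nat_lit 20)) (nat_lit 1))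
          (ngM P (Nat.shiftRight c (nat_lit 21)))))
      (Nat.land c (nat_lit 1023)) (Nat.land (Nat.shiftRight c (nat_lit 10)) (nat_lit 1023)) gm gv)

/-- The entries `b, .., b + n - 1` of the table `Q`. -/
noncomputable def imB (P nP : Nat) (Q : Nat → Nat) (b C : Nat) (n : Nat) : Bool :=
  @Nat.rec (fun _ => Bool) true (fun e ih => band ih
    (imG P nP (cE C e) (gM (Q (Nat.add b e))) (gV (Q (Nat.add b e))))) n

/-- The pattern `gm, gv` is the image of an entry of `P` by the certificate `c`, in the frame of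
the largest cross ratio. -/
noncomputable def imH (P nP c gm gv : Nat) : Bool :=
  band (band (Nat.ble (Nat.succ (Nat.shiftRight c (nat_lit 21))) nP)
      (band (frE (dig (Nat.land c (nat_lit 1023)))
          (dig (Nat.land (Nat.shiftRight c (nat_lit 10)) (nat_lit 1023)))
          (Nat.land (Nat.shiftRight c (nat_lit 20)) (nat_lit 1)))
        (Nat.beq (Nat.land (Nat.shiftRight gm (nat_lit 36)) (nat_lit 1)) (nat_lit 1))))
    (imgE (ngM P (Nat.shiftRight c (nat_lit 21)))
      (Nat.xor (ngV P (Nat.shiftRight c (nat_lit 21)))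
        (Nat.mul (Nat.land (Nat.shiftRight c (nat_lit 20)) (nat_lit 1))
          (ngM P (Nat.shiftRight c (nat_lit 21)))))
      (Nat.land c (nat_lit 1023)) (Nat.land (Nat.shiftRight c (nat_lit 10)) (nat_lit 1023)) gm gv)

/-- The entries `b, .., b + n - 1` of the table `Q`. -/
noncomputable def imC (P nP : Nat) (Q : Nat → Nat) (b C : Nat) (n : Nat) : Bool :=
  @Nat.rec (fun _ => Bool) true (fun e ih => band ih
    (imH P nP (cE C e) (gM (Q (Nat.add b e))) (gV (Q (Nat.add b e))))) n

end Pool.Agent.H28.Z12.Cov
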