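import Mathlib
import Pool.Agent.H28.Z12.PCovR
import Pool.Agent.H28.Z12.STreeDefs

/-!
The sorted frame: largest cross ratio at rows 0, 1 and columns 0, 5, rows and columns sorted
(MP_1e71f9_co).
-/

set_option autoImplicit false

namespace Pool.Agent.H28.Z12

open Pool.Agent.H77.Z12 Pool.Agent.H13.Z12 Pool.Agent.H64.Z12 Pool.Agent.H28.Z12.Cov
open Pool.Agent.H26.Z12

/-- The order of the rows. -/
def od (a : Fin 6) : ℕ := ![0, 5, 1, 2, 3, 4] a

/-- The minor. -/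
def mn (M : Fin 6 → Fin 6 → ℝ) (a b c d : Fin 6) : ℝ := M a c * M b d - M b c * M a d

theorem mn_swap (M : Fin 6 → Fin 6 → ℝ) (a b c d : Fin 6) : mn M b a d c = mn M a b c d := by
  unfold mn; ring

theorem mn_neg (M : Fin 6 → Fin 6 → ℝ) (a b c d : Fin 6) : mn M b a c d = -mn M a b c d := by
  unfold mn; ring

/-- The sorted frame. -/
def SX (M : Fin 6 → Fin 6 → ℝ) : Prop :=
  (∀ c d, c < d → 0 < mn M 0 1 c d) ∧ (∀ a b, od a < od b → 0 < mn M a b 0 5) ∧ MX M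

/-- The sorted frame with all signs changed. -/
def SXN (M : Fin 6 → Fin 6 → ℝ) : Prop :=
  (∀ c d, c < d → mn M 0 1 c d < 0) ∧ (∀ a b, od a < od b → mn M a b 0 5 < 0) ∧ MXN M

/-- The row permutation of the order. -/
def tauF : Fin 6 → Fin 6 := ![0, 5, 1, 2, 3, 4]

def tauI : Fin 6 → Fin 6 := ![0, 2, 3, 4, 5, 1]

def tau : Equiv.Perm (Fin 6) where
  toFun := tauF
  invFun := tauI
  left_inv := by decide
  right_inv := by decide

/-- **Every bad chart can be brought into the sorted frame.** -/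
theorem exists_sx {M : Fin 6 → Fin 6 → ℝ} (hM : ∀ i c, 0 < M i c) (hb : Bad (cf M)) :
    ∃ ρ γ : Equiv.Perm (Fin 6), SX fun a c => M (ρ a) (γ c) := by
  obtain ⟨i, i', j, j', hii, hjj, hx⟩ := exists_mxat hM hb
  obtain ⟨h1, h2, h3, h4⟩ := mxat_signs hM hb hii hjj hx
  obtain ⟨γ, g0, g5, hγ⟩ := exists_sort (M i) (M i') (hM i')
    (fun x y hxy => by
      have := nd_of_bad hb hii hxy
      intro h0
      apply this
      linarith) (p := j) (q := j')
    (fun x => by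
      by_cases hxj : x = j
      · rw [hxj]
      · exact (h1 x hxj).le)
    (fun x => by
      by_cases hxj : x = j'
      · rw [hxj]
      · exact (h2 x hxj).le)
  obtain ⟨ρ, r0, r5, hρ⟩ := exists_sort (fun r => M r j) (fun r => M r j') (fun r => hM r j')
    (fun x y hxy => by
      have := nd_of_bad hb hxy hjj
      intro h0
      apply this
      linarith) (p := i) (q := i')
    (fun x => by
      by_cases hxj : x = i
      · rw [hxj]
      · exact (h3 x hxj).le)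
    (fun x => by
      by_cases hxj : x = i'
      · rw [hxj]
      · exact (h4 x hxj).le)
  have t0 : (tau.trans ρ) 0 = i := r0
  have t1 : (tau.trans ρ) 1 = i' := r5
  refine ⟨tau.trans ρ, γ, fun c d hcd => ?_, fun a b hab => ?_, ?_⟩
  · have h5 := hγ c d hcd
    simp only [mn, t0, t1]
    linarith
  · have e : ∀ a b : Fin 6, od a < od b → tauF a < tauF b := by decide
    have h5 := hρ _ _ (e a b hab)
    simp only [mn, g0, g5]
    have e1 : (tau.trans ρ) a = ρ (tauF a) := rfl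
    have e2 : (tau.trans ρ) b = ρ (tauF b) := rfl
    rw [e1, e2]
    linarith
  · exact mxat_perm (tau.trans ρ) γ (by rw [t0, t1, g0, g5]; exact hx)

/-- The twenty-nine minors of the sorted frame. -/
def L29 : List Mn :=
  [
   ⟨0, 1, 0, 1, true⟩, ⟨0, 1, 0, 2, true⟩, ⟨0, 1, 0, 3, true⟩, ⟨0, 1, 0, 4, true⟩,
   ⟨0, 1, 0, 5, true⟩, ⟨0, 1, 1, 2, true⟩, ⟨0, 1, 1, 3, true⟩, ⟨0, 1, 1, 4, true⟩,
   ⟨0, 1, 1, 5, true⟩, ⟨0, 1, 2, 3, true⟩, ⟨0, 1, 2, 4, true⟩, ⟨0, 1, 2, 5, true⟩,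
   ⟨0, 1, 3, 4, true⟩, ⟨0, 1, 3, 5, true⟩, ⟨0, 1, 4, 5, true⟩, ⟨0, 2, 0, 5, true⟩,
   ⟨0, 3, 0, 5, true⟩, ⟨0, 4, 0, 5, true⟩, ⟨0, 5, 0, 5, true⟩, ⟨1, 2, 0, 5, false⟩,
   ⟨1, 3, 0, 5, false⟩, ⟨1, 4, 0, 5, false⟩, ⟨1, 5, 0, 5, false⟩, ⟨2, 3, 0, 5, true⟩,
   ⟨2, 4, 0, 5, true⟩, ⟨2, 5, 0, 5, true⟩, ⟨3, 4, 0, 5, true⟩, ⟨3, 5, 0, 5, true⟩,
   ⟨4, 5, 0, 5, true⟩]

/-- The sign of a minor. -/
theorem sgnP_iff (M : Fin 6 → Fin 6 → ℝ) (f : Bool) (e : Mn) : SgnP M f e ↔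
    if xor f e.s = true then 0 < mn M e.a e.b e.c e.d else mn M e.a e.b e.c e.d < 0 := Iff.rfl

theorem l29_cases : ∀ e ∈ L29, e.a < e.b ∧ e.c < e.d ∧
    ((e.a = 0 ∧ e.b = 1 ∧ e.s = true) ∨
      (e.c = 0 ∧ e.d = 5 ∧ ((od e.a < od e.b ∧ e.s = true) ∨ (od e.b < od e.a ∧ e.s = false)))) := by
  decide

theorem sx_sgn {M : Fin 6 → Fin 6 → ℝ} (h : SX M) : ∀ e ∈ L29, SgnP M false e := by
  intro e he
  rw [sgnP_iff]
  obtain ⟨h1, h2, ⟨h3, h4, h5⟩ | ⟨h3, h4, ⟨h5, h6⟩ | ⟨h5, h6⟩⟩⟩ := l29_cases e he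
  · rw [h5, if_pos (by decide), h3, h4]
    exact h.1 _ _ h2
  · rw [h6, if_pos (by decide), h3, h4]
    exact h.2.1 _ _ h5
  · rw [h6, if_neg (by decide), h3, h4, ← neg_neg (mn M e.a e.b 0 5), ← mn_neg, neg_lt_zero]
    exact h.2.1 _ _ h5

theorem sxn_sgn {M : Fin 6 → Fin 6 → ℝ} (h : SXN M) : ∀ e ∈ L29, SgnP M true e := by
  intro e he
  rw [sgnP_iff]
  obtain ⟨h1, h2, ⟨h3, h4, h5⟩ | ⟨h3, h4, ⟨h5, h6⟩ | ⟨h5, h6⟩⟩⟩ := l29_cases e he
  · rw [h5, if_neg (by decide), h3, h4]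
    exact h.1 _ _ h2
  · rw [h6, if_neg (by decide), h3, h4]
    exact h.2.1 _ _ h5
  · rw [h6, if_pos (by decide), h3, h4, ← neg_neg (mn M e.a e.b 0 5), ← mn_neg, neg_pos]
    exact h.2.1 _ _ h5

attribute [local irreducible] chiN topN sigma

theorem lit_of_sgn' {M : Fin 6 → Fin 6 → ℝ} (hb : Bad (cf M)) (h63 : chiN (cf M) 63 = true)
    {e : Mn} (ha : e.a < e.b) (hc : e.c < e.d) (h : SgnP M false e) :
    chiN (cf M) (litM e).1 = (litM e).2 := by
  have hs := minor_sign hb.1 ha hc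
  rcases hes : e.s with _ | _
  · rw [SgnP, hes, if_neg (by decide)] at h
    show chiN (cf M) (mm e.a e.b e.c e.d) = xor (mb e.a e.b) (!e.s)
    rw [hes, Bool.not_false, Bool.xor_true]
    exact chi_mm' h63 ha hc (hs.2.2 h)
  · rw [SgnP, hes, if_pos (by decide)] at h
    show chiN (cf M) (mm e.a e.b e.c e.d) = xor (mb e.a e.b) (!e.s)
    rw [hes, Bool.not_true, Bool.xor_false]
    exact chi_mm h63 ha hc (hs.2.1 h)

theorem lit_of_sgn_flX' {M : Fin 6 → Fin 6 → ℝ} (hb : Bad (cf M)) (h63 : chiN (cf M) 63 = true)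
    {e : Mn} (ha : e.a < e.b) (hc : e.c < e.d) (h : SgnP M true e) :
    flX (chiN (cf M)) (litM e).1 = (litM e).2 := by
  have hs := minor_sign hb.1 ha hc
  rcases hes : e.s with _ | _
  · rw [SgnP, hes, if_pos (by decide)] at h
    show flX (chiN (cf M)) (mm e.a e.b e.c e.d) = xor (mb e.a e.b) (!e.s)
    rw [hes, Bool.not_false, Bool.xor_true]
    exact flX_mm' h63 ha hc (hs.2.1 h)
  · rw [SgnP, hes, if_neg (by decide)] at h
    show flX (chiN (cf M)) (mm e.a e.b e.c e.d) = xor (mb e.a e.b) (!e.s)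
    rw [hes, Bool.not_true, Bool.xor_false]
    exact flX_mm h63 ha hc (hs.2.2 h)

/-! ### Patterns excluded in the sorted frame -/

/-- No bad configuration in the sorted frame has the signs of the pattern. -/
def SGood (m w : ℕ) : Prop := ∀ M : Fin 6 → Fin 6 → ℝ, Bad (cf M) → (∀ i c, 0 < M i c) →
  SX M → ¬ Pool.Agent.H77.Z12.Sat m w (stt M)

def SGoodN (m w : ℕ) : Prop := ∀ M : Fin 6 → Fin 6 → ℝ, Bad (cf M) → (∀ i c, 0 < M i c) →
  SXN M → ¬ Pool.Agent.H77.Z12.Sat m w (stt M)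

/-- Both, the second one for the complementary pattern. -/
def S2 (m w : ℕ) : Prop := SGood m w ∧ SGoodN m (w ^^^ m)

/-- The images used by a conditional refutation are excluded in the sorted frame. -/
def ExtS (X nX : ℕ) : Prop :=
  (∀ M : Fin 6 → Fin 6 → ℝ, Bad (cf M) → (∀ i c, 0 < M i c) → SX M →
    ∀ e < nX, ¬ SatC (chiN (cf M)) (ngM X e) (ngV X e)) ∧
  (∀ M : Fin 6 → Fin 6 → ℝ, Bad (cf M) → (∀ i c, 0 < M i c) → SXN M →
    ∀ e < nX, ¬ SatC (flX (chiN (cf M))) (ngM X e) (ngV X e))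

theorem extS_zero (X : ℕ) : ExtS X 0 :=
  ⟨fun _ _ _ _ e he => absurd he (Nat.not_lt_zero e),
    fun _ _ _ _ e he => absurd he (Nat.not_lt_zero e)⟩

/-- All signs of `E` are signs of the sorted frame. -/
def sub29 (E : List (ℕ × Bool)) : Bool := E.all fun e => (L29.map litM).contains e

theorem s2_of_rrefX_ext {m w X nX : ℕ} {E : List (ℕ × Bool)} (h : RRefX m w E X nX)
    (hE : sub29 E = true) (hx : ExtS X nX) : S2 m w := by
  have hmem : ∀ p ∈ E, ∃ e ∈ L29, litM e = p := fun p hp =>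
    List.mem_map.1 (List.contains_iff_mem.1 (List.all_eq_true.1 hE p hp))
  constructor
  · intro M hb hM hx0 hs
    obtain ⟨h63, hS, hMod⟩ := chart_facts hb hM
    refine h _ _ (rmodel_of_model hMod) h63 hS (satC_iff.2 hs) (fun p hp => ?_)
      (hx.1 M hb hM hx0)
    obtain ⟨e, he, rfl⟩ := hmem p hp
    have h1 := l29_cases e he
    exact lit_of_sgn' hb h63 h1.1 h1.2.1 (sx_sgn hx0 e he)
  · intro M hb hM hx0 hs
    obtain ⟨h63, hS, hMod⟩ := chart_facts hb hM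
    refine h _ _ (rmodel_flX hMod hS) (by rw [flX_63, h63]) (simp_flX hS)
      (satC_flX.2 (satC_iff.2 hs)) (fun p hp => ?_) (hx.2 M hb hM hx0)
    obtain ⟨e, he, rfl⟩ := hmem p hp
    have h1 := l29_cases e he
    exact lit_of_sgn_flX' hb h63 h1.1 h1.2.1 (sxn_sgn hx0 e he)

/-- **A pattern refuted in the sorted frame.** -/
theorem s2_of_rrefX {m w : ℕ} {E : List (ℕ × Bool)} (h : RRefX m w E 0 0)
    (hE : sub29 E = true) : S2 m w := s2_of_rrefX_ext h hE (extS_zero 0)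

/-- One sided, from a refutation of configurations. -/
theorem sGood_of_sref {m w : ℕ} {E : List (ℕ × Bool)} (h : SRef m w E)
    (hE : sub29 E = true) : SGood m w := by
  intro M hb hM hx hs
  obtain ⟨h63, hS, hMod⟩ := chart_facts hb hM
  refine h M hb hM (satC_iff.2 hs) fun p hp => ?_
  obtain ⟨e, he, rfl⟩ := List.mem_map.1 (List.contains_iff_mem.1 (List.all_eq_true.1 hE p hp))
  have h1 := l29_cases e he
  exact lit_of_sgn' hb h63 h1.1 h1.2.1 (sx_sgn hx e he)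

/-! ### The symmetries of the sorted frame -/

def revR : Equiv.Perm (Fin 6) where
  toFun := ![1, 0, 5, 4, 3, 2]
  invFun := ![1, 0, 5, 4, 3, 2]
  left_inv := by decide
  right_inv := by decide

theorem od_rev : ∀ a b : Fin 6, od a < od b → od (revR b) < od (revR a) := by decide
theorem rev_lt : ∀ c d : Fin 6, c < d → Fin.revPerm d < Fin.revPerm c := by decide

theorem revR0 : revR 0 = 1 := rfl
theorem revR1 : revR 1 = 0 := rfl
theorem revP0 : Fin.revPerm (0 : Fin 6) = 5 := rfl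
theorem revP5 : Fin.revPerm (5 : Fin 6) = 0 := rfl

theorem sx_rev {M : Fin 6 → Fin 6 → ℝ} (h : SX M) : SX fun a c => M (revR a) (Fin.revPerm c) := by
  refine ⟨fun c d hcd => ?_, fun a b hab => ?_, ?_⟩
  · have h1 := h.1 _ _ (rev_lt c d hcd)
    simp only [mn, revR0, revR1] at h1 ⊢
    linarith
  · have h1 := h.2.1 _ _ (od_rev a b hab)
    simp only [mn, revP0, revP5] at h1 ⊢
    linarith
  · exact mxat_perm revR Fin.revPerm (by rw [revR0, revR1, revP0, revP5]; exact mxat_comm h.2.2)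

theorem sxn_revR {M : Fin 6 → Fin 6 → ℝ} (h : SX M) : SXN fun a c => M (revR a) c := by
  refine ⟨fun c d hcd => ?_, fun a b hab => ?_, ?_⟩
  · have h1 := h.1 _ _ hcd
    simp only [mn, revR0, revR1] at h1 ⊢
    linarith
  · have h1 := h.2.1 _ _ (od_rev a b hab)
    simp only [mn] at h1 ⊢
    linarith
  · exact mxat_perm revR 1 (by rw [revR0, revR1]; exact h.2.2)

theorem sxn_revC {M : Fin 6 → Fin 6 → ℝ} (h : SX M) : SXN fun a c => M a (Fin.revPerm c) := by
  refine ⟨fun c d hcd => ?_, fun a b hab => ?_, ?_⟩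
  · have h1 := h.1 _ _ (rev_lt c d hcd)
    simp only [mn] at h1 ⊢
    linarith
  · have h1 := h.2.1 _ _ hab
    simp only [mn, revP0, revP5] at h1 ⊢
    linarith
  · exact mxat_perm 1 Fin.revPerm (by rw [revP0, revP5]; exact mxat_comm h.2.2)

/-! ### Excluded cubes -/

/-- No bad configuration in the sorted frame of the chart of maximal rank agrees with `Y` on the
bits `Ym`. -/
def Ex (R : St36 → ℕ) (Ym Y : ℕ) : Prop := ∀ M : Fin 6 → Fin 6 → ℝ, Bad (cf M) →
  (∀ i c, 0 < M i c) → SX M → MaxOf R (R (stt M)) → ¬ Agr (stt M) Ym Y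

variable {R : St36 → ℕ}

theorem sat_of_agr' {s : St36} {m w : ℕ} (h : Agr s m w) : Pool.Agent.H77.Z12.Sat m w s := by
  constructor
  · intro k j hkj
    rw [agr_tb h, enc_tb, hkj, Bool.and_true]
  · intro h36
    rw [agr_tb h, enc_tb36, h36, Bool.and_true]

/-- Excluded in the sorted frame if the chart has maximal rank. -/
def CS (R : St36 → ℕ) (m w : ℕ) : Prop := ∀ s : St36, Pool.Agent.H77.Z12.Sat m w s →
  MaxOf R (R s) → SGood m w

theorem cs_of_sGood {m w : ℕ} (h : SGood m w) : CS R m w := fun _ _ _ => h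

theorem cs_of_maxK {F G m w r : ℕ} (hF : monoT F = true) (hG : monoT G = true)
    (hr : Nat.ble (NR F G (hiN m w)) r = true) (h : MaxK F G r → SGood m w) :
    CS (RR F G) m w := fun s hs hmax => h (hmax.mono
      (le_trans (rk_bounds hF hG hs).2 (Nat.le_of_ble_eq_true hr)))

theorem ex_of_cs {m w : ℕ} (h : CS R m w) : Ex R m w := fun M hb hM hx hr ha =>
  h _ (sat_of_agr' ha) hr M hb hM hx (sat_of_agr' ha)

/-- The split of a cube. -/
theorem ex_split {Xm X v : ℕ} (h0 : Ex R (Xm ||| 1 <<< v) X)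
    (h1 : Ex R (Xm ||| 1 <<< v) (X ||| 1 <<< v)) : Ex R Xm X := by
  intro M hb hM hx hr ha
  have ha' : enc (stt M) &&& Xm = X := ha
  have e : (1 : ℕ) <<< v = 2 ^ v := by rw [Nat.shiftLeft_eq, one_mul]
  rcases hv : (enc (stt M)).testBit v with _ | _
  · refine h0 M hb hM hx hr ?_
    show enc (stt M) &&& (Xm ||| 1 <<< v) = X
    rw [Nat.and_or_distrib_left, ha', e]
    apply Nat.eq_of_testBit_eq
    intro i
    rw [Nat.testBit_or, Nat.testBit_and, Nat.testBit_two_pow]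
    by_cases hi : v = i
    · subst hi
      rw [hv, Bool.false_and, Bool.or_false]
    · rw [decide_eq_false hi, Bool.and_false, Bool.or_false]
  · refine h1 M hb hM hx hr ?_
    show enc (stt M) &&& (Xm ||| 1 <<< v) = X ||| 1 <<< v
    rw [Nat.and_or_distrib_left, ha', e]
    congr 1
    apply Nat.eq_of_testBit_eq
    intro i
    rw [Nat.testBit_and, Nat.testBit_two_pow]
    by_cases hi : v = i
    · subst hi
      rw [hv, Bool.true_and]
    · rw [decide_eq_false hi, Bool.and_false]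

/-- A cube inside an excluded cube. -/
theorem ex_of_hit {g Xm X : ℕ} (h : hitG g Xm X = true) (hg : Ex R (gM g) (gV g)) :
    Ex R Xm X := by
  intro M hb hM hx hr ha
  refine hg M hb hM hx hr ?_
  rw [hitG, band_iff, beq_iff, beq_iff] at h
  have h1 : Xm &&& gM g = gM g := h.1
  have h2 : X &&& gM g = gV g := h.2
  have ha' : enc (stt M) &&& Xm = X := ha
  show enc (stt M) &&& gM g = gV g
  rw [← h2, ← ha', Nat.and_assoc, h1]

/-- A cube inside an image of a pattern excluded everywhere. -/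
theorem ex_of_cg (hR : ∀ (ρ γ : Equiv.Perm (Fin 6)) (s : St36), R (actS ρ γ s) = R s)
    {g Xm X p q : ℕ} (hg : CG R (gM g) (gV g)) (hp : p < 720) (hq : q < 720)
    (h36 : Xm.testBit 36 = true)
    (h : hitG g (act p q Xm ||| 2 ^ 36)
      (act p q X ||| ((X.testBit 36).toNat ^^^ (pr p ^^^ pr q)) <<< 36) = true) :
    Ex R Xm X := by
  intro M hb hM hx hr ha
  have h1 := sat_of_agr (agr_act hp hq ha h36) h
  exact (hg _ h1 (by rw [hR]; exact hr)).act hb hM _ _ h1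

/-- The images of the patterns of the sorted frame. -/
theorem ex_rev (hR : ∀ (ρ γ : Equiv.Perm (Fin 6)) (s : St36), R (actS ρ γ s) = R s)
    {a b m w : ℕ} (h : CS R a b) (hs : ∀ s : St36, Pool.Agent.H77.Z12.Sat m w s →
      Pool.Agent.H77.Z12.Sat a b (actS revR Fin.revPerm s)) : Ex R m w := by
  intro M hb hM hx hr ha
  have h1 := hs _ (sat_of_agr' ha)
  have h2 := h _ h1 (by rw [hR]; exact hr)
  rw [← stt_perm hb] at h1
  exact h2 _ (bad_perm hb _ _) (fun i c => hM _ _) (sx_rev hx) h1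

theorem ex_revR {a b m w : ℕ} (h : SGoodN a b)
    (hs : ∀ s : St36, Pool.Agent.H77.Z12.Sat m w s →
      Pool.Agent.H77.Z12.Sat a b (actS revR 1 s)) : Ex R m w := by
  intro M hb hM hx hr ha
  have h1 := hs _ (sat_of_agr' ha)
  rw [← stt_perm hb] at h1
  exact h _ (bad_perm hb _ _) (fun i c => hM _ _) (sxn_revR hx) h1

theorem ex_revC {a b m w : ℕ} (h : SGoodN a b)
    (hs : ∀ s : St36, Pool.Agent.H77.Z12.Sat m w s →
      Pool.Agent.H77.Z12.Sat a b (actS 1 Fin.revPerm s)) : Ex R m w := by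
  intro M hb hM hx hr ha
  have h1 := hs _ (sat_of_agr' ha)
  rw [← stt_perm hb] at h1
  exact h _ (bad_perm hb _ _) (fun i c => hM _ _) (sxn_revC hx) h1

/-- The images of the patterns excluded at the largest cross ratio. -/
theorem ex_pos (hR : ∀ (ρ γ : Equiv.Perm (Fin 6)) (s : St36), R (actS ρ γ s) = R s)
    {a b m w p q : ℕ} (h : CP R a b)
    (hf : (permOf p 0 = 0 ∧ permOf p 1 = 1 ∧ permOf q 0 = 0 ∧ permOf q 5 = 5) ∨
      (permOf p 0 = 1 ∧ permOf p 1 = 0 ∧ permOf q 0 = 5 ∧ permOf q 5 = 0))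
    (hs : ∀ s : St36, Pool.Agent.H77.Z12.Sat m w s →
      Pool.Agent.H77.Z12.Sat a b (actS (permOf p) (permOf q) s)) : Ex R m w := by
  intro M hb hM hx hr ha
  have h1 := hs _ (sat_of_agr' ha)
  have h2 := h _ h1 (by rw [hR]; exact hr)
  rw [← stt_perm hb] at h1
  refine h2 _ (bad_perm hb _ _) (fun i c => hM _ _) (mxat_perm _ _ ?_) h1
  rcases hf with ⟨e1, e2, e3, e4⟩ | ⟨e1, e2, e3, e4⟩
  · rw [e1, e2, e3, e4]
    exact hx.2.2
  · rw [e1, e2, e3, e4]
    exact mxat_comm hx.2.2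

theorem ex_posN (hR : ∀ (ρ γ : Equiv.Perm (Fin 6)) (s : St36), R (actS ρ γ s) = R s)
    {a b m w p q : ℕ} (h : CPN R a b)
    (hf : (permOf p 0 = 1 ∧ permOf p 1 = 0 ∧ permOf q 0 = 0 ∧ permOf q 5 = 5) ∨
      (permOf p 0 = 0 ∧ permOf p 1 = 1 ∧ permOf q 0 = 5 ∧ permOf q 5 = 0))
    (hs : ∀ s : St36, Pool.Agent.H77.Z12.Sat m w s →
      Pool.Agent.H77.Z12.Sat a b (actS (permOf p) (permOf q) s)) : Ex R m w := by
  intro M hb hM hx hr ha
  have h1 := hs _ (sat_of_agr' ha)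
  have h2 := h _ h1 (by rw [hR]; exact hr)
  rw [← stt_perm hb] at h1
  refine h2 _ (bad_perm hb _ _) (fun i c => hM _ _) (mxat_perm _ _ ?_) h1
  rcases hf with ⟨e1, e2, e3, e4⟩ | ⟨e1, e2, e3, e4⟩
  · rw [e1, e2, e3, e4]
    exact hx.2.2
  · rw [e1, e2, e3, e4]
    exact mxat_comm hx.2.2

/-- The permutations as numbers. -/
theorem perm0 : permOf 0 = 1 := by
  have h : ∀ j : Fin 6, dgt 0 j = j := by decide +kernel
  ext j
  rw [permOf_val (by norm_num), h]
  rfl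

theorem perm385 : permOf 385 = revR := by
  have h : ∀ j : Fin 6, dgt 385 j = (revR j : Fin 6) := by decide +kernel
  ext j
  rw [permOf_val (by norm_num), h]

theorem perm678 : permOf 678 = Fin.revPerm := by
  have h : ∀ j : Fin 6, dgt 678 j = (Fin.revPerm j : Fin 6) := by decide +kernel
  ext j
  rw [permOf_val (by norm_num), h]

/-- **No bad configuration if the whole space is excluded.** -/
theorem not_bad_of_ex (hR : ∀ (ρ γ : Equiv.Perm (Fin 6)) (s : St36), R (actS ρ γ s) = R s)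
    (hN : ∃ N, ∀ s, R s < N) (h : Ex R 0 0) (v : Fin 12 → Fin 6 → ℝ) : ¬ Bad v := by
  intro hv
  obtain ⟨M, hb, hM, hmax⟩ := exists_max_chart hN hv
  obtain ⟨ρ, γ, hx⟩ := exists_sx hM hb
  refine h _ (bad_perm hb ρ γ) (fun i c => hM _ _) hx ?_ (Nat.and_zero _)
  rw [stt_perm hb, hR]
  exact hmax

theorem not_bad_of_ex_rr {F G : ℕ} (h : Ex (RR F G) 0 0) (v : Fin 12 → Fin 6 → ℝ) : ¬ Bad v :=
  not_bad_of_ex (rr_act F G) ⟨_, rr_lt F G⟩ h v

end Pool.Agent.H28.Z12
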