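import Mathlib
import Pool.Agent.H28.Z12.SFr
import Pool.Agent.H28.Z12.STreeDefs

/-!
Soundness of the kernel evaluation of decision trees (MP_1e71f9_co).
-/

set_option autoImplicit false

namespace Pool.Agent.H28.Z12

open Pool.Agent.H77.Z12 Pool.Agent.H13.Z12 Pool.Agent.H64.Z12 Pool.Agent.H28.Z12.Cov
open Pool.Agent.H26.Z12

theorem fc_eq (x : ℕ) (f : ℕ → ℕ) : fc x f = f x := by
  cases x <;> rfl

theorem ifT_ne {b : Bool} {s : ℕ} (h : ifT b s ≠ 0) : b = true := by
  cases b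
  · exact absurd rfl h
  · rfl

variable {R : St36 → ℕ}

/-- The tables of a tree. -/
structure TQ (R : St36 → ℕ) (Q : ℕ → ℕ) (nQ : ℕ) (G : ℕ → ℕ) (nG : ℕ) : Prop where
  hR : ∀ (ρ γ : Equiv.Perm (Fin 6)) (s : St36), R (actS ρ γ s) = R s
  q : ∀ i < nQ, Ex R (gM (Q i)) (gV (Q i))
  g : ∀ i < nG, CG R (gM (G i)) (gV (G i))

theorem lgP_spec {Q G : ℕ → ℕ} {nQ nG Xm X p q i : ℕ} (hT : TQ R Q nQ G nG) (hX : X < 2 ^ 40)
    (h : lgP G nG Xm X p q i = true) : Ex R Xm X := by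
  rw [lgP, band_iff, band_iff, band_iff, band_iff, ble_iff, ble_iff, ble_iff] at h
  obtain ⟨⟨⟨hp, hq⟩, hi, h36⟩, h⟩ := h
  have hp' : p < 720 := hp
  have hq' : q < 720 := hq
  rw [beq_iff] at h36
  have h36' : Xm.testBit 36 = true := by
    have e : Xm.testBit 36 = (Xm >>> 36).testBit 0 := by rw [Nat.testBit_shiftRight, Nat.add_zero]
    have e2 : (Xm >>> 36) &&& 1 = 1 := h36
    rw [Nat.and_one_is_mod] at e2
    rw [e, Nat.testBit_zero, e2]
    rfl
  rw [act2_eq hq' hX, lgZ, ymOf_eq, yOf_eq] at h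
  exact ex_of_cg hT.hR (hT.g i hi) hp' hq' h36' h

theorem leafT_spec {Q G : ℕ → ℕ} {nQ nG s Xm X : ℕ} (hT : TQ R Q nQ G nG) (hX : X < 2 ^ 40)
    (h : leafT Q nQ G nG s Xm X ≠ 0) : Ex R Xm X := by
  unfold leafT at h
  rcases hb : Nat.beq (Nat.land s (nat_lit 63)) (nat_lit 63) with _ | _
  · rw [hb] at h
    have h1 := ifT_ne h
    rw [band_iff] at h1
    exact lgP_spec hT hX h1.2
  · rw [hb] at h
    have h1 := ifT_ne h
    rw [band_iff, ble_iff] at h1
    exact ex_of_hit h1.2 (hT.q _ h1.1)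

theorem trT_spec {Q G : ℕ → ℕ} {nQ nG : ℕ} (hT : TQ R Q nQ G nG) :
    ∀ (n s Xm X : ℕ), X < 2 ^ 40 → trT Q nQ G nG n s Xm X ≠ 0 → Ex R Xm X
  | 0, _, _, _, _, h => absurd rfl h
  | n + 1, s, Xm, X, hX, h => by
    have h' : @Bool.rec (fun _ => Nat) (leafT Q nQ G nG s Xm X)
      (splT (trT Q nQ G nG n) (Nat.land s 63) (Nat.shiftRight s 6) Xm X)
      (Nat.ble (Nat.land s 63) 36) ≠ 0 := h
    rcases hb : Nat.ble (Nat.land s 63) 36 with _ | _
    · rw [hb] at h'
      exact leafT_spec hT hX h'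
    · rw [hb] at h'
      change splT (trT Q nQ G nG n) (Nat.land s 63) (Nat.shiftRight s 6) Xm X ≠ 0 at h'
      have hv : Nat.land s 63 ≤ 36 := Nat.le_of_ble_eq_true hb
      revert h' hv
      generalize Nat.land s 63 = v
      generalize Nat.shiftRight s 6 = s'
      intro h' hv
      rw [splT, fc_eq, fc_eq] at h'
      have e0 : Nat.lor Xm (Nat.shiftLeft 1 v) = Xm ||| 1 <<< v := rfl
      have e1 : Nat.lor X (Nat.shiftLeft 1 v) = X ||| 1 <<< v := rfl
      rcases hz : Nat.beq (trT Q nQ G nG n s' (Nat.lor Xm (Nat.shiftLeft (nat_lit 1) v)) X)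
        (nat_lit 0) with _ | _
      · rw [hz] at h'
        change fc _ _ ≠ 0 at h'
        rw [fc_eq] at h'
        have hX' : X ||| 1 <<< v < 2 ^ 40 := by
          refine Nat.or_lt_two_pow hX ?_
          rw [Nat.shiftLeft_eq, one_mul]
          exact Nat.pow_lt_pow_right (by norm_num) (by omega)
        have hne : trT Q nQ G nG n s' (Xm ||| 1 <<< v) X ≠ 0 := by
          intro h0
          have : Nat.beq (trT Q nQ G nG n s' (Nat.lor Xm (Nat.shiftLeft 1 v)) X) 0 = true := by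
            rw [e0, h0]
            rfl
          rw [this] at hz
          exact Bool.noConfusion hz
        exact ex_split (trT_spec hT n _ _ _ hX hne) (trT_spec hT n _ _ _ hX' h')
      · rw [hz] at h'
        exact absurd rfl h'

theorem gV_lt (g : ℕ) : gV g < 2 ^ 40 := by
  have e : gV g = (g >>> 37) &&& 137438953471 := rfl
  rw [e]
  exact lt_of_le_of_lt Nat.and_le_right (by norm_num)

theorem trC_spec {Q G : ℕ → ℕ} {nQ nG s g : ℕ} (hT : TQ R Q nQ G nG)
    (h : trC Q nQ G nG s g ≠ 0) : Ex R (gM g) (gV g) := by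
  rw [trC, fc_eq, fc_eq] at h
  exact trT_spec hT _ _ _ _ (gV_lt g) h

/-- **The cubes of a range are excluded.** -/
theorem trM_spec {Q G T : ℕ → ℕ} {nQ nG a O S : ℕ} (hT : TQ R Q nQ G nG) :
    ∀ {n : ℕ}, trM Q nQ G nG T a O S n = true → ∀ k < n, Ex R (gM (T (a + k))) (gV (T (a + k)))
  | 0, _, k, hk => absurd hk (Nat.not_lt_zero k)
  | n + 1, h, k, hk => by
    have h' : band (trM Q nQ G nG T a O S n) (Nat.ble 1
      (fc (Nat.land (Nat.shiftRight S (ofs O n))
        (Nat.sub (Nat.shiftLeft 1 (Nat.sub (ofs O (Nat.succ n)) (ofs O n))) 1)) fun s =>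
      fc (T (Nat.add a n)) fun g => trC Q nQ G nG s g)) = true := h
    rw [band_iff] at h'
    rcases Nat.lt_succ_iff_lt_or_eq.1 hk with hk | rfl
    · exact trM_spec hT h'.1 k hk
    · have h2 := h'.2
      rw [fc_eq, fc_eq, ble_iff] at h2
      exact trC_spec hT (Nat.pos_iff_ne_zero.1 h2)

/-- A range of cubes. -/
theorem trM_use {Q G T : ℕ → ℕ} {nQ nG a O S n b : ℕ} (hT : TQ R Q nQ G nG)
    (h : trM Q nQ G nG T a O S n = true) (hb : a + n = b) {i : ℕ} (ha : a ≤ i) (hi : i < b) :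
    Ex R (gM (T i)) (gV (T i)) := by
  have h2 := trM_spec hT h (i - a) (by omega)
  have e : a + (i - a) = i := by omega
  rwa [e] at h2

/-- All entries below `n` are excluded. -/
def HQ (R : St36 → ℕ) (Q : ℕ → ℕ) (n : ℕ) : Prop := ∀ i < n, Ex R (gM (Q i)) (gV (Q i))

/-- **Entries by trees over earlier entries.** -/
theorem trR_spec {Q G : ℕ → ℕ} {nG b O S : ℕ}
    (hR : ∀ (ρ γ : Equiv.Perm (Fin 6)) (s : St36), R (actS ρ γ s) = R s)
    (hG : ∀ i < nG, CG R (gM (G i)) (gV (G i))) (hb : HQ R Q b) :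
    ∀ {n : ℕ}, trR Q G nG b O S n = true → HQ R Q (b + n)
  | 0, _ => hb
  | n + 1, h => by
    have h' : band (trR Q G nG b O S n) (Nat.ble 1
      (fc (Nat.land (Nat.shiftRight S (ofs O n))
        (Nat.sub (Nat.shiftLeft 1 (Nat.sub (ofs O (Nat.succ n)) (ofs O n))) 1)) fun s =>
      fc (Q (Nat.add b n)) fun g => trC Q (Nat.add b n) G nG s g)) = true := h
    rw [band_iff] at h'
    have ih := trR_spec hR hG hb h'.1
    intro i hi
    rcases Nat.lt_succ_iff_lt_or_eq.1 (show i < (b + n) + 1 from hi) with hi | rfl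
    · exact ih i hi
    · have h2 := h'.2
      rw [fc_eq, fc_eq, ble_iff] at h2
      exact trC_spec (nQ := b + n) ⟨hR, ih, hG⟩ (Nat.pos_iff_ne_zero.1 h2)

theorem HQ.ex_zero {Q : ℕ → ℕ} {n i : ℕ} (h : HQ R Q n) (hi : i < n) (h0 : Q i = 0) :
    Ex R 0 0 := by
  have := h i hi
  rw [h0] at this
  exact this

/-! ### The images of the patterns -/

theorem land1 (x : ℕ) : Nat.land x 1 = 0 ∨ Nat.land x 1 = 1 := by
  have : Nat.land x 1 = x &&& 1 := rfl
  rw [this, Nat.and_one_is_mod]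
  omega

theorem code_split (c : ℕ) : Nat.land c 2097151 = Nat.land c 1023 +
    1024 * Nat.land (Nat.shiftRight c 10) 1023 +
    1048576 * Nat.land (Nat.shiftRight c 20) 1 := by
  have e0 : Nat.land c 2097151 = c % 2 ^ 21 := by
    have : Nat.land c 2097151 = c &&& (2 ^ 21 - 1) := rfl
    rw [this, Nat.and_two_pow_sub_one_eq_mod]
  have e1 : Nat.land c 1023 = c % 2 ^ 10 := by
    have : Nat.land c 1023 = c &&& (2 ^ 10 - 1) := rfl
    rw [this, Nat.and_two_pow_sub_one_eq_mod]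
  have e2 : Nat.land (Nat.shiftRight c 10) 1023 = (c / 2 ^ 10) % 2 ^ 10 := by
    have : Nat.land (Nat.shiftRight c 10) 1023 = (c >>> 10) &&& (2 ^ 10 - 1) := rfl
    rw [this, Nat.and_two_pow_sub_one_eq_mod, Nat.shiftRight_eq_div_pow]
  have e3 : Nat.land (Nat.shiftRight c 20) 1 = (c / 2 ^ 20) % 2 := by
    have : Nat.land (Nat.shiftRight c 20) 1 = (c >>> 20) &&& 1 := rfl
    rw [this, Nat.and_one_is_mod, Nat.shiftRight_eq_div_pow]
  rw [e0, e1, e2, e3]
  omega

theorem grp4_spec {c : ℕ} (h : grp4 (Nat.land c 2097151) = true) :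
    (Nat.land (Nat.shiftRight c 20) 1 = 0 ∧ Nat.land c 1023 = 0 ∧
      Nat.land (Nat.shiftRight c 10) 1023 = 0) ∨
    (Nat.land (Nat.shiftRight c 20) 1 = 0 ∧ Nat.land c 1023 = 385 ∧
      Nat.land (Nat.shiftRight c 10) 1023 = 678) ∨
    (Nat.land (Nat.shiftRight c 20) 1 = 1 ∧ Nat.land c 1023 = 385 ∧
      Nat.land (Nat.shiftRight c 10) 1023 = 0) ∨
    (Nat.land (Nat.shiftRight c 20) 1 = 1 ∧ Nat.land c 1023 = 0 ∧
      Nat.land (Nat.shiftRight c 10) 1023 = 678) := by
  have hs := code_split c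
  have l1 : Nat.land c 1023 < 1024 := by
    have : Nat.land c 1023 = c &&& 1023 := rfl
    rw [this]
    exact lt_of_le_of_lt Nat.and_le_right (by norm_num)
  have l2 : Nat.land (Nat.shiftRight c 10) 1023 < 1024 := by
    have : Nat.land (Nat.shiftRight c 10) 1023 = (c >>> 10) &&& 1023 := rfl
    rw [this]
    exact lt_of_le_of_lt Nat.and_le_right (by norm_num)
  have l3 := land1 (Nat.shiftRight c 20)
  have hz : Nat.land c 2097151 = 0 ∨ Nat.land c 2097151 = 694657 ∨
      Nat.land c 2097151 = 1048961 ∨ Nat.land c 2097151 = 1742848 := by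
    revert h
    generalize Nat.land c 2097151 = z
    intro h
    have h' : (@Bool.rec (fun _ => Bool) (@Bool.rec (fun _ => Bool) (@Bool.rec (fun _ => Bool)
      (Nat.beq z 1742848) true (Nat.beq z 1048961)) true (Nat.beq z 694657))
      true (Nat.beq z 0)) = true := h
    rcases h0 : Nat.beq z 0 with _ | _
    · rw [h0] at h'
      rcases h1 : Nat.beq z 694657 with _ | _
      · rw [h1] at h'
        rcases h2 : Nat.beq z 1048961 with _ | _
        · rw [h2] at h'
          exact Or.inr (Or.inr (Or.inr (Nat.eq_of_beq_eq_true h')))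
        · exact Or.inr (Or.inr (Or.inl (Nat.eq_of_beq_eq_true h2)))
      · exact Or.inr (Or.inl (Nat.eq_of_beq_eq_true h1))
    · exact Or.inl (Nat.eq_of_beq_eq_true h0)
  omega

theorem bit36_of_beq {m : ℕ} (h : Nat.land (Nat.shiftRight m 36) 1 = 1) :
    m.testBit 36 = true := by
  have e1 : m.testBit 36 = (m >>> 36).testBit 0 := by
    rw [Nat.testBit_shiftRight, Nat.add_zero]
  have e2 : (m >>> 36) &&& 1 = 1 := h
  rw [Nat.and_one_is_mod] at e2
  rw [e1, Nat.testBit_zero, e2]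
  rfl

theorem xor_mul_zero (x y : ℕ) : Nat.xor x (Nat.mul 0 y) = x := by
  have : Nat.mul 0 y = 0 := Nat.zero_mul y
  rw [this]
  exact Nat.xor_zero x

theorem xor_mul_one (x y : ℕ) : Nat.xor x (Nat.mul 1 y) = x ^^^ y := by
  have : Nat.mul 1 y = y := Nat.one_mul y
  rw [this]
  rfl

theorem imG_spec (hR : ∀ (ρ γ : Equiv.Perm (Fin 6)) (s : St36), R (actS ρ γ s) = R s)
    {P nP c gm gv : ℕ} (hP : ∀ i < nP, S2 (ngM P i) (ngV P i)) (h : imG P nP c gm gv = true) :
    Ex R gm gv := by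
  rw [imG, band_iff, band_iff, band_iff, ble_iff, beq_iff] at h
  obtain ⟨⟨hi, hg, h36⟩, him⟩ := h
  have h36' := bit36_of_beq h36
  have hS := hP _ hi
  rcases grp4_spec hg with ⟨e0, e1, e2⟩ | ⟨e0, e1, e2⟩ | ⟨e0, e1, e2⟩ | ⟨e0, e1, e2⟩
  · rw [e0, e1, e2, xor_mul_zero] at him
    refine ex_of_cs (cs_of_sGood ?_)
    intro M hb hM hx hs
    have h1 := img_spec him _ h36' hs
    rw [perm0, act_one] at h1
    exact hS.1 M hb hM hx h1
  · rw [e0, e1, e2, xor_mul_zero] at him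
    refine ex_rev hR (cs_of_sGood hS.1) fun s hs => ?_
    have h1 := img_spec him _ h36' hs
    rw [perm385, perm678] at h1
    exact h1
  · rw [e0, e1, e2, xor_mul_one] at him
    refine ex_revR hS.2 fun s hs => ?_
    have h1 := img_spec him _ h36' hs
    rw [perm385, perm0] at h1
    exact h1
  · rw [e0, e1, e2, xor_mul_one] at him
    refine ex_revC hS.2 fun s hs => ?_
    have h1 := img_spec him _ h36' hs
    rw [perm678, perm0] at h1
    exact h1

/-- **Entries which are images of the patterns of `P`.** -/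
theorem imB_spec (hR : ∀ (ρ γ : Equiv.Perm (Fin 6)) (s : St36), R (actS ρ γ s) = R s)
    {P nP : ℕ} {Q : ℕ → ℕ} {b C : ℕ} (hP : ∀ i < nP, S2 (ngM P i) (ngV P i)) (hb : HQ R Q b) :
    ∀ {n : ℕ}, imB P nP Q b C n = true → HQ R Q (b + n)
  | 0, _ => hb
  | n + 1, h => by
    have h' : band (imB P nP Q b C n)
      (imG P nP (cE C n) (gM (Q (Nat.add b n))) (gV (Q (Nat.add b n)))) = true := h
    rw [band_iff] at h'
    have ih := imB_spec hR hP hb h'.1
    intro i hi
    rcases Nat.lt_succ_iff_lt_or_eq.1 (show i < (b + n) + 1 from hi) with hi | rfl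
    · exact ih i hi
    · exact imG_spec hR hP h'.2

theorem imH_spec (hR : ∀ (ρ γ : Equiv.Perm (Fin 6)) (s : St36), R (actS ρ γ s) = R s)
    {P nP c gm gv : ℕ} (hP : ∀ i < nP, CP2 R (ngM P i) (ngV P i)) (h : imH P nP c gm gv = true) :
    Ex R gm gv := by
  rw [imH, band_iff, band_iff, band_iff, ble_iff, beq_iff] at h
  obtain ⟨⟨hi, hg, h36⟩, him⟩ := h
  have h36' := bit36_of_beq h36
  have hS := hP _ hi
  have him0 := him
  rw [imgE, band_iff, band_iff, ble_iff, ble_iff] at him0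
  have hp : Nat.land c 1023 < 720 := him0.1.1
  have hq : Nat.land (Nat.shiftRight c 10) 1023 < 720 := him0.1.2
  rcases frE_spec hp hq (lt2 _) hg with ⟨e0, hf⟩ | ⟨e0, hf⟩
  · rw [e0, xor_mul_zero] at him
    exact ex_pos hR hS.1 hf fun s hs => img_spec him s h36' hs
  · rw [e0, xor_mul_one] at him
    exact ex_posN hR hS.2 hf fun s hs => img_spec him s h36' hs

/-- **Entries which are images of the patterns of `P`.** -/
theorem imC_spec (hR : ∀ (ρ γ : Equiv.Perm (Fin 6)) (s : St36), R (actS ρ γ s) = R s)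
    {P nP : ℕ} {Q : ℕ → ℕ} {b C : ℕ} (hP : ∀ i < nP, CP2 R (ngM P i) (ngV P i)) (hb : HQ R Q b) :
    ∀ {n : ℕ}, imC P nP Q b C n = true → HQ R Q (b + n)
  | 0, _ => hb
  | n + 1, h => by
    have h' : band (imC P nP Q b C n)
      (imH P nP (cE C n) (gM (Q (Nat.add b n))) (gV (Q (Nat.add b n)))) = true := h
    rw [band_iff] at h'
    have ih := imC_spec hR hP hb h'.1
    intro i hi
    rcases Nat.lt_succ_iff_lt_or_eq.1 (show i < (b + n) + 1 from hi) with hi | rfl
    · exact ih i hi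
    · exact imH_spec hR hP h'.2

theorem hQ_zero {Q : ℕ → ℕ} : HQ R Q 0 := fun i hi => absurd hi (Nat.not_lt_zero i)

end Pool.Agent.H28.Z12
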