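import Mathlib
import Pool.Agent.H28.Z12.STree
import Pool.Agent.H28.Z12.CondX
import Pool.Agent.H28.Z12.ZTreeDefs

/-!
A cover of the values of further signs below a pattern (MP_1e71f9_co).
-/

set_option autoImplicit false

namespace Pool.Agent.H28.Z12

open Pool.Agent.H77.Z12 Pool.Agent.H13.Z12 Pool.Agent.H64.Z12 Pool.Agent.H28.Z12.Cov
open Pool.Agent.H28.Z12.X

/-! ### Cubes of numbers -/

/-- No number with the property `F` agrees with `X` on the bits `Xm`. -/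
def XE (F : ℕ → Prop) (Xm X : ℕ) : Prop := ∀ x, F x → x &&& Xm ≠ X

variable {F : ℕ → Prop}

theorem xe_split {Xm X v : ℕ} (h0 : XE F (Xm ||| 1 <<< v) X)
    (h1 : XE F (Xm ||| 1 <<< v) (X ||| 1 <<< v)) : XE F Xm X := by
  intro x hx ha
  have e : (1 : ℕ) <<< v = 2 ^ v := by rw [Nat.shiftLeft_eq, one_mul]
  rcases hv : x.testBit v with _ | _
  · refine h0 x hx ?_
    rw [Nat.and_or_distrib_left, ha, e]
    apply Nat.eq_of_testBit_eq
    intro i
    rw [Nat.testBit_or, Nat.testBit_and, Nat.testBit_two_pow]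
    by_cases hi : v = i
    · subst hi
      rw [hv, Bool.false_and, Bool.or_false]
    · rw [decide_eq_false hi, Bool.and_false, Bool.or_false]
  · refine h1 x hx ?_
    rw [Nat.and_or_distrib_left, ha, e]
    congr 1
    apply Nat.eq_of_testBit_eq
    intro i
    rw [Nat.testBit_and, Nat.testBit_two_pow]
    by_cases hi : v = i
    · subst hi
      rw [hv, Bool.true_and]
    · rw [decide_eq_false hi, Bool.and_false]

theorem xe_of_hit {g Xm X : ℕ} (h : hitG g Xm X = true) (hg : XE F (gM g) (gV g)) :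
    XE F Xm X := by
  intro x hx ha
  refine hg x hx ?_
  rw [hitG, band_iff, beq_iff, beq_iff] at h
  have h1 : Xm &&& gM g = gM g := h.1
  have h2 : X &&& gM g = gV g := h.2
  rw [← h2, ← ha, Nat.and_assoc, h1]

theorem leafT_xe {Q G : ℕ → ℕ} {nQ s Xm X : ℕ} (hq : ∀ i < nQ, XE F (gM (Q i)) (gV (Q i)))
    (h : leafT Q nQ G 0 s Xm X ≠ 0) : XE F Xm X := by
  unfold leafT at h
  rcases hb : Nat.beq (Nat.land s (nat_lit 63)) (nat_lit 63) with _ | _
  · rw [hb] at h
    have h1 := ifT_ne h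
    rw [band_iff] at h1
    have h2 := h1.2
    rw [lgP, band_iff, band_iff, band_iff] at h2
    have h3 := h2.1.2
    rw [band_iff] at h3
    exact absurd ((ble_iff _ _).1 h3.1) (Nat.not_succ_le_zero _)
  · rw [hb] at h
    have h1 := ifT_ne h
    rw [band_iff, ble_iff] at h1
    exact xe_of_hit h1.2 (hq _ h1.1)

theorem trT_xe {Q G : ℕ → ℕ} {nQ : ℕ} (hq : ∀ i < nQ, XE F (gM (Q i)) (gV (Q i))) :
    ∀ (n s Xm X : ℕ), trT Q nQ G 0 n s Xm X ≠ 0 → XE F Xm X
  | 0, _, _, _, h => absurd rfl h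
  | n + 1, s, Xm, X, h => by
    have h' : @Bool.rec (fun _ => Nat) (leafT Q nQ G 0 s Xm X)
      (splT (trT Q nQ G 0 n) (Nat.land s 63) (Nat.shiftRight s 6) Xm X)
      (Nat.ble (Nat.land s 63) 36) ≠ 0 := h
    rcases hb : Nat.ble (Nat.land s 63) 36 with _ | _
    · rw [hb] at h'
      exact leafT_xe hq h'
    · rw [hb] at h'
      change splT (trT Q nQ G 0 n) (Nat.land s 63) (Nat.shiftRight s 6) Xm X ≠ 0 at h'
      revert h'
      generalize Nat.land s 63 = v
      generalize Nat.shiftRight s 6 = s'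
      intro h'
      rw [splT, fc_eq, fc_eq] at h'
      have e0 : Nat.lor Xm (Nat.shiftLeft 1 v) = Xm ||| 1 <<< v := rfl
      have e1 : Nat.lor X (Nat.shiftLeft 1 v) = X ||| 1 <<< v := rfl
      rcases hz : Nat.beq (trT Q nQ G 0 n s' (Nat.lor Xm (Nat.shiftLeft (nat_lit 1) v)) X)
        (nat_lit 0) with _ | _
      · rw [hz] at h'
        change fc _ _ ≠ 0 at h'
        rw [fc_eq] at h'
        have hne : trT Q nQ G 0 n s' (Xm ||| 1 <<< v) X ≠ 0 := by
          intro h0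
          have : Nat.beq (trT Q nQ G 0 n s' (Nat.lor Xm (Nat.shiftLeft 1 v)) X) 0 = true := by
            rw [e0, h0]
            rfl
          rw [this] at hz
          exact Bool.noConfusion hz
        exact xe_split (trT_xe hq n _ _ _ hne) (trT_xe hq n _ _ _ h')
      · rw [hz] at h'
        exact absurd rfl h'

/-- All entries below `n` are excluded. -/
def HG (F : ℕ → Prop) (Q : ℕ → ℕ) (n : ℕ) : Prop := ∀ i < n, XE F (gM (Q i)) (gV (Q i))

theorem hG_zero {Q : ℕ → ℕ} : HG F Q 0 := fun i hi => absurd hi (Nat.not_lt_zero i)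

/-- **Entries by trees over earlier entries.** -/
theorem trR_xe {Q G : ℕ → ℕ} {b O S : ℕ} (hb : HG F Q b) :
    ∀ {n : ℕ}, trR Q G 0 b O S n = true → HG F Q (b + n)
  | 0, _ => hb
  | n + 1, h => by
    have h' : band (trR Q G 0 b O S n) (Nat.ble 1
      (fc (Nat.land (Nat.shiftRight S (ofs O n))
        (Nat.sub (Nat.shiftLeft 1 (Nat.sub (ofs O (Nat.succ n)) (ofs O n))) 1)) fun s =>
      fc (Q (Nat.add b n)) fun g => trC Q (Nat.add b n) G 0 s g)) = true := h
    rw [band_iff] at h'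
    have ih := trR_xe hb h'.1
    intro i hi
    rcases Nat.lt_succ_iff_lt_or_eq.1 (show i < (b + n) + 1 from hi) with hi | rfl
    · exact ih i hi
    · have h2 := h'.2
      rw [fc_eq, fc_eq, ble_iff, trC, fc_eq, fc_eq] at h2
      exact trT_xe (nQ := b + n) ih _ _ _ _ (Nat.pos_iff_ne_zero.1 h2)

/-- **Entries of a table.** -/
theorem cpB_xe {P a b : ℕ} {Q : ℕ → ℕ} (hb : HG F Q b) :
    ∀ {n : ℕ}, (∀ i < n, XE F (ngM P (a + i)) (ngV P (a + i))) → cpB P a Q b n = true →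
      HG F Q (b + n)
  | 0, _, _ => hb
  | n + 1, hP, h => by
    have h' : band (cpB P a Q b n) (band (Nat.beq (gM (Q (Nat.add b n))) (ngM P (Nat.add a n)))
      (Nat.beq (gV (Q (Nat.add b n))) (ngV P (Nat.add a n)))) = true := h
    rw [band_iff, band_iff, beq_iff, beq_iff] at h'
    have ih := cpB_xe hb (fun i hi => hP i (by omega)) h'.1
    intro i hi
    rcases Nat.lt_succ_iff_lt_or_eq.1 (show i < (b + n) + 1 from hi) with hi | rfl
    · exact ih i hi
    · have e1 : gM (Q (b + n)) = ngM P (a + n) := h'.2.1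
      have e2 : gV (Q (b + n)) = ngV P (a + n) := h'.2.2
      rw [e1, e2]
      exact hP n (Nat.lt_succ_self n)

/-! ### Values of further signs -/

/-- The values of the variables of `Z` for the bits of `Xm`. -/
def zL (Z Xm X : ℕ) : List (ℕ × Bool) :=
  ((List.range 37).filter fun i => Xm.testBit i).map fun i => (zv Z i, X.testBit i)

/-- The numbers of the values of the variables of `Z`. -/
def FZ (H : (ℕ → Bool) → Prop) (Z : ℕ) (x : ℕ) : Prop :=
  ∃ χ : ℕ → Bool, H χ ∧ ∀ i < 37, x.testBit i = χ (zv Z i)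

theorem exists_fz {H : (ℕ → Bool) → Prop} (Z : ℕ) {χ : ℕ → Bool} (h : H χ) : ∃ x, FZ H Z x := by
  refine ⟨Nat.ofBits fun i : Fin 37 => χ (zv Z i), χ, h, fun i hi => ?_⟩
  rw [Nat.testBit_ofBits_lt _ _ hi]

theorem xe_fz {H : (ℕ → Bool) → Prop} {Z Xm X : ℕ}
    (h : ∀ χ, H χ → (∀ p ∈ zL Z Xm X, χ p.1 = p.2) → False) : XE (FZ H Z) Xm X := by
  rintro x ⟨χ, hχ, hx⟩ ha
  refine h χ hχ fun p hp => ?_
  rw [zL, List.mem_map] at hp
  obtain ⟨i, hi, rfl⟩ := hp
  rw [List.mem_filter, List.mem_range] at hi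
  show χ (zv Z i) = X.testBit i
  rw [← hx i hi.1, ← ha, Nat.testBit_and, hi.2, Bool.and_true]

theorem not_of_xe {H : (ℕ → Bool) → Prop} {Z : ℕ} (h : XE (FZ H Z) 0 0) (χ : ℕ → Bool) :
    ¬ H χ := fun hχ => by
  obtain ⟨x, hx⟩ := exists_fz Z hχ
  exact h x hx (Nat.and_zero x)

/-- The configurations with the pattern `m, w` and the signs `E`, model without the types `D`. -/
def HXR (D m w : ℕ) (E : List (ℕ × Bool)) (χ : ℕ → Bool) : Prop :=
  ∃ T, XModel D χ T ∧ χ 63 = true ∧ Simp χ 63 4095 ∧ SatC χ m w ∧ ∀ p ∈ E, χ p.1 = p.2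

/-- The same, all types. -/
def HRR (m w : ℕ) (E : List (ℕ × Bool)) (χ : ℕ → Bool) : Prop :=
  ∃ T, RModel χ T ∧ χ 63 = true ∧ Simp χ 63 4095 ∧ SatC χ m w ∧ ∀ p ∈ E, χ p.1 = p.2

theorem xe_of_xrefX {D m w Z Xm X : ℕ} {E E' : List (ℕ × Bool)} (h : XRefX D m w E' 0 0)
    (hE : ∀ p ∈ E', p ∈ zL Z Xm X ∨ p ∈ E) : XE (FZ (HXR D m w E) Z) Xm X := by
  refine xe_fz ?_
  rintro χ ⟨T, hM, h63, hS, hs, hE'⟩ hz
  refine h χ T hM h63 hS hs (fun p hp => ?_) fun e he => absurd he (Nat.not_lt_zero e)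
  rcases hE p hp with hp | hp
  · exact hz p hp
  · exact hE' p hp

theorem xe_of_rrefX {m w Z Xm X : ℕ} {E E' : List (ℕ × Bool)} (h : RRefX m w E' 0 0)
    (hE : ∀ p ∈ E', p ∈ zL Z Xm X ∨ p ∈ E) : XE (FZ (HRR m w E) Z) Xm X := by
  refine xe_fz ?_
  rintro χ ⟨T, hM, h63, hS, hs, hE'⟩ hz
  refine h χ T hM h63 hS hs (fun p hp => ?_) fun e he => absurd he (Nat.not_lt_zero e)
  rcases hE p hp with hp | hp
  · exact hz p hp
  · exact hE' p hp

/-- **The pattern is refuted if all values of the further signs are.** -/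
theorem xrefX_of_xe {D m w Z : ℕ} {E : List (ℕ × Bool)} (h : XE (FZ (HXR D m w E) Z) 0 0) :
    XRefX D m w E 0 0 := fun χ T hM h63 hS hs hE _ =>
  not_of_xe h χ ⟨T, hM, h63, hS, hs, hE⟩

theorem rrefX_of_xe {m w Z : ℕ} {E : List (ℕ × Bool)} (h : XE (FZ (HRR m w E) Z) 0 0) :
    RRefX m w E 0 0 := fun χ T hM h63 hS hs hE _ =>
  not_of_xe h χ ⟨T, hM, h63, hS, hs, hE⟩

theorem HG.zero {Q : ℕ → ℕ} {n i : ℕ} (h : HG F Q n) (hi : i < n) (h0 : Q i = 0) :
    XE F 0 0 := by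
  have := h i hi
  rw [h0] at this
  exact this

end Pool.Agent.H28.Z12
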