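import Pool.Agent.H28.Z12.Gen

/-!
Orthogonality of a circuit and a cocircuit (MP_1e71f9_co): clause masks. The clause of a 7-set `C`,
a 5-set `Z`, signs `t` and `e` has the literals of the circuit `C` and of the cocircuit with zero
set `Z` at the elements of `C` outside `Z`.
-/

set_option autoImplicit false

namespace Pool.Agent.H28.Z12

/-- Literals at the elements of `J`. -/
noncomputable def genOH (C Z t e J : Nat) : Nat :=
  Nat.lor (Nat.shiftLeft (ccH (spread J) (spread (Nat.land (Nat.xor t (ipM Z)) J))) Z)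
    (Nat.shiftRight (Nat.shiftLeft (ccH (rev J)
      (rev (Nat.land (Nat.xor (Nat.xor t (Nat.mul (nat_lit 4095) e)) (ipM C)) J))) C) (nat_lit 2048))

/-- Orthogonality clause: `C` a 7-set, `Z` a 5-set, `t` a sign vector, `e` a sign. -/
noncomputable def genO (C Z t e : Nat) : Nat :=
  grd (Nat.land (Nat.land (Nat.shiftRight T7 C) (nat_lit 1)) (Nat.land (Nat.shiftRight T5 Z) (nat_lit 1)))
    (genOH C Z t e (Nat.land C (Nat.xor (nat_lit 4095) Z)))

end Pool.Agent.H28.Z12
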