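import Mathlib
import Pool.Agent.H28.Z12.Base
import Pool.Agent.H28.Z12.OrthDefs
import Pool.Agent.H64.Z12.RModel

/-!
The orthogonality clauses are true (MP_1e71f9_co): a sign vector which agrees with a cocircuit and
with a circuit would be a cell and not a cell.
-/

set_option autoImplicit false

namespace Pool.Agent.H28.Z12

open Pool.Agent.H77.Z12 Pool.Agent.H64.Z12

variable {χ T : ℕ → Bool}

/-- **Orthogonality.** -/
theorem orth
    (hcc : ∀ A, pc A = 5 → ∀ (ε : Bool) (s : ℕ),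
      (∀ j < 12, A.testBit j = false → s.testBit j = xor (csm χ A j) ε) → T s = true)
    (hkc : ∀ A, pc A = 7 → ∀ (ε : Bool) (s : ℕ),
      (∀ j < 12, A.testBit j = true → s.testBit j = xor (ksm χ A j) ε) → T s = false)
    {C Z : ℕ} (hC : pc C = 7) (hZ : pc Z = 5) (ε : Bool)
    (h : ∀ j < 12, C.testBit j = true → Z.testBit j = false → csm χ Z j = xor (ksm χ C j) ε) :
    False := by
  let f : Fin 12 → Bool := fun j => if C.testBit j = true then xor (ksm χ C j) ε else csm χ Z j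
  have hs : ∀ (j : ℕ) (hj : j < 12), (Nat.ofBits f).testBit j = f ⟨j, hj⟩ := fun j hj =>
    Nat.testBit_ofBits_lt f j hj
  have h1 := hcc Z hZ false (Nat.ofBits f) (fun j hj hZj => by
    rw [hs j hj, Bool.xor_false]
    show (if C.testBit j = true then xor (ksm χ C j) ε else csm χ Z j) = csm χ Z j
    split_ifs with hCj
    · exact (h j hj hCj hZj).symm
    · rfl)
  have h2 := hkc C hC ε (Nat.ofBits f) (fun j hj hCj => by
    rw [hs j hj]
    show (if C.testBit j = true then xor (ksm χ C j) ε else csm χ Z j) = _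
    rw [if_pos hCj])
  rw [h1] at h2
  exact Bool.noConfusion h2

/-- The two literals at a position of the circuit part. -/
theorem rev_lit {C J U j : ℕ} (hC : C < 4096) (hJ : J < 4096) (hU : U < 4096) (hj : j < 12)
    (hCj : C.testBit j = true) (hJj : J.testBit j = true)
    (hcon : ¬ Sat χ T (Nat.shiftRight (Nat.shiftLeft (ccH (rev J) (rev U)) C) 2048)) :
    χ (C - 2 ^ j) = U.testBit j := by
  obtain ⟨hx, hle⟩ := xor_pow hC hj hCj
  have hp : C - 2 ^ j < 4096 := lt_of_le_of_lt (Nat.sub_le _ _) hC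
  have h2048 : 2 ^ j ≤ 2048 := by
    calc 2 ^ j ≤ 2 ^ 11 := Nat.pow_le_pow_right (by norm_num) (by omega)
      _ = 2048 := by norm_num
  have hSJ : (rev J).testBit (2048 - 2 ^ j) = true := by rw [rev_bit hJ hj, hJj]
  have hSU : (rev U).testBit (2048 - 2 ^ j) = U.testBit j := rev_bit hU hj
  rcases Bool.eq_false_or_eq_true (U.testBit j) with h | h
  · have hb : (Nat.shiftRight (Nat.shiftLeft (ccH (rev J) (rev U)) C) 2048).testBit
        (4096 + (C - 2 ^ j)) = true := by
      have e : 2048 + (4096 + (C - 2 ^ j)) = C + (4096 + (2048 - 2 ^ j)) := by omega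
      rw [testBit_shr, e, testBit_shl, ccH]
      change Nat.testBit ((_ ^^^ _) ||| (Nat.shiftLeft _ 4096)) _ = true
      rw [Nat.testBit_or, testBit_shl, hSU, h, Bool.or_true]
    have hl : lv χ T (4096 + (C - 2 ^ j)) = false := by
      by_contra hl
      rw [Bool.not_eq_false] at hl
      exact hcon ⟨_, hb, hl⟩
    rw [lv_neg hp] at hl
    rw [h]
    simpa using hl
  · have hb : (Nat.shiftRight (Nat.shiftLeft (ccH (rev J) (rev U)) C) 2048).testBit
        (C - 2 ^ j) = true := by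
      have e : 2048 + (C - 2 ^ j) = C + (2048 - 2 ^ j) := by omega
      rw [testBit_shr, e, testBit_shl, ccH]
      change Nat.testBit ((_ ^^^ _) ||| _) _ = true
      rw [Nat.testBit_or, Nat.testBit_xor, hSJ, hSU, h]
      rfl
    have hl : lv χ T (C - 2 ^ j) = false := by
      by_contra hl
      rw [Bool.not_eq_false] at hl
      exact hcon ⟨_, hb, hl⟩
    rw [lv_pos hp] at hl
    rw [hl, h]

/-- Orthogonality clauses without the check of `C` and `Z`. -/
theorem genOH_sat
    (hcc : ∀ A, pc A = 5 → ∀ (ε : Bool) (s : ℕ),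
      (∀ j < 12, A.testBit j = false → s.testBit j = xor (csm χ A j) ε) → T s = true)
    (hkc : ∀ A, pc A = 7 → ∀ (ε : Bool) (s : ℕ),
      (∀ j < 12, A.testBit j = true → s.testBit j = xor (ksm χ A j) ε) → T s = false)
    {C Z t e : ℕ} (hC : C < 4096) (hpC : pc C = 7) (hZ : Z < 4096) (hpZ : pc Z = 5)
    (he : e < 2) : Sat χ T (genOH C Z t e (C &&& (4095 ^^^ Z))) := by
  by_contra hcon
  have hJ : C &&& (4095 ^^^ Z) < 4096 := lt_of_le_of_lt Nat.and_le_left hC
  have hJb : ∀ j < 12, C.testBit j = true → Z.testBit j = false →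
      (C &&& (4095 ^^^ Z)).testBit j = true := by
    intro j hj h1 h2
    rw [Nat.testBit_and, compl_bit hj, h1, h2]
    rfl
  have hU1 : (t ^^^ ipM Z) &&& (C &&& (4095 ^^^ Z)) < 4096 := lt_of_le_of_lt Nat.and_le_right hJ
  have hU2 : ((t ^^^ (4095 * e)) ^^^ ipM C) &&& (C &&& (4095 ^^^ Z)) < 4096 :=
    lt_of_le_of_lt Nat.and_le_right hJ
  have hc1 : ¬ Sat χ T (Nat.shiftLeft (ccH (spread (C &&& (4095 ^^^ Z)))
      (spread ((t ^^^ ipM Z) &&& (C &&& (4095 ^^^ Z))))) Z) := fun h => hcon (Sat.left h)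
  have hc2 : ¬ Sat χ T (Nat.shiftRight (Nat.shiftLeft (ccH (rev (C &&& (4095 ^^^ Z)))
      (rev (((t ^^^ (4095 * e)) ^^^ ipM C) &&& (C &&& (4095 ^^^ Z))))) C) 2048) :=
    fun h => hcon (Sat.right h)
  have he' : ∀ j < 12, (4095 * e).testBit j = e.testBit 0 := by
    intro j hj
    have : e = 0 ∨ e = 1 := by omega
    rcases this with rfl | rfl
    · rw [Nat.mul_zero, Nat.zero_testBit, Nat.zero_testBit]
    · interval_cases j <;> rfl
  refine orth hcc hkc hpC hpZ (e.testBit 0) fun j hj hCj hZj => ?_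
  have hJj := hJb j hj hCj hZj
  have hp : Z + 2 ^ j < 4096 := by
    rw [← or_pow hZ hj hZj]; exact or_lt hZ (pow_lt hj)
  have h1 := ccH_lit hJ hU1 hj hJj hc1 hp
  have h2 := rev_lit hC hJ hU2 hj hCj hJj hc2
  have hx := (xor_pow hC hj hCj).1
  rw [Nat.testBit_and, hJj, Bool.and_true, Nat.testBit_xor, ipM_bit hZ hj] at h1
  rw [Nat.testBit_and, hJj, Bool.and_true, Nat.testBit_xor, Nat.testBit_xor, he' j hj,
    ipM_bit hC hj] at h2
  rw [csm, or_pow hZ hj hZj, h1, ksm, hx, h2]
  cases t.testBit j <;> cases ipm Z j <;> cases ipm C j <;> cases e.testBit 0 <;> rfl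

/-- **The orthogonality clauses hold in every model.** -/
theorem genO_sat
    (hcc : ∀ A, pc A = 5 → ∀ (ε : Bool) (s : ℕ),
      (∀ j < 12, A.testBit j = false → s.testBit j = xor (csm χ A j) ε) → T s = true)
    (hkc : ∀ A, pc A = 7 → ∀ (ε : Bool) (s : ℕ),
      (∀ j < 12, A.testBit j = true → s.testBit j = xor (ksm χ A j) ε) → T s = false)
    {C Z t e : ℕ} (_ht : t < 4096) (he : e < 2) : Sat χ T (genO C Z t e) := by
  refine grd_sat fun hok => ?_
  obtain ⟨hk7, hk5⟩ := land_ne hok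
  obtain ⟨hC, hpC⟩ := lt_and_pc T7_lt T7_check hk7
  obtain ⟨hZ, hpZ⟩ := lt_and_pc T5_lt T5_check hk5
  exact genOH_sat hcc hkc hC hpC hZ hpZ he

theorem genO_model (hM : Model χ T) {C Z t e : ℕ} (ht : t < 4096) (he : e < 2) :
    Sat χ T (genO C Z t e) := genO_sat hM.cc hM.kc ht he

theorem genO_rmodel (hM : RModel χ T) {C Z t e : ℕ} (ht : t < 4096) (he : e < 2) :
    Sat χ T (genO C Z t e) := genO_sat hM.cc hM.kc ht he

end Pool.Agent.H28.Z12
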