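import Pool.Agent.H28.Z12.UDefs
import Pool.Agent.H28.Z12.ZTreeDefs

/-!
Kernel evaluation of the last step of the cover: top nodes and their mirror images
(MP_1e71f9_co).
-/

set_option autoImplicit false

namespace Pool.Agent.H28.Z12.Cov

/-- `gm, gv` is the image of `g` under both reversals. -/
noncomputable def revG (g gm gv : Nat) : Bool :=
  band (Nat.beq (Nat.land (gV g) (gM g)) (gV g))
    (band (Nat.beq (Nat.land (Nat.shiftRight gm (nat_lit 36)) (nat_lit 1)) (nat_lit 1))
      (imgE (gM g) (gV g) (nat_lit 385) (nat_lit 678) gm gv))

/-- The entries `b, .., b + n - 1` of the table `Q` are images of earlier entries under both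
reversals; indices `C`, 20 bits each. -/
noncomputable def imV (Q : Nat → Nat) (b C : Nat) (n : Nat) : Bool :=
  @Nat.rec (fun _ => Bool) true (fun e ih => band ih
    (band (Nat.ble (Nat.succ (ofs C e)) b)
      (revG (Q (ofs C e)) (gM (Q (Nat.add b e))) (gV (Q (Nat.add b e)))))) n

/-- Rows excluded everywhere in the chart of maximal rank: all images without complement. -/
noncomputable def imW1 (P nP c gm gv : Nat) : Bool :=
  band (Nat.beq (Nat.land (Nat.shiftRight c (nat_lit 20)) (nat_lit 1)) (nat_lit 0))
    (imZ1 P nP c gm gv)

noncomputable def imW (P nP : Nat) (Q : Nat → Nat) (b C : Nat) (n : Nat) : Bool :=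
  @Nat.rec (fun _ => Bool) true (fun e ih => band ih
    (imW1 P nP (cE C e) (gM (Q (Nat.add b e))) (gV (Q (Nat.add b e))))) n

/-- The trivial patterns with their complements: a row or a column of one sign. -/
noncomputable def T2 : Nat := nat_lit 181237802247057179344897168059054031997239359

/-- Two equal rows with 2, 3, 4, 5 positive signs. -/
noncomputable def T1 : Nat := nat_lit 489309727236590748468107147456391577925387510455324242438552700344666052959100196622335

end Pool.Agent.H28.Z12.Cov
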