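import Mathlib
import Pool.Agent.H28.Z12.STree
import Pool.Agent.H28.Z12.ZTree
import Pool.Agent.H28.Z12.UDefs
import Pool.Agent.H32.Z12.MGDefs

/-!
The images of patterns refuted with a part of the signs of the sorted frame (MP_1e71f9_co).
-/

set_option autoImplicit false
set_option maxRecDepth 10000

namespace Pool.Agent.H28.Z12

open Pool.Agent.H77.Z12 Pool.Agent.H13.Z12 Pool.Agent.H64.Z12 Pool.Agent.H28.Z12.Cov
open Pool.Agent.H26.Z12 Pool.Agent.H32.Z12

/-- The units in the order of the masks. -/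
def U29 : List Mn :=
  [
   ⟨0, 2, 0, 5, true⟩, ⟨1, 2, 0, 5, false⟩, ⟨0, 4, 0, 5, true⟩, ⟨1, 4, 0, 5, false⟩,
   ⟨2, 4, 0, 5, true⟩, ⟨3, 5, 0, 5, true⟩, ⟨0, 1, 0, 1, true⟩, ⟨0, 1, 0, 2, true⟩,
   ⟨0, 1, 1, 2, true⟩, ⟨0, 1, 0, 3, true⟩, ⟨0, 1, 1, 3, true⟩, ⟨0, 1, 2, 3, true⟩,
   ⟨0, 1, 0, 4, true⟩, ⟨0, 1, 1, 4, true⟩, ⟨0, 1, 2, 4, true⟩, ⟨0, 1, 3, 4, true⟩,
   ⟨4, 5, 0, 5, true⟩, ⟨2, 5, 0, 5, true⟩, ⟨1, 5, 0, 5, false⟩, ⟨0, 5, 0, 5, true⟩,
   ⟨3, 4, 0, 5, true⟩, ⟨2, 3, 0, 5, true⟩, ⟨1, 3, 0, 5, false⟩, ⟨0, 3, 0, 5, true⟩,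
   ⟨0, 1, 0, 5, true⟩, ⟨0, 1, 1, 5, true⟩, ⟨0, 1, 2, 5, true⟩, ⟨0, 1, 3, 5, true⟩,
   ⟨0, 1, 4, 5, true⟩]

/-- Unit `i` of the sorted frame. -/
def uN (i : ℕ) : Mn := U29.getD i ⟨0, 1, 0, 5, true⟩

theorem uN_mem : ∀ i < 29, uN i ∈ L29 := by decide +kernel

theorem uN_lit : ∀ i < 29, litM (uN i) = (zv Z29 i, V29.testBit i) := by decide +kernel

theorem uN_17 : ∀ i < 29, N17.testBit i = true → uN i ∈ L17 := by decide +kernel

/-- The units of `e` have their signs (`f`: the opposite signs) after the permutations. -/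
def Tr (e p q : ℕ) (f : Bool) : Prop := ∀ M : Fin 6 → Fin 6 → ℝ, Bad (cf M) →
  (∀ i c, 0 < M i c) → SX M → ∀ i < 29, e.testBit i = true →
    SgnP (fun a c => M (permOf p a) (permOf q c)) f (uN i)

variable {R : St36 → ℕ}

theorem mem_zL29 {e : ℕ} (he : e < 2 ^ 29) {p : ℕ × Bool} (hp : p ∈ zL Z29 e V29) :
    ∃ i < 29, e.testBit i = true ∧ litM (uN i) = p := by
  rw [zL, List.mem_map] at hp
  obtain ⟨i, hi, rfl⟩ := hp
  rw [List.mem_filter, List.mem_range] at hi
  have hi29 : i < 29 := by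
    by_contra hc
    have h1 : e.testBit i = false := Nat.testBit_lt_two_pow (lt_of_lt_of_le he
      (Nat.pow_le_pow_right (by norm_num) (by omega)))
    rw [h1] at hi
    exact Bool.noConfusion hi.2
  exact ⟨i, hi29, hi.2, uN_lit i hi29⟩

attribute [local irreducible] chiN topN sigma

/-- **Images of a row refuted in the relaxed model, without complement.** -/
theorem ex_tr0 {m w gm gv e p q : ℕ} (h : RRefX m w (zL Z29 e V29) 0 0) (he : e < 2 ^ 29)
    (ht : Tr e p q false) (hs : ∀ s : St36, Pool.Agent.H77.Z12.Sat gm gv s →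
      Pool.Agent.H77.Z12.Sat m w (actS (permOf p) (permOf q) s)) : Ex R gm gv := by
  intro M hb hM hx _ ha
  have h1 := hs _ (sat_of_agr' ha)
  rw [← stt_perm hb] at h1
  have hb' := bad_perm hb (permOf p) (permOf q)
  obtain ⟨h63, hS, hMod⟩ := chart_facts hb' (fun i c => hM _ _)
  refine h _ _ (rmodel_of_model hMod) h63 hS (satC_iff.2 h1) (fun r hr => ?_)
    fun i hi => absurd hi (Nat.not_lt_zero i)
  obtain ⟨i, hi, hei, rfl⟩ := mem_zL29 he hr
  have h2 := l29_cases _ (uN_mem i hi)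
  exact lit_of_sgn' hb' h63 h2.1 h2.2.1 (ht M hb hM hx i hi hei)

/-- **With complement.** -/
theorem ex_tr1 {m w gm gv e p q : ℕ} (h : RRefX m w (zL Z29 e V29) 0 0) (he : e < 2 ^ 29)
    (ht : Tr e p q true) (hs : ∀ s : St36, Pool.Agent.H77.Z12.Sat gm gv s →
      Pool.Agent.H77.Z12.Sat m (w ^^^ m) (actS (permOf p) (permOf q) s)) : Ex R gm gv := by
  intro M hb hM hx _ ha
  have h1 := hs _ (sat_of_agr' ha)
  rw [← stt_perm hb] at h1
  have hb' := bad_perm hb (permOf p) (permOf q)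
  obtain ⟨h63, hS, hMod⟩ := chart_facts hb' (fun i c => hM _ _)
  refine h _ _ (rmodel_flX hMod hS) (by rw [flX_63, h63]) (simp_flX hS)
    (satC_flX.2 (satC_iff.2 h1)) (fun r hr => ?_) fun i hi => absurd hi (Nat.not_lt_zero i)
  obtain ⟨i, hi, hei, rfl⟩ := mem_zL29 he hr
  have h2 := l29_cases _ (uN_mem i hi)
  exact lit_of_sgn_flX' hb' h63 h2.1 h2.2.1 (ht M hb hM hx i hi hei)

/-- **Images of a row refuted in the full model.** -/
theorem ex_trY {m w gm gv e p q : ℕ} (h : RefX m w (zL Z29 e V29) 0 0) (he : e < 2 ^ 29)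
    (ht : Tr e p q false) (hs : ∀ s : St36, Pool.Agent.H77.Z12.Sat gm gv s →
      Pool.Agent.H77.Z12.Sat m w (actS (permOf p) (permOf q) s)) : Ex R gm gv := by
  intro M hb hM hx _ ha
  have h1 := hs _ (sat_of_agr' ha)
  rw [← stt_perm hb] at h1
  have hb' := bad_perm hb (permOf p) (permOf q)
  obtain ⟨h63, hS, hMod⟩ := chart_facts hb' (fun i c => hM _ _)
  refine h _ _ hMod h63 hS (satC_iff.2 h1) (fun r hr => ?_)
    fun i hi => absurd hi (Nat.not_lt_zero i)
  obtain ⟨i, hi, hei, rfl⟩ := mem_zL29 he hr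
  have h2 := l29_cases _ (uN_mem i hi)
  exact lit_of_sgn' hb' h63 h2.1 h2.2.1 (ht M hb hM hx i hi hei)

/-! ### The four symmetries and the frame of the largest cross ratio -/

theorem tr_grp4 {e c : ℕ} (h : grp4 (Nat.land c 2097151) = true) :
    (Nat.land (Nat.shiftRight c 20) 1 = 0 ∧
      Tr e (Nat.land c 1023) (Nat.land (Nat.shiftRight c 10) 1023) false) ∨
    (Nat.land (Nat.shiftRight c 20) 1 = 1 ∧
      Tr e (Nat.land c 1023) (Nat.land (Nat.shiftRight c 10) 1023) true) := by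
  rcases grp4_spec h with ⟨e0, e1, e2⟩ | ⟨e0, e1, e2⟩ | ⟨e0, e1, e2⟩ | ⟨e0, e1, e2⟩
  · refine Or.inl ⟨e0, fun M hb hM hx i hi _ => ?_⟩
    rw [e1, e2, perm0]
    exact sx_sgn hx _ (uN_mem i hi)
  · refine Or.inl ⟨e0, fun M hb hM hx i hi _ => ?_⟩
    rw [e1, e2, perm385, perm678]
    exact sx_sgn (sx_rev hx) _ (uN_mem i hi)
  · refine Or.inr ⟨e0, fun M hb hM hx i hi _ => ?_⟩
    rw [e1, e2, perm385, perm0]
    exact sxn_sgn (sxn_revR hx) _ (uN_mem i hi)
  · refine Or.inr ⟨e0, fun M hb hM hx i hi _ => ?_⟩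
    rw [e1, e2, perm678, perm0]
    exact sxn_sgn (sxn_revC hx) _ (uN_mem i hi)

theorem tb_of_land {e n i : ℕ} (h : Nat.land e n = e) (hi : e.testBit i = true) :
    n.testBit i = true := by
  have h1 : e &&& n = e := h
  have h2 : (e &&& n).testBit i = true := by rw [h1]; exact hi
  rw [Nat.testBit_and, Bool.and_eq_true] at h2
  exact h2.2

theorem tr_frE {e p q c : ℕ} (hp : p < 720) (hq : q < 720) (hc : c < 2)
    (he : Nat.land e N17 = e) (h : frE (dig p) (dig q) c = true) :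
    (c = 0 ∧ Tr e p q false) ∨ (c = 1 ∧ Tr e p q true) := by
  rcases frE_spec hp hq hc h with ⟨e0, hf⟩ | ⟨e0, hf⟩
  · refine Or.inl ⟨e0, fun M hb hM hx i hi hei => ?_⟩
    refine mx_sgn (fun i c => hM _ _) (bad_perm hb (permOf p) (permOf q))
      (mxat_perm _ _ ?_) _ (uN_17 i hi (tb_of_land he hei))
    rcases hf with ⟨e1, e2, e3, e4⟩ | ⟨e1, e2, e3, e4⟩
    · rw [e1, e2, e3, e4]
      exact hx.2.2
    · rw [e1, e2, e3, e4]
      exact mxat_comm hx.2.2
  · refine Or.inr ⟨e0, fun M hb hM hx i hi hei => ?_⟩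
    refine mxn_sgn (fun i c => hM _ _) (bad_perm hb (permOf p) (permOf q))
      (mxat_perm _ _ ?_) _ (uN_17 i hi (tb_of_land he hei))
    rcases hf with ⟨e1, e2, e3, e4⟩ | ⟨e1, e2, e3, e4⟩
    · rw [e1, e2, e3, e4]
      exact hx.2.2
    · rw [e1, e2, e3, e4]
      exact mxat_comm hx.2.2

/-! ### The table of the known signs -/

/-- Index and order of a pair. -/
noncomputable def cdp (x y : ℕ) : ℕ := Nat.land (Nat.shiftRight CDT (Nat.mul 5 (Nat.add (Nat.mul 6 x) y))) 31

/-- The minor with ordered rows and columns. -/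
def nM (x y u v : Fin 6) (s : Bool) : Mn :=
  ⟨min x y, max x y, min u v, max u v, xor s (xor (decide (y < x)) (decide (v < u)))⟩

theorem ftv_spec : ∀ x y u v : Fin 6, x ≠ y → u ≠ v →
    (ftv (cdp x y) (cdp u v) = 1 → nM x y u v true ∈ L29) ∧
    (ftv (cdp x y) (cdp u v) = 2 → nM x y u v false ∈ L29) := by decide +kernel

theorem mn_swap' (M : Fin 6 → Fin 6 → ℝ) (a b c d : Fin 6) : mn M a b d c = -mn M a b c d := by
  simp only [mn]
  ring

theorem sgn_nM {M : Fin 6 → Fin 6 → ℝ} {x y u v : Fin 6} {s : Bool} (hxy : x ≠ y) (huv : u ≠ v)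
    (h : SgnP M false (nM x y u v s)) :
    if s = true then 0 < mn M x y u v else mn M x y u v < 0 := by
  rw [sgnP_iff] at h
  rcases lt_or_gt_of_ne hxy with h1 | h1 <;> rcases lt_or_gt_of_ne huv with h2 | h2
  · simp only [nM, min_eq_left h1.le, max_eq_right h1.le, min_eq_left h2.le, max_eq_right h2.le,
      decide_eq_false (not_lt.2 h1.le), decide_eq_false (not_lt.2 h2.le), Bool.xor_false,
      Bool.false_xor] at h
    exact h
  · simp only [nM, min_eq_left h1.le, max_eq_right h1.le, min_eq_right h2.le, max_eq_left h2.le,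
      decide_eq_false (not_lt.2 h1.le), decide_eq_true h2, Bool.false_xor] at h
    rw [mn_swap'] at h
    cases s <;> simpa using h
  · simp only [nM, min_eq_right h1.le, max_eq_left h1.le, min_eq_left h2.le, max_eq_right h2.le,
      decide_eq_true h1, decide_eq_false (not_lt.2 h2.le), Bool.false_xor] at h
    rw [← neg_neg (mn M y x u v), ← mn_neg] at h
    cases s <;> simpa using h
  · simp only [nM, min_eq_right h1.le, max_eq_left h1.le, min_eq_right h2.le, max_eq_left h2.le,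
      decide_eq_true h1, decide_eq_true h2, Bool.false_xor] at h
    rw [mn_swap', ← neg_neg (mn M y x u v), ← mn_neg, neg_neg] at h
    cases s <;> simpa using h

/-! ### The check of the units -/

/-- The places of the pairs of the units. -/
def srL : List ℕ := [5, 25, 15, 35, 50, 65, 0, 0, 0, 0, 0, 0, 0, 0, 0, 0, 70, 55, 40, 20, 60, 45, 30, 10, 0, 0, 0, 0, 0]
def scL : List ℕ := [20, 20, 20, 20, 20, 20, 0, 5, 25, 10, 30, 45, 15, 35, 50, 60, 20, 20, 20, 20, 20, 20, 20, 20, 20, 40, 55, 65, 70]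

theorem unA_spec {e T P Q : ℕ} (h : unA e T P Q = true) :
    ∀ i < 29, unT e T P Q i (srL.getD i 0) (scL.getD i 0) = true := by
  unfold unA at h
  repeat rw [band_iff] at h
  obtain ⟨h0, h1, h2, h3, h4, h5, h6, h7, h8, h9, h10, h11, h12, h13, h14, h15, h16, h17, h18, h19,
    h20, h21, h22, h23, h24, h25, h26, h27, h28⟩ := h
  intro i hi
  interval_cases i <;> assumption

theorem ptp_row : ∀ i < 29, ∀ p < 720, pte (ptp p) (srL.getD i 0) =
    cdp (dgt p (uN i).a) (dgt p (uN i).b) := by decide +kernel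

theorem ptp_col : ∀ i < 29, ∀ p < 720, pte (ptp p) (scL.getD i 0) =
    cdp (dgt p (uN i).c) (dgt p (uN i).d) := by decide +kernel

theorem su_spec : ∀ f < 2, ∀ i < 29,
    Nat.sub 2 (Nat.land (Nat.shiftRight (Nat.xor SU29 (Nat.mul f 536870911)) i) 1) =
      if xor (uN i).s (f.testBit 0) = true then 1 else 2 := by decide +kernel

theorem fcB_eq (x : ℕ) (f : ℕ → Bool) : fcB x f = f x := by
  cases x <;> rfl

theorem tr_chkU {e p q f : ℕ} (hp : p < 720) (hq : q < 720) (hf : f < 2)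
    (h : chkU e p q f = true) : Tr e p q (f.testBit 0) := by
  rw [chkU, fcB_eq, fcB_eq] at h
  intro M hb hM hx i hi hei
  have h1 := unA_spec h i hi
  have hz : Nat.beq (Nat.land (Nat.shiftRight e i) 1) 0 = false := by
    have e1 : Nat.land (Nat.shiftRight e i) 1 = 1 := by
      have e2 : Nat.land (Nat.shiftRight e i) 1 = (e >>> i) &&& 1 := rfl
      have e3 : e.testBit i = (e >>> i).testBit 0 := by rw [Nat.testBit_shiftRight, Nat.add_zero]
      rw [e2, Nat.and_one_is_mod]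
      rw [e3, Nat.testBit_zero] at hei
      exact of_decide_eq_true hei
    rw [e1]
    rfl
  have h2 : unB (Nat.xor SU29 (Nat.mul f 536870911)) (ptp p) (ptp q) i (srL.getD i 0)
      (scL.getD i 0) = true := by
    have h3 : @Bool.rec (fun _ => Bool) (unB (Nat.xor SU29 (Nat.mul f 536870911)) (ptp p) (ptp q) i
      (srL.getD i 0) (scL.getD i 0)) true (Nat.beq (Nat.land (Nat.shiftRight e i) 1) 0) = true := h1
    rw [hz] at h3
    exact h3
  rw [unB, beq_iff, ptp_row i hi p hp, ptp_col i hi q hq] at h2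
  have h4 : Nat.sub 2 (Nat.land (Nat.shiftRight (Nat.xor SU29 (Nat.mul f 536870911)) i) 1) =
      if xor (uN i).s (f.testBit 0) = true then 1 else 2 := su_spec f hf i hi
  rw [← permOf_val hp, ← permOf_val hp, ← permOf_val hq, ← permOf_val hq, h4] at h2
  have hl := l29_cases _ (uN_mem i hi)
  have hab : permOf p (uN i).a ≠ permOf p (uN i).b := fun h0 =>
    hl.1.ne ((permOf p).injective h0)
  have hcd : permOf q (uN i).c ≠ permOf q (uN i).d := fun h0 =>
    hl.2.1.ne ((permOf q).injective h0)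
  have h5 := ftv_spec _ _ _ _ hab hcd
  rw [sgnP_iff]
  show if xor (f.testBit 0) (uN i).s = true then
    0 < mn M (permOf p (uN i).a) (permOf p (uN i).b) (permOf q (uN i).c) (permOf q (uN i).d)
    else mn M (permOf p (uN i).a) (permOf p (uN i).b) (permOf q (uN i).c) (permOf q (uN i).d) < 0
  rw [Bool.xor_comm]
  split_ifs at h2 ⊢ with h6
  · have h7 := sgn_nM hab hcd (sx_sgn hx _ (h5.1 h2))
    rw [if_pos rfl] at h7
    exact h7
  · have h7 := sgn_nM hab hcd (sx_sgn hx _ (h5.2 h2))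
    rw [if_neg (by decide)] at h7
    exact h7

/-! ### The checks of the images -/

theorem land21 (c : ℕ) : Nat.land (Nat.land c 2097151) 1023 = Nat.land c 1023 ∧
    Nat.land (Nat.shiftRight (Nat.land c 2097151) 10) 1023 = Nat.land (Nat.shiftRight c 10) 1023 ∧
    Nat.land (Nat.shiftRight (Nat.land c 2097151) 20) 1 = Nat.land (Nat.shiftRight c 20) 1 ∧
    Nat.land (Nat.land c 2097151) 2097151 = Nat.land c 2097151 := by
  have e0 : ∀ x, Nat.land x 2097151 = x % 2 ^ 21 := by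
    intro x
    have : Nat.land x 2097151 = x &&& (2 ^ 21 - 1) := rfl
    rw [this, Nat.and_two_pow_sub_one_eq_mod]
  have e1 : ∀ x, Nat.land x 1023 = x % 2 ^ 10 := by
    intro x
    have : Nat.land x 1023 = x &&& (2 ^ 10 - 1) := rfl
    rw [this, Nat.and_two_pow_sub_one_eq_mod]
  have e2 : ∀ x, Nat.shiftRight x 10 = x / 2 ^ 10 := fun x => Nat.shiftRight_eq_div_pow x 10
  have e3 : ∀ x, Nat.shiftRight x 20 = x / 2 ^ 20 := fun x => Nat.shiftRight_eq_div_pow x 20
  have e4 : ∀ x, Nat.land x 1 = x % 2 := by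
    intro x
    have : Nat.land x 1 = x &&& 1 := rfl
    rw [this, Nat.and_one_is_mod]
  rw [e0, e0, e1, e1, e1, e1, e4, e4, e2, e2, e3, e3]
  refine ⟨?_, ?_, ?_, ?_⟩ <;> omega

theorem imI_spec {P c i gm gv : ℕ} (h : imI P c i gm gv = true) :
    gm.testBit 36 = true ∧ Nat.land c 1023 < 720 ∧ Nat.land (Nat.shiftRight c 10) 1023 < 720 ∧
    imgE (ngM P i) (Nat.xor (ngV P i) (Nat.mul (Nat.land (Nat.shiftRight c 20) 1) (ngM P i)))
      (Nat.land c 1023) (Nat.land (Nat.shiftRight c 10) 1023) gm gv = true := by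
  rw [imI, band_iff, beq_iff] at h
  obtain ⟨h36, him⟩ := h
  have him0 := him
  rw [imgE, band_iff, band_iff, ble_iff, ble_iff] at him0
  exact ⟨bit36_of_beq h36, him0.1.1, him0.1.2, him⟩

theorem okG_spec {e c : ℕ} (hp : Nat.land c 1023 < 720)
    (hq : Nat.land (Nat.shiftRight c 10) 1023 < 720) (h : okG e c = true) :
    (Nat.land (Nat.shiftRight c 20) 1 = 0 ∧
      Tr e (Nat.land c 1023) (Nat.land (Nat.shiftRight c 10) 1023) false) ∨
    (Nat.land (Nat.shiftRight c 20) 1 = 1 ∧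
      Tr e (Nat.land c 1023) (Nat.land (Nat.shiftRight c 10) 1023) true) := by
  unfold okG at h
  rcases hg : grp4 (Nat.land c 2097151) with _ | _
  · rw [hg] at h
    rcases hf : band (Nat.beq (Nat.land e N17) e) (frE (dig (Nat.land c 1023))
        (dig (Nat.land (Nat.shiftRight c 10) 1023)) (Nat.land (Nat.shiftRight c 20) 1)) with _ | _
    · rw [hf] at h
      have h1 : chkU e (Nat.land c 1023) (Nat.land (Nat.shiftRight c 10) 1023)
        (Nat.land (Nat.shiftRight c 20) 1) = true := h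
      rcases land1 (Nat.shiftRight c 20) with h2 | h2
      · rw [h2] at h1
        exact Or.inl ⟨h2, tr_chkU hp hq (by norm_num) h1⟩
      · rw [h2] at h1
        exact Or.inr ⟨h2, tr_chkU hp hq (by norm_num) h1⟩
    · rw [band_iff, beq_iff] at hf
      exact tr_frE hp hq (lt2 _) hf.1 hf.2
  · exact tr_grp4 hg

theorem imX1_spec {P E nP c gm gv : ℕ}
    (hP : ∀ i < nP, RRefX (ngM P i) (ngV P i) (zL Z29 (e32 E i) V29) 0 0)
    (h : imX1 P E nP c gm gv = true) : Ex R gm gv := by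
  rw [imX1, band_iff, band_iff, band_iff, ble_iff, ble_iff] at h
  obtain ⟨hi, he, hg, him⟩ := h
  obtain ⟨h36, hp, hq, him⟩ := imI_spec him
  obtain ⟨l1, l2, l3, l4⟩ := land21 c
  rw [l1] at hp
  rw [l2] at hq
  rw [l1, l2, l3] at him
  have hg' := okG_spec (by rw [l1]; exact hp) (by rw [l2]; exact hq) hg
  rw [l1, l2, l3] at hg'
  have hr := hP _ hi
  have he' : e32 E (Nat.shiftRight c 21) < 2 ^ 29 := he
  rcases hg' with ⟨e0, ht⟩ | ⟨e0, ht⟩
  · rw [e0, xor_mul_zero] at him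
    exact ex_tr0 hr he' ht fun s hs => img_spec him s h36 hs
  · rw [e0, xor_mul_one] at him
    exact ex_tr1 hr he' ht fun s hs => img_spec him s h36 hs

/-- **Entries which are images of relaxed rows.** -/
theorem imX_spec {P E nP : ℕ} {Q : ℕ → ℕ} {b C : ℕ}
    (hP : ∀ i < nP, RRefX (ngM P i) (ngV P i) (zL Z29 (e32 E i) V29) 0 0) (hb : HQ R Q b) :
    ∀ {n : ℕ}, imX P E nP Q b C n = true → HQ R Q (b + n)
  | 0, _ => hb
  | n + 1, h => by
    have h' : band (imX P E nP Q b C n)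
      (imX1 P E nP (cE C n) (gM (Q (Nat.add b n))) (gV (Q (Nat.add b n)))) = true := h
    rw [band_iff] at h'
    have ih := imX_spec hP hb h'.1
    intro i hi
    rcases Nat.lt_succ_iff_lt_or_eq.1 (show i < (b + n) + 1 from hi) with hi | rfl
    · exact ih i hi
    · exact imX1_spec hP h'.2

theorem imY1_spec {P E nP c gm gv : ℕ}
    (hP : ∀ i < nP, RefX (ngM P i) (ngV P i) (zL Z29 (e32 E i) V29) 0 0)
    (h : imY1 P E nP c gm gv = true) : Ex R gm gv := by
  rw [imY1, band_iff, beq_iff, imX1, band_iff, band_iff, band_iff, ble_iff, ble_iff] at h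
  obtain ⟨h0, hi, he, hg, him⟩ := h
  obtain ⟨h36, hp, hq, him⟩ := imI_spec him
  obtain ⟨l1, l2, l3, l4⟩ := land21 c
  rw [l1] at hp
  rw [l2] at hq
  rw [l1, l2, l3] at him
  have hg' := okG_spec (by rw [l1]; exact hp) (by rw [l2]; exact hq) hg
  rw [l1, l2, l3] at hg'
  have hr := hP _ hi
  have he' : e32 E (Nat.shiftRight c 21) < 2 ^ 29 := he
  rcases hg' with ⟨e0, ht⟩ | ⟨e0, ht⟩
  · rw [e0, xor_mul_zero] at him
    exact ex_trY hr he' ht fun s hs => img_spec him s h36 hs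
  · rw [h0] at e0
    exact absurd e0 (by norm_num)

/-- **Entries which are images of rows of the full model.** -/
theorem imY_spec {P E nP : ℕ} {Q : ℕ → ℕ} {b C : ℕ}
    (hP : ∀ i < nP, RefX (ngM P i) (ngV P i) (zL Z29 (e32 E i) V29) 0 0) (hb : HQ R Q b) :
    ∀ {n : ℕ}, imY P E nP Q b C n = true → HQ R Q (b + n)
  | 0, _ => hb
  | n + 1, h => by
    have h' : band (imY P E nP Q b C n)
      (imY1 P E nP (cE C n) (gM (Q (Nat.add b n))) (gV (Q (Nat.add b n)))) = true := h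
    rw [band_iff] at h'
    have ih := imY_spec hP hb h'.1
    intro i hi
    rcases Nat.lt_succ_iff_lt_or_eq.1 (show i < (b + n) + 1 from hi) with hi | rfl
    · exact ih i hi
    · exact imY1_spec hP h'.2

theorem imK1_spec (hR : ∀ (ρ γ : Equiv.Perm (Fin 6)) (s : St36), R (actS ρ γ s) = R s)
    {P nP c gm gv : ℕ} (hP : ∀ i < nP, CS R (ngM P i) (ngV P i))
    (h : imK1 P nP c gm gv = true) : Ex R gm gv := by
  rw [imK1, band_iff, band_iff, ble_iff] at h
  obtain ⟨hi, hg, him⟩ := h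
  obtain ⟨h36, -, -, him⟩ := imI_spec him
  obtain ⟨l1, l2, l3, l4⟩ := land21 c
  rw [l1, l2, l3] at him
  have hr := hP _ hi
  have hs := code_split c
  have b1 : Nat.land c 1023 < 1024 := by
    have : Nat.land c 1023 = c &&& 1023 := rfl
    rw [this]
    exact lt_of_le_of_lt Nat.and_le_right (by norm_num)
  have b2 : Nat.land (Nat.shiftRight c 10) 1023 < 1024 := by
    have : Nat.land (Nat.shiftRight c 10) 1023 = (Nat.shiftRight c 10) &&& 1023 := rfl
    rw [this]
    exact lt_of_le_of_lt Nat.and_le_right (by norm_num)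
  have b3 := land1 (Nat.shiftRight c 20)
  rcases hz : Nat.beq (Nat.land c 2097151) 0 with _ | _
  · rw [hz] at hg
    have h1 : Nat.land c 2097151 = 694657 := Nat.eq_of_beq_eq_true hg
    have e1 : Nat.land c 1023 = 385 := by omega
    have e2 : Nat.land (Nat.shiftRight c 10) 1023 = 678 := by omega
    have e3 : Nat.land (Nat.shiftRight c 20) 1 = 0 := by omega
    rw [e1, e2, e3, xor_mul_zero] at him
    refine ex_rev hR hr fun s hs => ?_
    have h2 := img_spec him s h36 hs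
    rw [perm385, perm678] at h2
    exact h2
  · have h1 : Nat.land c 2097151 = 0 := Nat.eq_of_beq_eq_true hz
    have e1 : Nat.land c 1023 = 0 := by omega
    have e2 : Nat.land (Nat.shiftRight c 10) 1023 = 0 := by omega
    have e3 : Nat.land (Nat.shiftRight c 20) 1 = 0 := by omega
    rw [e1, e2, e3, xor_mul_zero] at him
    refine ex_of_cs fun s hs hmax => ?_
    have h2 : ∀ s, Pool.Agent.H77.Z12.Sat gm gv s → Pool.Agent.H77.Z12.Sat (ngM P (Nat.shiftRight c 21))
        (ngV P (Nat.shiftRight c 21)) s := by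
      intro s hs
      have h3 := img_spec him s h36 hs
      rw [perm0, act_one] at h3
      exact h3
    intro M hb hM hx hs'
    exact hr s (h2 s hs) hmax M hb hM hx (h2 _ hs')

/-- **Entries which are images of rows excluded in the sorted frame.** -/
theorem imK_spec (hR : ∀ (ρ γ : Equiv.Perm (Fin 6)) (s : St36), R (actS ρ γ s) = R s)
    {P nP : ℕ} {Q : ℕ → ℕ} {b C : ℕ} (hP : ∀ i < nP, CS R (ngM P i) (ngV P i)) (hb : HQ R Q b) :
    ∀ {n : ℕ}, imK P nP Q b C n = true → HQ R Q (b + n)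
  | 0, _ => hb
  | n + 1, h => by
    have h' : band (imK P nP Q b C n)
      (imK1 P nP (cE C n) (gM (Q (Nat.add b n))) (gV (Q (Nat.add b n)))) = true := h
    rw [band_iff] at h'
    have ih := imK_spec hR hP hb h'.1
    intro i hi
    rcases Nat.lt_succ_iff_lt_or_eq.1 (show i < (b + n) + 1 from hi) with hi | rfl
    · exact ih i hi
    · exact imK1_spec hR hP h'.2

theorem imZ1_spec (hR : ∀ (ρ γ : Equiv.Perm (Fin 6)) (s : St36), R (actS ρ γ s) = R s)
    {P nP c gm gv : ℕ} (hP : ∀ i < nP, CG2 R (ngM P i) (ngV P i))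
    (h : imZ1 P nP c gm gv = true) : Ex R gm gv := by
  rw [imZ1, band_iff, ble_iff] at h
  obtain ⟨hi, him⟩ := h
  obtain ⟨h36, -, -, him⟩ := imI_spec him
  obtain ⟨l1, l2, l3, l4⟩ := land21 c
  rw [l1, l2, l3] at him
  have hr := hP _ hi
  rcases land1 (Nat.shiftRight c 20) with e0 | e0
  · rw [e0, xor_mul_zero] at him
    intro M hb hM hx hmax ha
    have h1 := img_spec him _ h36 (sat_of_agr' ha)
    exact (hr.1 _ h1 (by rw [hR]; exact hmax)).act hb hM _ _ h1
  · rw [e0, xor_mul_one] at him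
    intro M hb hM hx hmax ha
    have h1 := img_spec him _ h36 (sat_of_agr' ha)
    exact (hr.2 _ h1 (by rw [hR]; exact hmax)).act hb hM _ _ h1

/-- **Entries which are images of rows excluded everywhere.** -/
theorem imZ_spec (hR : ∀ (ρ γ : Equiv.Perm (Fin 6)) (s : St36), R (actS ρ γ s) = R s)
    {P nP : ℕ} {Q : ℕ → ℕ} {b C : ℕ} (hP : ∀ i < nP, CG2 R (ngM P i) (ngV P i)) (hb : HQ R Q b) :
    ∀ {n : ℕ}, imZ P nP Q b C n = true → HQ R Q (b + n)
  | 0, _ => hb
  | n + 1, h => by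
    have h' : band (imZ P nP Q b C n)
      (imZ1 P nP (cE C n) (gM (Q (Nat.add b n))) (gV (Q (Nat.add b n)))) = true := h
    rw [band_iff] at h'
    have ih := imZ_spec hR hP hb h'.1
    intro i hi
    rcases Nat.lt_succ_iff_lt_or_eq.1 (show i < (b + n) + 1 from hi) with hi | rfl
    · exact ih i hi
    · exact imZ1_spec hR hP h'.2

end Pool.Agent.H28.Z12
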