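import Mathlib
import Pool.Agent.H28.Z12.UCore
import Pool.Agent.H28.Z12.TopDefs
import Pool.Agent.H28.Z12.TR.Triv

/-!
The last step of the cover (MP_1e71f9_co).
-/

set_option autoImplicit false

namespace Pool.Agent.H28.Z12

open Pool.Agent.H77.Z12 Pool.Agent.H13.Z12 Pool.Agent.H64.Z12 Pool.Agent.H28.Z12.Cov
open Pool.Agent.H26.Z12

variable {R : St36 → ℕ}

theorem agr_of_sat {s : St36} {m w : ℕ} (hw : w &&& m = w) (hm : m < 2 ^ 37)
    (h : Pool.Agent.H77.Z12.Sat m w s) : Agr s m w := by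
  have hwm : w ≤ m := by rw [← hw]; exact Nat.and_le_right
  have hb : ∀ i, w.testBit i = (w.testBit i && m.testBit i) := fun i => by
    conv_lhs => rw [← hw]
    rw [Nat.testBit_and]
  show enc s &&& m = w
  refine bits37 (lt_of_le_of_lt Nat.and_le_right hm) (lt_of_le_of_lt hwm hm) (fun k j => ?_) ?_
  · rw [Nat.testBit_and, enc_tb, hb (6 * (k : ℕ) + j)]
    rcases hk : m.testBit (6 * (k : ℕ) + j) with _ | _
    · rw [Bool.and_false, Bool.and_false]
    · rw [h.1 k j hk]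
  · rw [Nat.testBit_and, enc_tb36, hb 36]
    rcases hk : m.testBit 36 with _ | _
    · rw [Bool.and_false, Bool.and_false]
    · rw [h.2 hk]

/-- **Both reversals.** -/
theorem ex_revE (hR : ∀ (ρ γ : Equiv.Perm (Fin 6)) (s : St36), R (actS ρ γ s) = R s)
    {m w gm gv : ℕ} (h : Ex R m w) (hw : w &&& m = w) (hm : m < 2 ^ 37)
    (h36 : gm.testBit 36 = true) (him : imgE m w 385 678 gm gv = true) : Ex R gm gv := by
  intro M hb hM hx hr ha
  have h1 := img_spec him _ h36 (sat_of_agr' ha)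
  rw [perm385, perm678, ← stt_perm hb] at h1
  refine h _ (bad_perm hb _ _) (fun i c => hM _ _) (sx_rev hx) ?_ (agr_of_sat hw hm h1)
  rw [stt_perm hb, hR]
  exact hr

theorem revG_spec (hR : ∀ (ρ γ : Equiv.Perm (Fin 6)) (s : St36), R (actS ρ γ s) = R s)
    {g gm gv : ℕ} (h : Ex R (gM g) (gV g)) (hc : revG g gm gv = true) : Ex R gm gv := by
  rw [revG, band_iff, band_iff, beq_iff, beq_iff] at hc
  refine ex_revE hR h hc.1 ?_ (bit36_of_beq hc.2.1) hc.2.2
  have e : gM g = g &&& 137438953471 := rfl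
  rw [e]
  exact lt_of_le_of_lt Nat.and_le_right (by norm_num)

/-- **Mirror images of earlier entries.** -/
theorem imV_spec (hR : ∀ (ρ γ : Equiv.Perm (Fin 6)) (s : St36), R (actS ρ γ s) = R s)
    {Q : ℕ → ℕ} {b C : ℕ} (hb : HQ R Q b) :
    ∀ {n : ℕ}, imV Q b C n = true → HQ R Q (b + n)
  | 0, _ => hb
  | n + 1, h => by
    have h' : band (imV Q b C n) (band (Nat.ble (Nat.succ (ofs C n)) b)
      (revG (Q (ofs C n)) (gM (Q (Nat.add b n))) (gV (Q (Nat.add b n))))) = true := h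
    rw [band_iff, band_iff, ble_iff] at h'
    have ih := imV_spec hR hb h'.1
    intro i hi
    rcases Nat.lt_succ_iff_lt_or_eq.1 (show i < (b + n) + 1 from hi) with hi | rfl
    · exact ih i hi
    · exact revG_spec hR (hb _ h'.2.1) h'.2.2

/-- **Entries of a table.** -/
theorem cpB_hq {P a b : ℕ} {Q : ℕ → ℕ} (hb : HQ R Q b) :
    ∀ {n : ℕ}, (∀ i < n, Ex R (ngM P (a + i)) (ngV P (a + i))) → cpB P a Q b n = true →
      HQ R Q (b + n)
  | 0, _, _ => hb
  | n + 1, hP, h => by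
    have h' : band (cpB P a Q b n) (band (Nat.beq (gM (Q (Nat.add b n))) (ngM P (Nat.add a n)))
      (Nat.beq (gV (Q (Nat.add b n))) (ngV P (Nat.add a n)))) = true := h
    rw [band_iff, band_iff, beq_iff, beq_iff] at h'
    have ih := cpB_hq hb (fun i hi => hP i (by omega)) h'.1
    intro i hi
    rcases Nat.lt_succ_iff_lt_or_eq.1 (show i < (b + n) + 1 from hi) with hi | rfl
    · exact ih i hi
    · have e1 : gM (Q (b + n)) = ngM P (a + n) := h'.2.1
      have e2 : gV (Q (b + n)) = ngV P (a + n) := h'.2.2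
      rw [e1, e2]
      exact hP n (Nat.lt_succ_self n)

/-- **Copies of entries of another table.** -/
theorem cp_hq {Q Q' : ℕ → ℕ} {a b n m : ℕ} (hb : HQ R Q b) (h : HQ R Q' m)
    (e : ∀ i < n, Q (b + i) = Q' (a + i)) (hm : a + n ≤ m) : HQ R Q (b + n) := by
  intro i hi
  rcases Nat.lt_or_ge i b with h1 | h1
  · exact hb i h1
  · obtain ⟨j, rfl⟩ := Nat.exists_eq_add_of_le h1
    rw [e j (by omega)]
    exact h _ (by omega)

theorem imW1_spec (hR : ∀ (ρ γ : Equiv.Perm (Fin 6)) (s : St36), R (actS ρ γ s) = R s)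
    {P nP c gm gv : ℕ} (hP : ∀ i < nP, CG R (ngM P i) (ngV P i))
    (h : imW1 P nP c gm gv = true) : Ex R gm gv := by
  rw [imW1, band_iff, beq_iff, imZ1, band_iff, ble_iff] at h
  obtain ⟨h0, hi, him⟩ := h
  obtain ⟨h36, -, -, him⟩ := imI_spec him
  obtain ⟨l1, l2, l3, l4⟩ := land21 c
  rw [l1, l2, l3, h0, xor_mul_zero] at him
  have hr := hP _ hi
  intro M hb hM hx hmax ha
  have h1 := img_spec him _ h36 (sat_of_agr' ha)
  exact (hr _ h1 (by rw [hR]; exact hmax)).act hb hM _ _ h1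

/-- **Entries which are images of rows excluded everywhere, without complement.** -/
theorem imW_spec (hR : ∀ (ρ γ : Equiv.Perm (Fin 6)) (s : St36), R (actS ρ γ s) = R s)
    {P nP : ℕ} {Q : ℕ → ℕ} {b C : ℕ} (hP : ∀ i < nP, CG R (ngM P i) (ngV P i)) (hb : HQ R Q b) :
    ∀ {n : ℕ}, imW P nP Q b C n = true → HQ R Q (b + n)
  | 0, _ => hb
  | n + 1, h => by
    have h' : band (imW P nP Q b C n)
      (imW1 P nP (cE C n) (gM (Q (Nat.add b n))) (gV (Q (Nat.add b n)))) = true := h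
    rw [band_iff] at h'
    have ih := imW_spec hR hP hb h'.1
    intro i hi
    rcases Nat.lt_succ_iff_lt_or_eq.1 (show i < (b + n) + 1 from hi) with hi | rfl
    · exact ih i hi
    · exact imW1_spec hR hP h'.2

/-! ### The trivial patterns -/

theorem cg2_t2 : ∀ i < 2, CG2 R (ngM T2 i) (ngV T2 i) := by
  have e : ngM T2 0 = 63 ∧ ngV T2 0 = 63 ∧ ngM T2 1 = 1090785345 ∧ ngV T2 1 = 1090785345 := by
    decide +kernel
  obtain ⟨e1, e2, e3, e4⟩ := e
  intro i hi
  interval_cases i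
  · rw [e1, e2]
    exact cg2_of_good2 TR.tR
  · rw [e3, e4]
    exact cg2_of_good2 TR.tC

theorem cg_t1 : ∀ i < 4, CG R (ngM T1 i) (ngV T1 i) := by
  have e : ngM T1 0 = 4095 ∧ ngV T1 0 = 195 ∧ ngM T1 1 = 4095 ∧ ngV T1 1 = 455 ∧
      ngM T1 2 = 4095 ∧ ngV T1 2 = 975 ∧ ngM T1 3 = 4095 ∧ ngV T1 3 = 2015 := by
    decide +kernel
  obtain ⟨e1, e2, e3, e4, e5, e6, e7, e8⟩ := e
  intro i hi
  interval_cases i
  · rw [e1, e2]
    exact cg_of_good TR.gE2
  · rw [e3, e4]
    exact cg_of_good TR.gE3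
  · rw [e5, e6]
    exact cg_of_good TR.gE4
  · rw [e7, e8]
    exact cg_of_good TR.gE5

end Pool.Agent.H28.Z12
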