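import Pool.Agent.H28.Z12.TopDefs

/-!
Kernel evaluation: entries of a segment of the table of excluded patterns (MP_1e71f9_co).
-/

set_option autoImplicit false

namespace Pool.Agent.H28.Z12.Cov

/-- Entry `j` of a segment, 80 bits each. -/
noncomputable def s80 (T j : Nat) : Nat :=
  Nat.land (Nat.shiftRight T (Nat.mul (nat_lit 80) j)) (nat_lit 18889465931478580854783)

/-- The entries `b, .., b + n - 1` of the segment `T` are the rows `a, .., a + n - 1` of the table
`P` (`f = 0`) or their complements (`f = 1`). -/
noncomputable def cpS (T b P a f : Nat) (n : Nat) : Bool :=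
  @Nat.rec (fun _ => Bool) true (fun e ih => band ih
    (band (Nat.beq (gM (s80 T (Nat.add b e))) (ngM P (Nat.add a e)))
      (Nat.beq (gV (s80 T (Nat.add b e)))
        (Nat.xor (ngV P (Nat.add a e)) (Nat.mul f (ngM P (Nat.add a e))))))) n

/-- The first `n` entries of `E` are zero. -/
noncomputable def zE (E : Nat) (n : Nat) : Bool :=
  @Nat.rec (fun _ => Bool) true (fun e ih => band ih (Nat.beq (e32 E e) (nat_lit 0))) n

/-- Segments of 256 entries. -/
noncomputable def seg8 (T n i : Nat) : Nat :=
  @Bool.rec (fun _ => Nat) (nat_lit 137438953472)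
    (Nat.land (Nat.shiftRight T (Nat.mul (nat_lit 80) (Nat.land i (nat_lit 255)))) (nat_lit 18889465931478580854783))
    (Nat.ble (Nat.succ (Nat.land i (nat_lit 255))) n)

end Pool.Agent.H28.Z12.Cov
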