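import Mathlib
import Pool.Agent.H28.Z12.Top
import Pool.Agent.H28.Z12.CTabDefs
import Pool.Agent.H27.Z12.BMEx

/-!
The table of excluded patterns of a cover of all sign patterns (MP_1e71f9_co).
-/

set_option autoImplicit false

namespace Pool.Agent.H28.Z12

open Pool.Agent.H77.Z12 Pool.Agent.H13.Z12 Pool.Agent.H64.Z12 Pool.Agent.H28.Z12.Cov
open Pool.Agent.H26.Z12
open Pool.Agent.H32.Z12 (Z29 V29)

variable {R : St36 → ℕ}

/-- No chart of maximal rank agrees with the pattern. -/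
def CX (R : St36 → ℕ) (Ym Y : ℕ) : Prop := ∀ M : Fin 6 → Fin 6 → ℝ, Bad (cf M) →
  (∀ i c, 0 < M i c) → MaxOf R (R (stt M)) → ¬ Agr (stt M) Ym Y

theorem cx_of_cg {m w : ℕ} (h : CG R m w) : CX R m w := fun M hb hM hr ha =>
  h _ (sat_of_agr' ha) hr M hb hM (sat_of_agr' ha)

theorem cx_never : CX R (gM (nat_lit 137438953472)) (gV (nat_lit 137438953472)) := by
  intro M _ _ _ ha
  have h : enc (stt M) &&& gM 137438953472 = gV 137438953472 := ha
  have e1 : gM 137438953472 = 0 := by decide +kernel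
  have e2 : gV 137438953472 = 1 := by decide +kernel
  rw [e1, e2, Nat.and_zero] at h
  exact absurd h (by norm_num)

/-- All entries of the table are excluded. -/
def OKC (R : St36 → ℕ) (Q : ℕ → ℕ) : Prop := ∀ i, CX R (gM (Q i)) (gV (Q i))

/-- All entries of the segment are excluded. -/
def HS (R : St36 → ℕ) (T n : ℕ) : Prop := ∀ j < n, CX R (gM (s80 T j)) (gV (s80 T j))

theorem OKC.emp : OKC R Pool.Agent.H27.Z12.BM.emp := fun _ => cx_never

theorem OKC.br {A B : ℕ → ℕ} (b : ℕ) (hA : OKC R A) (hB : OKC R B) :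
    OKC R (Pool.Agent.H27.Z12.BM.br b A B) := fun i => by
  unfold Pool.Agent.H27.Z12.BM.br
  cases Nat.beq (Nat.land (Nat.shiftRight i b) 1) 1
  · exact hA i
  · exact hB i

theorem OKC.seg {T n : ℕ} (h : HS R T n) : OKC R (Pool.Agent.H27.Z12.BM.seg T n) := fun i => by
  unfold Pool.Agent.H27.Z12.BM.seg
  rcases hb : Nat.ble (Nat.succ (Nat.land i 1023)) n with _ | _
  · exact cx_never
  · exact h _ (Nat.le_of_ble_eq_true hb)

theorem OKC.seg8 {T n : ℕ} (h : HS R T n) : OKC R (Cov.seg8 T n) := fun i => by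
  unfold Cov.seg8
  rcases hb : Nat.ble (Nat.succ (Nat.land i 255)) n with _ | _
  · exact cx_never
  · exact h _ (Nat.le_of_ble_eq_true hb)

theorem hs_zero {T : ℕ} : HS R T 0 := fun _ h => absurd h (Nat.not_lt_zero _)

/-- **Rows of a table.** -/
theorem hs_cp0 {T b P a nP : ℕ} (hb : HS R T b) (hP : ∀ i < nP, CG R (ngM P i) (ngV P i)) :
    ∀ {n : ℕ}, cpS T b P a 0 n = true → a + n ≤ nP → HS R T (b + n)
  | 0, _, _ => hb
  | n + 1, h, hn => by
    have h' : band (cpS T b P a 0 n) (band (Nat.beq (gM (s80 T (Nat.add b n))) (ngM P (Nat.add a n)))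
      (Nat.beq (gV (s80 T (Nat.add b n)))
        (Nat.xor (ngV P (Nat.add a n)) (Nat.mul 0 (ngM P (Nat.add a n)))))) = true := h
    rw [band_iff, band_iff, beq_iff, beq_iff, xor_mul_zero] at h'
    have ih := hs_cp0 hb hP h'.1 (by omega)
    intro i hi
    rcases Nat.lt_succ_iff_lt_or_eq.1 (show i < (b + n) + 1 from hi) with hi | rfl
    · exact ih i hi
    · have e1 : gM (s80 T (b + n)) = ngM P (a + n) := h'.2.1
      have e2 : gV (s80 T (b + n)) = ngV P (a + n) := h'.2.2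
      rw [e1, e2]
      exact cx_of_cg (hP _ (by omega))

/-- **Complements of rows of a table.** -/
theorem hs_cp1 {T b P a nP : ℕ} (hb : HS R T b) (hP : ∀ i < nP, CG2 R (ngM P i) (ngV P i)) :
    ∀ {n : ℕ}, cpS T b P a 1 n = true → a + n ≤ nP → HS R T (b + n)
  | 0, _, _ => hb
  | n + 1, h, hn => by
    have h' : band (cpS T b P a 1 n) (band (Nat.beq (gM (s80 T (Nat.add b n))) (ngM P (Nat.add a n)))
      (Nat.beq (gV (s80 T (Nat.add b n)))
        (Nat.xor (ngV P (Nat.add a n)) (Nat.mul 1 (ngM P (Nat.add a n)))))) = true := h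
    rw [band_iff, band_iff, beq_iff, beq_iff] at h'
    have ih := hs_cp1 hb hP h'.1 (by omega)
    intro i hi
    rcases Nat.lt_succ_iff_lt_or_eq.1 (show i < (b + n) + 1 from hi) with hi | rfl
    · exact ih i hi
    · have e1 : gM (s80 T (b + n)) = ngM P (a + n) := h'.2.1
      have e2 : gV (s80 T (b + n)) = ngV P (a + n) ^^^ (1 * ngM P (a + n)) := h'.2.2
      rw [e1, e2, Nat.one_mul]
      exact cx_of_cg (hP _ (by omega)).2

/-- Both, interleaved results of one block. -/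
theorem cg_of_cg2 {P nP : ℕ} (h : ∀ i < nP, CG2 R (ngM P i) (ngV P i)) :
    ∀ i < nP, CG R (ngM P i) (ngV P i) := fun i hi => (h i hi).1

/-! ### Blocks of the production -/

theorem zL_zero (Z V : ℕ) : zL Z 0 V = [] := by
  rw [zL, List.filter_eq_nil_iff.2 fun i _ => by rw [Nat.zero_testBit]; exact Bool.false_ne_true,
    List.map_nil]

theorem zE_spec {E : ℕ} : ∀ {n : ℕ}, zE E n = true → ∀ i < n, e32 E i = 0
  | 0, _, i, hi => absurd hi (Nat.not_lt_zero i)
  | n + 1, h, i, hi => by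
    have h' : band (zE E n) (Nat.beq (e32 E n) 0) = true := h
    rw [band_iff, beq_iff] at h'
    rcases Nat.lt_succ_iff_lt_or_eq.1 hi with hi | rfl
    · exact zE_spec h'.1 i hi
    · exact h'.2

/-- Rows refuted in the relaxed model, without further signs. -/
theorem cg2_blk {P E n : ℕ}
    (h : ∀ i < n, RRefX (ngM P i) (ngV P i) (zL Z29 (e32 E i) V29) 0 0) (hE : zE E n = true) :
    ∀ i < n, CG2 R (ngM P i) (ngV P i) := fun i hi => by
  have h1 := h i hi
  rw [zE_spec hE i hi, zL_zero] at h1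
  exact cg2_of_good2 (good2_of_rref_nil h1)

theorem cg2_blk0 {P n : ℕ} (h : ∀ i < n, RRefX (ngM P i) (ngV P i) [] 0 0) :
    ∀ i < n, CG2 R (ngM P i) (ngV P i) := fun i hi => cg2_of_good2 (good2_of_rref_nil (h i hi))

/-- Rows refuted in the full model, without further signs. -/
theorem cg_blk {P E n : ℕ}
    (h : ∀ i < n, RefX (ngM P i) (ngV P i) (zL Z29 (e32 E i) V29) 0 0) (hE : zE E n = true) :
    ∀ i < n, CG R (ngM P i) (ngV P i) := fun i hi => by
  have h1 := h i hi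
  rw [zE_spec hE i hi, zL_zero] at h1
  exact cg_of_good (good_of_ref_nil h1)

theorem cg_blk0 {P n : ℕ} (h : ∀ i < n, RefX (ngM P i) (ngV P i) [] 0 0) :
    ∀ i < n, CG R (ngM P i) (ngV P i) := fun i hi => cg_of_good (good_of_ref_nil (h i hi))

theorem cg2_good2 {P n : ℕ} (h : ∀ i < n, Good2 (ngM P i) (ngV P i)) :
    ∀ i < n, CG2 R (ngM P i) (ngV P i) := fun i hi => cg2_of_good2 (h i hi)

/-- One pattern. -/
theorem hs_one {T b m w : ℕ} (hb : HS R T b) (h : CG R m w)
    (hc : band (Nat.beq (gM (s80 T b)) m) (Nat.beq (gV (s80 T b)) w) = true) : HS R T (b + 1) := by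
  rw [band_iff, beq_iff, beq_iff] at hc
  intro i hi
  rcases Nat.lt_succ_iff_lt_or_eq.1 hi with hi | rfl
  · exact hb i hi
  · rw [hc.1, hc.2]
    exact cx_of_cg h

/-- The complement of one pattern. -/
theorem hs_one1 {T b m w : ℕ} (hb : HS R T b) (h : CG2 R m w)
    (hc : band (Nat.beq (gM (s80 T b)) m) (Nat.beq (gV (s80 T b)) (Nat.xor w m)) = true) :
    HS R T (b + 1) :=
  hs_one hb h.2 hc

/-! ### The cover -/

/-- Every sign pattern has an image in the table. -/
def HitC (Q : ℕ → ℕ) : Prop := ∀ s : St36, ∃ (ρ γ : Equiv.Perm (Fin 6)) (i : ℕ),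
  Agr (actS ρ γ s) (gM (Q i)) (gV (Q i))

/-- **No bad configuration from a table of excluded patterns which covers all patterns.** -/
theorem not_bad_of_okc {Q : ℕ → ℕ} (hR : ∀ (ρ γ : Equiv.Perm (Fin 6)) (s : St36),
    R (actS ρ γ s) = R s) (hN : ∃ N, ∀ s, R s < N) (h : HitC Q) (hQ : OKC R Q)
    (v : Fin 12 → Fin 6 → ℝ) : ¬ Bad v := by
  intro hv
  obtain ⟨M, hb, hM, hr⟩ := exists_max_chart hN hv
  obtain ⟨ρ, γ, i, ha⟩ := h (stt M)
  rw [← stt_perm hb] at ha
  refine hQ i _ (bad_perm hb ρ γ) (fun i c => hM _ _) ?_ ha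
  rw [stt_perm hb, hR]
  exact hr

theorem not_bad_rr {F G : ℕ} {Q : ℕ → ℕ} (h : HitC Q) (hQ : OKC (RR F G) Q)
    (v : Fin 12 → Fin 6 → ℝ) : ¬ Bad v :=
  not_bad_of_okc (rr_act F G) ⟨_, rr_lt F G⟩ h hQ v

end Pool.Agent.H28.Z12
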