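import Mathlib
import Pool.Agent.H28.Z12.CTab

/-!
The table of excluded patterns of a cover of all sign patterns: patterns excluded together with
their complements, and the others (MP_1e71f9_co).
-/

set_option autoImplicit false

namespace Pool.Agent.H28.Z12

open Pool.Agent.H77.Z12 Pool.Agent.H13.Z12 Pool.Agent.H64.Z12 Pool.Agent.H28.Z12.Cov
open Pool.Agent.H26.Z12
open Pool.Agent.H32.Z12 (Z29 V29)

variable {R : St36 → ℕ}

/-- No chart of maximal rank agrees with the pattern or with its complement. -/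
def CX2 (R : St36 → ℕ) (m w : ℕ) : Prop := CX R m w ∧ CX R m (w ^^^ m)

theorem cx2_of_cg2 {m w : ℕ} (h : CG2 R m w) : CX2 R m w := ⟨cx_of_cg h.1, cx_of_cg h.2⟩

theorem cx2_never : CX2 R (gM (nat_lit 137438953472)) (gV (nat_lit 137438953472)) := by
  have e1 : gM 137438953472 = 0 := by decide +kernel
  refine ⟨cx_never, ?_⟩
  have h := cx_never (R := R)
  show CX R (gM 137438953472) (gV 137438953472 ^^^ gM 137438953472)
  rw [e1, Nat.xor_zero]
  intro M hb hM hr ha
  refine h M hb hM hr ?_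
  show Agr (stt M) (gM 137438953472) (gV 137438953472)
  rw [e1]
  exact ha

/-- All entries of the table are excluded with their complements. -/
def OKC2 (R : St36 → ℕ) (Q : ℕ → ℕ) : Prop := ∀ i, CX2 R (gM (Q i)) (gV (Q i))

/-- All entries of the segment are excluded with their complements. -/
def HS2 (R : St36 → ℕ) (T n : ℕ) : Prop := ∀ j < n, CX2 R (gM (s80 T j)) (gV (s80 T j))

theorem OKC2.okc {Q : ℕ → ℕ} (h : OKC2 R Q) : OKC R Q := fun i => (h i).1

theorem OKC2.emp : OKC2 R Pool.Agent.H27.Z12.BM.emp := fun _ => cx2_never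

theorem OKC2.br {A B : ℕ → ℕ} (b : ℕ) (hA : OKC2 R A) (hB : OKC2 R B) :
    OKC2 R (Pool.Agent.H27.Z12.BM.br b A B) := fun i => by
  unfold Pool.Agent.H27.Z12.BM.br
  cases Nat.beq (Nat.land (Nat.shiftRight i b) 1) 1
  · exact hA i
  · exact hB i

theorem OKC2.seg8 {T n : ℕ} (h : HS2 R T n) : OKC2 R (Cov.seg8 T n) := fun i => by
  unfold Cov.seg8
  rcases hb : Nat.ble (Nat.succ (Nat.land i 255)) n with _ | _
  · exact cx2_never
  · exact h _ (Nat.le_of_ble_eq_true hb)

theorem hs2_zero {T : ℕ} : HS2 R T 0 := fun _ h => absurd h (Nat.not_lt_zero _)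

/-- **Rows of a table.** -/
theorem hs2_cp {T b P a nP : ℕ} (hb : HS2 R T b) (hP : ∀ i < nP, CG2 R (ngM P i) (ngV P i)) :
    ∀ {n : ℕ}, cpS T b P a 0 n = true → a + n ≤ nP → HS2 R T (b + n)
  | 0, _, _ => hb
  | n + 1, h, hn => by
    have h' : band (cpS T b P a 0 n) (band (Nat.beq (gM (s80 T (Nat.add b n))) (ngM P (Nat.add a n)))
      (Nat.beq (gV (s80 T (Nat.add b n)))
        (Nat.xor (ngV P (Nat.add a n)) (Nat.mul 0 (ngM P (Nat.add a n)))))) = true := h
    rw [band_iff, band_iff, beq_iff, beq_iff, xor_mul_zero] at h'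
    have ih := hs2_cp hb hP h'.1 (by omega)
    intro i hi
    rcases Nat.lt_succ_iff_lt_or_eq.1 (show i < (b + n) + 1 from hi) with hi | rfl
    · exact ih i hi
    · have e1 : gM (s80 T (b + n)) = ngM P (a + n) := h'.2.1
      have e2 : gV (s80 T (b + n)) = ngV P (a + n) := h'.2.2
      rw [e1, e2]
      exact cx2_of_cg2 (hP _ (by omega))

/-- One pattern. -/
theorem hs2_one {T b m w : ℕ} (hb : HS2 R T b) (h : CG2 R m w)
    (hc : band (Nat.beq (gM (s80 T b)) m) (Nat.beq (gV (s80 T b)) w) = true) : HS2 R T (b + 1) := by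
  rw [band_iff, beq_iff, beq_iff] at hc
  intro i hi
  rcases Nat.lt_succ_iff_lt_or_eq.1 hi with hi | rfl
  · exact hb i hi
  · rw [hc.1, hc.2]
    exact cx2_of_cg2 h

/-- Two one-sided results for a pattern and its complement. -/
theorem cg2_of_two {m w w' : ℕ} (h : CG R m w) (h' : CG R m w') (e : w ^^^ m = w') :
    CG2 R m w := ⟨h, by rw [e]; exact h'⟩

theorem bit18 {i : ℕ} (h : i < 262144) : Nat.beq (Nat.land (Nat.shiftRight i 18) 1) 1 = false := by
  have e : Nat.shiftRight i 18 = 0 := by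
    show i >>> 18 = 0
    rw [Nat.shiftRight_eq_div_pow]
    exact Nat.div_eq_of_lt (by omega)
  rw [e]
  rfl

/-- The part of a table with the numbers below `2 ^ 18`. -/
theorem okc2_low {A B : ℕ → ℕ} (hA : OKC2 R A) : ∀ i, Nat.ble (Nat.succ i) (nat_lit 262144) = true →
    CX2 R (gM (Pool.Agent.H27.Z12.BM.br (nat_lit 18) A B i))
      (gV (Pool.Agent.H27.Z12.BM.br (nat_lit 18) A B i)) := fun i hi => by
  unfold Pool.Agent.H27.Z12.BM.br
  rw [show Nat.beq (Nat.land (Nat.shiftRight i (nat_lit 18)) 1) 1 = false from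
    bit18 (Nat.lt_of_succ_le (Nat.le_of_ble_eq_true hi))]
  exact hA i

theorem okc_br18 {A B : ℕ → ℕ} (hA : OKC2 R A) (hB : OKC R B) :
    OKC R (Pool.Agent.H27.Z12.BM.br (nat_lit 18) A B) := OKC.br 18 hA.okc hB

end Pool.Agent.H28.Z12
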