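/-!
A joiner for long numbers (MP_1e71f9_co): `j16 w a0 .. a15` is the number whose digits to the base `2 ^ w` are `a0 .. a15`.
-/

set_option autoImplicit false

namespace Pool.Agent.H28.Z12

/-- The number with digits `a0 .. a15` to the base `2 ^ w`, lowest first. -/
noncomputable def j16 (w a0 a1 a2 a3 a4 a5 a6 a7 a8 a9 a10 a11 a12 a13 a14 a15 : Nat) : Nat :=
  Nat.lor
    (Nat.lor (Nat.lor (Nat.lor a0 (Nat.shiftLeft a1 w)) (Nat.shiftLeft (Nat.lor a2 (Nat.shiftLeft a3 w)) (Nat.mul 2 w)))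
      (Nat.shiftLeft (Nat.lor (Nat.lor a4 (Nat.shiftLeft a5 w)) (Nat.shiftLeft (Nat.lor a6 (Nat.shiftLeft a7 w)) (Nat.mul 2 w)))
        (Nat.mul 4 w)))
    (Nat.shiftLeft
      (Nat.lor (Nat.lor (Nat.lor a8 (Nat.shiftLeft a9 w)) (Nat.shiftLeft (Nat.lor a10 (Nat.shiftLeft a11 w)) (Nat.mul 2 w)))
        (Nat.shiftLeft
          (Nat.lor (Nat.lor a12 (Nat.shiftLeft a13 w)) (Nat.shiftLeft (Nat.lor a14 (Nat.shiftLeft a15 w)) (Nat.mul 2 w)))
          (Nat.mul 4 w)))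
      (Nat.mul 8 w))

end Pool.Agent.H28.Z12
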