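import Pool.Agent.H13.Z12.Defs6
import Pool.Agent.H28.Z12.OrthDefs

/-!
Orthogonality clauses in the blocks of the sixth checker (MP_1e71f9_co): a further table of 32-bit
codes. Code: number of the 7-set `C` (10 bits), number of the 5-set `Z` (10 bits), signs `t`
(12 bits; a bit outside `J` = `C` without `Z` stands for `e` = 1).
-/

set_option autoImplicit false
set_option maxRecDepth 10000

namespace Pool.Agent.H28.Z12.O6

open Pool.Agent.H13.Z12.B3 (tr sw)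
open Pool.Agent.H13.Z12.B6

noncomputable section

/-- the 7-sets, 12 bits each -/
def W7 : Nat := nat_lit 0xfe0fd0fc8fc4fc2fc1fb0fa8fa4fa2fa1f98f94f92f91f8cf8af89f86f85f83f70f68f64f62f61f58f54f52f51f4cf4af49f46f45f43f38f34f32f31f2cf2af29f26f25f23f1cf1af19f16f15f13f0ef0df0bf07ef0ee8ee4ee2ee1ed8ed4ed2ed1eccecaec9ec6ec5ec3eb8eb4eb2eb1eaceaaea9ea6ea5ea3e9ce9ae99e96e95e93e8ee8de8be87e78e74e72e71e6ce6ae69e66e65e63e5ce5ae59e56e55e53e4ee4de4be47e3ce3ae39e36e35e33e2ee2de2be27e1ee1de1be17e0fdf0de8de4de2de1dd8dd4dd2dd1dccdcadc9dc6dc5dc3db8db4db2db1dacdaada9da6da5da3d9cd9ad99d96d95d93d8ed8dd8bd87d78d74d72d71d6cd6ad69d66d65d63d5cd5ad59d56d55d53d4ed4dd4bd47d3cd3ad39d36d35d33d2ed2dd2bd27d1ed1dd1bd17d0fcf8cf4cf2cf1cecceace9ce6ce5ce3cdccdacd9cd6cd5cd3cceccdccbcc7cbccbacb9cb6cb5cb3caecadcabca7c9ec9dc9bc97c8fc7cc7ac79c76c75c73c6ec6dc6bc67c5ec5dc5bc57c4fc3ec3dc3bc37c2fc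1fbf0be8be4be2be1bd8bd4bd2bd1bccbcabc9bc6bc5bc3bb8bb4bb2bb1bacbaaba9ba6ba5ba3b9cb9ab99b96b95b93b8eb8db8bb87b78b74b72b71b6cb6ab69b66b65b63b5cb5ab59b56b55b53b4eb4db4bb47b3cb3ab39b36b35b33b2eb2db2bb27b1eb1db1bb17b0faf8af4af2af1aecaeaae9ae6ae5ae3adcadaad9ad6ad5ad3aceacdacbac7abcabaab9ab6ab5ab3aaeaadaabaa7a9ea9da9ba97a8fa7ca7aa79a76a75a73a6ea6da6ba67a5ea5da5ba57a4fa3ea3da3ba37a2fa1f9f89f49f29f19ec9ea9e99e69e59e39dc9da9d99d69d59d39ce9cd9cb9c79bc9ba9b99b69b59b39ae9ad9ab9a799e99d99b99798f97c97a97997697597396e96d96b96795e95d95b95794f93e93d93b93792f91f8fc8fa8f98f68f58f38ee8ed8eb8e78de8dd8db8d78cf8be8bd8bb8b78af89f87e87d87b87786f85f83f7f07e87e47e27e17d87d47d27d17cc7ca7c97c67c57c37b87b47b27b17ac7aa7a97a67a57a379c79a79979679579378e78d78b78777877477277176c76a76976676576375c75a75975675575374e74d74b74773c73a73973673573372e72d72b72771e71d71b71770f6f86f46f26f16ec6ea6e96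e66e56e36dc6da6d96d66d56d36ce6cd6cb6c76bc6ba6b96b66b56b36ae6ad6ab6a769e69d69b69768f67c67a67967667567366e66d66b66765e65d65b65764f63e63d63b63762f61f5f85f45f25f15ec5ea5e95e65e55e35dc5da5d95d65d55d35ce5cd5cb5c75bc5ba5b95b65b55b35ae5ad5ab5a759e59d59b59758f57c57a57957657557356e56d56b56755e55d55b55754f53e53d53b53752f51f4fc4fa4f94f64f54f34ee4ed4eb4e74de4dd4db4d74cf4be4bd4bb4b74af49f47e47d47b47746f45f43f3f83f43f23f13ec3ea3e93e63e53e33dc3da3d93d63d53d33ce3cd3cb3c73bc3ba3b93b63b53b33ae3ad3ab3a739e39d39b39738f37c37a37937637537336e36d36b36735e35d35b35734f33e33d33b33732f31f2fc2fa2f92f62f52f32ee2ed2eb2e72de2dd2db2d72cf2be2bd2bb2b72af29f27e27d27b27726f25f23f1fc1fa1f91f61f51f31ee1ed1eb1e71de1dd1db1d71cf1be1bd1bb1b71af19f17e17d17b17716f15f13f0fe0fd0fb0f70ef0df0bf07f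

def tb7 (x : Nat) : Nat :=
  Nat.land (Nat.shiftRight W7 (Nat.mul (nat_lit 12) (Nat.land x (nat_lit 1023)))) (nat_lit 4095)

/-- one if not zero -/
def eb (x : Nat) : Nat := @Nat.rec (fun _ => Nat) (nat_lit 0) (fun _ _ => nat_lit 1) x

def g3 (C Z t : Nat) (J : Nat) : Nat :=
  genOH C Z t (eb (Nat.land t (Nat.xor (nat_lit 4095) J))) J

def g2 (c z t : Nat) : Nat :=
  g3 (Nat.succ c) (Nat.succ z) t (Nat.land (Nat.succ c) (Nat.xor (nat_lit 4095) (Nat.succ z)))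

def g1 (v c : Nat) (_ : Nat) : Nat :=
  @Nat.rec (fun _ => Nat) tr (fun z _ => g2 c z (Nat.land (Nat.shiftRight v (nat_lit 20)) (nat_lit 4095)))
    (tb5 (Nat.shiftRight v (nat_lit 10)))

/-- orthogonality clause of a code -/
def gO (v : Nat) : Nat := @Nat.rec (fun _ => Nat) tr (g1 v) (tb7 v)

/-- base clauses, orthogonality clauses and imported clauses -/
def BO (G S : Nat → Nat) (m tg tc tz tq ti n1 n2 n3 n4 : Nat) : Nat → Nat :=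
  sw n1 (tG tg) (sw n2 (tC tc) (sw n3 (tO G tz) (sw n4 (tO gO tq) (tI S m ti))))

end

end Pool.Agent.H28.Z12.O6
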