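import Mathlib
import Pool.Agent.H13.Z12.Glue6
import Pool.Agent.H28.Z12.Orth
import Pool.Agent.H28.Z12.Orth6Defs

/-!
Orthogonality clauses in the blocks of the sixth checker are true (MP_1e71f9_co).
-/

set_option autoImplicit false
set_option maxRecDepth 10000

namespace Pool.Agent.H28.Z12.O6

open Pool.Agent.H77.Z12 Pool.Agent.H64.Z12 Pool.Agent.H28.Z12
open Pool.Agent.H13.Z12 (Cl Fa)
open Pool.Agent.H13.Z12.B3 (Ok CL_tr CL_of_Cl sw tr)
open Pool.Agent.H13.Z12.B6
open Pool.Agent.H32.Z12 (aT)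

variable {χ T : ℕ → Bool}

theorem tb7_check : ((List.range 1024).all fun x => (Nat.beq (tb7 x) 0) || (Nat.beq (pc (tb7 x)) 7)) = true := by
  decide +kernel

theorem tb5_check : ((List.range 1024).all fun x => (Nat.beq (tb5 x) 0) || (Nat.beq (pc (tb5 x)) 5)) = true := by
  decide +kernel

theorem land_1023 (x : ℕ) : Nat.land x 1023 < 1024 := by
  change x &&& (2 ^ 10 - 1) < 1024
  rw [Nat.and_two_pow_sub_one_eq_mod]
  exact Nat.mod_lt _ (by norm_num)

theorem land_idem (x : ℕ) : Nat.land (Nat.land x 1023) 1023 = Nat.land x 1023 := by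
  change (x &&& 1023) &&& 1023 = x &&& 1023
  rw [Nat.and_assoc, Nat.and_self]

theorem tb7_pc {x c : ℕ} (h : tb7 x = Nat.succ c) : pc (Nat.succ c) = 7 := by
  have e : tb7 x = tb7 (Nat.land x 1023) := by
    unfold tb7
    rw [land_idem]
  have h1 := list_range_all tb7_check (Nat.land x 1023) (land_1023 x)
  rw [← e, h, Bool.or_eq_true] at h1
  rcases h1 with h1 | h1
  · exact absurd (Nat.eq_of_beq_eq_true h1) (Nat.succ_ne_zero c)
  · exact Nat.eq_of_beq_eq_true h1

theorem tb5_pc {x c : ℕ} (h : tb5 x = Nat.succ c) : pc (Nat.succ c) = 5 := by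
  have e : tb5 x = tb5 (Nat.land x 1023) := by
    unfold tb5
    rw [land_idem]
  have h1 := list_range_all tb5_check (Nat.land x 1023) (land_1023 x)
  rw [← e, h, Bool.or_eq_true] at h1
  rcases h1 with h1 | h1
  · exact absurd (Nat.eq_of_beq_eq_true h1) (Nat.succ_ne_zero c)
  · exact Nat.eq_of_beq_eq_true h1

theorem tb7_lt (x : ℕ) : tb7 x < 4096 := land_4095 _

theorem eb_lt (x : ℕ) : eb x < 2 := by
  cases x
  · exact (by norm_num : (0 : ℕ) < 2)
  · exact (by norm_num : (1 : ℕ) < 2)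

/-- **The orthogonality clauses of the codes are true.** -/
theorem gO_cl
    (hcc : ∀ A, pc A = 5 → ∀ (ε : Bool) (s : ℕ),
      (∀ j < 12, A.testBit j = false → s.testBit j = xor (csm χ A j) ε) → T s = true)
    (hkc : ∀ A, pc A = 7 → ∀ (ε : Bool) (s : ℕ),
      (∀ j < 12, A.testBit j = true → s.testBit j = xor (ksm χ A j) ε) → T s = false)
    (v : ℕ) : Pool.Agent.H13.Z12.B3.CL χ T W0 (gO v) := by
  rcases h7 : tb7 v with _ | c
  · have e : gO v = tr := by
      unfold gO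
      rw [h7]
      exact rfl
    rw [e]
    exact CL_tr
  rcases h5 : tb5 (Nat.shiftRight v 10) with _ | z
  · have e : gO v = tr := by
      unfold gO
      rw [h7]
      change @Nat.rec (fun _ => Nat) tr _ (tb5 (Nat.shiftRight v 10)) = tr
      rw [h5]
      exact rfl
    rw [e]
    exact CL_tr
  have h5' : tb5 (Nat.shiftRight v 10) = Nat.succ z := h5
  have e : gO v = g2 c z (Nat.land (Nat.shiftRight v 20) 4095) := by
    unfold gO
    rw [h7]
    change @Nat.rec (fun _ => Nat) tr _ (tb5 (Nat.shiftRight v 10)) = _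
    rw [h5']
  rw [e]
  have h7' : tb7 v = Nat.succ c := h7
  have hC : Nat.succ c < 4096 := by rw [← h7']; exact tb7_lt v
  have hZ : Nat.succ z < 4096 := by rw [← h5']; exact tb5_lt _
  exact CL_of_Cl (cl_of_sat (genOH_sat hcc hkc hC (tb7_pc h7') hZ (tb5_pc h5') (eb_lt _)))

/-- The entries of the tables are true. -/
theorem good_BO {G S : ℕ → ℕ} (hG : Ok χ T G)
    (hcc : ∀ A, pc A = 5 → ∀ (ε : Bool) (s : ℕ),
      (∀ j < 12, A.testBit j = false → s.testBit j = xor (csm χ A j) ε) → T s = true)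
    (hkc : ∀ A, pc A = 7 → ∀ (ε : Bool) (s : ℕ),
      (∀ j < 12, A.testBit j = true → s.testBit j = xor (ksm χ A j) ε) → T s = false)
    {m : ℕ} (hS : ∀ i < m, Cl χ T (S i))
    (tg tc tz tq ti n1 n2 n3 n4 : ℕ) : Ga χ T (BO G S m tg tc tz tq ti n1 n2 n3 n4) := by
  have hi : Ga χ T (tI S m ti) := by
    intro i
    change Gq χ T (fx (@Bool.rec (fun _ => Nat) tr (S (aT ti i)) (Nat.ble (Nat.succ (aT ti i)) m)))
    apply good_fx
    cases hb : Nat.ble (Nat.succ (aT ti i)) m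
    · exact CL_tr
    · exact CL_of_Cl (hS _ (Nat.le_of_ble_eq_true hb))
  exact Ga.sw (fun i => good_fx (gm_CL hG.gp _)) (Ga.sw (fun i => good_fx (cm_CL hG.cc _))
    (Ga.sw (fun i => good_fx (CL_of_Cl (hG.g _)))
      (Ga.sw (fun i => good_fx (gO_cl hcc hkc _)) hi n4) n3) n2) n1

/-- **All clauses of a block**. -/
theorem good_CCO {G S M : ℕ → ℕ} (hG : Ok χ T G)
    (hcc : ∀ A, pc A = 5 → ∀ (ε : Bool) (s : ℕ),
      (∀ j < 12, A.testBit j = false → s.testBit j = xor (csm χ A j) ε) → T s = true)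
    (hkc : ∀ A, pc A = 7 → ∀ (ε : Bool) (s : ℕ),
      (∀ j < 12, A.testBit j = true → s.testBit j = xor (ksm χ A j) ε) → T s = false)
    {w NB NM K TH f m tg tc tz tq ti n1 n2 n3 n4 : ℕ} (hS : ∀ i < m, Cl χ T (S i)) :
    OC χ T (CC NB (BO G S m tg tc tz tq ti n1 n2 n3 n4)
      (EE w NB NM K TH (BO G S m tg tc tz tq ti n1 n2 n3 n4) M f)) :=
  ⟨G, hG, good_CC' (good_BO hG hcc hkc hS _ _ _ _ _ _ _ _ _)
    (good_EE hG (good_BO hG hcc hkc hS _ _ _ _ _ _ _ _ _) _ _ _ _ _ _) _⟩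

/-- All clauses of a block without imported clauses. -/
theorem good_C0O {G S M : ℕ → ℕ} (hG : Ok χ T G)
    (hcc : ∀ A, pc A = 5 → ∀ (ε : Bool) (s : ℕ),
      (∀ j < 12, A.testBit j = false → s.testBit j = xor (csm χ A j) ε) → T s = true)
    (hkc : ∀ A, pc A = 7 → ∀ (ε : Bool) (s : ℕ),
      (∀ j < 12, A.testBit j = true → s.testBit j = xor (ksm χ A j) ε) → T s = false)
    {w NB NM K TH f tg tc tz tq ti n1 n2 n3 n4 : ℕ} :
    OC χ T (CC NB (BO G S (nat_lit 0) tg tc tz tq ti n1 n2 n3 n4)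
      (EE w NB NM K TH (BO G S (nat_lit 0) tg tc tz tq ti n1 n2 n3 n4) M f)) :=
  good_CCO hG hcc hkc fun i hi => absurd hi (Nat.not_lt_zero i)

end Pool.Agent.H28.Z12.O6
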