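import Pool.Agent.H28.Z12.CoverDefs

/-!
Kernel evaluation: the table of the cover and the table of the pairs (MP_1e71f9_co).
-/

set_option autoImplicit false

namespace Pool.Agent.H28.Z12.Cov

/-- Entries `a + 2 t` and `a + 2 t + 1` of `G` are entry `t` of `GP` and its complement. -/
noncomputable def pairE (G GP a t : Nat) : Bool :=
  band (band (Nat.beq (ngM G (Nat.add a (Nat.mul (nat_lit 2) t))) (ngM GP t))
      (Nat.beq (ngV G (Nat.add a (Nat.mul (nat_lit 2) t))) (ngV GP t)))
    (band (Nat.beq (ngM G (Nat.succ (Nat.add a (Nat.mul (nat_lit 2) t)))) (ngM GP t))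
      (Nat.beq (ngV G (Nat.succ (Nat.add a (Nat.mul (nat_lit 2) t)))) (Nat.xor (ngV GP t) (ngM GP t))))

/-- All pairs. -/
noncomputable def pairA (G GP a n : Nat) : Bool :=
  @Nat.rec (fun _ => Bool) true (fun t ih => band ih (pairE G GP a t)) n

end Pool.Agent.H28.Z12.Cov
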