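import Mathlib
import Pool.Agent.H28.Z12.Good2
import Pool.Agent.H28.Z12.PairDefs

/-!
From the table of pairs to the table of the cover (MP_1e71f9_co).
-/

set_option autoImplicit false

namespace Pool.Agent.H28.Z12

open Pool.Agent.H77.Z12 Pool.Agent.H28.Z12.Cov

theorem pairA_spec {G GP a : ℕ} : ∀ {n : ℕ}, pairA G GP a n = true → ∀ t < n,
    ngM G (a + 2 * t) = ngM GP t ∧ ngV G (a + 2 * t) = ngV GP t ∧
      ngM G (a + 2 * t + 1) = ngM GP t ∧ ngV G (a + 2 * t + 1) = ngV GP t ^^^ ngM GP t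
  | 0, _, t, ht => absurd ht (Nat.not_lt_zero t)
  | n + 1, h, t, ht => by
    have h' : band (pairA G GP a n) (pairE G GP a n) = true := h
    rw [band_iff] at h'
    rcases Nat.lt_succ_iff_lt_or_eq.1 ht with ht | rfl
    · exact pairA_spec h'.1 t ht
    · have h2 := h'.2
      rw [pairE, band_iff, band_iff, band_iff, beq_iff, beq_iff, beq_iff, beq_iff] at h2
      exact ⟨h2.1.1, h2.1.2, h2.2.1, h2.2.2⟩

/-- The patterns of the cover from the pairs: the first `a` entries and then all pairs. -/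
theorem good_of_pairs {G GP a n nG : ℕ} (h0 : ∀ i < a, Good (ngM G i) (ngV G i))
    (hG : ∀ t < n, Good2 (ngM GP t) (ngV GP t)) (hp : pairA G GP a n = true)
    (hn : a + 2 * n = nG) : ∀ i < nG, Good (ngM G i) (ngV G i) := by
  intro i hi
  rcases Nat.lt_or_ge i a with h | h
  · exact h0 i h
  · obtain ⟨h1, h2, h3, h4⟩ := pairA_spec hp ((i - a) / 2) (by omega)
    have hg := hG ((i - a) / 2) (by omega)
    rcases Nat.mod_two_eq_zero_or_one (i - a) with h5 | h5
    · have e : a + 2 * ((i - a) / 2) = i := by omega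
      rw [e] at h1 h2
      rw [h1, h2]
      exact hg.1
    · have e : a + 2 * ((i - a) / 2) + 1 = i := by omega
      rw [e] at h3 h4
      rw [h3, h4]
      exact hg.2

/-- **No bad configuration.** -/
theorem not_bad_final {G GP a n nG : ℕ} (hit : ∀ s, Hit G nG s)
    (h0 : ∀ i < a, Good (ngM G i) (ngV G i))
    (hG : ∀ t < n, Good2 (ngM GP t) (ngV GP t)) (hp : pairA G GP a n = true)
    (hn : a + 2 * n = nG) (v : Fin 12 → Fin 6 → ℝ) : ¬ Bad v :=
  not_bad_of_good hit (good_of_pairs h0 hG hp hn) v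

end Pool.Agent.H28.Z12
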