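import Mathlib
import Pool.Agent.H28.Z12.Asm
import Pool.Agent.H77.Z12.Overlap

/-!
Tables of refuted relative types and of excluded cells (MP_1e71f9_co).
-/

set_option autoImplicit false

namespace Pool.Agent.H28.Z12

open Finset Pool.Agent.H77.Z12 Pool.Agent.H13.Z12

/-- Code of a type. -/
def tcode (k a1 a2 b1 b2 : ℕ) : ℕ := (((k * 7 + a1) * 7 + a2) * 7 + b1) * 7 + b2

/-- All types with code in `R` are refuted. -/
def Ref (R : ℕ) : Prop := ∀ k a1 a2 b1 b2, k < 7 → a1 < 7 → a2 < 7 → b1 < 7 → b2 < 7 →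
  R.testBit (tcode k a1 a2 b1 b2) = true → NoType k a1 a2 b1 b2

theorem Ref.zero : Ref 0 := by
  intro k a1 a2 b1 b2 _ _ _ _ _ h
  simp at h

theorem tcode_inj {k a1 a2 b1 b2 k' a1' a2' b1' b2' : ℕ} (h1 : a1 < 7) (h2 : a2 < 7)
    (h3 : b1 < 7) (h4 : b2 < 7) (h1' : a1' < 7) (h2' : a2' < 7) (h3' : b1' < 7) (h4' : b2' < 7)
    (h : tcode k a1 a2 b1 b2 = tcode k' a1' a2' b1' b2') :
    k = k' ∧ a1 = a1' ∧ a2 = a2' ∧ b1 = b1' ∧ b2 = b2' := by
  unfold tcode at h
  omega

/-- The four codes of an orbit. -/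
def orbM (k a1 a2 b1 b2 : ℕ) : ℕ :=
  (2 ^ tcode k a1 a2 b1 b2 ||| 2 ^ tcode k (k - a1) (6 - k - a2) (6 - k - b1) (k - b2)) |||
  (2 ^ tcode k a1 b1 a2 b2 ||| 2 ^ tcode k (k - a1) (6 - k - b1) (6 - k - a2) (k - b2))

theorem Ref.add {R k a1 a2 b1 b2 : ℕ} (h : Ref R) (e0 : k ≤ 6) (e1 : a1 ≤ k) (e2 : a2 + k ≤ 6)
    (e3 : b1 + k ≤ 6) (e4 : b2 ≤ k) (ht : NoType k a1 a2 b1 b2) :
    Ref (R ||| orbM k a1 a2 b1 b2) := by
  intro k' a1' a2' b1' b2' l0 l1 l2 l3 l4 hb
  rw [Nat.testBit_or, Bool.or_eq_true] at hb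
  rcases hb with hb | hb
  · exact h _ _ _ _ _ l0 l1 l2 l3 l4 hb
  · unfold orbM at hb
    simp only [Nat.testBit_or, Bool.or_eq_true, Nat.testBit_two_pow, decide_eq_true_iff] at hb
    have hn := ht.neg e1 e2 e3 e4
    have hs := ht.swap
    have hns := hs.neg e1 e3 e2 e4
    rcases hb with (hb | hb) | (hb | hb)
    · obtain ⟨rfl, rfl, rfl, rfl, rfl⟩ := tcode_inj (by omega) (by omega) (by omega) (by omega)
        l1 l2 l3 l4 hb
      exact ht
    · obtain ⟨rfl, rfl, rfl, rfl, rfl⟩ := tcode_inj (by omega) (by omega) (by omega) (by omega)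
        l1 l2 l3 l4 hb
      exact hn
    · obtain ⟨rfl, rfl, rfl, rfl, rfl⟩ := tcode_inj (by omega) (by omega) (by omega) (by omega)
        l1 l2 l3 l4 hb
      exact hs
    · obtain ⟨rfl, rfl, rfl, rfl, rfl⟩ := tcode_inj (by omega) (by omega) (by omega) (by omega)
        l1 l2 l3 l4 hb
      exact hns

/-- A type as a record of numbers. -/
abbrev Ty5 := ℕ × ℕ × ℕ × ℕ × ℕ

/-- Admissible and refuted. -/
def OkT (x : Ty5) : Prop :=
  (decide (x.1 ≤ 6) && decide (x.2.1 ≤ x.1) && decide (x.2.2.1 + x.1 ≤ 6) &&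
    decide (x.2.2.2.1 + x.1 ≤ 6) && decide (x.2.2.2.2 ≤ x.1)) = true ∧
  NoType x.1 x.2.1 x.2.2.1 x.2.2.2.1 x.2.2.2.2

/-- Add the orbits of a list. -/
def foldM (L : List Ty5) (R : ℕ) : ℕ :=
  L.foldl (fun R x => R ||| orbM x.1 x.2.1 x.2.2.1 x.2.2.2.1 x.2.2.2.2) R

theorem Ref.fold (L : List Ty5) : ∀ R, Ref R → (∀ x ∈ L, OkT x) → Ref (foldM L R) := by
  induction L with
  | nil => intro R hR _; exact hR
  | cons x L ih =>
    intro R hR h
    have hx := h x List.mem_cons_self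
    refine ih _ ?_ fun y hy => h y (List.mem_cons_of_mem _ hy)
    have hc := hx.1
    simp only [Bool.and_eq_true, decide_eq_true_iff] at hc
    exact hR.add hc.1.1.1.1 hc.1.1.1.2 hc.1.1.2 hc.1.2 hc.2 hx.2

/-- No overlap from the table. -/
theorem noOverlap_of_ref {R k : ℕ} (hR : Ref R) (hk : k < 7)
    (h : ((List.range 7).all fun a1 => (List.range 7).all fun a2 => (List.range 7).all fun b1 =>
      (List.range 7).all fun b2 => !(decide (a1 ≤ k) && decide (a2 + k ≤ 6) &&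
        decide (b1 + k ≤ 6) && decide (b2 ≤ k)) || Nat.testBit R (tcode k a1 a2 b1 b2)) = true) :
    NoOverlap k := by
  refine NoOverlap.of_types fun a1 a2 b1 b2 e1 e2 e3 e4 => ?_
  have h' := list_range_all (list_range_all (list_range_all (list_range_all h a1 (by omega)) a2
    (by omega)) b1 (by omega)) b2 (by omega)
  refine hR k a1 a2 b1 b2 hk (by omega) (by omega) (by omega) (by omega) ?_
  simpa [e1, e2, e3, e4] using h'

/-- Complement of a mask when the flag is not set. -/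
def sel (x : Bool) (B : ℕ) : ℕ := @Bool.rec (fun _ => ℕ) (4095 ^^^ B) B x

theorem sel_bit {x : Bool} {B j : ℕ} (hj : j < 12) : (sel x B).testBit j = (B.testBit j == x) := by
  cases x
  · change (4095 ^^^ B).testBit j = _
    rw [compl_bit hj]
    cases B.testBit j <;> rfl
  · change B.testBit j = _
    cases B.testBit j <;> rfl

/-- Counts by masks. -/
theorem cnt_mask (B1 s1 B2 s2 : ℕ) (x y z : Bool) :
    cnt (toSet B1) (toSet B2) (fun j => s1.testBit j) (fun j => s2.testBit j) (x, y, z) =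
      pc ((sel x B1 &&& sel y B2) &&& sel z (4095 ^^^ (s1 ^^^ s2))) := by
  rw [← card_toSet]
  unfold cnt
  congr 1
  ext j
  rw [Finset.mem_filter, mem_toSet]
  simp only [Finset.mem_univ, true_and, lab, Prod.mk.injEq, mem_toSet, Nat.testBit_and,
    sel_bit j.2, compl_bit j.2, Nat.testBit_xor]
  cases B1.testBit j <;> cases B2.testBit j <;> cases s1.testBit j <;> cases s2.testBit j <;>
    cases x <;> cases y <;> cases z <;> simp

/-- Code of the relative type of two cells given by masks. -/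
def tyM (B1 s1 B2 s2 : ℕ) : ℕ :=
  tcode (pc (B1 &&& B2)) (pc ((sel true B1 &&& sel true B2) &&& sel false (4095 ^^^ (s1 ^^^ s2))))
    (pc ((sel true B1 &&& sel false B2) &&& sel false (4095 ^^^ (s1 ^^^ s2))))
    (pc ((sel false B1 &&& sel true B2) &&& sel false (4095 ^^^ (s1 ^^^ s2))))
    (pc ((sel false B1 &&& sel false B2) &&& sel false (4095 ^^^ (s1 ^^^ s2))))

theorem not_simp_of_ref {v : Fin 12 → Fin 6 → ℝ} (hb : Bad v) {R : ℕ} (hR : Ref R)
    {B1 s1 B s : ℕ} (h1 : pc B1 = 6) (hpc : pc B = 6) (hs1 : Simp (chiN v) B1 s1)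
    (hbit : R.testBit (tyM B1 s1 B s) = true) : ¬ Simp (chiN v) B s := by
  intro hs
  have g1 := sim_of_simp hb.1 h1 hs1
  have g2 := sim_of_simp hb.1 hpc hs
  obtain ⟨a1, a2, b1, b2, e1, e2, e3, e4, ht⟩ := exists_ty (fun j => s1.testBit j)
    (fun j => s.testBit j) (B1 := toSet B1) (B2 := toSet B) (by rw [card_toSet, h1])
    (by rw [card_toSet, hpc])
  have hk : (toSet B1 ∩ toSet B).card = pc (B1 &&& B) := by
    rw [← card_toSet]
    congr 1
    ext j
    rw [Finset.mem_inter, mem_toSet, mem_toSet, mem_toSet, Nat.testBit_and, Bool.and_eq_true]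
  rw [hk] at e1 e2 e3 e4 ht
  have ht' := ht
  unfold Ty at ht'
  obtain ⟨f1, -, f2, -, f3, -, f4, -⟩ := ht'
  rw [cnt_mask] at f1 f2 f3 f4
  have hcode : tyM B1 s1 B s = tcode (pc (B1 &&& B)) a1 a2 b1 b2 := by
    rw [tyM, f1, f2, f3, f4]
  rw [hcode] at hbit
  have hk6 : pc (B1 &&& B) < 7 := by
    rw [← hk]
    have := Finset.card_le_card (Finset.inter_subset_left (s₁ := toSet B1) (s₂ := toSet B))
    rw [card_toSet, h1] at this
    omega
  exact hR _ _ _ _ _ hk6 (by omega) (by omega) (by omega) (by omega) hbit v hb _ _ _ _ g1 g2 ht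

/-- Check of a table `N` of excluded cells against the table `P` of simplicial cells. -/
def nchk (R P m N mN : ℕ) : Bool :=
  (List.range mN).all fun j => (List.range m).any fun i =>
    Nat.testBit R (tyM (entB P i) (entS P i) (entB N j) (entS N j))

theorem hN_of_ref {v : Fin 12 → Fin 6 → ℝ} (hb : Bad v) {R P m N mN : ℕ} (hR : Ref R)
    (hP : ∀ j, Simp (chiN v) (entB P j) (entS P j))
    (hPc : ((List.range m).all fun i => Nat.beq (pc (entB P i)) 6) = true)
    (hN : N < 2 ^ (24 * mN)) (h : nchk R P m N mN = true) (j : ℕ) :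
    pc (entB N j) = 6 → ¬ Simp (chiN v) (entB N j) (entS N j) := by
  refine hN_of hN (fun j hj hpc => ?_) j
  have h1 := list_range_all h j hj
  obtain ⟨i, hi, hbit⟩ := List.any_eq_true.1 h1
  rw [List.mem_range] at hi
  exact not_simp_of_ref hb hR (Nat.eq_of_beq_eq_true (list_range_all hPc i hi)) hpc (hP i) hbit

end Pool.Agent.H28.Z12
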